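import Pool.Agent.W_448cl_h64.CnA
import Pool.Agent.W_448e_h97.EI

/-!
The counting theorem at the window j (MP_448cb3_co, case B): the charge of a component with two
stars.
-/

namespace Pool.Agent.GaussPoset.EK

set_option linter.unusedSectionVars false

open Finset Win St Polynomial Wd

universe u

variable {P : Type u} [Fintype P] [PartialOrder P] [DecidableEq P] {r i : ℕ}

variable {ι : Type*} [DecidableEq ι] {κ : P → ι}

variable {K : Finset P} {psi : P → P} {T : Finset P}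

variable {a : ι} {m : ℕ} {x : ℕ → P} {c : ℕ → ℤ} {β : ℤ} {e : P → ℕ}

/-- exactly one unmatched element with the sites `T`, of lower type -/
lemma Red.one_L (R : Red P i K psi) (hT : Df i T = 1) :
    ∃ k1, lev k1 = i + 1 ∧ ns i k1 = T ∧ ∀ k ∈ K, ns i k = T → k = k1 := by
  have h1 := R.fib T
  rw [hT, abs_one] at h1
  have h2 : (K.filter (fun x => ns i x = T)).card = 1 := by exact_mod_cast h1
  obtain ⟨k1, hk1⟩ := card_eq_one.1 h2
  have h3 := R.nL T
  rw [hT, max_eq_left (by norm_num)] at h3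
  have h4 : 0 < (K ∩ CoreC_L i T).card := by
    have : (K ∩ CoreC_L i T).card = 1 := by exact_mod_cast h3
    omega
  obtain ⟨k, hk⟩ := card_pos.1 h4
  rw [mem_inter, mem_CoreC_L] at hk
  obtain ⟨hkK, hkL, hkT⟩ := hk
  have h5 : k ∈ K.filter (fun x => ns i x = T) := mem_filter.2 ⟨hkK, by rw [ns_L hkL]; exact hkT⟩
  rw [hk1, mem_singleton] at h5
  refine ⟨k1, ?_, ?_, ?_⟩
  · rw [← h5]
    exact (mem_dbL.1 hkL).1
  · rw [← h5, ns_L hkL]
    exact hkT
  · intro k' hk' hns
    have h6 : k' ∈ K.filter (fun x => ns i x = T) := mem_filter.2 ⟨hk', hns⟩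
    rw [hk1, mem_singleton] at h6
    exact h6

/-- exactly one unmatched element with the sites `T`, of upper type -/
lemma Red.one_U (R : Red P i K psi) (hT : Df i T = -1) :
    ∃ k1, lev k1 + 1 = i ∧ ns i k1 = T ∧ ∀ k ∈ K, ns i k = T → k = k1 := by
  have h1 := R.fib T
  rw [hT, abs_neg, abs_one] at h1
  have h2 : (K.filter (fun x => ns i x = T)).card = 1 := by exact_mod_cast h1
  obtain ⟨k1, hk1⟩ := card_eq_one.1 h2
  have h3 := R.nU T
  rw [hT, neg_neg, max_eq_left (by norm_num)] at h3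
  have h4 : 0 < (K ∩ CoreC_U i T).card := by
    have : (K ∩ CoreC_U i T).card = 1 := by exact_mod_cast h3
    omega
  obtain ⟨k, hk⟩ := card_pos.1 h4
  rw [mem_inter, mem_CoreC_U] at hk
  obtain ⟨hkK, hkL, hkT⟩ := hk
  have h5 : k ∈ K.filter (fun x => ns i x = T) := mem_filter.2 ⟨hkK, by rw [ns_U hkL]; exact hkT⟩
  rw [hk1, mem_singleton] at h5
  refine ⟨k1, ?_, ?_, ?_⟩
  · rw [← h5]
    exact (mem_dbU.1 hkL).1
  · rw [← h5, ns_U hkL]
    exact hkT
  · intro k' hk' hns
    have h6 : k' ∈ K.filter (fun x => ns i x = T) := mem_filter.2 ⟨hk', hns⟩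
    rw [hk1, mem_singleton] at h6
    exact h6

/-- THE CHARGE OF A COMPONENT WITH TWO STARS is at most two -/
theorem Row.cap6 (W : Row i κ a m x c β) (R : Red P i K psi) (H : Gr P r) (hir : i ≤ r)
    (hq : K2.NoQ P (i + 2)) (hg : ∀ m, m + 1 = i → Win.Good P m) (hκ : Split (i + 1) κ)
    (hp : Pat6 m c β) (hd : Disjoint (AL i e) (AU i e)) : K2.Cap i κ K e a 2 := by
  have hpp := hp
  obtain ⟨h1, h2, c0, c1, c2, c3, h3⟩ := hp
  obtain ⟨k1, l1, n1, u1⟩ := R.one_L (T := {x 0, x 1}) (by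
    rw [W.df 0 1 (by omega) (by omega), if_pos rfl, c0])
  obtain ⟨k2, l2, n2, u2⟩ := R.one_U (T := {x 1, x 2}) (by
    rw [W.df 1 2 (by omega) (by omega), if_pos rfl, c1])
  obtain ⟨k3, l3, n3, u3⟩ := R.one_U (T := {x (m - 2), x (m - 1)}) (by
    rw [W.df (m - 2) (m - 1) (by omega) (by omega), if_pos (by omega), c2])
  obtain ⟨k4, l4, n4, u4⟩ := R.one_L (T := {x (m - 1), x m}) (by
    rw [W.df (m - 1) m (by omega) (by omega), if_pos (by omega), c3])
  refine K2.cap_two H hir hq hg hκ hd (k1 := k1) (k2 := k2) (k3 := k3) (k4 := k4) (c1 := x 1)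
    (c2 := x (m - 1)) ?_ ?_ ?_ ?_ ?_ ?_ ?_ ?_
  · intro k hk hka
    obtain ⟨p, q, h6, h7, h8, h9⟩ := W.pair R H hκ hk hka
    rcases h9 with ⟨h9, h10⟩ | ⟨_, _, _, h10⟩
    · have hp : p = 0 ∨ p = 1 ∨ p = m - 2 ∨ p = m - 1 := by
        by_contra h11
        exact h10 (h3 p (by omega) (by omega))
      subst h9
      rcases hp with hp | hp | hp | hp
      · subst hp
        exact Or.inl (u1 k hk h8)
      · subst hp
        exact Or.inr (Or.inl (u2 k hk h8))
      · subst hp
        rw [show m - 2 + 1 = m - 1 by omega] at h8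
        exact Or.inr (Or.inr (Or.inl (u3 k hk h8)))
      · subst hp
        rw [show m - 1 + 1 = m by omega] at h8
        exact Or.inr (Or.inr (Or.inr (u4 k hk h8)))
    · exact absurd h2 h10
  · rw [n1]; simp
  · rw [n2]; simp
  · rw [n3]; simp
  · rw [n4]; simp
  · intro h
    have := W.inj _ _ (by omega) (by omega) h
    omega
  · omega
  · omega

end Pool.Agent.GaussPoset.EK
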