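import Pool.Agent.W_448so_h63.DK

/-!
CLOSED PAIRS AT ENERGY SIX (MP_448cb3_co, G2): classification of the cores with a closed pair.
-/

set_option autoImplicit false

namespace Pool.Agent.GaussPoset.Win.So

set_option linter.unusedSectionVars false

open Finset I2

universe u

variable {P : Type u} [DecidableEq P] [Fintype P]
variable {c c' : P → Finset P} {e : P → ℕ} {t t' : P → ℕ} {V Sd Sd' : Finset P} {psi : P → P}

/-- the elements away from the window at `x` are the two elements of the closed pair -/
lemma pair_down (S : Side0 c c' t V Sd) {w w' x x' s : P} (T : SO.TD c t Sd w x x' s)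
    (T' : SO.TD c t Sd w' x x' s) (hww : w ≠ w') :
    c' x = {w, w'} ∧ c' x' = {w, w'} := by
  have m : ∀ {y : P}, y ∈ c w → y ∈ c w' → c' y = {w, w'} := by
    intro y h1 h2
    have h3 : ({w, w'} : Finset P) ⊆ c' y := by
      intro q hq
      rw [mem_insert, mem_singleton] at hq
      rcases hq with rfl | rfl
      · exact (S.dual _ _).1 h1
      · exact (S.dual _ _).1 h2
    symm
    apply Finset.eq_of_subset_of_card_le h3
    rw [card_pair hww]
    exact S.c2' y
  refine ⟨m ?_ ?_, m ?_ ?_⟩
  · rw [T.cw]; exact mem_insert_self _ _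
  · rw [T'.cw]; exact mem_insert_self _ _
  · rw [T.cw]; exact mem_insert_of_mem (mem_singleton_self _)
  · rw [T'.cw]; exact mem_insert_of_mem (mem_singleton_self _)

/-- a killer over a site which is also killed by another element -/
lemma gg_shared (S : Side0 c c' t V Sd) {z z' a : P} (hne : z ≠ z') (h1 : a ∈ kn c e z)
    (h2 : a ∈ kn c e z') : gg c c' e z ≤ 1 := by
  classical
  have h3 := not_mem_so S.dual hne h1 h2
  apply gg_le (by norm_num)
  have h4 : (so c c' e z).card + 1 ≤ (kn c e z).card := by
    have h5 : so c c' e z ⊆ (kn c e z).erase a := by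
      intro b hb
      rw [mem_erase]
      refine ⟨?_, so_sub_kn hb⟩
      rintro rfl
      exact h3 hb
    have h6 := card_le_card h5
    rw [card_erase_of_mem h1] at h6
    have h7 := card_pos.2 ⟨a, h1⟩
    omega
  unfold cc
  split_ifs with h
  · have := S.kn_le_one h
    omega
  · have := S.kn_le (e := e) z
    omega

/-- the excited elements of a core with a closed pair: all positive charges are at the closed pair,
or there is a reflection -/
theorem clo6_pos (W : SO.Two c c' t t' V Sd Sd' psi) (C : SO.Cfg c c' t t' V Sd Sd' psi e)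
    (hE : ∑ x, e x ≤ 6) {w w' x x' s : P} (T : SO.TD c t Sd w x x' s)
    (T' : SO.TD c t Sd w' x x' s) (hww : w ≠ w') (ew : 1 ≤ e w) (ew' : 1 ≤ e w') :
    SO.kS c c' V Sd e + SO.kS c' c V Sd' e ≤ 1 ∨
    (∃ p y, SO.Ref c c' t Sd psi e p y) ∨ (∃ p y, SO.Ref c' c t' Sd' psi e p y) ∨
    ((∀ q ∈ Sd, 0 < gg c c' e q → q ∈ ({w, w', x, x'} : Finset P)) ∧
      ∀ q ∈ Sd', ¬ 0 < gg c' c e q) := by
  have S := side0_of W.s1
  have S' := side0_of W.s2
  have sS : ∀ {x v : P}, x ∈ Sd → v ∈ Sd' → x ≠ v := by
    rintro x v h1 h2 rfl
    exact disjoint_left.1 W.d3 h1 h2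
  have mw := T.m
  have mw' := T'.m
  have tw := T.tw
  have tw' := T'.tw
  have cw := T.cw
  have cw' := T'.cw
  have xx' := T.ne
  have hx : x ∈ c w := by rw [cw]; exact mem_insert_self _ _
  have hx' : x' ∈ c w := by rw [cw]; exact mem_insert_of_mem (mem_singleton_self _)
  obtain ⟨mx, tx, ex⟩ := z_cov S C.adm1 mw (by omega) ew hx
  obtain ⟨mx', tx', ex'⟩ := z_cov S C.adm1 mw (by omega) ew hx'
  obtain ⟨dx, dx'⟩ := pair_down S T T' hww
  have n0 : [w, w', x, x'].Nodup := by
    simp only [List.nodup_cons, List.mem_cons, List.not_mem_nil, or_false, not_or, List.nodup_nil,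
      and_true, not_false_eq_true]
    and_intros
    all_goals first
      | assumption
      | (apply Ne.symm; assumption)
      | (intro hnd; subst hnd; omega)
  -- one further excited element
  have more : ∀ q, q ≠ w → q ≠ w' → q ≠ x → q ≠ x' → 1 ≤ e q → e q ≤ 2 := by
    intro q q1 q2 q3 q4 q5
    have n1 : [q, w, w', x, x'].Nodup := by
      rw [List.nodup_cons]
      refine ⟨?_, n0⟩
      simp only [List.mem_cons, List.not_mem_nil, or_false, not_or]
      exact ⟨q1, q2, q3, q4⟩
    have hT := tot (e := e) n1
    simp only [List.map_cons, List.sum_cons, List.map_nil, List.sum_nil] at hT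
    omega
  -- two further excited elements
  have more2 : ∀ q q', q ≠ w → q ≠ w' → q ≠ x → q ≠ x' → q' ≠ w → q' ≠ w' → q' ≠ x → q' ≠ x' →
      q ≠ q' → 1 ≤ e q → 1 ≤ e q' → e q = 1 ∧ e q' = 1 ∧
      ∀ z, 1 ≤ e z → z = q ∨ z = q' ∨ z = w ∨ z = w' ∨ z = x ∨ z = x' := by
    intro q q' q1 q2 q3 q4 r1 r2 r3 r4 hqq q5 r5
    have n1 : [q, q', w, w', x, x'].Nodup := by
      rw [List.nodup_cons, List.nodup_cons]
      refine ⟨?_, ?_, n0⟩
      · simp only [List.mem_cons, List.not_mem_nil, or_false, not_or]
        exact ⟨hqq, q1, q2, q3, q4⟩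
      · simp only [List.mem_cons, List.not_mem_nil, or_false, not_or]
        exact ⟨r1, r2, r3, r4⟩
    have hT := tot (e := e) n1
    simp only [List.map_cons, List.sum_cons, List.map_nil, List.sum_nil] at hT
    refine ⟨by omega, by omega, ?_⟩
    intro z hz
    have := tot_pos n1 hE (by
      simp only [List.map_cons, List.sum_cons, List.map_nil, List.sum_nil]
      omega) hz
    simpa only [List.mem_cons, List.not_mem_nil, or_false] using this
  by_cases hA : ∀ q ∈ Sd, 0 < gg c c' e q → q ∈ ({w, w', x, x'} : Finset P)
  · by_cases hB : ∀ q ∈ Sd', ¬ 0 < gg c' c e q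
    · exact Or.inr (Or.inr (Or.inr ⟨hA, hB⟩))
    · push Not at hB
      obtain ⟨q, mq, gq⟩ := hB
      obtain ⟨k1, k2⟩ := z_pos S' mq gq
      have eq := z_kl k2
      have tq := S'.t_le_of_kl C.adm2 (t' q) q mq k2 rfl
      have := S'.tS q mq
      have q1 := (sS mw mq).symm
      have q2 := (sS mw' mq).symm
      have q3 := (sS mx mq).symm
      have q4 := (sS mx' mq).symm
      have hq2 := more q q1 q2 q3 q4 eq
      by_cases tq2 : t' q = 2
      · exfalso
        obtain ⟨y, hy⟩ : (c' q).Nonempty := card_pos.1 (by omega)
        obtain ⟨my, ty, ey⟩ := z_cov S' C.adm2 mq (by omega) eq hy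
        have := more2 q y q1 q2 q3 q4 (sS mw my).symm (sS mw' my).symm (sS mx my).symm
          (sS mx' my).symm (by rintro rfl; omega) eq ey
        omega
      have tq1 : t' q = 1 := by omega
      rcases C.core2 q mq tq1 eq with ⟨z, hz, ez⟩ | ⟨h4, z, hz, ez⟩
      · obtain ⟨mz, tz, cz⟩ := z_chd S' (Or.inl mq) hz
        have hqz : q ≠ z := by rintro rfl; omega
        obtain ⟨-, -, m4⟩ := more2 q z q1 q2 q3 q4 (sS mw mz).symm (sS mw' mz).symm
          (sS mx mz).symm (sS mx' mz).symm hqz eq ez
        have m5 : ∀ b ∈ Sd', 1 ≤ e b → b = q ∨ b = z := by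
          intro b mb eb
          rcases m4 b eb with h5 | h5 | h5 | h5 | h5 | h5
          · exact Or.inl h5
          · exact Or.inr h5
          · exact absurd h5 (sS mw mb).symm
          · exact absurd h5 (sS mw' mb).symm
          · exact absurd h5 (sS mx mb).symm
          · exact absurd h5 (sS mx' mb).symm
        have hcz : c' z = {q} := by
          rw [eq_singleton_iff_unique_mem]
          refine ⟨cz, fun b hb => ?_⟩
          obtain ⟨mb, tb, eb⟩ := z_cov S' C.adm2 mz (by omega) ez hb
          rcases m5 b mb eb with h5 | h5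
          · exact h5
          · subst h5; omega
        have noV : ∀ v ∈ V, ¬ 1 ≤ e v := by
          intro v mv ev
          rcases m4 v ev with h5 | h5 | h5 | h5 | h5 | h5
          · rw [h5] at mv; exact disjoint_left.1 W.d2 mq mv
          · rw [h5] at mv; exact disjoint_left.1 W.d2 mz mv
          · rw [h5] at mv; exact disjoint_left.1 W.d1 mw mv
          · rw [h5] at mv; exact disjoint_left.1 W.d1 mw' mv
          · rw [h5] at mv; exact disjoint_left.1 W.d1 mx mv
          · rw [h5] at mv; exact disjoint_left.1 W.d1 mx' mv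
        obtain ⟨p1, p2, p3, p4⟩ := W.psi2 q mq tq1 k1
        -- the partner is not excited
        have hps : e (psi q) = 0 := by
          by_contra hne
          obtain ⟨v, hv⟩ : (c' q).Nonempty := card_pos.1 (by omega)
          have hv' : v ∈ c (psi q) := by rw [p3]; exact hv
          obtain ⟨mv, ev⟩ := not_both W C p1 p2 hv' hv
          exact noV v mv (by omega)
        refine Or.inr (Or.inr (Or.inl ⟨z, q, ⟨⟨mz, by omega, hcz, k1⟩, ez, hps, ?_, ?_⟩⟩))
        · intro b hb hbz
          by_contra hne
          obtain ⟨mb, tb, cb⟩ := z_chd S' (Or.inl mq) hb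
          rcases m5 b mb (by omega) with h5 | h5
          · subst h5; omega
          · exact hbz h5
        · intro b hb
          by_contra hne
          obtain ⟨mb, tb, cb⟩ := z_chd S' (Or.inl mz) hb
          rcases m5 b mb (by omega) with h5 | h5
          · subst h5; omega
          · subst h5; omega
      · left
        have := partner_main W.symm C.symm hE mq tq1 eq h4 hz ez
        omega
  · push Not at hA
    obtain ⟨q, mq, gq, hq⟩ := hA
    simp only [mem_insert, mem_singleton, not_or] at hq
    obtain ⟨q1, q2, q3, q4⟩ := hq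
    obtain ⟨k1, k2⟩ := z_pos S mq gq
    have eq := z_kl k2
    have tq := S.t_le_of_kl C.adm1 (t q) q mq k2 rfl
    have := S.tS q mq
    have hq2 := more q q1 q2 q3 q4 eq
    have nox : ∀ {z : P}, z ≠ w → z ≠ w' → x ∉ c z ∧ x' ∉ c z := by
      intro z h1 h2
      constructor
      · intro h3
        have h4 := (S.dual _ _).1 h3
        rw [dx, mem_insert, mem_singleton] at h4
        tauto
      · intro h3
        have h4 := (S.dual _ _).1 h3
        rw [dx', mem_insert, mem_singleton] at h4
        tauto
    by_cases tq2 : t q = 2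
    · exfalso
      obtain ⟨y, hy⟩ : (c q).Nonempty := card_pos.1 (by omega)
      obtain ⟨my, ty, ey⟩ := z_cov S C.adm1 mq (by omega) eq hy
      have y3 : y ≠ x := by rintro rfl; exact (nox q1 q2).1 hy
      have y4 : y ≠ x' := by rintro rfl; exact (nox q1 q2).2 hy
      have := more2 q y q1 q2 q3 q4 (by rintro rfl; omega) (by rintro rfl; omega) y3 y4
        (by rintro rfl; omega) eq ey
      omega
    have tq1 : t q = 1 := by omega
    rcases C.core1 q mq tq1 eq with ⟨z, hz, ez⟩ | ⟨h4, z, hz, ez⟩
    · obtain ⟨mz, tz, cz⟩ := z_chd S (Or.inl mq) hz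
      have z1 : z ≠ w := by
        rintro rfl
        rw [cw, mem_insert, mem_singleton] at cz
        tauto
      have z2 : z ≠ w' := by
        rintro rfl
        rw [cw', mem_insert, mem_singleton] at cz
        tauto
      have z3 : z ≠ x := by rintro rfl; omega
      have z4 : z ≠ x' := by rintro rfl; omega
      have hqz : q ≠ z := by rintro rfl; omega
      obtain ⟨-, -, m4⟩ := more2 q z q1 q2 q3 q4 z1 z2 z3 z4 hqz eq ez
      have hcz : c z = {q} := by
        rw [eq_singleton_iff_unique_mem]
        refine ⟨cz, fun b hb => ?_⟩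
        obtain ⟨mb, tb, eb⟩ := z_cov S C.adm1 mz (by omega) ez hb
        rcases m4 b eb with h5 | h5 | h5 | h5 | h5 | h5
        · exact h5
        · subst h5; omega
        · subst h5; omega
        · subst h5; omega
        · subst h5; exact absurd hb (nox z1 z2).1
        · subst h5; exact absurd hb (nox z1 z2).2
      obtain ⟨p1, p2, p3, p4⟩ := W.psi1 q mq tq1 k1
      refine Or.inr (Or.inl ⟨z, q, ⟨⟨mz, by omega, hcz, k1⟩, ez, ?_, ?_, ?_⟩⟩)
      · by_contra hne
        rcases m4 (psi q) (by omega) with h5 | h5 | h5 | h5 | h5 | h5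
        · exact sS mq p1 h5.symm
        · exact sS mz p1 h5.symm
        · exact sS mw p1 h5.symm
        · exact sS mw' p1 h5.symm
        · exact sS mx p1 h5.symm
        · exact sS mx' p1 h5.symm
      · intro b hb hbz
        by_contra hne
        obtain ⟨mb, tb, cb⟩ := z_chd S (Or.inl mq) hb
        rcases m4 b (by omega) with h5 | h5 | h5 | h5 | h5 | h5
        · subst h5; omega
        · exact hbz h5
        · subst h5
          rw [cw, mem_insert, mem_singleton] at cb
          tauto
        · subst h5
          rw [cw', mem_insert, mem_singleton] at cb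
          tauto
        · subst h5; omega
        · subst h5; omega
      · intro b hb
        by_contra hne
        obtain ⟨mb, tb, cb⟩ := z_chd S (Or.inl mz) hb
        rcases m4 b (by omega) with h5 | h5 | h5 | h5 | h5 | h5
        · subst h5; omega
        · subst h5; omega
        · subst h5; omega
        · subst h5; omega
        · subst h5; omega
        · subst h5; omega
    · left
      exact partner_main W C hE mq tq1 eq h4 hz ez

/-- CLASSIFICATION OF THE CORES WITH A CLOSED PAIR, energy at most six -/
theorem clo6 (W : SO.Two c c' t t' V Sd Sd' psi) (C : SO.Cfg c c' t t' V Sd Sd' psi e)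
    (hE : ∑ x, e x ≤ 6) {w w' x x' s : P} (T : SO.TD c t Sd w x x' s)
    (T' : SO.TD c t Sd w' x x' s) (hww : w ≠ w') (ew : 1 ≤ e w) (ew' : 1 ≤ e w') :
    SO.kS c c' V Sd e + SO.kS c' c V Sd' e ≤ 1 ∨
    (∃ p y, SO.Ref c c' t Sd psi e p y) ∨ (∃ p y, SO.Ref c' c t' Sd' psi e p y) ∨
    (SO.kS c c' V Sd e + SO.kS c' c V Sd' e ≤ 2 ∧
      (SO.Tog c c' t Sd psi e w x x' s ∨ (e w = 1 ∧ 2 ≤ e w' ∧ 1 ≤ e x ∧ 1 ≤ e x'))) := by
  by_cases hk : SO.kS c c' V Sd e + SO.kS c' c V Sd' e ≤ 1
  · exact Or.inl hk
  rcases clo6_pos W C hE T T' hww ew ew' with h | h | h | ⟨hA, hB⟩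
  · exact Or.inl h
  · exact Or.inr (Or.inl h)
  · exact Or.inr (Or.inr (Or.inl h))
  right; right; right
  have S := side0_of W.s1
  have S' := side0_of W.s2
  have mw := T.m
  have mw' := T'.m
  have tw := T.tw
  have tw' := T'.tw
  have cw := T.cw
  have cw' := T'.cw
  have xx' := T.ne
  have hx : x ∈ c w := by rw [cw]; exact mem_insert_self _ _
  have hx' : x' ∈ c w := by rw [cw]; exact mem_insert_of_mem (mem_singleton_self _)
  have hxw' : x ∈ c w' := by rw [cw']; exact mem_insert_self _ _
  have hxw'' : x' ∈ c w' := by rw [cw']; exact mem_insert_of_mem (mem_singleton_self _)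
  obtain ⟨mx, tx, ex⟩ := z_cov S C.adm1 mw (by omega) ew hx
  obtain ⟨mx', tx', ex'⟩ := z_cov S C.adm1 mw (by omega) ew hx'
  obtain ⟨dx, dx'⟩ := pair_down S T T' hww
  have ms : s ∈ V := by
    obtain ⟨k1, k2⟩ := S.cin x mx s T.sx
    rcases k1 with k1 | k1
    · have := S.tS s k1
      omega
    · exact k1
  have ts := S.tV s ms
  have n0 : [w, w', x, x'].Nodup := by
    simp only [List.nodup_cons, List.mem_cons, List.not_mem_nil, or_false, not_or, List.nodup_nil,
      and_true, not_false_eq_true]
    and_intros
    all_goals first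
      | assumption
      | (apply Ne.symm; assumption)
      | (intro hnd; subst hnd; omega)
  have hT := tot (e := e) n0
  simp only [List.map_cons, List.sum_cons, List.map_nil, List.sum_nil] at hT
  have g1 := z_kS (e := e) S C.adm1
  have g2 := z_kS (e := e) S' C.adm2
  have g3 := z_sum_zero (c := c') (c' := c) (e := e) (Sd := Sd') hB
  have g4 := z_sum_le (c := c) (c' := c') (e := e) (Sd := Sd) _ hA
  have hsum : ∑ z ∈ ({w, w', x, x'} : Finset P), gg c c' e z =
      gg c c' e w + gg c c' e w' + gg c c' e x + gg c c' e x' := by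
    simp only [List.nodup_cons, List.mem_cons, List.not_mem_nil, or_false, not_or, List.nodup_nil,
      and_true, not_false_eq_true] at n0
    rw [sum_insert, sum_insert, sum_pair xx']
    · ring
    · simp only [mem_insert, mem_singleton, not_or]
      exact n0.2.1
    · simp only [mem_insert, mem_singleton, not_or]
      exact n0.1
  rw [hsum] at g4
  have b1 : ∀ z : P, gg c c' e z ≤ 2 := fun z => gg_le (by norm_num) (S.cc_le_two z)
  -- an element of the pair with label one is no killer
  have nk : ∀ {z : P}, z ∈ Sd → t z = 2 → e z ≤ 1 → gg c c' e z = 0 := by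
    intro z mz tz hz
    apply gg_zero_of_not_kl
    intro hk
    have := S.t_le_of_kl C.adm1 (t z) z mz hk rfl
    omega
  -- admissibility at the two near elements
  have ad : ∀ {z : P}, z ∈ Sd → ∀ {d a : P}, d ∈ c' z → a ∈ c z → e z < e d → ¬ e z ≤ e a := by
    intro z mz d a hd ha h1 h2
    exact C.adm1 z mz ⟨⟨d, hd, h1⟩, a, ha, h2⟩
  have wx : w ∈ c' x := (S.dual _ _).1 hx
  have wx' : w ∈ c' x' := (S.dual _ _).1 hx'
  have w'x : w' ∈ c' x := (S.dual _ _).1 hxw'
  have w'x' : w' ∈ c' x' := (S.dual _ _).1 hxw''
  -- an excited site together with more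
  have five : ∀ {v : P}, v ∈ V → e w + e w' + e x + e x' + e v ≤ 6 := by
    intro v mv
    have tv := S.tV v mv
    have n1 : [v, w, w', x, x'].Nodup := by
      rw [List.nodup_cons]
      refine ⟨?_, n0⟩
      simp only [List.mem_cons, List.not_mem_nil, or_false, not_or]
      refine ⟨?_, ?_, ?_, ?_⟩ <;> rintro rfl <;> omega
    have hT := tot (e := e) n1
    simp only [List.map_cons, List.sum_cons, List.map_nil, List.sum_nil] at hT
    omega
  have six : ∀ {v v' : P}, v ∈ V → v' ∈ V → v ≠ v' → e w + e w' + e x + e x' + e v + e v' ≤ 6 := by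
    intro v v' mv mv' hne
    have tv := S.tV v mv
    have tv' := S.tV v' mv'
    have n1 : [v, v', w, w', x, x'].Nodup := by
      rw [List.nodup_cons, List.nodup_cons]
      refine ⟨?_, ?_, n0⟩
      · simp only [List.mem_cons, List.not_mem_nil, or_false, not_or]
        refine ⟨hne, ?_, ?_, ?_, ?_⟩ <;> rintro rfl <;> omega
      · simp only [List.mem_cons, List.not_mem_nil, or_false, not_or]
        refine ⟨?_, ?_, ?_, ?_⟩ <;> rintro rfl <;> omega
    have hT := tot (e := e) n1
    simp only [List.map_cons, List.sum_cons, List.map_nil, List.sum_nil] at hT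
    omega
  have siteV : ∀ {z v : P}, z ∈ Sd → t z = 1 → v ∈ c z → v ∈ V := by
    intro z v mz tz hv
    obtain ⟨k1, k2⟩ := S.cin z mz v hv
    rcases k1 with k1 | k1
    · have := S.tS v k1
      omega
    · exact k1
  -- both near elements with charge two: the site is not killed by both
  have both : gg c c' e x = 2 → gg c c' e x' = 2 → e x ≤ e s ∨ e x' ≤ e s := by
    intro h1 h2
    by_contra h3
    push Not at h3
    have h4 := gg_shared (c := c) (c' := c') (e := e) S xx' (a := s)
      (mem_kn.2 ⟨T.sx, h3.1⟩) (mem_kn.2 ⟨T.sx', h3.2⟩)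
    omega
  have hkp : SO.kS c c' V Sd e + SO.kS c' c V Sd' e ≤ 2 ∧
      (2 ≤ e w → 2 ≤ e w' → False) ∧
      (e w ≤ 1 → e w' ≤ 1 → gg c c' e x = 2 ∧ gg c c' e x' = 2) := by
    have hbx := b1 x
    have hbx' := b1 x'
    have hbw := b1 w
    have hbw' := b1 w'
    by_cases c1 : 2 ≤ e w
    · by_cases c2 : 2 ≤ e w'
      · exfalso
        have h1 : e w = 2 ∧ e w' = 2 ∧ e x = 1 ∧ e x' = 1 := by omega
        have z1 : gg c c' e w = 0 := by
          have h2 : gg c c' e w ≤ 0 := by
            apply gg_le le_rfl
            have k1 : kn c e w = {x, x'} := by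
              ext a
              rw [mem_kn, cw, mem_insert, mem_singleton]
              constructor
              · exact fun h => h.1
              · rintro (rfl | rfl)
                · exact ⟨Or.inl rfl, by omega⟩
                · exact ⟨Or.inr rfl, by omega⟩
            have k2 : so c c' e w = ∅ := by
              rw [eq_empty_iff_forall_notMem]
              intro a ha
              have h3 := so_sub_kn ha
              have h4 : a ∈ kn c e w' := by
                rw [k1, mem_insert, mem_singleton] at h3
                rw [mem_kn, cw', mem_insert, mem_singleton]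
                rcases h3 with rfl | rfl
                · exact ⟨Or.inl rfl, by omega⟩
                · exact ⟨Or.inr rfl, by omega⟩
              exact not_mem_so S.dual hww h3 h4 ha
            have k3 : ¬ gu c e w := by
              rintro ⟨a, ha, hle⟩
              rw [cw, mem_insert, mem_singleton] at ha
              rcases ha with rfl | rfl <;> omega
            unfold cc
            rw [k1, k2, card_pair xx', if_neg k3]
            simp
          have := gg_nonneg (c := c) (c' := c') (e := e) w
          omega
        have z2 : gg c c' e w' = 0 := by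
          have h2 : gg c c' e w' ≤ 0 := by
            apply gg_le le_rfl
            have k1 : kn c e w' = {x, x'} := by
              ext a
              rw [mem_kn, cw', mem_insert, mem_singleton]
              constructor
              · exact fun h => h.1
              · rintro (rfl | rfl)
                · exact ⟨Or.inl rfl, by omega⟩
                · exact ⟨Or.inr rfl, by omega⟩
            have k2 : so c c' e w' = ∅ := by
              rw [eq_empty_iff_forall_notMem]
              intro a ha
              have h3 := so_sub_kn ha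
              have h4 : a ∈ kn c e w := by
                rw [k1, mem_insert, mem_singleton] at h3
                rw [mem_kn, cw, mem_insert, mem_singleton]
                rcases h3 with rfl | rfl
                · exact ⟨Or.inl rfl, by omega⟩
                · exact ⟨Or.inr rfl, by omega⟩
              exact not_mem_so S.dual hww.symm h3 h4 ha
            have k3 : ¬ gu c e w' := by
              rintro ⟨a, ha, hle⟩
              rw [cw', mem_insert, mem_singleton] at ha
              rcases ha with rfl | rfl <;> omega
            unfold cc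
            rw [k1, k2, card_pair xx', if_neg k3]
            simp
          have := gg_nonneg (c := c) (c' := c') (e := e) w'
          omega
        have hs0 : e s = 0 := by
          have := five ms
          omega
        have h4 := gg_shared (c := c) (c' := c') (e := e) S xx' (a := s)
          (mem_kn.2 ⟨T.sx, by omega⟩) (mem_kn.2 ⟨T.sx', by omega⟩)
        have h5 := gg_shared (c := c) (c' := c') (e := e) S xx'.symm (a := s)
          (mem_kn.2 ⟨T.sx', by omega⟩) (mem_kn.2 ⟨T.sx, by omega⟩)
        omega
      · have z2 := nk mw' tw' (by omega)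
        refine ⟨?_, fun _ h => absurd h c2, fun h => absurd c1 (by omega)⟩
        by_contra hc
        have h1 : gg c c' e x = 2 ∧ gg c c' e x' = 2 := by omega
        have h2 := five ms
        rcases both h1.1 h1.2 with h3 | h3
        · exact ad mx wx T.sx (by omega) (by omega)
        · exact ad mx' wx' T.sx' (by omega) (by omega)
    · by_cases c2 : 2 ≤ e w'
      · have z1 := nk mw tw (by omega)
        refine ⟨?_, fun h => absurd h c1, fun _ h => absurd c2 (by omega)⟩
        by_contra hc
        have h1 : gg c c' e x = 2 ∧ gg c c' e x' = 2 := by omega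
        have h2 := five ms
        rcases both h1.1 h1.2 with h3 | h3
        · exact ad mx w'x T.sx (by omega) (by omega)
        · exact ad mx' w'x' T.sx' (by omega) (by omega)
      · have z1 := nk mw tw (by omega)
        have z2 := nk mw' tw' (by omega)
        refine ⟨by omega, fun h => absurd h c1, fun _ _ => by omega⟩
  obtain ⟨kp2, hcc, hgg⟩ := hkp
  refine ⟨kp2, ?_⟩
  by_cases c2 : 2 ≤ e w'
  · right
    refine ⟨?_, c2, ex, ex'⟩
    by_contra h
    exact hcc (by omega) c2
  left
  have ew'1 : e w' = 1 := by omega
  have hfs := five ms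
  have key : (min (e x) (e x') < e w ∧ e s < min (e x) (e x')) ∨
      (e w ≤ min (e x) (e x') ∧ min (e x) (e x') ≤ e s) := by
    by_cases c1 : 2 ≤ e w
    · left
      refine ⟨by omega, ?_⟩
      by_contra h
      have h1 : e x = 1 ∧ e x' = 1 ∧ e s = 1 ∧ e w = 2 := by omega
      exact ad mx wx T.sx (by omega) (by omega)
    · right
      have h1 := hgg (by omega) (by omega)
      have := both h1.1 h1.2
      omega
  -- the sites away from `s`
  have hv : ∀ {y : P}, y ∈ Sd → t y = 1 → w ∈ c' y → w' ∈ c' y → s ∈ c y → y = x ∨ y = x' →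
      e y < max (e w) (e s + 1) → ∀ v ∈ c y, v ≠ s → e v < e y := by
    intro y my ty hwy hwy' hsy hyx hlt v hvy hvs
    by_contra hc
    have mv := siteV my ty hvy
    by_cases c1 : e y < e w
    · exact ad my hwy hvy c1 (by omega)
    · have h1 := six mv ms hvs
      have h2 : 1 ≤ e y := by rcases hyx with rfl | rfl <;> assumption
      have h3 : e y ≤ e s := by omega
      have h4 := hgg (by omega) (by omega)
      have h5 : ¬ kl c e y := by
        rintro ⟨a, ha, hlt'⟩
        have h6 : (c y).card = 2 := by rcases hyx with rfl | rfl <;> [exact T.cx; exact T.cx']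
        have h7 : c y = {v, s} := by
          symm
          apply Finset.eq_of_subset_of_card_le
          · intro b hb
            rw [mem_insert, mem_singleton] at hb
            rcases hb with rfl | rfl <;> assumption
          · rw [card_pair hvs, h6]
        rw [h7, mem_insert, mem_singleton] at ha
        rcases ha with rfl | rfl <;> omega
      have h8 := gg_zero_of_not_kl (c' := c') h5
      rcases hyx with rfl | rfl <;> omega
  have ps : ∀ {y : P}, y ∈ Sd → t y = 1 → (c y).card = 2 → y = x ∨ y = x' → e (psi y) = 0 := by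
    intro y my ty hc hyx
    by_contra hne
    obtain ⟨p1, p2, p3, p4⟩ := W.psi1 y my ty hc
    obtain ⟨a, b, hab, hcy⟩ := card_eq_two.1 hc
    have h2 : 1 ≤ e y := by rcases hyx with rfl | rfl <;> assumption
    have ha : a ∈ c y := by rw [hcy]; exact mem_insert_self _ _
    have hb : b ∈ c y := by rw [hcy]; exact mem_insert_of_mem (mem_singleton_self _)
    obtain ⟨ma, ha'⟩ := not_both W C my ty ha (v := psi y) (by rw [p3]; exact ha)
    obtain ⟨mb, hb'⟩ := not_both W C my ty hb (v := psi y) (by rw [p3]; exact hb)
    have m1 : psi y ≠ a := by rintro rfl; exact disjoint_left.1 W.d2 p1 ma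
    have m2 : psi y ≠ b := by rintro rfl; exact disjoint_left.1 W.d2 p1 mb
    have ta := S.tV a ma
    have tb := S.tV b mb
    have sS : ∀ {z : P}, z ∈ Sd → psi y ≠ z := by
      rintro z h1 rfl
      exact disjoint_left.1 W.d3 h1 p1
    have n1 : [psi y, a, b, w, w', x, x'].Nodup := by
      rw [List.nodup_cons, List.nodup_cons, List.nodup_cons]
      refine ⟨?_, ?_, ?_, n0⟩
      · simp only [List.mem_cons, List.not_mem_nil, or_false, not_or]
        exact ⟨m1, m2, sS mw, sS mw', sS mx, sS mx'⟩
      · simp only [List.mem_cons, List.not_mem_nil, or_false, not_or]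
        refine ⟨hab, ?_, ?_, ?_, ?_⟩ <;> rintro rfl <;> omega
      · simp only [List.mem_cons, List.not_mem_nil, or_false, not_or]
        refine ⟨?_, ?_, ?_, ?_⟩ <;> rintro rfl <;> omega
    have hT := tot (e := e) n1
    simp only [List.map_cons, List.sum_cons, List.map_nil, List.sum_nil] at hT
    omega
  refine ⟨T, ew, ex, ex', key, ps mx (by omega) T.cx (Or.inl rfl),
    ps mx' (by omega) T.cx' (Or.inr rfl), ?_, ?_, ?_, ?_, ?_⟩
  · -- children of `w`
    intro z hz
    obtain ⟨mz, tz, cz⟩ := z_chd S (Or.inl mw) hz
    by_contra hc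
    have n1 : [z, w, w', x, x'].Nodup := by
      rw [List.nodup_cons]
      refine ⟨?_, n0⟩
      simp only [List.mem_cons, List.not_mem_nil, or_false, not_or]
      refine ⟨?_, ?_, ?_, ?_⟩ <;> rintro rfl <;> omega
    have hT := tot (e := e) n1
    simp only [List.map_cons, List.sum_cons, List.map_nil, List.sum_nil] at hT
    have h1 : e z = 2 ∧ e w = 1 ∧ e x = 1 := by omega
    exact ad mw hz hx (by omega) (by omega)
  · exact hv mx (by omega) wx w'x T.sx (Or.inl rfl)
  · exact hv mx' (by omega) wx' w'x' T.sx' (Or.inr rfl)
  · intro z hz hzw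
    rw [dx, mem_insert, mem_singleton] at hz
    rcases hz with rfl | rfl
    · exact absurd rfl hzw
    · omega
  · intro z hz hzw
    rw [dx', mem_insert, mem_singleton] at hz
    rcases hz with rfl | rfl
    · exact absurd rfl hzw
    · omega

end Pool.Agent.GaussPoset.Win.So
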