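import Pool.Agent.W_448cl_h64.ClA
import Pool.Agent.W_448xc_h84.XgE
import Pool.Agent.W_448so_h64.SoR
import Pool.Agent.W_448so_h17.AsF

/-!
CLOSED PAIRS AT ENERGY SIX (MP_448cb3_co, G2): the classification for the cores of a part.
-/

set_option autoImplicit false

namespace Pool.Agent.GaussPoset.Win.SO

set_option linter.unusedSectionVars false

open Finset
open Pool.Agent.GaussPoset.Win.I2 (lS uS mem_lS mem_uS side0_low)
open Pool.Agent.GaussPoset.Win.So (TogL TogU RefL RefU RefD TgP)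
open Pool.Agent.GaussPoset.Win.Xg (CanD Can Tee Exo SdO Act laL laU rk rk_inj)

universe u

variable {P : Type u} [Fintype P] [PartialOrder P] [DecidableEq P] {r i : ℕ} {psi : P → P}
  {e : P → ℕ} {C : Finset P}

/-- closed pairs below the window are allowed, no flip: the case of energy six -/
structure PS7 (r i : ℕ) (psi : P → P) (C : Finset P) : Prop extends PSO r i psi C where
  ncu : ∀ w ∈ C, ∀ w' ∈ C, ∀ x x' : P, lev w + 2 = i → x ≠ x' → dc w = {x, x'} →
    dc w' = {x, x'} → (dc x).card = 2 → (dc x').card = 2 → w = w'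
  mtL : ∀ p ∈ C, p ∈ PD P i → ∃ y, uc p = {y} ∧ ∃ p' ∈ C, p' ∈ PU P i ∧ dc p' = {psi y}
  mtU : ∀ p' ∈ C, p' ∈ PU P i → ∃ u, dc p' = {u} ∧ ∃ p ∈ C, p ∈ PD P i ∧ uc p = {psi u}

lemma PS6.toPS7 (Q : PS6 r i psi C) : PS7 r i psi C := ⟨Q.toPSO, Q.ncu, Q.mtL, Q.mtU⟩

lemma PS7.noCloU (Q : PS7 r i psi C) (hs : Spt C e) : ¬ Clo dc (tU (P := P) i) (uS P i) e := by
  rintro ⟨w, w', x, x', h1, h2, h3, h4, h5, h6, h7, h8, h9, h10, h11, h12⟩
  rw [mem_uS] at h1
  unfold tU at h3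
  exact h5 (Q.ncu w (mem_of_spt hs h11) w' (mem_of_spt hs h12) x x' (by omega) h6 h7 h8 h9 h10)

lemma PS7.noFlip (Q : PS7 r i psi C) (hs : Spt C e) {p y p' u : P}
    (h : Pen uc (tL (P := P) i) (lS P i) p y) (h' : Pen dc (tU (P := P) i) (uS P i) p' u)
    (h1 : 0 < e p) (h1' : 0 < e p') : u = psi y := by
  obtain ⟨g1, g2, g3, g4, g5⟩ := pen_low Q.H h
  obtain ⟨k1, k2, k3, k4, k5⟩ := pen_up Q.H h'
  obtain ⟨y1, hy1, p1, hp1, hp1', hd⟩ := Q.mtL p (mem_of_spt hs h1) g1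
  have e1 : y1 = y := by
    rw [g4, singleton_inj] at hy1
    exact hy1.symm
  subst e1
  have e2 := Q.pu p1 hp1 p' (mem_of_spt hs h1') hp1' k1
  subst e2
  rw [k4, singleton_inj] at hd
  exact hd

theorem PS7.refD (Q : PS7 r i psi C) {p y : P} (hp : p ∈ C) (hpd : p ∈ PD P i)
    (hy : uc p = {y}) : ∃ p' ∈ C, RefD r i y p (psi y) p' := by
  classical
  obtain ⟨y1, hy1, p', hp', hpu, hd⟩ := Q.mtL p hp hpd
  have e1 : y1 = y := by
    rw [hy, singleton_inj] at hy1
    exact hy1.symm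
  subst e1
  obtain ⟨hl, -, y2, hy2, hc⟩ := mem_PD.1 hpd
  have e2 : y2 = y1 := by
    have := mem_uc.2 hy2
    rw [hy, mem_singleton] at this
    exact this
  subst e2
  have hly := lev_uc Q.H (mem_uc.2 hy2)
  have hdb : y2 ∈ dbL P i := by unfold dbL; rw [mem_filter]; exact ⟨mem_univ _, by omega, hc⟩
  obtain ⟨g1, g2⟩ := Q.hM.low y2 hdb (by simp)
  unfold dbU at g1
  rw [mem_filter] at g1
  have := Q.hi2
  exact ⟨p', hp', ⟨by omega, g1.2.1, by omega, hy, hd, g2, hc⟩⟩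

theorem PS7.refD' (Q : PS7 r i psi C) {p' u : P} (hp : p' ∈ C) (hpd : p' ∈ PU P i)
    (hu : dc p' = {u}) : ∃ p ∈ C, RefD r i (psi u) p u p' := by
  classical
  obtain ⟨y1, hy1, p, hp1, hpu, hd⟩ := Q.mtU p' hp hpd
  have e1 : y1 = u := by
    rw [hu, singleton_inj] at hy1
    exact hy1.symm
  subst e1
  obtain ⟨hl, -, y2, hy2, hc⟩ := mem_PU.1 hpd
  have e2 : y2 = y1 := by
    have := mem_dc.2 hy2
    rw [hu, mem_singleton] at this
    exact this
  subst e2
  have hly := lev_dc Q.H (mem_dc.2 hy2)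
  have hdb : y2 ∈ dbU P i := by unfold dbU; rw [mem_filter]; exact ⟨mem_univ _, by omega, hc⟩
  obtain ⟨g1, g2⟩ := Q.hM.upp y2 hdb (by simp)
  unfold dbL at g1
  rw [mem_filter] at g1
  have := Q.hi2
  exact ⟨p, hp1, ⟨g1.2.1, by omega, by omega, hd, hu, g2.symm, g1.2.2⟩⟩

/-- a toggle at the first of the elements over the two doubles is an exchange -/
theorem canD_of_togL {w x x' a s b : P} (T : TogL i e w x x' a s b) (hab : a ≠ b)
    (hr : ∀ d', uc d' = {x, x'} → rk d' < rk w → e d' = 0) : CanD i e w s := by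
  left
  refine ⟨x, x', a, b, ⟨?_, T.uw, T.ux, T.ux', T.ds, T.xx', T.as, T.sc, hab⟩, ?_, hr⟩
  · have := T.lw
    unfold laL
    omega
  · refine ⟨T.hw, ?_, ?_, ?_, ?_, ?_⟩
    · intro t ht
      exact T.cw t (mem_dc.1 ht)
    · intro u hu
      have h1 := T.us u (mem_uc.1 hu)
      have h2 := T.hw
      omega
    · by_cases h : e x < e w ∨ e x < e s + 1
      · exact Or.inr ⟨fun d' hd' hne => T.dx d' (mem_dc.1 hd') hne, T.ca h⟩
      · exact Or.inl (by omega)
    · by_cases h : e x' < e w ∨ e x' < e s + 1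
      · exact Or.inr ⟨fun d' hd' hne => T.dx' d' (mem_dc.1 hd') hne, T.cc h⟩
      · exact Or.inl (by omega)
    · have h1 := T.st
      unfold Act
      omega

/-- the type of the labellings over a closed pair which are not exchanged: the first element of the
pair has label one, the second at least two -/
def LA (i : ℕ) (e : P → ℕ) : Prop :=
  ∃ w w' x x' s, TD uc (tL (P := P) i) (lS P i) w x x' s ∧
    TD uc (tL (P := P) i) (lS P i) w' x x' s ∧ rk w < rk w' ∧
    1 ≤ e w ∧ 2 ≤ e w' ∧ 1 ≤ e x ∧ 1 ≤ e x'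

/-- the reflection class of a part -/
def RfC (r i : ℕ) (psi : P → P) (C : Finset P) (e : P → ℕ) : Prop :=
  ∃ y p u p', p ∈ C ∧ p' ∈ C ∧ psi y = u ∧ RefD r i y p u p' ∧
    (RefL e y p u p' ∨ RefU e y p u p')

/-- the data of a closed pair -/
lemma clo_td (Q : PSO r i psi C) (hA : AdmL i e)
    (h : Clo uc (tL (P := P) i) (lS P i) e) : ∃ w w' x x' s,
    TD uc (tL (P := P) i) (lS P i) w x x' s ∧ TD uc (tL (P := P) i) (lS P i) w' x x' s ∧
      rk w < rk w' ∧ 1 ≤ e w ∧ 1 ≤ e w' := by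
  obtain ⟨w, w', x, x', mw, mw', tw, tw', hww, xx', cw, cw', c2, c2', ew, ew'⟩ := h
  have hx : x ∈ uc w := by rw [cw]; exact mem_insert_self _ _
  have hx' : x' ∈ uc w := by rw [cw]; exact mem_insert_of_mem (mem_singleton_self _)
  obtain ⟨s, hs⟩ : ∃ s, uc x ∩ uc x' = {s} := by
    rcases Q.nlL w mw tw x hx x' hx' xx' with h1 | h1
    · exact card_eq_one.1 h1
    · omega
  have hs1 : s ∈ uc x ∩ uc x' := by rw [hs]; exact mem_singleton_self _
  rw [mem_inter] at hs1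
  have only : ∀ v, v ∈ uc x → v ∈ uc x' → v = s := by
    intro v h1 h2
    have : v ∈ uc x ∩ uc x' := mem_inter.2 ⟨h1, h2⟩
    rwa [hs, mem_singleton] at this
  have T : TD uc (tL (P := P) i) (lS P i) w x x' s :=
    ⟨mw, tw, cw, xx', c2, c2', hs1.1, hs1.2, only⟩
  have T' : TD uc (tL (P := P) i) (lS P i) w' x x' s :=
    ⟨mw', tw', cw', xx', c2, c2', hs1.1, hs1.2, only⟩
  rcases Nat.lt_trichotomy (rk w) (rk w') with h1 | h1 | h1
  · exact ⟨w, w', x, x', s, T, T', h1, ew, ew'⟩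
  · exact absurd (rk_inj h1) hww
  · exact ⟨w', w, x, x', s, T', T, h1, ew', ew⟩

/-- the lower covers of the doubles of a closed pair -/
lemma pair_dc (H : Gr P r) {w w' x x' s : P} (T : TD uc (tL (P := P) i) (lS P i) w x x' s)
    (T' : TD uc (tL (P := P) i) (lS P i) w' x x' s) (hne : w ≠ w') :
    dc x = {w, w'} ∧ dc x' = {w, w'} :=
  So.pair_down (side0_low H i) T T' hne

lemma rk_ne {w w' : P} (h : rk w < rk w') : w ≠ w' := by
  rintro rfl
  omega

lemma pair_first (H : Gr P r) {w w' x x' s : P} (T : TD uc (tL (P := P) i) (lS P i) w x x' s)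
    (T' : TD uc (tL (P := P) i) (lS P i) w' x x' s) (hr : rk w < rk w') {d : P}
    (hd : uc d = {x, x'}) : d = w ∨ d = w' := by
  have h1 : d ∈ dc x := by
    rw [mem_dc, ← mem_uc, hd]
    exact mem_insert_self _ _
  rw [(pair_dc H T T' (rk_ne hr)).1, mem_insert, mem_singleton] at h1
  exact h1

/-- reflections of the abstract setting -/
lemma PS7.ref_of (Q : PS7 r i psi C) (hs : Spt C e) (hA : AdmL i e) (hB : AdmU i e)
    (h : (∃ p y, Ref uc dc (tL (P := P) i) (lS P i) psi e p y) ∨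
      ∃ p y, Ref dc uc (tU (P := P) i) (uS P i) psi e p y) : RfC r i psi C e := by
  classical
  have hi2 := Q.hi2
  rcases h with ⟨p, y, R⟩ | ⟨p', u, R⟩
  · obtain ⟨g1, g2, g3, g4, g5⟩ := pen_low Q.H R.pen
    have hpC := mem_of_spt hs (show 0 < e p by have := R.p1; omega)
    obtain ⟨p', hp', D⟩ := Q.refD hpC g1 g4
    refine ⟨y, p, psi y, p', hpC, hp', rfl, D, Or.inl ?_⟩
    exact RefL.mk' Q.H D (by omega) hA hB R.p1 R.u0 (fun z hz hzp => R.dy z (mem_dc.2 hz) hzp)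
      (fun z hz => R.dp z (mem_dc.2 hz))
  · obtain ⟨g1, g2, g3, g4, g5⟩ := pen_up Q.H R.pen
    have hpC := mem_of_spt hs (show 0 < e p' by have := R.p1; omega)
    obtain ⟨p, hp, D⟩ := Q.refD' hpC g1 g4
    have hdb : u ∈ dbU P i := by unfold dbU; rw [mem_filter]; exact ⟨mem_univ _, g3, g5⟩
    refine ⟨psi u, p, u, p', hp, hpC, (Q.hM.invol u (mem_union_right _ hdb) (by simp)).1, D,
      Or.inr ?_⟩
    exact RefU.mk' Q.H D (by omega) hA hB R.p1 R.u0 (fun z hz hzp => R.dy z (mem_uc.2 hz) hzp)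
      (fun z hz => R.dp z (mem_uc.2 hz))

/-- four elements -/
lemma four_sum {a b c d : P} (h : [a, b, c, d].Nodup) : e a + e b + e c + e d ≤ ∑ x, e x := by
  have hT := So.tot (e := e) h
  simp only [List.map_cons, List.sum_cons, List.map_nil, List.sum_nil] at hT
  omega

lemma pair_nodup (H : Gr P r) {w w' x x' s : P} (T : TD uc (tL (P := P) i) (lS P i) w x x' s)
    (T' : TD uc (tL (P := P) i) (lS P i) w' x x' s) (hne : w ≠ w') :
    [w, w', x, x'].Nodup ∧ [s, w, w', x, x'].Nodup := by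
  have lw := T.lw
  have lw' := T'.lw
  obtain ⟨lx, lx'⟩ := T.lx H
  have ls := T.site H (mem_union_left _ T.sx)
  have xx' := T.ne
  have n0 : [w, w', x, x'].Nodup := by
    simp only [List.nodup_cons, List.mem_cons, List.not_mem_nil, or_false, not_or, List.nodup_nil,
      and_true, not_false_eq_true]
    and_intros
    all_goals first
      | assumption
      | (apply Ne.symm; assumption)
      | (intro hnd; subst hnd; omega)
  refine ⟨n0, ?_⟩
  rw [List.nodup_cons]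
  refine ⟨?_, n0⟩
  simp only [List.mem_cons, List.not_mem_nil, or_false, not_or]
  refine ⟨?_, ?_, ?_, ?_⟩ <;> rintro rfl <;> omega

/-- CLASSIFICATION for the cores of a part with closed pairs, energy at most six -/
theorem PS7.cls (Q : PS7 r i psi C) (hs : Spt C e) (hc : IsCore i ∅ psi e) (hE : ∑ x, e x ≤ 6) :
    Cheap 1 i e ∨
    (¬ Clo uc (tL (P := P) i) (lS P i) e ∧ Cheap 2 i e ∧ ∃ w s, TgP i e w s) ∨
    RfC r i psi C e ∨
    (¬ Clo uc (tL (P := P) i) (lS P i) e ∧ AdmL i e ∧ AdmU i e ∧ Disjoint (AL i e) (AU i e) ∧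
      LO6 uc dc (tL (P := P) i) (tU i) (lS P i) (uS P i) e) ∨
    (Clo uc (tL (P := P) i) (lS P i) e ∧ AdmL i e ∧ AdmU i e ∧ Cheap 2 i e ∧ 5 ≤ ∑ x, e x ∧
      ((∃ d x, CanD i e d x) ∨ LA i e)) := by
  classical
  by_cases hA : AdmL i e
  swap
  · exact Or.inl (Or.inl hA)
  by_cases hB : AdmU i e
  swap
  · exact Or.inl (Or.inr (Or.inl hB))
  by_cases hd : Disjoint (AL i e) (AU i e)
  swap
  · exact Or.inl (Or.inr (Or.inr (Or.inl hd)))
  have hir := Q.hi2
  have hcf := cfg_of Q.H Q.hi2 Q.hM hc hA hB hd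
  by_cases hK : Clo uc (tL (P := P) i) (lS P i) e
  · obtain ⟨w, w', x, x', s, T, T', hr, ew, ew'⟩ := clo_td Q.toPSO hA hK
    rcases So.clo6 Q.two hcf hE T T' (rk_ne hr) ew ew' with h | h | h | ⟨h, h'⟩
    · exact Or.inl (cheap_of h)
    · exact Or.inr (Or.inr (Or.inl (Q.ref_of hs hA hB (Or.inl h))))
    · exact Or.inr (Or.inr (Or.inl (Q.ref_of hs hA hB (Or.inr h))))
    · right; right; right; right
      refine ⟨hK, hA, hB, cheap_of h, ?_⟩
      obtain ⟨n0, n1⟩ := pair_nodup Q.H T T' (rk_ne hr)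
      have hT := four_sum (e := e) n0
      rcases h' with h' | ⟨g1, g2, g3, g4⟩
      · have hT5 := So.tot (e := e) n1
        simp only [List.map_cons, List.sum_cons, List.map_nil, List.sum_nil] at hT5
        have hst := h'.st
        have hx1 := h'.x1
        have hx1' := h'.x1'
        refine ⟨by omega, Or.inl ?_⟩
        obtain ⟨a, b, h1, h2⟩ := togL_of Q.H Q.hM h'
        refine ⟨w, s, canD_of_togL h1 h2 ?_⟩
        intro d hd hlt
        rcases pair_first Q.H T T' hr hd with rfl | rfl <;> omega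
      · exact ⟨by omega, Or.inr ⟨w, w', x, x', s, T, T', hr, ew, g2, g3, g4⟩⟩
  · rcases classify Q.two hcf (Q.pdx hs) (Q.pux hs) hE with
      h | h | h | h | h | h | h
    · exact Or.inl (cheap_of h)
    · exact absurd h hK
    · exact absurd h (Q.noCloU hs)
    · obtain ⟨p, y, p', u, h1, h2, h3, h4, h5⟩ := h
      exact absurd (Q.noFlip hs h1 h2 h3 h4) h5
    · right; left
      refine ⟨hK, cheap_of h.1, ?_⟩
      rcases h.2 with ⟨w, x, x', s, T⟩ | ⟨w, x, x', s, T⟩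
      · obtain ⟨a, b, h1, h2⟩ := togL_of Q.H Q.hM T
        exact ⟨w, s, Or.inl ⟨x, x', a, b, h1, h2⟩⟩
      · obtain ⟨a, b, h1, h2⟩ := togU_of Q.H Q.hM T
        exact ⟨w, s, Or.inr ⟨x, x', a, b, h1, h2⟩⟩
    · exact Or.inr (Or.inr (Or.inl (Q.ref_of hs hA hB h.1)))
    · right; right; right; left
      exact ⟨hK, hA, hB, hd, h⟩

end Pool.Agent.GaussPoset.Win.SO
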