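import Pool.Agent.W_448cl_h64.ClB

/-!
CLOSED PAIRS AT ENERGY SIX (MP_448cb3_co, G2): the explicit list of energy six has no closed pair.
-/

set_option autoImplicit false

namespace Pool.Agent.GaussPoset.Win.SO

set_option linter.unusedSectionVars false

open Finset

universe u

section abstract

variable {P : Type u} [Fintype P] [DecidableEq P]
variable {c c' : P → Finset P} {t t' : P → ℕ} {V Sd Sd' : Finset P} {psi : P → P} {e : P → ℕ}
variable {w x x' s w' y y' s' z p : P}

/-- at most one excited element at distance two with two covers -/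
lemma noClo_one (h : ∀ q ∈ Sd, t q = 2 → 0 < e q → (c q).card = 2 → q = w) : ¬ Clo c t Sd e := by
  rintro ⟨w1, w2, a, b, m1, m2, t1, t2, hne, hab, c1, c2, -, -, e1, e2⟩
  apply hne
  rw [h w1 m1 t1 e1 (by rw [c1, card_pair hab]), h w2 m2 t2 e2 (by rw [c2, card_pair hab])]

/-- nothing excited on this side -/
lemma noClo_zero (h : ∀ q ∈ Sd, e q = 0) : ¬ Clo c t Sd e := by
  rintro ⟨w1, w2, a, b, m1, m2, t1, t2, hne, hab, c1, c2, -, -, e1, e2⟩
  have := h w1 m1
  omega

lemma TTp.noClo (W : Two c c' t t' V Sd Sd' psi) (h : TTp c t Sd e) : ¬ Clo c t Sd e := by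
  obtain ⟨w, x, x', s, w', y, y', s', T, T', hd, on⟩ := h
  obtain ⟨m1, t1, m2, t2, d1, d2, -⟩ := T.facts W.s1
  obtain ⟨n1, u1, n2, u2, f1, f2, -⟩ := T'.facts W.s1
  rintro ⟨w1, w2, a, b, k1, k2, v1, v2, hne, hab, c1, c2, -, -, e1, e2⟩
  have key : ∀ q, t q = 2 → 0 < e q → q = w ∨ q = w' := by
    intro q tq eq
    have := on.mem eq
    simp only [mem_insert, mem_singleton] at this
    rcases this with rfl | rfl | rfl | rfl | rfl | rfl
    · exact Or.inl rfl
    · omega
    · omega
    · exact Or.inr rfl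
    · omega
    · omega
  have hcc : c w = c w' := by
    rcases key w1 v1 e1 with rfl | rfl <;> rcases key w2 v2 e2 with rfl | rfl
    · exact absurd rfl hne
    · rw [c1, c2]
    · rw [c1, c2]
    · exact absurd rfl hne
  have hx : x ∈ c w' := by
    rw [← hcc, T.cw]
    exact mem_insert_self _ _
  rw [T'.cw, mem_insert, mem_singleton] at hx
  have hs : s ∈ c x := T.sx
  refine disjoint_left.1 hd (mem_union_left _ hs) ?_
  rcases hx with rfl | rfl
  · exact mem_union_left _ hs
  · exact mem_union_right _ hs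

lemma TCp.noClo (W : Two c c' t t' V Sd Sd' psi) (h : TCp c t Sd e) : ¬ Clo c t Sd e := by
  obtain ⟨w, x, x', s, z, p, y, T, T', hd, on⟩ := h
  obtain ⟨m1, t1, m2, t2, d1, d2, -⟩ := T.facts W.s1
  obtain ⟨n1, u1, f1⟩ := T'.pen.facts W.s1
  have hpz : p ∈ c z := by rw [T'.cz]; exact mem_singleton_self _
  obtain ⟨tz, f2⟩ := above_facts W.s1 T'.m hpz T'.pen.tp
  apply noClo_one (w := w)
  intro q mq tq eq hc
  have := on.mem eq
  simp only [mem_insert, mem_singleton] at this
  rcases this with rfl | rfl | rfl | rfl | rfl | rfl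
  · rfl
  · omega
  · omega
  · omega
  · rw [T'.pen.cp, card_singleton] at hc
    omega
  · omega

lemma N5.noClo (W : Two c c' t t' V Sd Sd' psi) (h : N5 c t Sd e) : ¬ Clo c t Sd e := by
  obtain ⟨z, p, y, w, x, x', s, T', T, hz, hzp, hzw, hpw, cz, hd, on⟩ := h
  obtain ⟨m1, t1, m2, t2, d1, d2, -⟩ := T.facts W.s1
  obtain ⟨n1, u1, f1⟩ := T'.facts W.s1
  have hpz : p ∈ c z := by rw [cz]; exact mem_insert_self _ _
  obtain ⟨tz, f2⟩ := above_facts W.s1 hz hpz T'.tp
  apply noClo_one (w := w)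
  intro q mq tq eq hc
  have := on.mem eq
  simp only [mem_insert, mem_singleton] at this
  rcases this with rfl | rfl | rfl | rfl | rfl | rfl
  · omega
  · rw [T'.cp, card_singleton] at hc
    omega
  · rfl
  · omega
  · omega
  · omega

lemma N1.noClo (W : Two c c' t t' V Sd Sd' psi) (h : N1 c t Sd e) : ¬ Clo c t Sd e := by
  obtain ⟨z, w, x, x', s, T, hz, cz, he⟩ := h
  obtain ⟨m1, t1, m2, t2, d1, d2, -⟩ := T.facts W.s1
  have hwz : w ∈ c z := by rw [cz]; exact mem_singleton_self _
  obtain ⟨tz, f2⟩ := above_facts W.s1 hz hwz T.tw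
  apply noClo_one (w := w)
  intro q mq tq eq hc
  have h1 := he q
  split_ifs at h1 with h2 h3
  · rcases h2 with rfl | rfl
    · omega
    · rfl
  · rcases h3 with rfl | rfl <;> omega
  · omega

lemma TUp.noClo (W : Two c c' t t' V Sd Sd' psi) (h : TUp c c' t t' Sd Sd' e) :
    ¬ Clo c t Sd e := by
  obtain ⟨w, x, x', s, w', y, y', s', T, T', hd, on⟩ := h
  obtain ⟨m1, t1, m2, t2, d1, d2, -⟩ := T.facts W.s1
  obtain ⟨n1, u1, n2, u2, f1, f2, -⟩ := T'.facts W.s2
  apply noClo_one (w := w)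
  intro q mq tq eq hc
  have := on.mem eq
  simp only [mem_insert, mem_singleton] at this
  rcases this with rfl | rfl | rfl | rfl | rfl | rfl
  · rfl
  · omega
  · omega
  · exact absurd T'.m (disjoint_left.1 W.d3 mq)
  · exact absurd n1 (disjoint_left.1 W.d3 mq)
  · exact absurd n2 (disjoint_left.1 W.d3 mq)

lemma TVp.noClo (W : Two c c' t t' V Sd Sd' psi) (h : TVp c c' t t' Sd Sd' e) :
    ¬ Clo c t Sd e := by
  obtain ⟨w, x, x', s, z, p, y, T, T', hd, on⟩ := h
  obtain ⟨m1, t1, m2, t2, d1, d2, -⟩ := T.facts W.s1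
  obtain ⟨n1, u1, f1⟩ := T'.pen.facts W.s2
  apply noClo_one (w := w)
  intro q mq tq eq hc
  have := on.mem eq
  simp only [mem_insert, mem_singleton] at this
  rcases this with rfl | rfl | rfl | rfl | rfl | rfl
  · rfl
  · omega
  · omega
  · exact absurd T'.m (disjoint_left.1 W.d3 mq)
  · exact absurd T'.pen.m (disjoint_left.1 W.d3 mq)
  · exact absurd n1 (disjoint_left.1 W.d3 mq)

lemma TVp.noClo' (W : Two c c' t t' V Sd Sd' psi) (h : TVp c' c t' t Sd' Sd e) :
    ¬ Clo c t Sd e := by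
  obtain ⟨w, x, x', s, z, p, y, T, T', hd, on⟩ := h
  obtain ⟨m1, t1, m2, t2, d1, d2, -⟩ := T.facts W.s2
  obtain ⟨n1, u1, f1⟩ := T'.pen.facts W.s1
  have hpz : p ∈ c z := by rw [T'.cz]; exact mem_singleton_self _
  obtain ⟨tz, f2⟩ := above_facts W.s1 T'.m hpz T'.pen.tp
  apply noClo_one (w := w)
  intro q mq tq eq hc
  have := on.mem eq
  simp only [mem_insert, mem_singleton] at this
  rcases this with rfl | rfl | rfl | rfl | rfl | rfl
  · rfl
  · exact absurd m1 (disjoint_left.1 W.d3 mq)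
  · exact absurd m2 (disjoint_left.1 W.d3 mq)
  · omega
  · rw [T'.pen.cp, card_singleton] at hc
    omega
  · omega

/-- configurations on the other side only -/
lemma noClo_side (W : Two c c' t t' V Sd Sd' psi) (h : ∀ x, 0 < e x → x ∈ Sd') :
    ¬ Clo c t Sd e := by
  apply noClo_zero
  intro q mq
  by_contra h1
  exact disjoint_left.1 W.d3 mq (h q (by omega))

/-- THE LIST OF ENERGY SIX HAS NO CLOSED PAIR -/
theorem LO6.noClo (W : Two c c' t t' V Sd Sd' psi) (h : LO6 c c' t t' Sd Sd' e) :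
    ¬ Clo c t Sd e := by
  rcases h with h | h | h | h | h | h | h | h | h | h | h
  · exact h.noClo W
  · obtain ⟨w, x, x', s, w', y, y', s', T, T', hd, on⟩ := h
    obtain ⟨m1, t1, m2, t2, d1, d2, -⟩ := T.facts W.s2
    obtain ⟨n1, u1, n2, u2, f1, f2, -⟩ := T'.facts W.s2
    apply noClo_side W
    intro q eq
    have := on.mem eq
    simp only [mem_insert, mem_singleton] at this
    rcases this with rfl | rfl | rfl | rfl | rfl | rfl
    exacts [T.m, m1, m2, T'.m, n1, n2]
  · exact h.noClo W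
  · obtain ⟨w, x, x', s, z, p, y, T, T', hd, on⟩ := h
    obtain ⟨m1, t1, m2, t2, d1, d2, -⟩ := T.facts W.s2
    obtain ⟨n1, u1, f1⟩ := T'.pen.facts W.s2
    apply noClo_side W
    intro q eq
    have := on.mem eq
    simp only [mem_insert, mem_singleton] at this
    rcases this with rfl | rfl | rfl | rfl | rfl | rfl
    exacts [T.m, m1, m2, T'.m, T'.pen.m, n1]
  · exact h.noClo W
  · exact h.noClo W
  · exact h.noClo' W
  · exact h.noClo W
  · obtain ⟨z, w, x, x', s, T, hz, cz, he⟩ := h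
    obtain ⟨m1, t1, m2, t2, d1, d2, -⟩ := T.facts W.s2
    apply noClo_side W
    intro q eq
    have h1 := he q
    split_ifs at h1 with h2 h3
    · rcases h2 with rfl | rfl
      · exact hz
      · exact T.m
    · rcases h3 with rfl | rfl
      · exact m1
      · exact m2
    · omega
  · exact h.noClo W
  · obtain ⟨z, p, y, w, x, x', s, T', T, hz, hzp, hzw, hpw, cz, hd, on⟩ := h
    obtain ⟨m1, t1, m2, t2, d1, d2, -⟩ := T.facts W.s2
    obtain ⟨n1, u1, f1⟩ := T'.facts W.s2
    apply noClo_side W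
    intro q eq
    have := on.mem eq
    simp only [mem_insert, mem_singleton] at this
    rcases this with rfl | rfl | rfl | rfl | rfl | rfl
    exacts [hz, T'.m, T.m, n1, m1, m2]

end abstract

end Pool.Agent.GaussPoset.Win.SO
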