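import Pool.Agent.W_448cl_h64.ClC

/-!
CLOSED PAIRS AT ENERGY SIX (MP_448cb3_co, G2): the sums over the cores with a closed pair.
-/

set_option autoImplicit false

namespace Pool.Agent.GaussPoset.Win.SO

set_option linter.unusedSectionVars false

open Finset
open Pool.Agent.GaussPoset.Win.I2 (lS uS mem_lS mem_uS side0_low)
open Pool.Agent.GaussPoset.Win.So (TogL TogU RefL RefU RefD TgP spt_pa J)
open Pool.Agent.GaussPoset.Win.Xg (CanD Can Tee Exo SdO Act laL laU rk rk_inj CC_xc
  sideL sideU exchange_JK core_xc)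
open Pool.Agent.GaussPoset.Win.Kd (xc xc_d xc_x xc_of)

universe u

variable {P : Type u} [Fintype P] [PartialOrder P] [DecidableEq P] {r i : ℕ} {psi : P → P}
  {e : P → ℕ} {C : Finset P} {d x y p u p' : P}

/-- an exchange does not change which elements outside the window are excited -/
lemma xc_zero (H : Gr P r) (h : CanD i e d x) {z : P} (hz : lev z ≠ i) :
    xc d x e z = 0 ↔ e z = 0 := by
  have hv := h.lvl H
  by_cases hd : z = d
  · subst hd
    rw [xc_d]
    omega
  · rw [xc_of hd (by rintro rfl; omega)]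

lemma refL_xc (H : Gr P r) (D : RefD r i y p u p') (h : CanD i e d x) :
    RefL (xc d x e) y p u p' ↔ RefL e y p u p' := by
  have ly := D.ly
  have lp := D.lp H
  have lu := D.lu
  have lp' := D.lp' H
  have k : ∀ z, lev z ≠ i → (xc d x e z = 0 ↔ e z = 0) := fun z hz => xc_zero H h hz
  have k1 : ∀ z, lev z ≠ i → (1 ≤ xc d x e z ↔ 1 ≤ e z) := fun z hz => by
    have := k z hz
    omega
  constructor
  · intro R
    refine ⟨(k1 y (by omega)).1 R.hy, (k1 p (by omega)).1 R.hp, (k u (by omega)).1 R.eu, ?_, ?_,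
      ?_, ?_⟩
    · intro z hz hzp
      have l1 := lev_uc H (mem_uc.2 hz)
      exact (k z (by omega)).1 (R.ch z hz hzp)
    · intro z hz
      have l1 := lev_uc H (mem_uc.2 hz)
      exact (k z (by omega)).1 (R.chp z hz)
    · intro z hz
      have l1 := lev_uc H (mem_uc.2 hz)
      exact (k z (by omega)).1 (R.ab z hz)
    · intro z hz
      have l1 := lev_uc H (mem_uc.2 hz)
      exact (k z (by omega)).1 (R.abp z hz)
  · intro R
    refine ⟨(k1 y (by omega)).2 R.hy, (k1 p (by omega)).2 R.hp, (k u (by omega)).2 R.eu, ?_, ?_,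
      ?_, ?_⟩
    · intro z hz hzp
      have l1 := lev_uc H (mem_uc.2 hz)
      exact (k z (by omega)).2 (R.ch z hz hzp)
    · intro z hz
      have l1 := lev_uc H (mem_uc.2 hz)
      exact (k z (by omega)).2 (R.chp z hz)
    · intro z hz
      have l1 := lev_uc H (mem_uc.2 hz)
      exact (k z (by omega)).2 (R.ab z hz)
    · intro z hz
      have l1 := lev_uc H (mem_uc.2 hz)
      exact (k z (by omega)).2 (R.abp z hz)

lemma refU_xc (H : Gr P r) (D : RefD r i y p u p') (h : CanD i e d x) :
    RefU (xc d x e) y p u p' ↔ RefU e y p u p' := by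
  have ly := D.ly
  have lp := D.lp H
  have lu := D.lu
  have lp' := D.lp' H
  have k : ∀ z, lev z ≠ i → (xc d x e z = 0 ↔ e z = 0) := fun z hz => xc_zero H h hz
  have k1 : ∀ z, lev z ≠ i → (1 ≤ xc d x e z ↔ 1 ≤ e z) := fun z hz => by
    have := k z hz
    omega
  constructor
  · intro R
    refine ⟨(k1 u (by omega)).1 R.hu, (k1 p' (by omega)).1 R.hp, (k y (by omega)).1 R.ey, ?_, ?_,
      ?_, ?_⟩
    · intro z hz hzp
      have l1 := lev_uc H (mem_uc.2 hz)
      exact (k z (by omega)).1 (R.ab z hz hzp)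
    · intro z hz
      have l1 := lev_uc H (mem_uc.2 hz)
      exact (k z (by omega)).1 (R.abp z hz)
    · intro z hz
      have l1 := lev_uc H (mem_uc.2 hz)
      exact (k z (by omega)).1 (R.ch z hz)
    · intro z hz
      have l1 := lev_uc H (mem_uc.2 hz)
      exact (k z (by omega)).1 (R.chp z hz)
  · intro R
    refine ⟨(k1 u (by omega)).2 R.hu, (k1 p' (by omega)).2 R.hp, (k y (by omega)).2 R.ey, ?_, ?_,
      ?_, ?_⟩
    · intro z hz hzp
      have l1 := lev_uc H (mem_uc.2 hz)
      exact (k z (by omega)).2 (R.ab z hz hzp)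
    · intro z hz
      have l1 := lev_uc H (mem_uc.2 hz)
      exact (k z (by omega)).2 (R.abp z hz)
    · intro z hz
      have l1 := lev_uc H (mem_uc.2 hz)
      exact (k z (by omega)).2 (R.ch z hz)
    · intro z hz
      have l1 := lev_uc H (mem_uc.2 hz)
      exact (k z (by omega)).2 (R.chp z hz)

lemma rfC_xc (H : Gr P r) (h : CanD i e d x) :
    RfC r i psi C (xc d x e) ↔ RfC r i psi C e := by
  unfold RfC
  refine exists_congr fun y => exists_congr fun p => exists_congr fun u => exists_congr fun p' =>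
    and_congr_right fun _ => and_congr_right fun _ => and_congr_right fun _ =>
      and_congr_right fun D => ?_
  rw [refL_xc H D h, refU_xc H D h]

lemma clo_congr {f : P → ℕ} (k : ∀ z : P, lev z ≠ i → (f z = 0 ↔ e z = 0))
    (h : Clo uc (tL (P := P) i) (lS P i) f) : Clo uc (tL (P := P) i) (lS P i) e := by
  obtain ⟨a, a', x, x', h1, h2, h3, h4, h5, h6, h7, h8, h9, h10, h11, h12⟩ := h
  have l1 := mem_lS.1 h1
  have l2 := mem_lS.1 h2
  have k1 := k a (by omega)
  have k2 := k a' (by omega)
  exact ⟨a, a', x, x', h1, h2, h3, h4, h5, h6, h7, h8, h9, h10, by omega, by omega⟩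

lemma clo_xc (H : Gr P r) (h : CanD i e d x) :
    Clo uc (tL (P := P) i) (lS P i) (xc d x e) ↔ Clo uc (tL (P := P) i) (lS P i) e :=
  ⟨clo_congr fun z hz => xc_zero H h hz, clo_congr fun z hz => (xc_zero H h hz).symm⟩

lemma clo_tg (H : Gr P r) {w s : P} (T : TgP i e w s) :
    Clo uc (tL (P := P) i) (lS P i) (So.tg w s e) ↔ Clo uc (tL (P := P) i) (lS P i) e := by
  have ls := T.ls H
  have k : ∀ z, lev z ≠ i → (So.tg w s e z = 0 ↔ e z = 0) := fun z hz =>
    T.zero (by rintro rfl; exact hz ls)
  exact ⟨clo_congr k, clo_congr fun z hz => (k z hz).symm⟩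

/-- THE EXCHANGED CORES WITH A CLOSED PAIR cancel -/
theorem PS7.clo_S (Q : PS7 r i psi C) {q : ℕ} (hq : q ≤ 6) (m : ℕ)
    [DecidablePred (fun e : P → ℕ => IsCore i ∅ psi e ∧ Clo uc (tL (P := P) i) (lS P i) e ∧
      ¬ RfC r i psi C e ∧ AdmL i e ∧ AdmU i e ∧ ∃ d x, CanD i e d x)] :
    dd ^ ((st i C).card - 1) ∣ ∑ e ∈ (C.piAntidiag q).filter (fun e : P → ℕ =>
      IsCore i ∅ psi e ∧ Clo uc (tL (P := P) i) (lS P i) e ∧
      ¬ RfC r i psi C e ∧ AdmL i e ∧ AdmU i e ∧ ∃ d x, CanD i e d x), J i psi C m e := by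
  classical
  have hi2 := Q.hi2
  have hC0 : Part i C := Q.hC.pred
  rcases Nat.lt_or_ge (st i C).card 2 with hb | hb
  · rw [show (st i C).card - 1 = 0 by omega, pow_zero]
    exact one_dvd _
  rw [show (st i C).card - 1 = (st i C).card - 2 + 1 by omega]
  have hJ : ∀ e : P → ℕ, J i psi C m e = W4.JK i ∅ psi C m e := fun e => rfl
  rw [sum_congr rfl fun e _ => hJ e]
  have hmem : ∀ e, e ∈ (C.piAntidiag q).filter (fun e : P → ℕ =>
      IsCore i ∅ psi e ∧ Clo uc (tL (P := P) i) (lS P i) e ∧
      ¬ RfC r i psi C e ∧ AdmL i e ∧ AdmU i e ∧ ∃ d x, CanD i e d x) ↔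
      (∑ x, e x = q ∧ Spt C e) ∧ IsCore i ∅ psi e ∧ Clo uc (tL (P := P) i) (lS P i) e ∧
      ¬ RfC r i psi C e ∧ AdmL i e ∧ AdmU i e ∧ ∃ d x, CanD i e d x := by
    intro e
    rw [mem_filter, mem_piA]
  refine exchange_JK Q.H (by omega) hC0 ?_ ?_ ?_
  · intro e he
    rw [hmem] at he
    obtain ⟨⟨a1, a2⟩, a3, a4, a5, a6, a7, d, x, a8⟩ := he
    refine ⟨a2, a3, a6, a7, ?_, ?_⟩
    · have : (d, x) ∈ Xg.CC i e := (Xg.mem_CC Q.H).2 a8
      exact card_pos.2 ⟨_, this⟩
    · intro t ht
      have h := (Xg.mem_CC Q.H).1 ht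
      exact h.clr Q.H Q.hM (uc_card_le Q.H _) (dc_card_le Q.H _) (fun y _ => notMem_empty y)
  · intro e he d' x' h
    rw [hmem] at he ⊢
    obtain ⟨⟨a1, a2⟩, a3, a4, a5, a6, a7, d, x, a8⟩ := he
    obtain ⟨s1, s2, s3⟩ := h.spt Q.H hC0 a2
    refine ⟨⟨?_, s3⟩, (core_xc Q.H h).2 a3, (clo_xc Q.H h).2 a4,
      fun g => a5 ((rfC_xc Q.H h).1 g), (h.adm Q.H).1.2 a6, (h.adm Q.H).2.1.2 a7, d, x, ?_⟩
    · have k1 : ∑ y, xc d' x' e y = C.sum (xc d' x' e) := by
        symm
        refine Finset.sum_subset (subset_univ _) fun y _ hy => s3 y hy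
      have k2 : ∑ y, e y = C.sum e := by
        symm
        refine Finset.sum_subset (subset_univ _) fun y _ hy => a2 y hy
      rw [k1, h.sum Q.H hC0 a2, ← k2, a1]
    · have := CC_xc Q.H a6 a7 h
      rw [← Xg.mem_CC Q.H (t := (d, x)), this, Xg.mem_CC Q.H]
      exact a8
  · intro e he
    rw [hmem] at he
    obtain ⟨⟨a1, a2⟩, a3, a4, a5, a6, a7, d, x, a8⟩ := he
    have h2 : Cheap 2 i e := by
      rcases Q.cls a2 a3 (by omega) with h | h | h | h | h
      · exact Cheap.mono (by omega) h
      · exact absurd a4 h.1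
      · exact absurd h a5
      · exact absurd a4 h.1
      · exact h.2.2.2.1
    exact W4.JK_dvd Q.H Q.hi Q.hi2 Q.hM Q.hC (Rk_of_cheap h2) m

/-! ### the labellings of type A -/

section LA

/-- the energy and the pendants -/
lemma LA.rf (H : Gr P r) (hE : ∑ x, e x ≤ 6) (h : LA i e) : ¬ RfC r i psi C e := by
  obtain ⟨w, w', x, x', s, T, T', hr, ew, ew', ex, ex'⟩ := h
  have hne := rk_ne hr
  obtain ⟨n0, n1⟩ := pair_nodup H T T' hne
  obtain ⟨dx, dx'⟩ := pair_dc H T T' hne
  have lw := T.lw
  have lw' := T'.lw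
  obtain ⟨lx, lx'⟩ := T.lx H
  rintro ⟨y, p, u, p', -, -, -, D, R | R⟩
  · have ly := D.ly
    have lp := D.lp H
    have hpn : p ≠ w ∧ p ≠ w' := by
      constructor
      · rintro rfl
        have h1 := D.cp
        rw [T.cw] at h1
        have h2 := card_pair T.ne
        rw [h1, card_singleton] at h2
        omega
      · rintro rfl
        have h1 := D.cp
        rw [T'.cw] at h1
        have h2 := card_pair T.ne
        rw [h1, card_singleton] at h2
        omega
    have hpy : p ∈ dc y := by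
      rw [mem_dc, ← mem_uc, D.cp]
      exact mem_singleton_self _
    have hyn : y ≠ x ∧ y ≠ x' := by
      constructor
      · rintro rfl
        rw [dx, mem_insert, mem_singleton] at hpy
        tauto
      · rintro rfl
        rw [dx', mem_insert, mem_singleton] at hpy
        tauto
    have n2 : [y, p, w, w', x, x'].Nodup := by
      rw [List.nodup_cons, List.nodup_cons]
      refine ⟨?_, ?_, n0⟩
      · simp only [List.mem_cons, List.not_mem_nil, or_false, not_or]
        refine ⟨?_, ?_, ?_, hyn.1, hyn.2⟩ <;> rintro rfl <;> omega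
      · simp only [List.mem_cons, List.not_mem_nil, or_false, not_or]
        refine ⟨hpn.1, hpn.2, ?_, ?_⟩ <;> rintro rfl <;> omega
    have hT := So.tot (e := e) n2
    simp only [List.map_cons, List.sum_cons, List.map_nil, List.sum_nil] at hT
    have h1 := R.hy
    have h2 := R.hp
    omega
  · have lu := D.lu
    have lp := D.lp' H
    have n2 : [u, p', w, w', x, x'].Nodup := by
      rw [List.nodup_cons, List.nodup_cons]
      refine ⟨?_, ?_, n0⟩
      · simp only [List.mem_cons, List.not_mem_nil, or_false, not_or]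
        refine ⟨?_, ?_, ?_, ?_, ?_⟩ <;> rintro rfl <;> omega
      · simp only [List.mem_cons, List.not_mem_nil, or_false, not_or]
        refine ⟨?_, ?_, ?_, ?_⟩ <;> rintro rfl <;> omega
    have hT := So.tot (e := e) n2
    simp only [List.map_cons, List.sum_cons, List.map_nil, List.sum_nil] at hT
    have h1 := R.hu
    have h2 := R.hp
    omega

lemma LA.clo (h : LA i e) : Clo uc (tL (P := P) i) (lS P i) e := by
  obtain ⟨w, w', x, x', s, T, T', hr, ew, ew', ex, ex'⟩ := h
  exact ⟨w, w', x, x', T.m, T'.m, T.tw, T'.tw, rk_ne hr, T.ne, T.cw, T'.cw, T.cx, T.cx', ew,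
    by omega⟩

lemma LA.five (H : Gr P r) (h : LA i e) : 5 ≤ ∑ x, e x := by
  obtain ⟨w, w', x, x', s, T, T', hr, ew, ew', ex, ex'⟩ := h
  have := four_sum (e := e) (pair_nodup H T T' (rk_ne hr)).1
  omega

/-- labellings of type A are not exchanged -/
lemma LA.can (H : Gr P r) (hE : ∑ x, e x ≤ 6) (hir : i ≤ r) (hA : AdmL i e) (hB : AdmU i e)
    (h : LA i e) : ¬ ∃ d x, CanD i e d x := by
  obtain ⟨w, w', x, x', s, T, T', hr, ew, ew', ex, ex'⟩ := h
  have hne := rk_ne hr
  obtain ⟨n0, n1⟩ := pair_nodup H T T' hne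
  obtain ⟨dx, dx'⟩ := pair_dc H T T' hne
  have lw := T.lw
  have lw' := T'.lw
  obtain ⟨lx, lx'⟩ := T.lx H
  have S := side0_low H i (P := P)
  have aL := I2.adm_low hA
  -- two further excited elements are impossible
  have two : ∀ q q', q ≠ w → q ≠ w' → q ≠ x → q ≠ x' → q' ≠ w → q' ≠ w' → q' ≠ x → q' ≠ x' →
      q ≠ q' → 1 ≤ e q → 1 ≤ e q' → False := by
    intro q q' q1 q2 q3 q4 r1 r2 r3 r4 hqq q5 r5
    have n2 : [q, q', w, w', x, x'].Nodup := by
      rw [List.nodup_cons, List.nodup_cons]
      refine ⟨?_, ?_, n0⟩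
      · simp only [List.mem_cons, List.not_mem_nil, or_false, not_or]
        exact ⟨hqq, q1, q2, q3, q4⟩
      · simp only [List.mem_cons, List.not_mem_nil, or_false, not_or]
        exact ⟨r1, r2, r3, r4⟩
    have hT := So.tot (e := e) n2
    simp only [List.map_cons, List.sum_cons, List.map_nil, List.sum_nil] at hT
    omega
  have hw'x : w' ⋖ x := by rw [← mem_dc, dx]; simp
  have hw'x' : w' ⋖ x' := by rw [← mem_dc, dx']; simp
  rintro ⟨d, x0, h | h⟩
  · obtain ⟨w1, w2, p0, q0, Te, E, hrk⟩ := h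
    have l1 := Te.ld
    have l2 := Te.lv (sideL H i)
    unfold laL at l1 l2
    have ed := E.pos
    have md : d ∈ lS P i := mem_lS.2 (by omega)
    have cov : ∀ b ∈ uc d, b ∈ lS P i ∧ 1 ≤ e b := by
      intro b hb
      obtain ⟨k1, k2, k3⟩ := So.z_cov S aL md (by
        have := S.cin d md b hb
        have h3 := S.tS d md
        show 2 ≤ lev d - i
        omega) ed hb
      exact ⟨k1, k3⟩
    have h1m : w1 ∈ uc d := by rw [Te.ud]; exact mem_insert_self _ _
    have h2m : w2 ∈ uc d := by rw [Te.ud]; exact mem_insert_of_mem (mem_singleton_self _)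
    by_cases hdp : d = w ∨ d = w'
    · -- the exchange at the pair
      have hud : uc d = {x, x'} := by rcases hdp with rfl | rfl <;> [exact T.cw; exact T'.cw]
      have hdw : d = w := by
        rcases hdp with h1 | h1
        · exact h1
        · exfalso
          subst h1
          have := hrk w (by rw [← Te.ud, hud, T.cw]) hr
          omega
      subst hdw
      have hs5 := So.tot (e := e) n1
      simp only [List.map_cons, List.sum_cons, List.map_nil, List.sum_nil] at hs5
      -- the site of the exchange is `s`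
      have hset : ({w1, w2} : Finset P) = {x, x'} := by rw [← Te.ud, hud]
      have hx1 : w1 = x ∨ w1 = x' := by
        have : w1 ∈ ({x, x'} : Finset P) := by rw [← hset]; exact mem_insert_self _ _
        simpa only [mem_insert, mem_singleton] using this
      have hx2 : w2 = x ∨ w2 = x' := by
        have : w2 ∈ ({x, x'} : Finset P) := by
          rw [← hset]; exact mem_insert_of_mem (mem_singleton_self _)
        simpa only [mem_insert, mem_singleton] using this
      have c1 : x0 ∈ uc w1 := by rw [Te.uw]; exact mem_insert_of_mem (mem_singleton_self _)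
      have c2 : x0 ∈ uc w2 := by rw [Te.uw2]; exact mem_insert_self _ _
      have hs : x0 = s := by
        apply T.only
        · rcases hx1 with g | g
          · rw [← g]; exact c1
          · rcases hx2 with g' | g'
            · rw [← g']; exact c2
            · exact absurd (g.trans g'.symm) Te.ne
        · rcases hx1 with g | g
          · rcases hx2 with g' | g'
            · exact absurd (g.trans g'.symm) Te.ne
            · rw [← g']; exact c2
          · rw [← g]; exact c1
      subst hs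
      -- admissibility: the site is not excited
      have hs0 : ¬ (1 ≤ e x0) := by
        intro hs1
        have g1 : e x = 1 ∧ e w' = 2 ∧ e x0 = 1 := by omega
        exact hA x (by omega) ⟨⟨w', hw'x, by omega⟩, x0, mem_uc.1 T.sx, by omega⟩
      have ew1 : 1 ≤ e w1 ∧ 1 ≤ e w2 := by
        rcases hx1 with rfl | rfl <;> rcases hx2 with rfl | rfl <;> exact ⟨by assumption, by assumption⟩
      have hact : 2 ≤ e d := by
        have := E.act
        unfold Act at this
        omega
      have g1 : e d = 2 ∧ e w' = 2 ∧ e x = 1 ∧ e x' = 1 := by omega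
      have h3 := E.s1
      unfold SdO at h3
      have hw1 : e w1 = 1 := by rcases hx1 with rfl | rfl <;> omega
      rcases h3 with h3 | h3
      · omega
      · have h4 := h3.1 w' (by
          rcases hx1 with rfl | rfl
          · exact mem_dc.2 hw'x
          · exact mem_dc.2 hw'x') hne.symm
        omega
    · push Not at hdp
      obtain ⟨b1, b2⟩ := cov w1 h1m
      obtain ⟨b3, b4⟩ := cov w2 h2m
      have nx : ∀ b ∈ uc d, b ≠ x ∧ b ≠ x' := by
        intro b hb
        constructor
        · rintro rfl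
          have : d ∈ dc b := mem_dc.2 (mem_uc.1 hb)
          rw [dx, mem_insert, mem_singleton] at this
          tauto
        · rintro rfl
          have : d ∈ dc b := mem_dc.2 (mem_uc.1 hb)
          rw [dx', mem_insert, mem_singleton] at this
          tauto
      refine two d w1 hdp.1 hdp.2 ?_ ?_ ?_ ?_ (nx w1 h1m).1 (nx w1 h1m).2 ?_ ed b2
      all_goals (rintro rfl; omega)
  · obtain ⟨w1, w2, p0, q0, Te, E, hrk⟩ := h
    have l1 := Te.ld
    have l2 := Te.lv (sideU H i)
    unfold laU at l1 l2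
    have ed := E.pos
    have S' := I2.side0_up H hir (P := P)
    have aU := I2.adm_up hB
    have md : d ∈ uS P i := mem_uS.2 (by omega)
    have h1m : w1 ∈ dc d := by rw [Te.ud]; exact mem_insert_self _ _
    obtain ⟨k1, k2, k3⟩ := So.z_cov S' aU md (by
      show 2 ≤ i - lev d
      omega) ed h1m
    refine two d w1 ?_ ?_ ?_ ?_ ?_ ?_ ?_ ?_ ?_ ed k3
    all_goals (rintro rfl; omega)

end LA

end Pool.Agent.GaussPoset.Win.SO
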