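import Pool.Agent.W_448cl_h64.ClD

/-!
CLOSED PAIRS AT ENERGY SIX (MP_448cb3_co, G2): assembly.
-/

set_option autoImplicit false

namespace Pool.Agent.GaussPoset.Win.SO

set_option linter.unusedSectionVars false

open Finset
open Pool.Agent.GaussPoset.Win.I2 (lS uS mem_lS mem_uS side0_low)
open Pool.Agent.GaussPoset.Win.So
open Pool.Agent.GaussPoset.Win.Xg (CanD rk)

universe u

variable {P : Type u} [Fintype P] [PartialOrder P] [DecidableEq P] {r i : ℕ} {psi : P → P}
  {e : P → ℕ} {C : Finset P} {w s w1 s1 y p u p' : P}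

/-- the reflection data of a part are unique -/
lemma PSO.ref_unique (Q : PSO r i psi C) (D : RefD r i y p u p') (hpC : p ∈ C) (hpC' : p' ∈ C)
    {y1 p1 u1 p1' : P} (D1 : RefD r i y1 p1 u1 p1') (h1 : p1 ∈ C) (h1' : p1' ∈ C) :
    y1 = y ∧ p1 = p ∧ u1 = u ∧ p1' = p' := by
  have e1 : p1 = p := Q.pd p1 h1 p hpC (SO.RefD.pd Q.H D1) (SO.RefD.pd Q.H D)
  have e2 : p1' = p' := Q.pu p1' h1' p' hpC' (SO.RefD.pu Q.H D1) (SO.RefD.pu Q.H D)
  subst e1
  subst e2
  refine ⟨?_, rfl, ?_, rfl⟩
  · have := D1.cp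
    rw [D.cp, singleton_inj] at this
    exact this.symm
  · have := D1.dp
    rw [D.dp, singleton_inj] at this
    exact this.symm

/-- uniqueness of the toggles without closed pair -/
lemma PS7.unique (Q : PS7 r i psi C) (hs : Spt C e)
    (h : ¬ Clo uc (tL (P := P) i) (lS P i) e) (hE : ∑ x, e x ≤ 6)
    (T : TgP i e w s) (T1 : TgP i e w1 s1) : w1 = w ∧ s1 = s := by
  refine tgp_unique Q.H hE ?_ ?_ T T1
  · intro w w' x x' a1 a2 a3 a4 a5 a6 a7 a8
    by_contra hne
    have l1 := lev_uc Q.H (x := w) (v := x) (by rw [a3]; exact mem_insert_self _ _)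
    have l2 := lev_uc Q.H (x := w') (v := x) (by rw [a4]; exact mem_insert_self _ _)
    exact h ⟨w, w', x, x', (lS_two a1).1, (lS_two (by omega)).1, (lS_two a1).2,
      (lS_two (by omega)).2, hne, a2, a3, a4, a5, a6, a7, a8⟩
  · intro w w' x x' a1 a2 a3 a4 a5 a6 a7 a8
    exact Q.ncu w (mem_of_spt hs a7) w' (mem_of_spt hs a8) x x' a1 a2 a3 a4 a5 a6

/-- no toggle at a closed pair of energy four -/
lemma no_tg_four (H : Gr P r) (h : Clo uc (tL (P := P) i) (lS P i) e) (hE : ∑ x, e x ≤ 4) :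
    ¬ TgP i e w s := by
  obtain ⟨a, a', x, x', h1, h2, h3, h4, h5, h6, h7, h8, h9, h10, h11, h12⟩ := h
  have l1 := mem_lS.1 h1
  have l2 := mem_lS.1 h2
  unfold tL at h3 h4
  rintro (⟨x1, x1', b, c, T, -⟩ | ⟨x1, x1', b, c, T, -⟩)
  · have lw := T.lw
    have lx := lev_uc H (x := w) (v := x1) (by rw [T.uw]; exact mem_insert_self _ _)
    have lx' := lev_uc H (x := w) (v := x1') (by
      rw [T.uw]; exact mem_insert_of_mem (mem_singleton_self _))
    have ls := T.ls H
    have xx := T.xx'
    have n0 : [s, a, a', x1, x1'].Nodup := by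
      simp only [List.nodup_cons, List.mem_cons, List.not_mem_nil, or_false, not_or,
        List.nodup_nil, and_true, not_false_eq_true]
      and_intros
      all_goals first
        | assumption
        | (intro hnd; subst hnd; omega)
    have hT := So.tot (e := e) n0
    simp only [List.map_cons, List.sum_cons, List.map_nil, List.sum_nil] at hT
    have e1 := T.hw
    have e2 := T.hx
    have e3 := T.hx'
    have st := T.st
    by_cases hw : w = a ∨ w = a'
    · rcases hw with rfl | rfl <;> omega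
    · push Not at hw
      have n1 : [w, a, a', x1, x1'].Nodup := by
        simp only [List.nodup_cons, List.mem_cons, List.not_mem_nil, or_false, not_or,
          List.nodup_nil, and_true, not_false_eq_true]
        and_intros
        all_goals first
          | assumption
          | exact hw.1
          | exact hw.2
          | (intro hnd; subst hnd; omega)
      have hT := So.tot (e := e) n1
      simp only [List.map_cons, List.sum_cons, List.map_nil, List.sum_nil] at hT
      omega
  · have lw := T.lw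
    have lx := lev_dc H (x := w) (v := x1) (by rw [T.uw]; exact mem_insert_self _ _)
    have lx' := lev_dc H (x := w) (v := x1') (by
      rw [T.uw]; exact mem_insert_of_mem (mem_singleton_self _))
    have xx := T.xx'
    have n0 : [w, a, a', x1, x1'].Nodup := by
      simp only [List.nodup_cons, List.mem_cons, List.not_mem_nil, or_false, not_or,
        List.nodup_nil, and_true, not_false_eq_true]
      and_intros
      all_goals first
        | assumption
        | (intro hnd; subst hnd; omega)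
    have hT := So.tot (e := e) n0
    simp only [List.map_cons, List.sum_cons, List.map_nil, List.sum_nil] at hT
    have e1 := T.hw
    have e2 := T.hx
    have e3 := T.hx'
    omega

/-- the energy of the reduced configuration -/
lemma red_energy (hyp : y ≠ p) : ∑ x, red y p e x + e y + e p ≤ ∑ x, e x := by
  have h1 : ∑ x, (red y p e x + (if x = y then e y else 0) + (if x = p then e p else 0)) ≤
      ∑ x, e x := by
    refine Finset.sum_le_sum fun x _ => ?_
    unfold red up2
    by_cases h1 : x = y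
    · subst h1
      rw [if_pos rfl, if_pos rfl, if_neg hyp]
      omega
    · by_cases h2 : x = p
      · subst h2
        rw [if_neg h1, if_pos rfl, if_neg h1, if_pos rfl]
        omega
      · rw [if_neg h1, if_neg h2, if_neg h1, if_neg h2]
        omega
  rw [sum_add_distrib, sum_add_distrib, sum_ite_eq' univ y, sum_ite_eq' univ p,
    if_pos (mem_univ _), if_pos (mem_univ _)] at h1
  exact h1

theorem PS7.c4 (Q : PS7 r i psi C) (D : RefD r i y p u p') (hp : psi y = u)
    (hpC : p ∈ C) (hpC' : p' ∈ C) (R : RefL e y p u p') (hs : Spt C e)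
    (hc : IsCore i ∅ psi e) (hE : ∑ x, e x ≤ 6) :
    Cheap 1 i (red y p e) ∨ (Cheap 2 i (red y p e) ∧ ∃ w s, TgP i (red y p e) w s) := by
  have hpy : y ≠ p := D.py.lt.ne'
  have r1 : red y p e y = 0 := by
    unfold red
    exact up2_y _ _ _ _ _
  have r2 : red y p e p = 0 := by
    unfold red
    exact up2_p D.py.lt.ne _ _ _
  have hsum := red_energy (e := e) hpy
  have h1 := R.hy
  have h2 := R.hp
  rcases Q.cls (spt_red hs y p) (R.red_core Q.H D Q.hM hp hc) (by omega) with
    h | h | h | h | h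
  · exact Or.inl h
  · exact Or.inr h.2
  · exfalso
    obtain ⟨y1, p1, u1, p1', h1, h1', -, D1, h3⟩ := h
    obtain ⟨rfl, rfl, rfl, rfl⟩ := Q.ref_unique D hpC hpC' D1 h1 h1'
    rcases h3 with h3 | h3
    · have := h3.hy
      omega
    · have h4 := h3.hu
      have h5 := red_le y1 p1 e u1
      have h6 := R.eu
      omega
  · exfalso
    have := (LO6.ex Q.two h.2.2.2.2).E
    omega
  · exfalso
    have := h.2.2.2.2.1
    omega

/-- the cores with a closed pair -/
theorem PS7.rest (Q : PS7 r i psi C) (hs : Spt C e) (hc : IsCore i ∅ psi e) (hE : ∑ x, e x ≤ 6)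
    (h1 : Clo uc (tL (P := P) i) (lS P i) e) (h2 : ¬ RfC r i psi C e)
    (h3 : ¬ (AdmL i e ∧ AdmU i e ∧ ∃ d x, CanD i e d x)) (h4 : ¬ LA i e) : Cheap 1 i e := by
  rcases Q.cls hs hc hE with h | h | h | h | h
  · exact h
  · exact absurd h1 h.1
  · exact absurd h h2
  · exact absurd h1 h.1
  · obtain ⟨-, a1, a2, -, -, h5 | h5⟩ := h
    · exact absurd ⟨a1, a2, h5⟩ h3
    · exact absurd h5 h4

open Classical in
theorem PS7.clo_level (Q : PS7 r i psi C) {q : ℕ} (hq : q ≤ 6) (m : ℕ) :
    dd ^ ((st i C).card - 1) ∣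
      ∑ e ∈ (C.piAntidiag q).filter (fun e => IsCore i ∅ psi e ∧
        Clo uc (tL (P := P) i) (lS P i) e ∧ ¬ RfC r i psi C e), J i psi C m e -
      ∑ e ∈ (C.piAntidiag q).filter (fun e => IsCore i ∅ psi e ∧ LA i e), J i psi C m e := by
  have hir := Q.hi2
  have hsum : ∀ e ∈ C.piAntidiag q, ∑ x, e x ≤ 6 := fun e he => by
    rw [I2.mem_pa] at he
    omega
  set X := (C.piAntidiag q).filter (fun e => IsCore i ∅ psi e ∧
        Clo uc (tL (P := P) i) (lS P i) e ∧ ¬ RfC r i psi C e) with hX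
  set A0 : (P → ℕ) → Prop := fun e => AdmL i e ∧ AdmU i e ∧ ∃ d x, CanD i e d x with hA0
  have e1 : ∑ e ∈ X, J i psi C m e = ∑ e ∈ X.filter A0, J i psi C m e +
      ∑ e ∈ X.filter (fun e => ¬ A0 e), J i psi C m e :=
    (Finset.sum_filter_add_sum_filter_not _ _ _).symm
  have e2 : ∑ e ∈ X.filter (fun e => ¬ A0 e), J i psi C m e =
      ∑ e ∈ (X.filter (fun e => ¬ A0 e)).filter (LA i), J i psi C m e +
      ∑ e ∈ (X.filter (fun e => ¬ A0 e)).filter (fun e => ¬ LA i e), J i psi C m e :=
    (Finset.sum_filter_add_sum_filter_not _ _ _).symm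
  have e3 : (X.filter (fun e => ¬ A0 e)).filter (LA i) =
      (C.piAntidiag q).filter (fun e => IsCore i ∅ psi e ∧ LA i e) := by
    ext e
    simp only [hX, mem_filter]
    constructor
    · rintro ⟨⟨⟨a1, a2, a3, a4⟩, a5⟩, a6⟩
      exact ⟨a1, a2, a6⟩
    · rintro ⟨a1, a2, a3⟩
      refine ⟨⟨⟨a1, a2, a3.clo, a3.rf Q.H (hsum e a1)⟩, ?_⟩, a3⟩
      rintro ⟨b1, b2, b3⟩
      exact a3.can Q.H (hsum e a1) (by omega) b1 b2 b3
  have e4 : X.filter A0 = (C.piAntidiag q).filter (fun e : P → ℕ =>
      IsCore i ∅ psi e ∧ Clo uc (tL (P := P) i) (lS P i) e ∧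
      ¬ RfC r i psi C e ∧ AdmL i e ∧ AdmU i e ∧ ∃ d x, CanD i e d x) := by
    ext e
    simp only [hX, hA0, mem_filter]
    tauto
  rw [e1, e2, e3, e4, show ∀ a b c : A, a + (b + c) - b = a + c from fun a b c => by ring]
  refine dvd_add (Q.clo_S hq m) ?_
  refine Finset.dvd_sum fun e he => ?_
  simp only [hX, mem_filter] at he
  obtain ⟨⟨⟨a1, a2, a3, a4⟩, a5⟩, a6⟩ := he
  exact J_dvd Q.H Q.hi Q.hi2 Q.hM Q.hC
    (Rk_of_cheap (Q.rest (spt_pa a1) a2 (hsum e a1) a3 a4 a5 a6)) m

lemma rfC_tg (H : Gr P r) (T : TgP i e w s) :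
    RfC r i psi C (tg w s e) ↔ RfC r i psi C e := by
  unfold RfC
  refine exists_congr fun y => exists_congr fun p => exists_congr fun u => exists_congr fun p' =>
    and_congr_right fun _ => and_congr_right fun _ => and_congr_right fun _ =>
      and_congr_right fun D => ?_
  rw [refL_tg H D T, refU_tg H D T]

open Classical in
theorem PS7.nclo_level (Q : PS7 r i psi C) {q : ℕ} (hq : q ≤ 6) (m : ℕ) :
    dd ^ ((st i C).card - 1) ∣
      ∑ e ∈ (C.piAntidiag q).filter (fun e => IsCore i ∅ psi e ∧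
        (¬ Clo uc (tL (P := P) i) (lS P i) e ∧ ¬ RfC r i psi C e)), J i psi C m e -
      ∑ e ∈ (C.piAntidiag q).filter
          (LO6 uc dc (tL (P := P) i) (tU i) (lS P i) (uS P i)), J i psi C m e := by
  have hsum : ∀ e ∈ C.piAntidiag q, ∑ x, e x ≤ 6 := fun e he => by
    rw [I2.mem_pa] at he
    omega
  have hN : ∀ e w s, TgP i e w s →
      (¬ Clo uc (tL (P := P) i) (lS P i) e ∧ ¬ RfC r i psi C e) →
      (¬ Clo uc (tL (P := P) i) (lS P i) (tg w s e) ∧ ¬ RfC r i psi C (tg w s e)) := by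
    intro e w s T h
    rw [clo_tg Q.H T, rfC_tg Q.H T]
    exact h
  have key := asm_N Q.H Q.hi Q.hi2 Q.hM Q.hC (q := q) m
    (fun e => ¬ Clo uc (tL (P := P) i) (lS P i) e ∧ ¬ RfC r i psi C e) (fun _ => True)
    (LO6 uc dc (tL (P := P) i) (tU i) (lS P i) (uS P i)) hN (fun _ _ _ _ _ => trivial)
    (fun e he hc hn _ w s w1 s1 T T1 => Q.unique (spt_pa he) hn.1 (hsum e he) T T1)
    (fun e he hc hn _ w s T => by
      rcases Q.cls (spt_pa he) hc (hsum e he) with h | h | h | h | h
      · exact Cheap.mono (by omega) h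
      · exact h.2.1
      · exact absurd h hn.2
      · have h5 := LO6.ex Q.two h.2.2.2.2
        exact absurd T (no_tgp Q.H h5.v0 h5.a1 h5.b1)
      · exact absurd h.1 hn.1)
    (fun e he hc hn ht hL => by
      rcases Q.cls (spt_pa he) hc (hsum e he) with h | h | h | h | h
      · exact h
      · obtain ⟨-, -, w, s, T⟩ := h
        exact absurd T (ht trivial w s)
      · exact absurd h hn.2
      · exact absurd h.2.2.2.2 hL
      · exact absurd h.1 hn.1)
    (fun e he hL => by
      have h5 := LO6.ex Q.two hL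
      refine ⟨core_of_f1 Q.H h5.a1.f1 h5.b1.f1, ⟨hL.noClo Q.two, ?_⟩,
        fun _ w s => no_tgp Q.H h5.v0 h5.a1 h5.b1⟩
      rintro ⟨y, p, u, p', -, -, -, D, R | R⟩
      · exact no_refL Q.H D h5.a2 R
      · exact no_refU Q.H D h5.b2 R)
  convert key using 1
  congr!

open Classical in
theorem PS7.ref_level (Q : PS7 r i psi C) {q : ℕ} (hq : q ≤ 6) (m : ℕ) :
    dd ^ ((st i C).card - 1) ∣
      ∑ e ∈ (C.piAntidiag q).filter (fun e => IsCore i ∅ psi e ∧ RfC r i psi C e),
        J i psi C m e := by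
  have hsum : ∀ e ∈ C.piAntidiag q, ∑ x, e x ≤ 6 := fun e he => by
    rw [I2.mem_pa] at he
    omega
  by_cases hD : ∃ y p u p', p ∈ C ∧ p' ∈ C ∧ psi y = u ∧ RefD r i y p u p'
  · obtain ⟨y, p, u, p', hpC, hpC', hp, D⟩ := hD
    have h1 : (C.piAntidiag q).filter (fun e => IsCore i ∅ psi e ∧ RfC r i psi C e) =
        (C.piAntidiag q).filter (fun e => IsCore i ∅ psi e ∧
          (RefL e y p u p' ∨ RefU e y p u p')) := by
      refine filter_congr fun e _ => and_congr_right fun _ => ?_
      constructor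
      · rintro ⟨y1, p1, u1, p1', h1, h1', -, D1, h3⟩
        obtain ⟨rfl, rfl, rfl, rfl⟩ := Q.ref_unique D hpC hpC' D1 h1 h1'
        exact h3
      · intro h
        exact ⟨y, p, u, p', hpC, hpC', hp, D, h⟩
    rw [h1]
    have hpy : y ≠ p := D.py.lt.ne'
    refine asm_R Q.H Q.hi Q.hi2 Q.hM Q.hC D hp hpC hpC' (q := q) m
      (fun e he hc R => Q.c4 D hp hpC hpC' R (spt_pa he) hc (hsum e he))
      (fun e he hc R w s w1 s1 T T1 => ?_)
    have h4 := red_energy (e := e) hpy
    have h5 := R.hy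
    have h6 := R.hp
    have h7 := hsum e he
    by_cases hn : Clo uc (tL (P := P) i) (lS P i) (red y p e)
    · exact absurd T (no_tg_four Q.H hn (by omega))
    · exact Q.unique (spt_red (spt_pa he) y p) hn (by omega) T T1
  · rw [Finset.filter_eq_empty_iff.2, Finset.sum_empty]
    · exact dvd_zero _
    · rintro e he ⟨-, y, p, u, p', h1, h2, h3, D, -⟩
      exact hD ⟨y, p, u, p', h1, h2, h3, D⟩

open Classical in
/-- the cores of fixed energy -/
theorem PS7.level (Q : PS7 r i psi C) {q : ℕ} (hq : q ≤ 6) (m : ℕ) :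
    dd ^ ((st i C).card - 1) ∣
      ∑ e ∈ (C.piAntidiag q).filter (IsCore i ∅ psi), J i psi C m e -
        (∑ e ∈ (C.piAntidiag q).filter
          (LO6 uc dc (tL (P := P) i) (tU i) (lS P i) (uS P i)), J i psi C m e +
        ∑ e ∈ (C.piAntidiag q).filter (fun e => IsCore i ∅ psi e ∧ LA i e), J i psi C m e) := by
  rw [core_split (RfC r i psi C)]
  have h1 : ∑ e ∈ (C.piAntidiag q).filter (fun e => IsCore i ∅ psi e ∧ ¬ RfC r i psi C e),
      J i psi C m e =
      ∑ e ∈ (C.piAntidiag q).filter (fun e => IsCore i ∅ psi e ∧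
        Clo uc (tL (P := P) i) (lS P i) e ∧ ¬ RfC r i psi C e), J i psi C m e +
      ∑ e ∈ (C.piAntidiag q).filter (fun e => IsCore i ∅ psi e ∧
        (¬ Clo uc (tL (P := P) i) (lS P i) e ∧ ¬ RfC r i psi C e)), J i psi C m e := by
    rw [← Finset.sum_filter_add_sum_filter_not _ (Clo uc (tL (P := P) i) (lS P i)),
      Finset.filter_filter, Finset.filter_filter]
    congr 1
    · refine Finset.sum_congr ?_ fun _ _ => rfl
      refine filter_congr fun e _ => ?_
      tauto
    · refine Finset.sum_congr ?_ fun _ _ => rfl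
      refine filter_congr fun e _ => ?_
      tauto
  rw [h1]
  have h2 := dvd_add (dvd_add (Q.clo_level hq m) (Q.nclo_level hq m)) (Q.ref_level hq m)
  convert h2 using 1
  ring

end Pool.Agent.GaussPoset.Win.SO
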