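import Pool.Agent.W_448cl_h64.ClE
import Pool.Agent.W_448so_h63.FG

/-!
CLOSED PAIRS AT ENERGY SIX (MP_448cb3_co, G2): the window sums at the energies five and six.
-/

set_option autoImplicit false

namespace Pool.Agent.GaussPoset.Win.SO

set_option linter.unusedSectionVars false

open Finset
open Pool.Agent.GaussPoset.Win.I2 (lS uS mem_lS mem_uS side0_low)
open Pool.Agent.GaussPoset.Win.So
open Pool.Agent.GaussPoset.Win.Xg (CanD rk rk_inj)

universe u

variable {P : Type u} [Fintype P] [PartialOrder P] [DecidableEq P] {r i : ℕ} {psi : P → P}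
  {e : P → ℕ} {C : Finset P} {w w' x x' s : P}

/-- the data of a closed pair, the first element first -/
structure CP (i : ℕ) (w w' x x' s : P) : Prop where
  T : TD uc (tL (P := P) i) (lS P i) w x x' s
  T' : TD uc (tL (P := P) i) (lS P i) w' x x' s
  hr : rk w < rk w'

open Classical in
/-- the first elements of the closed pairs -/
noncomputable def CQ (i : ℕ) (C : Finset P) : Finset P :=
  C.filter (fun w => ∃ w' x x' s, w' ∈ C ∧ CP i w w' x x' s)

lemma mem_CQ : w ∈ CQ i C ↔ w ∈ C ∧ ∃ w' x x' s, w' ∈ C ∧ CP i w w' x x' s := by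
  classical
  unfold CQ
  rw [mem_filter]

/-- the labelling of type A over a closed pair -/
noncomputable def Aw (w : P) : P → ℕ := fun y =>
  if y = w then 1 else if uc y = uc w then 2 else if y ∈ uc w then 1 else 0

namespace CP

variable (H : Gr P r) (D : CP i w w' x x' s)
include D

lemma ne : w ≠ w' := rk_ne D.hr

lemma ucs : uc w' = uc w := by rw [D.T.cw, D.T'.cw]

include H

lemma lv : lev w = i + 2 ∧ lev w' = i + 2 ∧ lev x = i + 1 ∧ lev x' = i + 1 ∧ lev s = i := by
  have h := D.T.lx H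
  exact ⟨D.T.lw, D.T'.lw, h.1, h.2, D.T.site H (mem_union_left _ D.T.sx)⟩

lemma dcs : dc x = {w, w'} ∧ dc x' = {w, w'} := pair_dc H D.T D.T' D.ne

lemma uc_eq {y : P} (h : uc y = uc w) : y = w ∨ y = w' :=
  pair_first H D.T D.T' D.hr (by rw [h, D.T.cw])

/-- the values of the labelling of type A -/
lemma aw (y : P) : Aw w y = if y = w then 1 else if y = w' then 2 else
    if y = x ∨ y = x' then 1 else 0 := by
  unfold Aw
  by_cases h1 : y = w
  · rw [if_pos h1, if_pos h1]
  rw [if_neg h1, if_neg h1]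
  by_cases h2 : y = w'
  · rw [if_pos h2, if_pos (by rw [h2]; exact D.ucs)]
  · rw [if_neg h2, if_neg (fun h => by rcases D.uc_eq H h with g | g <;> [exact h1 g; exact h2 g])]
    rw [D.T.cw]
    simp only [mem_insert, mem_singleton]

lemma aw_w : Aw w w = 1 := by rw [D.aw H, if_pos rfl]

lemma aw_w' : Aw w w' = 2 := by rw [D.aw H, if_neg D.ne.symm, if_pos rfl]

lemma nx : x ≠ w ∧ x ≠ w' ∧ x' ≠ w ∧ x' ≠ w' := by
  have h := D.lv H
  refine ⟨?_, ?_, ?_, ?_⟩ <;> rintro rfl <;> omega

lemma aw_x : Aw w x = 1 := by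
  have h := D.nx H
  rw [D.aw H, if_neg h.1, if_neg h.2.1, if_pos (Or.inl rfl)]

lemma aw_x' : Aw w x' = 1 := by
  have h := D.nx H
  rw [D.aw H, if_neg h.2.2.1, if_neg h.2.2.2, if_pos (Or.inr rfl)]

lemma aw_zero {y : P} (h1 : y ≠ w) (h2 : y ≠ w') (h3 : y ≠ x) (h4 : y ≠ x') : Aw w y = 0 := by
  rw [D.aw H, if_neg h1, if_neg h2, if_neg (by tauto)]

lemma aw_pos {y : P} (h : 0 < Aw w y) : y = w ∨ y = w' ∨ y = x ∨ y = x' := by
  by_contra hc
  push Not at hc
  rw [D.aw_zero H hc.1 hc.2.1 hc.2.2.1 hc.2.2.2] at h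
  exact lt_irrefl _ h

lemma aw_sum : ∑ y, Aw w y = 5 := by
  have h := D.nx H
  have hn := D.ne
  have hx := D.T.ne
  have h1 : ∑ y, Aw w y = ∑ y ∈ ({w, w', x, x'} : Finset P), Aw w y := by
    symm
    refine Finset.sum_subset (subset_univ _) fun y _ hy => ?_
    simp only [mem_insert, mem_singleton, not_or] at hy
    exact D.aw_zero H hy.1 hy.2.1 hy.2.2.1 hy.2.2.2
  have n1 : w ∉ ({w', x, x'} : Finset P) := by
    simp only [mem_insert, mem_singleton, not_or]
    exact ⟨hn, h.1.symm, h.2.2.1.symm⟩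
  have n2 : w' ∉ ({x, x'} : Finset P) := by
    simp only [mem_insert, mem_singleton, not_or]
    exact ⟨h.2.1.symm, h.2.2.2.symm⟩
  rw [h1, sum_insert n1, sum_insert n2, sum_pair hx, D.aw_w H, D.aw_w' H, D.aw_x H, D.aw_x' H]
  norm_num

lemma mem (hC : Part (i + 1) C) (hw : w ∈ C) : x ∈ C ∧ x' ∈ C := by
  have hd := D.dcs H
  have hx : w ⋖ x := by rw [← mem_dc, hd.1]; simp
  have hx' : w ⋖ x' := by rw [← mem_dc, hd.2]; simp
  exact ⟨hC.up hw hx, hC.up hw hx'⟩

lemma aw_spt (hC : Part (i + 1) C) (hw : w ∈ C) (h1 : w' ∈ C) : Spt C (Aw w) := by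
  intro y hy
  by_contra h
  obtain ⟨h2, h3⟩ := D.mem H hC hw
  rcases D.aw_pos H (show 0 < Aw w y by omega) with rfl | rfl | rfl | rfl
  · exact hy hw
  · exact hy h1
  · exact hy h2
  · exact hy h3

/-- the labelling of type A is a core -/
lemma aw_core : IsCore i ∅ psi (Aw w) := by
  have h := D.lv H
  have hd := D.dcs H
  intro y hy
  obtain ⟨h1, -, h3, -⟩ := mem_Rst.1 hy
  by_contra hc
  rcases D.aw_pos H (show 0 < Aw w y by omega) with rfl | rfl | rfl | rfl
  · rcases mem_near.1 h1 with g | g <;> omega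
  · rcases mem_near.1 h1 with g | g <;> omega
  · apply h3
    rw [mem_Tch]
    exact Or.inl ⟨by omega, w, by rw [← mem_dc, hd.1]; simp, by rw [D.aw_w H]; omega⟩
  · apply h3
    rw [mem_Tch]
    exact Or.inl ⟨by omega, w, by rw [← mem_dc, hd.2]; simp, by rw [D.aw_w H]; omega⟩

lemma la_of (h : ∀ y, Aw w y ≤ e y) : LA i e := by
  refine ⟨w, w', x, x', s, D.T, D.T', D.hr, ?_, ?_, ?_, ?_⟩
  · have := h w; rw [D.aw_w H] at this; exact this
  · have := h w'; rw [D.aw_w' H] at this; exact this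
  · have := h x; rw [D.aw_x H] at this; exact this
  · have := h x'; rw [D.aw_x' H] at this; exact this

end CP

/-- labellings of type A are above one of the labellings `Aw w` -/
lemma LA.aw (H : Gr P r) (hs : Spt C e) (h : LA i e) : ∃ w ∈ CQ i C, ∀ y, Aw w y ≤ e y := by
  obtain ⟨w, w', x, x', s, T, T', hr, ew, ew', ex, ex'⟩ := h
  have D : CP i w w' x x' s := ⟨T, T', hr⟩
  refine ⟨w, mem_CQ.2 ⟨mem_of_spt hs (by omega), w', x, x', s, mem_of_spt hs (by omega), D⟩,
    fun y => ?_⟩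
  by_cases h0 : Aw w y = 0
  · omega
  rcases D.aw_pos H (show 0 < Aw w y by omega) with rfl | rfl | rfl | rfl
  · rw [D.aw_w H]; exact ew
  · rw [D.aw_w' H]; exact ew'
  · rw [D.aw_x H]; exact ex
  · rw [D.aw_x' H]; exact ex'

/-- uniqueness of the closed pair -/
lemma aw_unique (H : Gr P r) {w1 : P} (hw : w ∈ CQ i C) (hw1 : w1 ∈ CQ i C)
    (h : ∀ y, Aw w y ≤ e y) (h1 : ∀ y, Aw w1 y ≤ e y) (hE : ∑ x, e x ≤ 6) : w = w1 := by
  obtain ⟨-, w', x, x', s, hwC', D⟩ := mem_CQ.1 hw
  obtain ⟨-, w1', x1, x1', s1, -, D1⟩ := mem_CQ.1 hw1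
  by_contra hne
  have l := D.lv H
  have l1 := D1.lv H
  have e1 : 1 ≤ e w := by have := h w; rw [D.aw_w H] at this; exact this
  have e2 : 2 ≤ e w' := by have := h w'; rw [D.aw_w' H] at this; exact this
  have e3 : 1 ≤ e x := by have := h x; rw [D.aw_x H] at this; exact this
  have e3' : 1 ≤ e x' := by have := h x'; rw [D.aw_x' H] at this; exact this
  have e4 : 1 ≤ e w1 := by have := h1 w1; rw [D1.aw_w H] at this; exact this
  have e5 : 2 ≤ e w1' := by have := h1 w1'; rw [D1.aw_w' H] at this; exact this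
  by_cases hu : uc w1 = uc w
  · have hu' : uc w1' = uc w := by rw [D1.ucs, hu]
    rcases D.uc_eq H hu with g | g
    · exact hne g.symm
    · rcases D.uc_eq H hu' with g' | g'
      · have h2 := D.hr
        have h3 := D1.hr
        rw [g, g'] at h3
        omega
      · exact D1.ne (g.trans g'.symm)
  · have hu' : uc w1' ≠ uc w := by rw [D1.ucs]; exact hu
    have n1 : [w, w', w1, w1', x].Nodup := by
      have d1 := D.ne
      have d2 := D1.ne
      have d3 : w ≠ w1' := by rintro rfl; exact hu' rfl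
      have d4 : w' ≠ w1 := by rintro rfl; exact hu D.ucs
      have d5 : w' ≠ w1' := by rintro rfl; exact hu' D.ucs
      simp only [List.nodup_cons, List.mem_cons, List.not_mem_nil, or_false, not_or,
        List.nodup_nil, and_true, not_false_eq_true]
      and_intros
      all_goals first
        | assumption
        | (intro hnd; subst hnd; omega)
    have hT := So.tot (e := e) n1
    simp only [List.map_cons, List.sum_cons, List.map_nil, List.sum_nil] at hT
    omega

/-- a unit on a near element is free or the labelling is a core -/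
lemma core_single (H : Gr P r) (hc : IsCore i ∅ psi e) (z : P) :
    IsCore i ∅ psi (e + Pi.single z 1) ↔ z ∉ Rst i ∅ psi e := by
  constructor
  · intro h hz
    obtain ⟨h1, h2, h3, h4⟩ := mem_Rst.1 hz
    have hl : ∀ x, x ∉ near P i → (Pi.single z 1 : P → ℕ) x = 0 := by
      intro x hx
      rw [Pi.single_apply, if_neg (by rintro rfl; exact hx h1)]
    have hR : z ∈ Rst i ∅ psi (e + Pi.single z 1) := by
      rw [mem_Rst, CoreA_Tch H hl, CoreA_Tch H hl]
      exact ⟨h1, h2, h3, h4⟩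
    have := h z hR
    rw [Pi.add_apply, Pi.single_apply, if_pos rfl] at this
    omega
  · intro hz x hx
    obtain ⟨h1, h2, h3, h4⟩ := mem_Rst.1 hx
    have mono : ∀ y, y ∈ Tch i e → y ∈ Tch i (e + Pi.single z 1) := by
      intro y hy
      rw [mem_Tch] at hy ⊢
      rcases hy with ⟨g1, q, g2, g3⟩ | ⟨g1, q, g2, g3⟩
      · exact Or.inl ⟨g1, q, g2, by rw [Pi.add_apply]; omega⟩
      · exact Or.inr ⟨g1, q, g2, by rw [Pi.add_apply]; omega⟩
    have hR : x ∈ Rst i ∅ psi e := by
      rw [mem_Rst]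
      exact ⟨h1, h2, fun h => h3 (mono x h), fun h => h4 ⟨h.1, mono _ h.2⟩⟩
    have hxz : x ≠ z := by rintro rfl; exact hz hR
    rw [Pi.add_apply, Pi.single_apply, if_neg hxz, hc x hR, add_zero]

open Classical in
/-- the cores of type A at the energy five -/
theorem la_five (Q : PS7 r i psi C) {M : Type*} [AddCommMonoid M] (f : (P → ℕ) → M) :
    ∑ e ∈ (C.piAntidiag 5).filter (fun e => IsCore i ∅ psi e ∧ LA i e), f e =
      ∑ w ∈ CQ i C, f (Aw w) := by
  have H := Q.H
  have h1 : (C.piAntidiag 5).filter (fun e => IsCore i ∅ psi e ∧ LA i e) =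
      (CQ i C).image Aw := by
    ext e
    rw [mem_filter, mem_image, mem_piA]
    constructor
    · rintro ⟨⟨a1, a2⟩, a3, a4⟩
      obtain ⟨w, hw, h⟩ := a4.aw H a2
      obtain ⟨-, w', x, x', s, hwC', D⟩ := mem_CQ.1 hw
      refine ⟨w, hw, ?_⟩
      exact (eq_of_sum h (by rw [a1, D.aw_sum H])).symm
    · rintro ⟨w, hw, rfl⟩
      obtain ⟨hwC, w', x, x', s, hwC', D⟩ := mem_CQ.1 hw
      exact ⟨⟨D.aw_sum H, D.aw_spt H Q.hC hwC hwC'⟩, D.aw_core H, D.la_of H fun _ => le_rfl⟩
  rw [h1, sum_image]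
  intro a ha b hb h
  obtain ⟨-, w', x, x', s, hwC', D⟩ := mem_CQ.1 ha
  exact aw_unique H ha hb (fun _ => le_rfl) (fun y => by rw [h]) (by rw [D.aw_sum H]; omega)

open Classical in
/-- the cores of type A at the energy six -/
theorem la_six (Q : PS7 r i psi C) {M : Type*} [AddCommMonoid M] (f : (P → ℕ) → M) :
    ∑ e ∈ (C.piAntidiag 6).filter (fun e => IsCore i ∅ psi e ∧ LA i e), f e =
      ∑ w ∈ CQ i C, ∑ z ∈ C.filter (fun z => z ∉ Rst i ∅ psi (Aw w)),
        f (Aw w + Pi.single z 1) := by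
  have H := Q.H
  rw [Finset.sum_sigma']
  symm
  refine Finset.sum_bij (fun p _ => Aw p.1 + Pi.single p.2 1) ?_ ?_ ?_ (fun _ _ => rfl)
  · rintro ⟨w, z⟩ hp
    rw [mem_sigma, mem_filter] at hp
    obtain ⟨hw, hz, hR⟩ := hp
    simp only at hw hz hR ⊢
    obtain ⟨hwC, w', x, x', s, hwC', D⟩ := mem_CQ.1 hw
    rw [mem_filter, mem_piA]
    refine ⟨⟨?_, ?_⟩, (core_single H (D.aw_core H) z).2 hR, D.la_of H fun y => by
      rw [Pi.add_apply]; omega⟩
    · simp only [Pi.add_apply]
      rw [sum_add_distrib, D.aw_sum H, sum_single_one]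
    · intro y hy
      rw [Pi.add_apply, D.aw_spt H Q.hC hwC hwC' y hy, Pi.single_apply,
        if_neg (by rintro rfl; exact hy hz), add_zero]
  · rintro ⟨w, z⟩ hp ⟨w1, z1⟩ hp1 h
    rw [mem_sigma, mem_filter] at hp hp1
    simp only at hp hp1 h
    obtain ⟨hwC, w', x, x', s, hwC', D⟩ := mem_CQ.1 hp.1
    have h2 : w = w1 := by
      refine aw_unique H (e := Aw w + Pi.single z 1) hp.1 hp1.1 (fun y => ?_) (fun y => ?_) ?_
      · rw [Pi.add_apply]; omega
      · rw [h, Pi.add_apply]; omega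
      · simp only [Pi.add_apply]
        rw [sum_add_distrib, D.aw_sum H, sum_single_one]
    subst h2
    have h3 := add_left_cancel h
    have h4 : z = z1 := by
      by_contra hne
      have := congrFun h3 z
      rw [Pi.single_apply, Pi.single_apply, if_pos rfl, if_neg hne] at this
      exact one_ne_zero this
    subst h4
    rfl
  · intro e he
    rw [mem_filter, mem_piA] at he
    obtain ⟨⟨a1, a2⟩, a3, a4⟩ := he
    obtain ⟨w, hw, h⟩ := a4.aw H a2
    obtain ⟨hwC, w', x, x', s, hwC', D⟩ := mem_CQ.1 hw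
    obtain ⟨z, hz⟩ := eq_add_single h (by rw [a1, D.aw_sum H])
    refine ⟨⟨w, z⟩, ?_, hz.symm⟩
    rw [mem_sigma, mem_filter]
    refine ⟨hw, ?_, ?_⟩
    · by_contra hzC
      have := a2 z hzC
      rw [hz, Pi.add_apply, Pi.single_apply, if_pos rfl] at this
      omega
    · rw [hz] at a3
      exact (core_single H (D.aw_core H) z).1 a3

open Classical in
/-- THE WINDOW SUM AT THE ENERGY SIX -/
theorem PS7.main6 (Q : PS7 r i psi C) :
    dd ^ ((st i C).card - 1) ∣ ZC i C 6 -
      (∑ e ∈ (C.piAntidiag 6).filter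
        (LO6 uc dc (tL (P := P) i) (tU i) (lS P i) (uS P i)), tC i C e +
      ∑ w ∈ CQ i C, ∑ z ∈ C, tC i C (Aw w + Pi.single z 1)) := by
  have H := Q.H
  have hir : i ≤ r := by have := Q.hi2; omega
  have hC0 : Part i C := Q.hC.pred
  set L : (P → ℕ) → Prop := LO6 uc dc (tL (P := P) i) (tU i) (lS P i) (uS P i) with hL
  set F : ℕ → A := fun q => ∑ e ∈ (C.piAntidiag q).filter L, J i psi C (6 - q) e +
    ∑ e ∈ (C.piAntidiag q).filter (fun e => IsCore i ∅ psi e ∧ LA i e), J i psi C (6 - q) e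
    with hF
  have h1 : dd ^ ((st i C).card - 1) ∣ ZC i C 6 - ∑ q ∈ range (6 + 1), F q := by
    rw [ZC_cores H hir psi hC0 6, ← Finset.sum_sub_distrib]
    refine Finset.dvd_sum fun q hq => ?_
    rw [mem_range] at hq
    exact Q.level (by omega) _
  have hz : ∀ q ∈ range 5, F q = 0 := by
    intro q hq
    rw [mem_range] at hq
    simp only [hF]
    rw [Finset.filter_eq_empty_iff.2, Finset.filter_eq_empty_iff.2, Finset.sum_empty,
      add_zero]
    · rintro e he ⟨-, h⟩
      have := h.five H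
      rw [I2.mem_pa] at he
      omega
    · intro e he h
      have := (LO6.ex Q.two h).E
      rw [I2.mem_pa] at he
      omega
  have h5 : F 5 = ∑ w ∈ CQ i C, ∑ z ∈ C.filter (fun z => z ∈ Rst i ∅ psi (Aw w)),
      tC i C (Aw w + Pi.single z 1) := by
    simp only [hF]
    rw [Finset.filter_eq_empty_iff.2, Finset.sum_empty, zero_add, la_five Q]
    · refine sum_congr rfl fun w hw => ?_
      obtain ⟨hwC, w', x, x', s, hwC', D⟩ := mem_CQ.1 hw
      have hJ : J i psi C (6 - 5) (Aw w) = W4.JK i ∅ psi C 1 (Aw w) := rfl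
      rw [hJ, Xg.JK_sum H hir hC0 (D.aw_spt H Q.hC hwC hwC') (D.aw_core H), sum_pa_one]
      refine sum_congr ?_ fun _ _ => rfl
      ext z
      rw [W4.mem_RK, mem_filter]
      tauto
    · intro e he h
      have := (LO6.ex Q.two h).E
      rw [I2.mem_pa] at he
      omega
  have h6 : F 6 = ∑ e ∈ (C.piAntidiag 6).filter L, tC i C e +
      ∑ w ∈ CQ i C, ∑ z ∈ C.filter (fun z => z ∉ Rst i ∅ psi (Aw w)),
        tC i C (Aw w + Pi.single z 1) := by
    simp only [hF]
    congr 1
    · refine sum_congr rfl fun e he => ?_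
      rw [Nat.sub_self, J_zero H hir hC0 (spt_pa (mem_filter.1 he).1)]
    · rw [← la_six Q (tC i C)]
      refine sum_congr rfl fun e he => ?_
      rw [Nat.sub_self, J_zero H hir hC0 (spt_pa (mem_filter.1 he).1)]
  have h7 : ∑ q ∈ range (6 + 1), F q = ∑ e ∈ (C.piAntidiag 6).filter L, tC i C e +
      ∑ w ∈ CQ i C, ∑ z ∈ C, tC i C (Aw w + Pi.single z 1) := by
    rw [Finset.sum_range_succ, Finset.sum_range_succ, Finset.sum_eq_zero hz, zero_add, h5, h6,
      add_left_comm, ← sum_add_distrib]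
    congr 1
    refine sum_congr rfl fun w _ => ?_
    exact Finset.sum_filter_add_sum_filter_not _ _ _
  rw [h7] at h1
  exact h1

open Classical in
/-- THE WINDOW SUMS up to the energy five -/
theorem PS7.main5 (Q : PS7 r i psi C) {n : ℕ} (hn : n ≤ 5) :
    dd ^ ((st i C).card - 1) ∣ ZC i C n -
      ∑ e ∈ (C.piAntidiag n).filter (fun e => IsCore i ∅ psi e ∧ LA i e), tC i C e := by
  have hi2 := Q.hi2
  have key := ZC_sub (psi := psi) (n := n) (k := (st i C).card - 1) Q.H (by omega) Q.hC.pred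
    (fun e => IsCore i ∅ psi e ∧ LA i e) ?_ ?_
  · convert key using 1
    congr!
  · rintro q hq e he ⟨-, h⟩
    have h1 := h.five Q.H
    rw [I2.mem_pa] at he
    omega
  · intro q hq
    have h1 := Q.level (q := q) (by omega) (n - q)
    have h2 : (C.piAntidiag q).filter (LO6 uc dc (tL (P := P) i) (tU i) (lS P i) (uS P i)) = ∅ := by
      rw [Finset.filter_eq_empty_iff]
      intro e he h
      have := (LO6.ex Q.two h).E
      rw [I2.mem_pa] at he
      omega
    rw [h2, Finset.sum_empty, zero_add] at h1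
    convert h1 using 1
    congr!

end Pool.Agent.GaussPoset.Win.SO
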