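import Pool.Agent.W_448cl_h64.ClF
import Pool.Agent.W_448so_h63.FF

/-!
CLOSED PAIRS AT ENERGY SIX (MP_448cb3_co, G2): the labelling of type A plus one unit.
-/

set_option autoImplicit false

namespace Pool.Agent.GaussPoset.Win.SO

set_option linter.unusedSectionVars false

open Finset
open Pool.Agent.GaussPoset.Win.I2 (lS uS mem_lS mem_uS side0_low)
open Pool.Agent.GaussPoset.Win.So (coeff_dd c0_units c1_xx xx_c xi_n)
open Pool.Agent.GaussPoset.Win.Xg (rk)

universe u

variable {P : Type u} [Fintype P] [PartialOrder P] [DecidableEq P] {r i : ℕ} {psi : P → P}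
  {e f : P → ℕ} {C : Finset P} {w w' x x' s z : P} {K F B K' F' B' : Finset P}

/-- the coefficient of a labelling of a part -/
theorem coeff_tC (H : Gr P r) (hC : Part (i + 1) C) (hs : Spt C e)
    (D : LowD i e K F B) (D' : UppD i e K' F' B') (hd : Disjoint B B') (t : ℕ) :
    PowerSeries.coeff (st i C).card (dd ^ t * tC i C e : A) =
      if F.card + F'.card + t ≤ B.card + B'.card then
        PowerSeries.coeff (B.card + B'.card - (F.card + F'.card + t))
          (xx ^ (K.card + B.card) * xi ^ (K'.card + F'.card) : A) else 0 := by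
  classical
  have hCi : Part i C := hC.pred
  have hdis : Disjoint (AL i e) (AU i e) := by rw [D.AL_eq, D'.AU_eq]; exact hd
  have s1 : B ∪ B' ⊆ st i C := by
    rw [← D.AL_eq, ← D'.AU_eq]
    exact union_subset (AL_sub hCi hs) (AU_sub H hCi hs)
  have s2 := card_le_card s1
  rw [card_union_of_disjoint hd] at s2
  have ht : tC i C e = dd ^ (F.card + F'.card + ((st i C).card - B.card - B'.card)) *
      (xx ^ (K.card + B.card) * xi ^ (K'.card + F'.card)) := by
    unfold tC cw
    rw [if_pos hdis, if_pos ⟨D.adm, D'.adm⟩, D.aL_eq, D.pL_eq, D.AL_eq, D'.aU_eq, D'.pU_eq,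
      D'.AU_eq, pow_add (dd : A) (F.card + F'.card), pow_add (xx : A)]
    ring
  rw [ht, ← mul_assoc, ← pow_add, coeff_dd]
  by_cases h : F.card + F'.card + t ≤ B.card + B'.card
  · rw [if_pos h, if_pos (by omega)]
    congr 1
    congr 1
    omega
  · rw [if_neg h, if_neg (by omega)]

lemma tC_zero_adm (h : ¬ (AdmL i e ∧ AdmU i e)) : tC i C e = 0 := by
  unfold tC cw
  split_ifs
  · rw [zero_mul]
  · rfl

lemma tC_zero_dis (D : LowD i e K F B) (D' : UppD i e K' F' B') (hd : ¬ Disjoint B B') :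
    tC i C e = 0 := by
  unfold tC
  rw [if_neg]
  rw [D.AL_eq, D'.AU_eq]
  exact hd

/-- one near upper element with label one -/
lemma upp_one (H : Gr P r) (hir : i ≤ r) (hl : lev z + 1 = i) (h1 : e z = 1)
    (h0 : ∀ y, lev y ≤ i → y ≠ z → e y = 0) : UppD i e ∅ {z} (dc z) := by
  refine ⟨?_, ?_, ?_, ?_, ?_, ?_⟩
  · intro v hv
    refine ⟨?_, fun h => absurd h (notMem_empty v)⟩
    rintro ⟨y, hy, hlt⟩
    exfalso
    have ly := lev_cov H hy
    rw [h0 y (by omega) (by rintro rfl; omega)] at hlt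
    omega
  · intro v hv
    rw [mem_dc]
    constructor
    · rintro ⟨y, hy, hlt⟩
      have ly := lev_cov H hy
      by_contra h
      have hyx : y ≠ z := by rintro rfl; exact h hy
      rw [h0 y (by omega) hyx] at hlt
      omega
    · intro h
      exact ⟨z, h, by rw [h1, h0 v hv.le (by rintro rfl; omega)]; exact Nat.zero_lt_one⟩
  · intro v hv
    rw [mem_singleton]
    constructor
    · rintro ⟨y, hy, hle⟩
      refine ⟨notMem_empty v, ?_⟩
      rintro rfl
      have ly := lev_cov H hy
      rw [h1, h0 y (by omega) (by rintro rfl; omega)] at hle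
      omega
    · rintro ⟨-, h⟩
      obtain ⟨y, hy⟩ := dc_nonempty H (x := v) (by omega)
      refine ⟨y, mem_dc.1 hy, ?_⟩
      rw [h0 v (by omega) h]
      exact Nat.zero_le _
  · exact fun v hv => absurd hv (notMem_empty v)
  · intro v hv
    rw [mem_singleton] at hv
    subst hv
    exact ⟨by omega, notMem_empty v⟩
  · intro v hv
    have := lev_dc H hv
    omega

/-- a far upper element with label one, nothing else above the window: not admissible -/
lemma upp_bad (H : Gr P r) (hir : i ≤ r) (hl : lev z + 1 < i) (h1 : 1 ≤ e z)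
    (h0 : ∀ y, lev y ≤ i → y ≠ z → e y = 0) : ¬ AdmU i e := by
  intro hA
  obtain ⟨y, hy⟩ := dc_nonempty H (x := z) (by omega)
  have ly := lev_cov H (mem_dc.1 hy)
  have hyz : y ≠ z := by rintro rfl; omega
  apply hA y (by omega)
  constructor
  · exact ⟨z, mem_dc.1 hy, by rw [h0 y (by omega) hyz]; omega⟩
  · obtain ⟨v, hv⟩ := dc_nonempty H (x := y) (by omega)
    exact ⟨v, mem_dc.1 hv, by rw [h0 y (by omega) hyz]; exact Nat.zero_le _⟩

namespace CP

variable (H : Gr P r) (D : CP i w w' x x' s)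
include D H

open Classical in
/-- labels of type A with further labels one on `X` -/
theorem low {X : Finset P} (hw : f w = 1) (hw' : 2 ≤ f w') (hx : f x = 1) (hx' : f x' = 1)
    (h0 : ∀ y, i < lev y → y ≠ w → y ≠ w' → y ≠ x → y ≠ x' → y ∉ X → f y = 0)
    (hX : ∀ y ∈ X, f y = 1 ∧ i < lev y ∧ y ≠ w ∧ y ≠ w' ∧ y ≠ x ∧ y ≠ x')
    (hXc : ∀ y ∈ X, i + 1 < lev y → ∀ v, y ⋖ v → 1 ≤ f v)
    (hsT : ∀ v ∈ uc x ∪ uc x', f v = 0)
    (hsX : ∀ y ∈ X, lev y = i + 1 → ∀ v ∈ uc y, f v = 0) :
    LowD i f {x, x'} (insert w' (X.filter (fun y => lev y = i + 1)))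
      ((uc x ∪ uc x') ∪ (X.filter (fun y => lev y = i + 1)).biUnion uc) := by
  obtain ⟨lw, lw', lx, lx', ls⟩ := D.lv H
  obtain ⟨dx, dx'⟩ := D.dcs H
  have hwx : w ⋖ x := by rw [← mem_dc, dx]; simp
  have hw'x : w' ⋖ x := by rw [← mem_dc, dx]; simp
  have hw'x' : w' ⋖ x' := by rw [← mem_dc, dx']; simp
  have hpos : ∀ y, i < lev y → 0 < f y → y = w ∨ y = w' ∨ y = x ∨ y = x' ∨ y ∈ X := by
    intro y hy h
    by_contra hc
    push Not at hc
    rw [h0 y hy hc.1 hc.2.1 hc.2.2.1 hc.2.2.2.1 hc.2.2.2.2] at h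
    exact lt_irrefl _ h
  refine ⟨?_, ?_, ?_, ?_, ?_, ?_⟩
  · intro v hv
    rw [mem_insert, mem_singleton]
    constructor
    · rintro ⟨y, hy, hlt⟩
      have hl := lev_cov H hy
      rcases hpos y (by omega) (by omega) with rfl | rfl | rfl | rfl | h
      · rw [← mem_uc, D.T.cw, mem_insert, mem_singleton] at hy
        exact hy
      · rw [← mem_uc, D.T'.cw, mem_insert, mem_singleton] at hy
        exact hy
      · omega
      · omega
      · exfalso
        have h1 := hXc y h (by omega) v hy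
        have h2 := (hX y h).1
        omega
    · rintro (rfl | rfl)
      · exact ⟨w', hw'x, by omega⟩
      · exact ⟨w', hw'x', by omega⟩
  · intro v hv
    rw [mem_union, mem_union, mem_biUnion]
    constructor
    · rintro ⟨y, hy, hlt⟩
      have hl := lev_cov H hy
      rcases hpos y (by omega) (by omega) with rfl | rfl | rfl | rfl | h
      · omega
      · omega
      · exact Or.inl (Or.inl (mem_uc.2 hy))
      · exact Or.inl (Or.inr (mem_uc.2 hy))
      · exact Or.inr ⟨y, mem_filter.2 ⟨h, by omega⟩, mem_uc.2 hy⟩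
    · rintro ((h | h) | ⟨y, hy, h⟩)
      · exact ⟨x, mem_uc.1 h, by rw [hsT v (mem_union_left _ h)]; omega⟩
      · exact ⟨x', mem_uc.1 h, by rw [hsT v (mem_union_right _ h)]; omega⟩
      · rw [mem_filter] at hy
        exact ⟨y, mem_uc.1 h, by rw [hsX y hy.1 hy.2 v h, (hX y hy.1).1]; omega⟩
  · intro v hv
    rw [mem_insert, mem_singleton, mem_insert, mem_filter]
    constructor
    · rintro ⟨y, hy, hle⟩
      have hl := lev_cov H hy
      refine ⟨?_, ?_⟩
      · rintro (rfl | rfl)
        · rw [hsT y (mem_union_left _ (mem_uc.2 hy))] at hle; omega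
        · rw [hsT y (mem_union_right _ (mem_uc.2 hy))] at hle; omega
      · rintro (rfl | ⟨h1, h2⟩)
        · rw [← mem_uc, D.T'.cw, mem_insert, mem_singleton] at hy
          rcases hy with rfl | rfl <;> omega
        · rw [(hX v h1).1, hsX v h1 h2 y (mem_uc.2 hy)] at hle
          omega
    · rintro ⟨h1, h2⟩
      push Not at h1 h2
      by_cases h3 : v = w
      · subst h3
        exact ⟨x, hwx, by omega⟩
      · obtain ⟨y, hy⟩ := uc_nonempty H (x := v) (by omega)
        refine ⟨y, mem_uc.1 hy, ?_⟩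
        by_cases h4 : v ∈ X
        · have h5 := h2.2 h4
          rw [(hX v h4).1]
          exact hXc v h4 (by omega) y (mem_uc.1 hy)
        · rw [h0 v hv h3 h2.1 h1.1 h1.2 h4]
          exact Nat.zero_le _
  · intro v hv
    rw [mem_insert, mem_singleton] at hv
    rcases hv with rfl | rfl <;> omega
  · intro v hv
    rw [mem_insert, mem_filter] at hv
    rw [mem_insert, mem_singleton]
    rcases hv with rfl | ⟨h1, h2⟩
    · refine ⟨by omega, ?_⟩
      rintro (rfl | rfl) <;> omega
    · obtain ⟨-, a1, a2, a3, a4, a5⟩ := hX v h1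
      exact ⟨a1, by tauto⟩
  · intro v hv
    rw [mem_union, mem_biUnion] at hv
    rcases hv with h | ⟨y, hy, h⟩
    · exact D.T.site H h
    · rw [mem_filter] at hy
      have := lev_uc H h
      omega

/-- both elements of the pair are free -/
theorem low_ww (hw : 2 ≤ f w) (hw' : 2 ≤ f w') (hx : f x = 1) (hx' : f x' = 1)
    (h0 : ∀ y, y ≠ w → y ≠ w' → y ≠ x → y ≠ x' → f y = 0) :
    LowD i f {x, x'} {w, w'} (uc x ∪ uc x') := by
  obtain ⟨lw, lw', lx, lx', ls⟩ := D.lv H
  obtain ⟨dx, dx'⟩ := D.dcs H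
  have hw'x : w' ⋖ x := by rw [← mem_dc, dx]; simp
  have hw'x' : w' ⋖ x' := by rw [← mem_dc, dx']; simp
  have hpos : ∀ y, 0 < f y → y = w ∨ y = w' ∨ y = x ∨ y = x' := by
    intro y h
    by_contra hc
    push Not at hc
    rw [h0 y hc.1 hc.2.1 hc.2.2.1 hc.2.2.2] at h
    exact lt_irrefl _ h
  have hsite : ∀ v, lev v = i → f v = 0 := by
    intro v hv
    refine h0 v ?_ ?_ ?_ ?_ <;> rintro rfl <;> omega
  refine ⟨?_, ?_, ?_, ?_, ?_, ?_⟩
  · intro v hv
    rw [mem_insert, mem_singleton]
    constructor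
    · rintro ⟨y, hy, hlt⟩
      have hl := lev_cov H hy
      rcases hpos y (by omega) with rfl | rfl | rfl | rfl
      · rw [← mem_uc, D.T.cw, mem_insert, mem_singleton] at hy
        exact hy
      · rw [← mem_uc, D.T'.cw, mem_insert, mem_singleton] at hy
        exact hy
      · omega
      · omega
    · rintro (rfl | rfl)
      · exact ⟨w', hw'x, by omega⟩
      · exact ⟨w', hw'x', by omega⟩
  · intro v hv
    rw [mem_union]
    constructor
    · rintro ⟨y, hy, hlt⟩
      have hl := lev_cov H hy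
      rcases hpos y (by omega) with rfl | rfl | rfl | rfl
      · omega
      · omega
      · exact Or.inl (mem_uc.2 hy)
      · exact Or.inr (mem_uc.2 hy)
    · rintro (h | h)
      · exact ⟨x, mem_uc.1 h, by rw [hsite v hv]; omega⟩
      · exact ⟨x', mem_uc.1 h, by rw [hsite v hv]; omega⟩
  · intro v hv
    simp only [mem_insert, mem_singleton]
    constructor
    · rintro ⟨y, hy, hle⟩
      have hl := lev_cov H hy
      refine ⟨?_, ?_⟩
      · rintro (rfl | rfl)
        · rw [hsite y (by omega)] at hle; omega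
        · rw [hsite y (by omega)] at hle; omega
      · rintro (rfl | rfl)
        · rw [← mem_uc, D.T.cw, mem_insert, mem_singleton] at hy
          rcases hy with rfl | rfl <;> omega
        · rw [← mem_uc, D.T'.cw, mem_insert, mem_singleton] at hy
          rcases hy with rfl | rfl <;> omega
    · rintro ⟨h1, h2⟩
      push Not at h1 h2
      obtain ⟨y, hy⟩ := uc_nonempty H (x := v) (by omega)
      refine ⟨y, mem_uc.1 hy, ?_⟩
      rw [h0 v h2.1 h2.2 h1.1 h1.2]
      exact Nat.zero_le _
  · intro v hv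
    rw [mem_insert, mem_singleton] at hv
    rcases hv with rfl | rfl <;> omega
  · intro v hv
    rw [mem_insert, mem_singleton] at hv
    rw [mem_insert, mem_singleton]
    rcases hv with rfl | rfl
    · refine ⟨by omega, ?_⟩
      rintro (rfl | rfl) <;> omega
    · refine ⟨by omega, ?_⟩
      rintro (rfl | rfl) <;> omega
  · intro v hv
    exact D.T.site H hv

/-- the label of `x` is two -/
theorem low_x (hw : f w = 1) (hw' : f w' = 2) (hx : f x = 2) (hx' : f x' = 1)
    (h0 : ∀ y, y ≠ w → y ≠ w' → y ≠ x → y ≠ x' → f y = 0) :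
    LowD i f {x'} {x} (uc x ∪ uc x') := by
  obtain ⟨lw, lw', lx, lx', ls⟩ := D.lv H
  obtain ⟨dx, dx'⟩ := D.dcs H
  have hwx : w ⋖ x := by rw [← mem_dc, dx]; simp
  have hw'x : w' ⋖ x := by rw [← mem_dc, dx]; simp
  have hw'x' : w' ⋖ x' := by rw [← mem_dc, dx']; simp
  have hpos : ∀ y, 0 < f y → y = w ∨ y = w' ∨ y = x ∨ y = x' := by
    intro y h
    by_contra hc
    push Not at hc
    rw [h0 y hc.1 hc.2.1 hc.2.2.1 hc.2.2.2] at h
    exact lt_irrefl _ h
  have hsite : ∀ v, lev v = i → f v = 0 := by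
    intro v hv
    refine h0 v ?_ ?_ ?_ ?_ <;> rintro rfl <;> omega
  refine ⟨?_, ?_, ?_, ?_, ?_, ?_⟩
  · intro v hv
    rw [mem_singleton]
    constructor
    · rintro ⟨y, hy, hlt⟩
      have hl := lev_cov H hy
      rcases hpos y (by omega) with rfl | rfl | rfl | rfl
      · rw [← mem_uc, D.T.cw, mem_insert, mem_singleton] at hy
        rcases hy with rfl | rfl
        · omega
        · rfl
      · rw [← mem_uc, D.T'.cw, mem_insert, mem_singleton] at hy
        rcases hy with rfl | rfl
        · omega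
        · rfl
      · omega
      · omega
    · rintro rfl
      exact ⟨w', hw'x', by omega⟩
  · intro v hv
    rw [mem_union]
    constructor
    · rintro ⟨y, hy, hlt⟩
      have hl := lev_cov H hy
      rcases hpos y (by omega) with rfl | rfl | rfl | rfl
      · omega
      · omega
      · exact Or.inl (mem_uc.2 hy)
      · exact Or.inr (mem_uc.2 hy)
    · rintro (h | h)
      · exact ⟨x, mem_uc.1 h, by rw [hsite v hv]; omega⟩
      · exact ⟨x', mem_uc.1 h, by rw [hsite v hv]; omega⟩
  · intro v hv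
    simp only [mem_singleton]
    constructor
    · rintro ⟨y, hy, hle⟩
      have hl := lev_cov H hy
      refine ⟨?_, ?_⟩
      · rintro rfl
        rw [hsite y (by omega)] at hle; omega
      · rintro rfl
        rw [hsite y (by omega)] at hle; omega
    · rintro ⟨h1, h2⟩
      by_cases h3 : v = w
      · subst h3
        exact ⟨x, hwx, by omega⟩
      by_cases h4 : v = w'
      · subst h4
        exact ⟨x, hw'x, by omega⟩
      obtain ⟨y, hy⟩ := uc_nonempty H (x := v) (by omega)
      refine ⟨y, mem_uc.1 hy, ?_⟩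
      rw [h0 v h3 h4 h2 h1]
      exact Nat.zero_le _
  · intro v hv
    rw [mem_singleton] at hv
    rw [hv]
    omega
  · intro v hv
    rw [mem_singleton] at hv
    rw [mem_singleton, hv]
    exact ⟨by omega, D.T.ne⟩
  · intro v hv
    exact D.T.site H hv

end CP

/-- the data with the doubles exchanged -/
lemma CP.symm (D : CP i w w' x x' s) : CP i w w' x' x s := by
  refine ⟨⟨D.T.m, D.T.tw, by rw [D.T.cw, pair_comm], D.T.ne.symm, D.T.cx', D.T.cx, D.T.sx',
    D.T.sx, fun v h1 h2 => D.T.only v h2 h1⟩, ⟨D.T'.m, D.T'.tw, by rw [D.T'.cw, pair_comm],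
    D.T'.ne.symm, D.T'.cx', D.T'.cx, D.T'.sx', D.T'.sx, fun v h1 h2 => D.T'.only v h2 h1⟩, D.hr⟩

lemma ad_self : (Aw w + Pi.single z 1 : P → ℕ) z = Aw w z + 1 := by
  rw [Pi.add_apply, Pi.single_apply, if_pos rfl]

lemma ad_ne {y : P} (h : y ≠ z) : (Aw w + Pi.single z 1 : P → ℕ) y = Aw w y := by
  rw [Pi.add_apply, Pi.single_apply, if_neg h, add_zero]

end Pool.Agent.GaussPoset.Win.SO
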