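import Pool.Agent.W_448cl_h64.ClG

/-!
CLOSED PAIRS AT ENERGY SIX (MP_448cb3_co, G2): the sum over one more unit.
-/

set_option autoImplicit false

namespace Pool.Agent.GaussPoset.Win.SO

set_option linter.unusedSectionVars false

open Finset
open Pool.Agent.GaussPoset.Win.I2 (lS uS mem_lS mem_uS side0_low)
open Pool.Agent.GaussPoset.Win.So (coeff_dd c0_units c1_xx xx_c xi_n en en_site en_low en_upp
  en_none en_bad en_badU con_empty)
open Pool.Agent.GaussPoset.Win.Xg (rk)

universe u

variable {P : Type u} [Fintype P] [PartialOrder P] [DecidableEq P] {r i : ℕ} {psi : P → P}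
  {e f : P → ℕ} {C : Finset P} {w w' x x' s z : P} {K F B K' F' B' : Finset P}

theorem coeff_tC2 (H : Gr P r) (hC : Part (i + 1) C) (hs : Spt C e)
    (D : LowD i e K F B) (D' : UppD i e K' F' B') (hd : Disjoint B B') {t : ℕ}
    (h : B.card + B'.card = F.card + F'.card + t) :
    PowerSeries.coeff (st i C).card (dd ^ t * tC i C e : A) =
      (-1) ^ (K.card + B.card + (K'.card + F'.card)) := by
  rw [coeff_tC H hC hs D D' hd, if_pos (by omega),
    show B.card + B'.card - (F.card + F'.card + t) = 0 by omega, c0_units]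

theorem coeff_tC1 (H : Gr P r) (hC : Part (i + 1) C) (hs : Spt C e)
    (D : LowD i e K F B) (D' : UppD i e K' F' B') (hd : Disjoint B B') {t : ℕ}
    (h : B.card + B'.card = F.card + F'.card + t + 1) :
    PowerSeries.coeff (st i C).card (dd ^ t * tC i C e : A) =
      PowerSeries.coeff 1 (xx ^ (K.card + B.card) * xi ^ (K'.card + F'.card) : A) := by
  rw [coeff_tC H hC hs D D' hd, if_pos (by omega),
    show B.card + B'.card - (F.card + F'.card + t) = 1 by omega]

theorem coeff_tC0 (H : Gr P r) (hC : Part (i + 1) C) (hs : Spt C e)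
    (D : LowD i e K F B) (D' : UppD i e K' F' B') (hd : Disjoint B B') {t : ℕ}
    (h : B.card + B'.card < F.card + F'.card + t) :
    PowerSeries.coeff (st i C).card (dd ^ t * tC i C e : A) = 0 := by
  rw [coeff_tC H hC hs D D' hd, if_neg (by omega)]

/-- the value of one unit at `z` -/
noncomputable def unv (i : ℕ) (C : Finset P) (z : P) : ℤ :=
  PowerSeries.coeff (st i C).card (tC i C (Pi.single z 1) : A)

/-- the value of one unit at `z` over the labelling of type A -/
noncomputable def phv (i : ℕ) (C : Finset P) (w z : P) : ℤ :=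
  PowerSeries.coeff (st i C).card (dd ^ 2 * tC i C (Aw w + Pi.single z 1) : A)

lemma single_en (z : P) : (Pi.single z 1 : P → ℕ) = en ∅ z := by
  funext y
  unfold en
  rw [Pi.single_apply, if_neg (notMem_empty y), zero_add]

lemma spt_en (hz : z ∈ C) : Spt C (en ∅ z) := by
  intro y hy
  unfold en
  rw [if_neg (notMem_empty y), if_neg (by rintro rfl; exact hy hz)]

section unit

variable (H : Gr P r) (hir : i ≤ r) (hC : Part (i + 1) C) (hz : z ∈ C)
include H hir hC hz

lemma unv_site (hl : lev z = i) : unv i C z = 1 := by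
  have h := coeff_tC2 (t := 0) H hC (spt_en hz) (en_site H con_empty hl (notMem_empty z))
    (en_none H hir con_empty hl.ge) (disjoint_empty_left _) (by simp)
  rw [pow_zero, one_mul] at h
  unfold unv
  rw [single_en, h]
  simp

lemma unv_near (hl : lev z = i + 1) : unv i C z = - ((uc z).card : ℤ) := by
  have D : LowD i (en ∅ z) ∅ {z} (uc z) := by
    refine en_low H con_empty (by omega) (notMem_empty z) (by omega) ?_ ?_
    · intro y
      rw [mem_singleton]
      constructor
      · intro h
        exact Or.inr ⟨h, hl⟩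
      · rintro (h | ⟨h, -⟩)
        · exact absurd h (notMem_empty y)
        · exact h
    · intro y
      rw [mem_uc]
      constructor
      · intro h
        exact Or.inr ⟨h, hl⟩
      · rintro (h | ⟨h, -⟩)
        · exact absurd h (notMem_empty y)
        · exact h
  have D' := en_none (U := ∅) (x := z) H hir con_empty (by omega)
  unfold unv
  rw [single_en]
  rcases uc_card_cases H (x := z) (by omega) with h1 | h1
  · have h := coeff_tC2 (t := 0) H hC (spt_en hz) D D' (disjoint_empty_right _) (by
      rw [h1]; simp)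
    rw [pow_zero, one_mul] at h
    rw [h, h1]
    simp
  · have h := coeff_tC1 (t := 0) H hC (spt_en hz) D D' (disjoint_empty_right _) (by
      rw [h1]; simp)
    rw [pow_zero, one_mul] at h
    rw [h, h1]
    simp only [card_empty, zero_add, pow_zero, mul_one]
    have := c1_xx 1
    norm_num at this ⊢
    exact this

lemma unv_upp (hl : lev z + 1 = i) : unv i C z = -1 := by
  obtain ⟨D, D'⟩ := en_upp (U := ∅) (x := z) H hir con_empty hl
  unfold unv
  rw [single_en]
  have h1 : 1 ≤ (dc z).card := card_pos.2 (dc_nonempty H (by omega))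
  have h2 := dc_card_le H z
  rcases Nat.lt_or_ge (dc z).card 2 with h3 | h3
  · have h4 : (dc z).card = 1 := by omega
    have h := coeff_tC2 (t := 0) H hC (spt_en hz) D D' (disjoint_empty_left _) (by
      rw [h4]; simp)
    rw [pow_zero, one_mul] at h
    rw [h]
    simp
  · have h4 : (dc z).card = 2 := by omega
    have h := coeff_tC1 (t := 0) H hC (spt_en hz) D D' (disjoint_empty_left _) (by
      rw [h4]; simp)
    rw [pow_zero, one_mul] at h
    rw [h]
    simp only [card_empty, card_singleton, add_zero, zero_add, pow_zero, pow_one, one_mul]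
    exact xi_n 1

omit hir hC hz in
lemma unv_far (hl : i + 1 < lev z) : unv i C z = 0 := by
  unfold unv
  rw [single_en, tC_zero_adm, map_zero]
  obtain ⟨y, hy⟩ := uc_nonempty H (x := z) (by omega)
  rintro ⟨h, -⟩
  exact en_bad con_empty hl H (notMem_empty z) (mem_uc.1 hy) (notMem_empty y) h

omit hC hz in
lemma unv_farU (hl : lev z + 1 < i) : unv i C z = 0 := by
  unfold unv
  rw [single_en, tC_zero_adm, map_zero]
  rintro ⟨-, h⟩
  exact en_badU H hir con_empty hl h

end unit

namespace CP

variable (H : Gr P r) (hir : i ≤ r) (hC : Part (i + 1) C) (D : CP i w w' x x' s) (hw : w ∈ C)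
  (hw' : w' ∈ C) (hz : z ∈ C)
include H D

lemma aw_low {y : P} (h : lev y ≤ i) : Aw w y = 0 := by
  have l := D.lv H
  refine D.aw_zero H ?_ ?_ ?_ ?_ <;> rintro rfl <;> omega

lemma site_zero {y : P} (h : lev y ≤ i) (hyz : y ≠ z) :
    (Aw w + Pi.single z 1 : P → ℕ) y = 0 := by
  rw [ad_ne hyz, D.aw_low H h]

include hir in
/-- upper side without deficits -/
lemma upp0 (hl : i ≤ lev z) : UppD i (Aw w + Pi.single z 1) ∅ ∅ ∅ :=
  upp_none H hir fun y hy => D.site_zero H hy.le (by rintro rfl; omega)

/-- the lower side for a unit outside the cone, at distance not one -/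
lemma low0 (h1 : z ≠ w) (h2 : z ≠ x) (h3 : z ≠ x') (h4 : z ∉ uc x ∪ uc x')
    (h5 : z = w' ∨ lev z ≤ i) :
    LowD i (Aw w + Pi.single z 1) {x, x'} {w'} (uc x ∪ uc x') := by
  classical
  have l := D.lv H
  have nx := D.nx H
  have key := D.low H (f := Aw w + Pi.single z 1) (X := ∅) ?_ ?_ ?_ ?_ ?_ ?_ ?_ ?_ ?_
  · simpa using key
  · rw [ad_ne h1.symm, D.aw_w H]
  · by_cases h : w' = z
    · subst h
      rw [ad_self, D.aw_w' H]
      omega
    · rw [ad_ne h, D.aw_w' H]
  · rw [ad_ne h2.symm, D.aw_x H]
  · rw [ad_ne h3.symm, D.aw_x' H]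
  · intro y hy a1 a2 a3 a4 _
    rw [ad_ne, D.aw_zero H a1 a2 a3 a4]
    rintro rfl
    rcases h5 with h5 | h5
    · exact a2 h5
    · omega
  · exact fun y hy => absurd hy (notMem_empty y)
  · exact fun y hy => absurd hy (notMem_empty y)
  · intro v hv
    exact D.site_zero H (D.T.site H hv).le (by rintro rfl; exact h4 hv)
  · exact fun y hy => absurd hy (notMem_empty y)

omit H in
lemma three : (uc x ∪ uc x').card = 3 := D.T.three

include hw hw' hz hC in
lemma ad_spt : Spt C (Aw w + Pi.single z 1) := by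
  intro y hy
  rw [Pi.add_apply, D.aw_spt H hC hw hw' y hy, Pi.single_apply,
    if_neg (by rintro rfl; exact hy hz), add_zero]

include hir in
lemma ph_farU (hl : lev z + 1 < i) : phv i C w z = 0 := by
  unfold phv
  rw [tC_zero_adm, mul_zero, map_zero]
  rintro ⟨-, h⟩
  refine upp_bad H hir hl ?_ ?_ h
  · rw [ad_self]; omega
  · exact fun y hy hyz => D.site_zero H hy hyz

include hir hC hw hw' hz

lemma ph_upp (hl : lev z + 1 = i) : phv i C w z =
    if Disjoint (uc x ∪ uc x') (dc z) then (if (dc z).card = 1 then 1 else -4) else 0 := by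
  have l := D.lv H
  have D1 : LowD i (Aw w + Pi.single z 1) {x, x'} {w'} (uc x ∪ uc x') := by
    refine D.low0 H ?_ ?_ ?_ ?_ (Or.inr (by omega))
    · rintro rfl; omega
    · rintro rfl; omega
    · rintro rfl; omega
    · intro h
      have := D.T.site H h
      omega
  have D2 : UppD i (Aw w + Pi.single z 1) ∅ {z} (dc z) := by
    refine upp_one H hir hl ?_ (fun y hy hyz => D.site_zero H hy hyz)
    rw [ad_self, D.aw_low H (by omega)]
  have h3 := D.three
  have hn := D.T.ne
  unfold phv
  split_ifs with hd h1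
  · rw [coeff_tC2 H hC (D.ad_spt H hC hw hw' hz) D1 D2 hd (by
      rw [h3, h1]; simp), h3, card_pair hn]
    simp
  · have c1 : 1 ≤ (dc z).card := card_pos.2 (dc_nonempty H (by omega))
    have c2 := dc_card_le H z
    have h4 : (dc z).card = 2 := by omega
    rw [coeff_tC1 H hC (D.ad_spt H hC hw hw' hz) D1 D2 hd (by
      rw [h3, h4]; simp), h3, card_pair hn]
    simp only [card_empty, card_singleton, zero_add, pow_one]
    rw [PowerSeries.coeff_one_mul, c1_xx 4, xi_n, map_pow, xx_c]
    have h' : PowerSeries.constantCoeff (xi : A) = -1 := by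
      have := xi_n 0
      rwa [PowerSeries.coeff_zero_eq_constantCoeff_apply] at this
    rw [h']
    norm_num
  · rw [tC_zero_dis D1 D2 hd, mul_zero, map_zero]

lemma ph_out (hl : lev z = i) (h : z ∉ uc x ∪ uc x') : phv i C w z = -1 := by
  have l := D.lv H
  have D1 : LowD i (Aw w + Pi.single z 1) {x, x'} {w'} (uc x ∪ uc x') := by
    refine D.low0 H ?_ ?_ ?_ h (Or.inr (by omega))
    · rintro rfl; omega
    · rintro rfl; omega
    · rintro rfl; omega
  unfold phv
  rw [coeff_tC2 H hC (D.ad_spt H hC hw hw' hz) D1 (D.upp0 H hir hl.ge)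
    (disjoint_empty_right _) (by rw [D.three]; simp), D.three, card_pair D.T.ne]
  norm_num

omit hir hC hw hw' hz in
lemma ph_in (h : z ∈ uc x ∪ uc x') : phv i C w z = 0 := by
  have l := D.lv H
  have hl := D.T.site H h
  obtain ⟨dx, dx'⟩ := D.dcs H
  have nx := D.nx H
  unfold phv
  rw [tC_zero_adm, mul_zero, map_zero]
  rintro ⟨hA, -⟩
  have hw'z : w' ≠ z := by rintro rfl; omega
  rcases mem_union.1 h with h | h
  · apply hA x (by omega)
    have hxz : x ≠ z := by rintro rfl; omega
    refine ⟨⟨w', by rw [← mem_dc, dx]; simp, ?_⟩, ⟨z, mem_uc.1 h, ?_⟩⟩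
    · rw [ad_ne hxz, ad_ne hw'z, D.aw_x H, D.aw_w' H]
      omega
    · rw [ad_ne hxz, ad_self, D.aw_x H]
      omega
  · apply hA x' (by omega)
    have hxz : x' ≠ z := by rintro rfl; omega
    refine ⟨⟨w', by rw [← mem_dc, dx']; simp, ?_⟩, ⟨z, mem_uc.1 h, ?_⟩⟩
    · rw [ad_ne hxz, ad_ne hw'z, D.aw_x' H, D.aw_w' H]
      omega
    · rw [ad_ne hxz, ad_self, D.aw_x' H]
      omega

omit hz in
lemma ph_w : phv i C w w = 0 := by
  have l := D.lv H
  have nx := D.nx H
  have hn := D.ne
  have D1 : LowD i (Aw w + Pi.single w 1) {x, x'} {w, w'} (uc x ∪ uc x') := by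
    refine D.low_ww H ?_ ?_ ?_ ?_ ?_
    · rw [ad_self, D.aw_w H]
    · rw [ad_ne hn.symm, D.aw_w' H]
    · rw [ad_ne nx.1, D.aw_x H]
    · rw [ad_ne nx.2.2.1, D.aw_x' H]
    · intro y a1 a2 a3 a4
      rw [ad_ne a1, D.aw_zero H a1 a2 a3 a4]
  unfold phv
  exact coeff_tC0 H hC (D.ad_spt H hC hw hw' hw) D1 (D.upp0 H hir (by omega))
    (disjoint_empty_right _) (by rw [D.three, card_pair hn]; simp)

omit hz in
lemma ph_w' : phv i C w w' = -1 := by
  have l := D.lv H
  have nx := D.nx H
  have D1 : LowD i (Aw w + Pi.single w' 1) {x, x'} {w'} (uc x ∪ uc x') := by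
    refine D.low0 H D.ne.symm nx.2.1.symm nx.2.2.2.symm ?_ (Or.inl rfl)
    intro h
    have := D.T.site H h
    omega
  unfold phv
  rw [coeff_tC2 H hC (D.ad_spt H hC hw hw' hw') D1 (D.upp0 H hir (by omega))
    (disjoint_empty_right _) (by rw [D.three]; simp), D.three, card_pair D.T.ne]
  norm_num

omit hz in
lemma ph_x : phv i C w x = 1 := by
  have l := D.lv H
  have nx := D.nx H
  have hn := D.T.ne
  have D1 : LowD i (Aw w + Pi.single x 1) {x'} {x} (uc x ∪ uc x') := by
    refine D.low_x H ?_ ?_ ?_ ?_ ?_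
    · rw [ad_ne nx.1.symm, D.aw_w H]
    · rw [ad_ne nx.2.1.symm, D.aw_w' H]
    · rw [ad_self, D.aw_x H]
    · rw [ad_ne hn.symm, D.aw_x' H]
    · intro y a1 a2 a3 a4
      rw [ad_ne a3, D.aw_zero H a1 a2 a3 a4]
  unfold phv
  rw [coeff_tC2 H hC (D.ad_spt H hC hw hw' (D.mem H hC hw).1) D1 (D.upp0 H hir (by omega))
    (disjoint_empty_right _) (by rw [D.three]; simp), D.three, card_singleton]
  norm_num

omit hz in
lemma ph_x' : phv i C w x' = 1 := D.symm.ph_x H hir hC hw hw'

lemma ph_near (hl : lev z = i + 1) (h1 : z ≠ x) (h2 : z ≠ x') : phv i C w z =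
    if (uc z \ (uc x ∪ uc x')).card = 0 then 0 else
      if (uc z \ (uc x ∪ uc x')).card = 1 then 1 else 7 := by
  classical
  have l := D.lv H
  have nx := D.nx H
  have hzw : z ≠ w := by rintro rfl; omega
  have hzw' : z ≠ w' := by rintro rfl; omega
  have hf : ({z} : Finset P).filter (fun y => lev y = i + 1) = {z} := by
    rw [filter_singleton, if_pos hl]
  have D1 : LowD i (Aw w + Pi.single z 1) {x, x'} {w', z} (uc x ∪ uc x' ∪ uc z) := by
    have key := D.low H (f := Aw w + Pi.single z 1) (X := {z}) ?_ ?_ ?_ ?_ ?_ ?_ ?_ ?_ ?_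
    · rw [hf, singleton_biUnion] at key
      exact key
    · rw [ad_ne hzw.symm, D.aw_w H]
    · rw [ad_ne hzw'.symm, D.aw_w' H]
    · rw [ad_ne h1.symm, D.aw_x H]
    · rw [ad_ne h2.symm, D.aw_x' H]
    · intro y hy a1 a2 a3 a4 a5
      rw [ad_ne (fun h => a5 (mem_singleton.2 h)), D.aw_zero H a1 a2 a3 a4]
    · intro y hy
      rw [mem_singleton] at hy
      subst hy
      exact ⟨by rw [ad_self, D.aw_zero H hzw hzw' h1 h2], by omega, hzw, hzw', h1, h2⟩
    · intro y hy hl'
      rw [mem_singleton] at hy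
      subst hy
      omega
    · intro v hv
      have := D.T.site H hv
      exact D.site_zero H this.le (by rintro rfl; omega)
    · intro y hy _ v hv
      rw [mem_singleton] at hy
      subst hy
      have := lev_uc H hv
      exact D.site_zero H (by omega) (by rintro rfl; omega)
  have h3 : (uc x ∪ uc x' ∪ uc z).card = 3 + (uc z \ (uc x ∪ uc x')).card := by
    rw [← union_sdiff_self_eq_union, card_union_of_disjoint disjoint_sdiff, D.three]
  have h4 : (uc z \ (uc x ∪ uc x')).card ≤ 2 :=
    (card_le_card sdiff_subset).trans (uc_card_le H z)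
  have hp : ({w', z} : Finset P).card = 2 := card_pair hzw'.symm
  have hs := D.ad_spt H hC hw hw' hz
  have D2 := D.upp0 H hir (z := z) (by omega)
  unfold phv
  split_ifs with g1 g2
  · exact coeff_tC0 H hC hs D1 D2 (disjoint_empty_right _) (by rw [h3, g1, hp]; simp)
  · rw [coeff_tC2 H hC hs D1 D2 (disjoint_empty_right _) (by rw [h3, g2, hp]; simp), h3, g2,
      card_pair D.T.ne]
    norm_num
  · have g3 : (uc z \ (uc x ∪ uc x')).card = 2 := by omega
    rw [coeff_tC1 H hC hs D1 D2 (disjoint_empty_right _) (by rw [h3, g3, hp]; simp), h3, g3,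
      card_pair D.T.ne]
    simp only [card_empty, zero_add, pow_zero, mul_one]
    have := c1_xx 6
    norm_num at this ⊢
    exact this

lemma ph_far (hl : i + 1 < lev z) (h1 : z ≠ w) (h2 : z ≠ w') : phv i C w z =
    if (i + 2 < lev z ∧ ∀ y ∈ uc z, uc y = uc w) then -1 else 0 := by
  classical
  have l := D.lv H
  have nx := D.nx H
  obtain ⟨dx, dx'⟩ := D.dcs H
  have hzx : z ≠ x := by rintro rfl; omega
  have hzx' : z ≠ x' := by rintro rfl; omega
  split_ifs with hch
  · have hf : ({z} : Finset P).filter (fun y => lev y = i + 1) = ∅ := by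
      rw [filter_singleton, if_neg (by omega)]
    have D1 : LowD i (Aw w + Pi.single z 1) {x, x'} {w'} (uc x ∪ uc x') := by
      have key := D.low H (f := Aw w + Pi.single z 1) (X := {z}) ?_ ?_ ?_ ?_ ?_ ?_ ?_ ?_ ?_
      · rw [hf, biUnion_empty, union_empty] at key
        exact key
      · rw [ad_ne h1.symm, D.aw_w H]
      · rw [ad_ne h2.symm, D.aw_w' H]
      · rw [ad_ne hzx.symm, D.aw_x H]
      · rw [ad_ne hzx'.symm, D.aw_x' H]
      · intro y hy a1 a2 a3 a4 a5
        rw [ad_ne (fun h => a5 (mem_singleton.2 h)), D.aw_zero H a1 a2 a3 a4]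
      · intro y hy
        rw [mem_singleton] at hy
        subst hy
        exact ⟨by rw [ad_self, D.aw_zero H h1 h2 hzx hzx'], by omega, h1, h2, hzx, hzx'⟩
      · intro y hy hl' v hv
        rw [mem_singleton] at hy
        subst hy
        have hvz : v ≠ y := by
          rintro rfl
          exact lt_irrefl _ hv.lt
        rw [ad_ne hvz]
        rcases D.uc_eq H (hch.2 v (mem_uc.2 hv)) with rfl | rfl
        · rw [D.aw_w H]
        · rw [D.aw_w' H]; omega
      · intro v hv
        have := D.T.site H hv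
        exact D.site_zero H this.le (by rintro rfl; omega)
      · intro y hy hl'
        rw [mem_singleton] at hy
        subst hy
        omega
    unfold phv
    rw [coeff_tC2 H hC (D.ad_spt H hC hw hw' hz) D1 (D.upp0 H hir (by omega))
      (disjoint_empty_right _) (by rw [D.three]; simp), D.three, card_pair D.T.ne]
    norm_num
  · -- a cover with label zero
    have hy : ∃ y, z ⋖ y ∧ Aw w y = 0 := by
      by_contra hcon
      push Not at hcon
      apply hch
      have hall : ∀ y ∈ uc z, y = w ∨ y = w' := by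
        intro y hy
        have ly := lev_cov H (mem_uc.1 hy)
        have h0 := hcon y (mem_uc.1 hy)
        rcases D.aw_pos H (show 0 < Aw w y by omega) with h | h | h | h
        · exact Or.inl h
        · exact Or.inr h
        · exfalso
          have h3 : z ∈ dc x := by rw [mem_dc, ← h]; exact mem_uc.1 hy
          rw [dx, mem_insert, mem_singleton] at h3
          rcases h3 with h3 | h3
          · exact h1 h3
          · exact h2 h3
        · exfalso
          have h3 : z ∈ dc x' := by rw [mem_dc, ← h]; exact mem_uc.1 hy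
          rw [dx', mem_insert, mem_singleton] at h3
          rcases h3 with h3 | h3
          · exact h1 h3
          · exact h2 h3
      constructor
      · obtain ⟨y, hy⟩ := uc_nonempty H (x := z) (by omega)
        have ly := lev_uc H hy
        rcases hall y hy with rfl | rfl <;> omega
      · intro y hy
        rcases hall y hy with rfl | rfl
        · rfl
        · exact D.ucs
    obtain ⟨y, hzy, h0⟩ := hy
    unfold phv
    rw [tC_zero_adm, mul_zero, map_zero]
    rintro ⟨hA, -⟩
    have ly := lev_cov H hzy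
    have hyz : y ≠ z := by rintro rfl; exact lt_irrefl _ hzy.lt
    apply hA y (by omega)
    constructor
    · exact ⟨z, hzy, by rw [ad_ne hyz, h0, ad_self]; omega⟩
    · obtain ⟨v, hv⟩ := uc_nonempty H (x := y) (by omega)
      exact ⟨v, mem_uc.1 hv, by rw [ad_ne hyz, h0]; exact Nat.zero_le _⟩

end CP

end Pool.Agent.GaussPoset.Win.SO
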