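import Pool.Agent.W_448cl_h64.ClH

/-!
CLOSED PAIRS AT ENERGY SIX (MP_448cb3_co, G2): the sum over one more unit, in terms of the elements
near the closed pair.
-/

set_option autoImplicit false

namespace Pool.Agent.GaussPoset.Win.SO

set_option linter.unusedSectionVars false

open Finset
open Pool.Agent.GaussPoset.Win.I2 (lS uS mem_lS mem_uS side0_low)
open Pool.Agent.GaussPoset.Win.So (coeff_dd c0_units c1_xx xx_c xi_n not_disj_iff)
open Pool.Agent.GaussPoset.Win.Xg (rk)

universe u

variable {P : Type u} [Fintype P] [PartialOrder P] [DecidableEq P] {r i : ℕ} {psi : P → P}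
  {C : Finset P} {w w' x x' s z : P}

open Classical in
/-- near lower elements with a site above `w` -/
noncomputable def nLc (i : ℕ) (C : Finset P) (w : P) : Finset P :=
  C.filter (fun z => lev z = i + 1 ∧ ¬ Disjoint (uc z) (sit i w))

open Classical in
/-- near upper elements with a site above `w` -/
noncomputable def nUc (i : ℕ) (C : Finset P) (w : P) : Finset P :=
  C.filter (fun z => lev z + 1 = i ∧ ¬ Disjoint (dc z) (sit i w))

open Classical in
/-- elements of level `i + 3` below `w` and its twin only -/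
noncomputable def chc (i : ℕ) (C : Finset P) (w : P) : Finset P :=
  C.filter (fun z => i + 2 < lev z ∧ ∀ y ∈ uc z, uc y = uc w)

open Classical in
/-- further near lower elements with both sites above `w` -/
noncomputable def n2c (i : ℕ) (C : Finset P) (w : P) : Finset P :=
  C.filter (fun z => lev z = i + 1 ∧ z ∉ uc w ∧ (uc z).card = 2 ∧ uc z ⊆ sit i w)

lemma mem_nLc : z ∈ nLc i C w ↔ z ∈ C ∧ lev z = i + 1 ∧ ¬ Disjoint (uc z) (sit i w) := by
  classical
  unfold nLc
  rw [mem_filter]

lemma mem_nUc : z ∈ nUc i C w ↔ z ∈ C ∧ lev z + 1 = i ∧ ¬ Disjoint (dc z) (sit i w) := by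
  classical
  unfold nUc
  rw [mem_filter]

lemma mem_chc : z ∈ chc i C w ↔ z ∈ C ∧ i + 2 < lev z ∧ ∀ y ∈ uc z, uc y = uc w := by
  classical
  unfold chc
  rw [mem_filter]

lemma mem_n2c : z ∈ n2c i C w ↔
    z ∈ C ∧ lev z = i + 1 ∧ z ∉ uc w ∧ (uc z).card = 2 ∧ uc z ⊆ sit i w := by
  classical
  unfold n2c
  rw [mem_filter]

open Classical in
/-- the contribution of the unit `z` -/
noncomputable def dlc (i : ℕ) (C : Finset P) (w w' z : P) : ℤ :=
  (if z ∈ sit i w then 1 else 0) + (if z ∈ nLc i C w then -1 else 0) +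
  (if z ∈ n2c i C w then -1 else 0) + (if z ∈ nUc i C w then -1 else 0) +
  (if z ∈ chc i C w then -1 else 0) + (if z = w' then -1 else 0) +
  ((if z ∈ dbL P i ∧ Disjoint (uc z) (sit i w) then 5 else 0) +
  (if z ∈ dbU P i ∧ Disjoint (dc z) (sit i w) then -5 else 0))

/-- the sum of the two values at `z` -/
theorem cl_delta (H : Gr P r) (hir : i ≤ r) (hC : Part (i + 1) C) (D : CP i w w' x x' s)
    (hw : w ∈ C) (hw' : w' ∈ C) (hz : z ∈ C) :
    phv i C w z + unv i C z = dlc i C w w' z := by
  classical
  have l := D.lv H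
  have nx := D.nx H
  have hn := D.ne
  have hS : sit i w = uc x ∪ uc x' := sit_td_low H D.T
  have hu : uc w = {x, x'} := D.T.cw
  have mS : ∀ v, v ∈ sit i w → lev v = i := fun v hv => D.T.site H (by rw [← hS]; exact hv)
  unfold dlc
  rcases Nat.lt_trichotomy (lev z) i with hl | hl | hl
  · -- above the window
    have n1 : z ∉ sit i w := fun h => by have := mS z h; omega
    have n2 : z ∉ nLc i C w := fun h => by have := (mem_nLc.1 h).2.1; omega
    have n3 : z ∉ n2c i C w := fun h => by have := (mem_n2c.1 h).2.1; omega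
    have n4 : z ∉ chc i C w := fun h => by have := (mem_chc.1 h).2.1; omega
    have n5 : z ≠ w' := by rintro rfl; omega
    have n6 : ¬ (z ∈ dbL P i ∧ Disjoint (uc z) (sit i w)) := fun h => by
      have := (mem_dbL.1 h.1).1; omega
    rw [if_neg n1, if_neg n2, if_neg n3, if_neg n4, if_neg n5, if_neg n6]
    rcases Nat.lt_or_ge (lev z + 1) i with h1 | h1
    · have n7 : z ∉ nUc i C w := fun h => by have := (mem_nUc.1 h).2.1; omega
      have n8 : ¬ (z ∈ dbU P i ∧ Disjoint (dc z) (sit i w)) := fun h => by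
        have := (mem_dbU.1 h.1).1; omega
      rw [if_neg n7, if_neg n8, D.ph_farU H hir h1, unv_farU H hir h1]
      simp
    · have h2 : lev z + 1 = i := by omega
      rw [unv_upp H hir hC hz h2, D.ph_upp H hir hC hw hw' hz h2]
      have c1 : 1 ≤ (dc z).card := card_pos.2 (dc_nonempty H (by omega))
      have c2 := dc_card_le H z
      by_cases h3 : Disjoint (uc x ∪ uc x') (dc z)
      · have h4 : Disjoint (dc z) (sit i w) := by rw [hS]; exact h3.symm
        have n7 : z ∉ nUc i C w := fun h => (mem_nUc.1 h).2.2 h4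
        rw [if_neg n7, if_pos h3]
        by_cases h5 : (dc z).card = 1
        · have n8 : ¬ (z ∈ dbU P i ∧ Disjoint (dc z) (sit i w)) := fun h => by
            have := (mem_dbU.1 h.1).2; omega
          rw [if_pos h5, if_neg n8]
          norm_num
        · have n8 : z ∈ dbU P i ∧ Disjoint (dc z) (sit i w) :=
            ⟨mem_dbU.2 ⟨h2, by omega⟩, h4⟩
          rw [if_neg h5, if_pos n8]
          norm_num
      · have h4 : ¬ Disjoint (dc z) (sit i w) := by rw [hS]; exact fun h => h3 h.symm
        have n7 : z ∈ nUc i C w := mem_nUc.2 ⟨hz, h2, h4⟩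
        have n8 : ¬ (z ∈ dbU P i ∧ Disjoint (dc z) (sit i w)) := fun h => h4 h.2
        rw [if_pos n7, if_neg n8, if_neg h3]
        norm_num
  · -- sites
    have n2 : z ∉ nLc i C w := fun h => by have := (mem_nLc.1 h).2.1; omega
    have n3 : z ∉ n2c i C w := fun h => by have := (mem_n2c.1 h).2.1; omega
    have n4 : z ∉ chc i C w := fun h => by have := (mem_chc.1 h).2.1; omega
    have n5 : z ≠ w' := by rintro rfl; omega
    have n6 : ¬ (z ∈ dbL P i ∧ Disjoint (uc z) (sit i w)) := fun h => by
      have := (mem_dbL.1 h.1).1; omega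
    have n7 : z ∉ nUc i C w := fun h => by have := (mem_nUc.1 h).2.1; omega
    have n8 : ¬ (z ∈ dbU P i ∧ Disjoint (dc z) (sit i w)) := fun h => by
      have := (mem_dbU.1 h.1).1; omega
    rw [if_neg n2, if_neg n3, if_neg n4, if_neg n5, if_neg n6, if_neg n7, if_neg n8,
      unv_site H hir hC hz hl]
    by_cases h1 : z ∈ uc x ∪ uc x'
    · rw [D.ph_in H h1, if_pos (by rw [hS]; exact h1)]
      norm_num
    · rw [D.ph_out H hir hC hw hw' hz hl h1, if_neg (by rw [hS]; exact h1)]
      norm_num
  · -- below the window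
    have n1 : z ∉ sit i w := fun h => by have := mS z h; omega
    have n7 : z ∉ nUc i C w := fun h => by have := (mem_nUc.1 h).2.1; omega
    have n8 : ¬ (z ∈ dbU P i ∧ Disjoint (dc z) (sit i w)) := fun h => by
      have := (mem_dbU.1 h.1).1; omega
    rw [if_neg n1, if_neg n7, if_neg n8]
    rcases Nat.lt_or_ge (i + 1) (lev z) with h1 | h1
    · -- far
      have n2 : z ∉ nLc i C w := fun h => by have := (mem_nLc.1 h).2.1; omega
      have n3 : z ∉ n2c i C w := fun h => by have := (mem_n2c.1 h).2.1; omega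
      have n6 : ¬ (z ∈ dbL P i ∧ Disjoint (uc z) (sit i w)) := fun h => by
        have := (mem_dbL.1 h.1).1; omega
      rw [if_neg n2, if_neg n3, if_neg n6, unv_far H h1]
      by_cases hzw : z = w
      · subst hzw
        have n4 : z ∉ chc i C z := fun h => by have := (mem_chc.1 h).2.1; omega
        rw [if_neg n4, if_neg hn, D.ph_w H hir hC hw hw']
        simp
      by_cases hzw' : z = w'
      · subst hzw'
        have n4 : z ∉ chc i C w := fun h => by have := (mem_chc.1 h).2.1; omega
        rw [if_neg n4, if_pos rfl, D.ph_w' H hir hC hw hw']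
        simp
      rw [if_neg hzw', D.ph_far H hir hC hw hw' hz h1 hzw hzw']
      by_cases h3 : (i + 2 < lev z ∧ ∀ y ∈ uc z, uc y = uc w)
      · rw [if_pos h3, if_pos (mem_chc.2 ⟨hz, h3⟩)]
        simp
      · rw [if_neg h3, if_neg (fun h => h3 (mem_chc.1 h).2)]
        simp
    · -- near
      have h2 : lev z = i + 1 := by omega
      have n4 : z ∉ chc i C w := fun h => by have := (mem_chc.1 h).2.1; omega
      have n5 : z ≠ w' := by rintro rfl; omega
      rw [if_neg n4, if_neg n5, unv_near H hir hC hz h2]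
      by_cases h3 : z = x ∨ z = x'
      · have hc2 : (uc z).card = 2 ∧ phv i C w z = 1 := by
          rcases h3 with rfl | rfl
          · exact ⟨D.T.cx, D.ph_x H hir hC hw hw'⟩
          · exact ⟨D.T.cx', D.ph_x' H hir hC hw hw'⟩
        have hnd : ¬ Disjoint (uc z) (sit i w) := by
          rw [not_disjoint_iff_nonempty_inter, hS]
          refine ⟨s, mem_inter.2 ?_⟩
          rcases h3 with rfl | rfl
          · exact ⟨D.T.sx, mem_union_left _ D.T.sx⟩
          · exact ⟨D.T.sx', mem_union_right _ D.T.sx'⟩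
        have n2 : z ∈ nLc i C w := mem_nLc.2 ⟨hz, h2, hnd⟩
        have n3 : z ∉ n2c i C w := fun h => (mem_n2c.1 h).2.2.1 (by
          rw [hu, mem_insert, mem_singleton]; exact h3)
        have n6 : ¬ (z ∈ dbL P i ∧ Disjoint (uc z) (sit i w)) := fun h => hnd h.2
        rw [if_pos n2, if_neg n3, if_neg n6, hc2.1, hc2.2]
        norm_num
      · push Not at h3
        rw [D.ph_near H hir hC hw hw' hz h2 h3.1 h3.2]
        have hzu : z ∉ uc w := by
          rw [hu, mem_insert, mem_singleton]
          rintro (h | h)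
          · exact h3.1 h
          · exact h3.2 h
        have h5 : (uc z \ (uc x ∪ uc x')).card ≤ (uc z).card := card_le_card sdiff_subset
        have h6 := uc_card_cases H (x := z) (by omega)
        have hdj : (¬ Disjoint (uc z) (sit i w)) ↔
            (uc z \ (uc x ∪ uc x')).card < (uc z).card := by
          rw [hS]
          exact not_disj_iff
        have hsub : uc z ⊆ sit i w ↔ (uc z \ (uc x ∪ uc x')).card = 0 := by
          rw [hS, card_eq_zero, sdiff_eq_empty_iff_subset]
        have m2 : z ∈ nLc i C w ↔ (uc z \ (uc x ∪ uc x')).card < (uc z).card := by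
          rw [mem_nLc, ← hdj]
          tauto
        have m3 : z ∈ n2c i C w ↔
            (uc z).card = 2 ∧ (uc z \ (uc x ∪ uc x')).card = 0 := by
          rw [mem_n2c, hsub]
          tauto
        have m6 : (z ∈ dbL P i ∧ Disjoint (uc z) (sit i w)) ↔
            (uc z).card = 2 ∧ ¬ (uc z \ (uc x ∪ uc x')).card < (uc z).card := by
          rw [← hdj, not_not, mem_dbL]
          tauto
        simp only [m2, m3, m6]
        generalize (uc z \ (uc x ∪ uc x')).card = m at h5 ⊢
        rcases h6 with h6 | h6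
        · rw [h6] at h5 ⊢
          have hm : m = 0 ∨ m = 1 := by omega
          rcases hm with rfl | rfl <;> norm_num
        · rw [h6] at h5 ⊢
          have hm : m = 0 ∨ m = 1 ∨ m = 2 := by omega
          rcases hm with rfl | rfl | rfl <;> norm_num

/-- the doubles of the part disjoint from the sites cancel -/
lemma db_cancel (H : Gr P r) (hC : Part (i + 1) C) (hM : Mat P i ∅ psi) (S : Finset P) :
    (C.filter (fun z => z ∈ dbL P i ∧ Disjoint (uc z) S)).card =
      (C.filter (fun z => z ∈ dbU P i ∧ Disjoint (dc z) S)).card := by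
  classical
  refine card_bij (fun x _ => psi x) ?_ ?_ ?_
  · intro x hx
    rw [mem_filter] at hx ⊢
    obtain ⟨h1, h2⟩ := hM.low x hx.2.1 (notMem_empty x)
    exact ⟨So.psi_mem H hM hC (mem_union_left _ hx.2.1) hx.1, h1, by rw [h2]; exact hx.2.2⟩
  · intro x hx x' hx' h
    rw [mem_filter] at hx hx'
    have h1 := (hM.invol x (mem_union_left _ hx.2.1) (notMem_empty x)).1
    have h2 := (hM.invol x' (mem_union_left _ hx'.2.1) (notMem_empty x')).1
    rw [← h1, ← h2, h]
  · intro x hx
    rw [mem_filter] at hx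
    obtain ⟨h1, h2⟩ := hM.upp x hx.2.1 (notMem_empty x)
    refine ⟨psi x, ?_, (hM.invol x (mem_union_right _ hx.2.1) (notMem_empty x)).1⟩
    rw [mem_filter]
    exact ⟨So.psi_mem H hM hC (mem_union_right _ hx.2.1) hx.1, h1, by rw [h2]; exact hx.2.2⟩

lemma sum_ite_card {S : Finset P} (hS : S ⊆ C) (c : ℤ) [DecidablePred (· ∈ S)] :
    ∑ z ∈ C, (if z ∈ S then c else 0) = S.card * c := by
  rw [← sum_filter, sum_const, filter_mem_eq_inter, inter_eq_right.2 hS, nsmul_eq_mul]

/-- THE SUM OVER ONE MORE UNIT over a closed pair -/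
theorem cl_sum (H : Gr P r) (hir : i ≤ r) (hC : Part (i + 1) C) (hM : Mat P i ∅ psi)
    (D : CP i w w' x x' s) (hw : w ∈ C) (hw' : w' ∈ C) :
    ∑ z ∈ C, phv i C w z + ∑ z ∈ C, unv i C z =
      2 - ((nLc i C w).card + (n2c i C w).card + (nUc i C w).card + (chc i C w).card) := by
  classical
  rw [← sum_add_distrib, sum_congr rfl fun z hz => cl_delta H hir hC D hw hw' hz]
  unfold dlc
  simp only [sum_add_distrib]
  have hS : sit i w = uc x ∪ uc x' := sit_td_low H D.T
  have hSC : sit i w ⊆ C := fun v hv => (mem_st.1 (sit_part H hC hw hv)).1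
  have s0 : (sit i w).card = 3 := by rw [hS]; exact D.T.three
  have s7 : ∑ z ∈ C, (if z = w' then (-1 : ℤ) else 0) = -1 := by
    rw [sum_ite_eq' C w', if_pos hw']
  have s8 : ∑ z ∈ C, (if z ∈ dbL P i ∧ Disjoint (uc z) (sit i w) then (5 : ℤ) else 0) +
      ∑ z ∈ C, (if z ∈ dbU P i ∧ Disjoint (dc z) (sit i w) then (-5 : ℤ) else 0) = 0 := by
    rw [← sum_filter, ← sum_filter, sum_const, sum_const, db_cancel H hC hM]
    simp only [nsmul_eq_mul]
    ring
  rw [sum_ite_card hSC, sum_ite_card (show nLc i C w ⊆ C from fun z hz => (mem_nLc.1 hz).1),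
    sum_ite_card (show n2c i C w ⊆ C from fun z hz => (mem_n2c.1 hz).1),
    sum_ite_card (show nUc i C w ⊆ C from fun z hz => (mem_nUc.1 hz).1),
    sum_ite_card (show chc i C w ⊆ C from fun z hz => (mem_chc.1 hz).1), s7, s8, s0]
  push_cast
  ring

end Pool.Agent.GaussPoset.Win.SO
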