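import Pool.Agent.W_448cl_h64.ClI

/-!
CLOSED PAIRS AT ENERGY SIX (MP_448cb3_co, G2): the values `be 5`, `be 6` of a part with closed pairs.
-/

set_option autoImplicit false

namespace Pool.Agent.GaussPoset.Win.SO

set_option linter.unusedSectionVars false

open Finset
open Pool.Agent.GaussPoset.Win.I2 (lS uS mem_lS mem_uS side0_low)
open Pool.Agent.GaussPoset.Win.So (TogL TogU RefL RefU RefD TgP cf dk cf_three cf_five cf_six
  cf_one coeff_dd c0_units)
open Pool.Agent.GaussPoset.Win.Xg (rk)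

universe u

variable {P : Type u} [Fintype P] [PartialOrder P] [DecidableEq P] {r i : ℕ} {psi : P → P}
  {e : P → ℕ} {C : Finset P} {w w' x x' s z : P}

/-- a cone of the index set has at most one element of level `i + 2` with two covers -/
lemma con_dbl (H : Gr P r) (hz : z ∈ Chs i C ∨ z ∈ N1f i C ∨ z ∈ N5f i C)
    (hw : w ∈ con i z) (hw' : w' ∈ con i z) (lw : lev w = i + 2) (lw' : lev w' = i + 2)
    (cw : (uc w).card = 2) (cw' : (uc w').card = 2) : w = w' := by
  -- one element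
  have key : ∃ v, ∀ y, y ∈ con i z → lev y = i + 2 → (uc y).card = 2 → y = v := by
    have up : lev z < i → ∃ v, ∀ y, y ∈ con i z → lev y = i + 2 → (uc y).card = 2 → y = v := by
      intro h
      refine ⟨z, fun y hy ly _ => ?_⟩
      have := (con_upp H h hy).1
      omega
    have one : ∀ q : P, lev q = i + 2 → ∀ y, y ∈ con i q → lev y = i + 2 → y = q := by
      intro q lq y hy ly
      rw [con_two_low H lq, mem_insert] at hy
      rcases hy with h | h
      · exact h
      · have := lev_uc H h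
        omega
    rcases hz with hz | hz | hz
    · rcases Chs_cases H hz with ⟨h, hl⟩ | ⟨h, hl⟩ | ⟨h, hl⟩ | ⟨h, hl⟩
      · exact ⟨z, fun y hy ly _ => one z hl y hy ly⟩
      · exact up (by omega)
      · obtain ⟨p, y0, g1, g2, g3, g4, g5, g6⟩ := FL_data H h
        refine ⟨p, fun y hy ly _ => ?_⟩
        rw [con_FL H hl g1 g2] at hy
        simp only [mem_insert, mem_singleton] at hy
        rcases hy with rfl | h | rfl
        · omega
        · exact h
        · omega
      · exact up (by omega)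
    · rcases N1f_lev H hz with ⟨k, v, hv, hv2⟩ | ⟨k, -⟩
      · refine ⟨v, fun y hy ly _ => ?_⟩
        rw [con_rec_low H (by omega), hv2, singleton_biUnion, mem_insert] at hy
        rcases hy with rfl | hy
        · omega
        · exact one v (mem_ZL.1 hv).2.1 y hy ly
      · exact up (by omega)
    · rcases N5f_lev H hz with ⟨k, p, v, h0, h2, h3, h4⟩ | ⟨k, -⟩
      · refine ⟨v, fun y hy ly cy => ?_⟩
        rw [con_rec_low H (by omega), h3, biUnion_insert, singleton_biUnion, mem_insert,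
          mem_union] at hy
        rcases hy with rfl | hy | hy
        · omega
        · have h5 := one p (lev_PD h0).1 y hy ly
          rw [h5, (lev_PD h0).2] at cy
          omega
        · exact one v (mem_ZL.1 h2).2.1 y hy ly
      · exact up (by omega)
  obtain ⟨v, hv⟩ := key
  rw [hv w hw lw cw, hv w' hw' lw' cw']

/-- no closed pair in a configuration of the index set -/
theorem Psi_noClo (H : Gr P r) (hir : i ≤ r) {T : Finset P} (hT : T ∈ Ix i C) :
    ¬ Clo uc (tL (P := P) i) (lS P i) (Psi i C T) := by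
  rintro ⟨w, w', x, x', mw, mw', tw, tw', hww, xx', cw, cw', c2, c2', ew, ew'⟩
  rw [mem_lS] at mw mw'
  unfold tL at tw tw'
  have lw : lev w = i + 2 := by omega
  have lw' : lev w' = i + 2 := by omega
  have hw := (Psi_pos H hT).1 ew
  have hw' := (Psi_pos H hT).1 ew'
  rw [mem_biUnion] at hw hw'
  obtain ⟨z, hz, hwz⟩ := hw
  obtain ⟨z', hz', hwz'⟩ := hw'
  obtain ⟨d1, d2⟩ := Ix_data H hT
  by_cases hzz : z = z'
  · subst hzz
    have hty : z ∈ Chs i C ∨ z ∈ N1f i C ∨ z ∈ N5f i C := by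
      rcases mem_Ix.1 hT with h | ⟨v, hv, rfl⟩
      · exact Or.inl ((mem_PR.1 h).1 hz)
      · rw [mem_singleton] at hz
        subst hz
        exact Or.inr hv
    exact hww (con_dbl H hty hwz hwz' lw lw' (by rw [cw, card_pair xx'])
      (by rw [cw', card_pair xx']))
  · have hd := d2 z hz z' hz' hzz
    have h1 := sit_sub H (by have := (d1 z hz).1; omega) hwz
    have h2 := sit_sub H (by have := (d1 z' hz').1; omega) hwz'
    have h3 : sit i w = sit i w' := by
      rw [sit_low H (by omega), sit_low H (by omega)]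
      ext v
      rw [mem_sts_iff H lw, mem_sts_iff H lw', cw, cw']
    obtain ⟨v, hv⟩ := sit_ne H hir (y := w) (by omega)
    exact disjoint_left.1 hd (h1 hv) (h2 (by rw [← h3]; exact hv))

/-- the configurations of the index set are leftover configurations -/
theorem PS7.Psi_LO6 (Q : PS7 r i psi C) (hb : 1 ≤ (st i C).card) {T : Finset P}
    (hT : T ∈ Ix i C) :
    LO6 uc dc (tL (P := P) i) (tU i) (lS P i) (uS P i) (Psi i C T) := by
  have hir : i ≤ r := by have := Q.hi2; omega
  obtain ⟨h1, h2⟩ := val_ne Q.toPSO hT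
  have hs := Psi_spt Q.H Q.hC hT
  rcases Q.cls hs (Psi_core Q.H hT) h1.le with h | ⟨-, h, w, s, ⟨x, x', a, b, G, -⟩ |
    ⟨x, x', a, b, G, -⟩⟩ | ⟨y, p, u, p', g1, g2, g3, D, R⟩ | h | h
  · exact absurd (cheap_coeff Q.H Q.hC hs h hb) h2
  · exact absurd G (Psi_noTogL Q.H hT)
  · exact absurd G (Psi_noTogU Q.H hT)
  · obtain ⟨k1, k2⟩ := Psi_noRef Q.H hir hT D
    rcases R with R | R
    · exact absurd R k1
    · exact absurd R k2
  · exact h.2.2.2.2
  · exact absurd h.1 (Psi_noClo Q.H hir hT)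

/-- sums over the leftover configurations of energy six -/
theorem PS7.sum_LO6 (Q : PS7 r i psi C) (hb : 1 ≤ (st i C).card) {M : Type*} [AddCommMonoid M]
    (f : (P → ℕ) → M) [DecidablePred (LO6 uc dc (tL (P := P) i) (tU i) (lS P i) (uS P i))] :
    ∑ e ∈ (C.piAntidiag 6).filter (LO6 uc dc (tL (P := P) i) (tU i) (lS P i) (uS P i)), f e =
      ∑ T ∈ Ix i C, f (Psi i C T) := by
  classical
  have hir : i ≤ r := by have := Q.hi2; omega
  have h1 : (C.piAntidiag 6).filter (LO6 uc dc (tL (P := P) i) (tU i) (lS P i) (uS P i)) =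
      (Ix i C).image (Psi i C) := by
    ext e
    rw [mem_filter, mem_image, mem_piA]
    constructor
    · rintro ⟨⟨g1, g2⟩, g3⟩
      exact LO6_index Q.toPSO g2 g3
    · rintro ⟨T, hT, rfl⟩
      exact ⟨⟨(val_ne Q.toPSO hT).1, Psi_spt Q.H Q.hC hT⟩, Q.Psi_LO6 hb hT⟩
  rw [h1, sum_image]
  intro T hT T' hT' h
  exact Psi_inj Q.H hir hT hT' h

/-- the environment number of a closed pair -/
noncomputable def envc (i : ℕ) (C : Finset P) (w : P) : ℤ :=
  (nLc i C w).card + (n2c i C w).card + (nUc i C w).card + (chc i C w).card - 2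

/-- the coefficient at the energy one -/
lemma cf_one_eq (H : Gr P r) (hir : i ≤ r) (hC : Part i C) (b : ℕ) :
    cf 1 b (ZS i C) = ∑ z ∈ C, PowerSeries.coeff b (tC i C (Pi.single z 1) : A) := by
  classical
  rw [cf_one, coeff_ZS, ← map_sum]
  congr 1
  unfold ZC
  rw [So.sum_pa_one]

/-- the coefficient of a difference with many factors -/
lemma be_of_dvd {V : PowerSeries A} {n b : ℕ} (hb : 1 ≤ b) {X : A}
    (h : dd ^ (b - 1) ∣ PowerSeries.coeff n V - X) :
    I2.be n b V = PowerSeries.coeff b (dd ^ 2 * X : A) := by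
  unfold I2.be
  rw [← sub_eq_zero, ← map_sub, ← mul_sub]
  apply I2.coeff_eq_zero_of_dvd
  have h1 := mul_dvd_mul_left (dd ^ 2) h
  rw [← pow_add] at h1
  exact (pow_dvd_pow dd (by omega)).trans h1

lemma be_of_dvd' {V : PowerSeries A} {n b : ℕ} (hb : 1 ≤ b) {X : A}
    (h : dd ^ (b - 1) ∣ PowerSeries.coeff n V - X) (h2 : dd ^ (b - 2) ∣ X) :
    dd ^ (b - 2) ∣ PowerSeries.coeff n V := by
  have h4 := dvd_add ((pow_dvd_pow dd (Nat.sub_le_sub_left (by omega : 1 ≤ 2) b)).trans h) h2
  rw [sub_add_cancel] at h4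
  exact h4

/-- the value of the labelling of type A -/
lemma CP.value (H : Gr P r) (hir : i ≤ r) (hC : Part (i + 1) C) (D : CP i w w' x x' s)
    (hw : w ∈ C) (hw' : w' ∈ C) :
    PowerSeries.coeff (st i C).card (dd ^ 2 * tC i C (Aw w) : A) = -1 := by
  classical
  have l := D.lv H
  have D1 : LowD i (Aw w) {x, x'} {w'} (uc x ∪ uc x') := by
    have key := D.low H (f := Aw w) (X := ∅) (D.aw_w H) (by rw [D.aw_w' H]) (D.aw_x H)
      (D.aw_x' H) (fun y _ a1 a2 a3 a4 _ => D.aw_zero H a1 a2 a3 a4)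
      (fun y hy => absurd hy (notMem_empty y)) (fun y hy => absurd hy (notMem_empty y))
      (fun v hv => D.aw_low H (D.T.site H hv).le) (fun y hy => absurd hy (notMem_empty y))
    simpa using key
  have D2 : UppD i (Aw w) ∅ ∅ ∅ := upp_none H hir fun y hy => D.aw_low H hy.le
  rw [coeff_tC2 H hC (D.aw_spt H hC hw hw') D1 D2 (disjoint_empty_right _) (by
    rw [D.three]; simp), D.three, card_pair D.T.ne]
  norm_num

/-- THE VALUE OF (5,2) of a part with closed pairs -/
theorem PS7.be5 (Q : PS7 r i psi C) (hb : 1 ≤ (st i C).card) :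
    I2.be 5 (st i C).card (ZS i C) = - ((CQ i C).card : ℤ) := by
  classical
  have H := Q.H
  have hir : i ≤ r := by have := Q.hi2; omega
  have h1 := Q.main5 (n := 5) le_rfl
  rw [la_five Q (tC i C), ← coeff_ZS] at h1
  rw [be_of_dvd hb h1, mul_sum, map_sum]
  rw [sum_congr rfl fun w hw => ?_, sum_const, nsmul_eq_mul, mul_neg_one]
  obtain ⟨hwC, w', x, x', s, hwC', D⟩ := mem_CQ.1 hw
  exact D.value H hir Q.hC hwC hwC'

/-- THE VALUE OF (6,2) of a part with closed pairs -/
theorem PS7.be6 (Q : PS7 r i psi C) (hb : 1 ≤ (st i C).card) :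
    I2.be 6 (st i C).card (ZS i C) =
      ∑ T ∈ PR i C, ∏ z ∈ T, chg i C z - (N1f i C).card - (N5f i C).card -
        (CQ i C).card * cf 1 (st i C).card (ZS i C) - ∑ w ∈ CQ i C, envc i C w := by
  classical
  have H := Q.H
  have hir : i ≤ r := by have := Q.hi2; omega
  have h0 := Q.main6
  rw [← coeff_ZS] at h0
  rw [be_of_dvd hb h0, mul_add, map_add, mul_sum, map_sum, mul_sum, map_sum]
  have h1 : ∑ e ∈ (C.piAntidiag 6).filter
      (LO6 uc dc (tL (P := P) i) (tU i) (lS P i) (uS P i)),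
        PowerSeries.coeff (st i C).card (dd ^ 2 * tC i C e : A) =
      ∑ T ∈ PR i C, ∏ z ∈ T, chg i C z - (N1f i C).card - (N5f i C).card := by
    rw [Q.sum_LO6 hb, sum_Ix H]
    have k1 : ∑ T ∈ PR i C, PowerSeries.coeff (st i C).card (dd ^ 2 * tC i C (Psi i C T) : A) =
        ∑ T ∈ PR i C, ∏ z ∈ T, chg i C z :=
      sum_congr rfl fun T hT => (PR_value H Q.hi Q.hi2 Q.hC hT).2
    have k2 : ∑ z ∈ N1f i C, PowerSeries.coeff (st i C).card
        (dd ^ 2 * tC i C (Psi i C {z}) : A) = ∑ z ∈ N1f i C, (-1 : ℤ) :=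
      sum_congr rfl fun z hz => (N1_value Q.toPSO hz).2
    have k3 : ∑ z ∈ N5f i C, PowerSeries.coeff (st i C).card
        (dd ^ 2 * tC i C (Psi i C {z}) : A) = ∑ z ∈ N5f i C, (-1 : ℤ) :=
      sum_congr rfl fun z hz => (N5_value H Q.hi Q.hi2 Q.hC hz).2
    rw [k1, k2, k3, sum_const, sum_const]
    simp only [nsmul_eq_mul]
    ring
  have hT : cf 1 (st i C).card (ZS i C) = ∑ z ∈ C, unv i C z := cf_one_eq H hir Q.hC.pred _
  have h2 : ∑ w ∈ CQ i C, PowerSeries.coeff (st i C).card
      (dd ^ 2 * ∑ z ∈ C, tC i C (Aw w + Pi.single z 1) : A) =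
      ∑ w ∈ CQ i C, (- cf 1 (st i C).card (ZS i C) - envc i C w) := by
    refine sum_congr rfl fun w hw => ?_
    obtain ⟨hwC, w', x, x', s, hwC', D⟩ := mem_CQ.1 hw
    have h3 := cl_sum H hir Q.hC Q.hM D hwC hwC'
    rw [mul_sum, map_sum, hT]
    unfold envc
    have h4 : ∑ z ∈ C, PowerSeries.coeff (st i C).card
        (dd ^ 2 * tC i C (Aw w + Pi.single z 1) : A) = ∑ z ∈ C, phv i C w z := rfl
    rw [h4]
    linarith
  rw [h1, h2, sum_sub_distrib, sum_const, nsmul_eq_mul]
  ring

/-- THE SECOND ORDER IDENTITY of a part with closed pairs -/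
theorem PS7.Q6 (Q : PS7 r i psi C) (hb : 1 ≤ (st i C).card)
    (h3 : I2.al 3 (st i C).card (ZS i C) = ∑ z ∈ Chs i C, chg i C z) :
    So.Q6 (st i C).card (ZS i C) =
      QQ i C + 2 * (N1f i C).card + 2 * (N5f i C).card + 2 * ∑ w ∈ CQ i C, envc i C w := by
  have hir : i ≤ r := by have := Q.hi2; omega
  unfold So.Q6
  rw [cf_three, cf_five, cf_six, Q.be6 hb, Q.be5 hb, ← sq_QQ Q.H hir, h3]
  ring

end Pool.Agent.GaussPoset.Win.SO
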