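import Pool.Agent.W_448cl_h64.ClJ
import Pool.Agent.W_448pn_h63.PoC
import Pool.Agent.W_448so_h39.FI

/-!
CLOSED PAIRS AT ENERGY SIX (MP_448cb3_co, G2): all parts without a flip in case B, window `j - 1`.
-/

set_option autoImplicit false

namespace Pool.Agent.GaussPoset.Win.Pn

set_option linter.unusedSectionVars false

open Finset W4 Wd
open Pool.Agent.GaussPoset.Win.SO (PS7 F5 CQ envc N1f N5f)

universe u

variable {P : Type u} [Fintype P] [PartialOrder P] [DecidableEq P] {r j i : ℕ}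
  {psi : P → P}

section nj

variable (h : NJ P r j) (hij : i + 1 = j) (hi1 : 1 ≤ i)
include h hij hi1

/-- the frame of a component -/
theorem nj_cm5 (t : Tops P) : ∃ lo hi e, Cp.Comp j (t : P) lo hi e ∧
    Cm5 P r i (t : P) lo hi e (SS i t) := by
  subst hij
  obtain ⟨lo, hi, e, Cm⟩ := Cp.comp_exists h.g.H t.2 h.g.hr h.g.good
  refine ⟨lo, hi, e, Cm, ?_⟩
  have K := cm5_no h.g hi1 h.no t Cm.toWin
  rwa [show i + 2 = (i + 1) + 1 by omega, h.cext_eq (i := i) (by omega) t] at K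

/-- every part without a flip -/
theorem nj_ps7 (hM : Mat P i ∅ psi) (t : Tops P) (hF : F5 i (SS i t) = ∅) :
    PS7 r i psi (SS i t) := by
  obtain ⟨lo, hi, e, Cm, K⟩ := nj_cm5 h hij hi1 t
  have Q := K.ps5 hM
  have hm := (nj_mtc h hij hi1 hM t hF).out
  refine ⟨Q.toPSO, Q.ncu, ?_, ?_⟩
  · intro p hp hpd
    rcases hm with hm | ⟨z, x, y, u, a1, a2, a3, a4, a5, a6, a7, a8, a9, a10, a11⟩
    · exact absurd hpd (hm p hp).1
    · have e1 := a9 p hp hpd
      subst e1
      exact ⟨y, a5, x, a2, a4, by rw [a6, a11]⟩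
  · intro p hp hpu
    rcases hm with hm | ⟨z, x, y, u, a1, a2, a3, a4, a5, a6, a7, a8, a9, a10, a11⟩
    · exact absurd hpu (hm p hp).2
    · have e1 := a10 p hp hpu
      subst e1
      refine ⟨u, a6, z, a1, a3, ?_⟩
      have hl := lev_uc h.g.H (x := z) (v := y) (by rw [a5]; simp)
      have hz := (mem_PD.1 a3).1
      have hdb : y ∈ dbL P i := mem_dbL.2 ⟨by omega, a8⟩
      have h1 := (hM.invol y (mem_union_left _ hdb) (notMem_empty y)).1
      rw [a5, ← a11, h1]

/-- the total charge -/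
theorem nj_chg (t : Tops P) (hF : F5 i (SS i t) = ∅) :
    I2.al 3 (st i (SS i t)).card (ZS i (SS i t)) = ∑ z ∈ Chs i (SS i t), chg i (SS i t) z := by
  classical
  rw [nj_al3 h hij hi1 t hF]
  have h5 := sum_chg (S := SS i t) h.g.H (i := i) (fun _ => True)
  simp only [filter_true] at h5
  rw [h5]
  ring

/-- THE SECOND ORDER VALUE of every part without a flip, case B, window `j - 1` -/
theorem nj_Q6 (t : Tops P) (hF : F5 i (SS i t) = ∅) :
    So.Q6 (st i (SS i t)).card (ZS i (SS i t)) =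
      QQ i (SS i t) + 2 * (N1f i (SS i t)).card + 2 * (N5f i (SS i t)).card +
        2 * ∑ w ∈ CQ i (SS i t), envc i (SS i t) w := by
  obtain ⟨psi, hM⟩ := good_mat h.g.H (h.g.good i (by omega))
  exact (nj_ps7 h hij hi1 hM t hF).Q6 (card_pos.2 (nj_st h hij t)) (nj_chg h hij hi1 t hF)

/-- THE (5,2) VALUE by the closed pairs -/
theorem nj_be5_CQ (t : Tops P) (hF : F5 i (SS i t) = ∅) :
    I2.be 5 (st i (SS i t)).card (ZS i (SS i t)) = - ((CQ i (SS i t)).card : ℤ) := by
  obtain ⟨psi, hM⟩ := good_mat h.g.H (h.g.good i (by omega))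
  exact (nj_ps7 h hij hi1 hM t hF).be5 (card_pos.2 (nj_st h hij t))

/-- the number of closed pairs -/
theorem nj_card_CQ (t : Tops P) (hF : F5 i (SS i t) = ∅) :
    (CQ i (SS i t)).card = (Tws i (SS i t)).card := by
  have h1 := nj_be5 h hij hi1 t
  rw [nj_be5_CQ h hij hi1 t hF, hF, card_empty] at h1
  push_cast at h1
  omega

end nj

end Pool.Agent.GaussPoset.Win.Pn
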