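import Pool.Agent.W_448cl_h64.ClK

/-!
CLOSED PAIRS AT ENERGY SIX (MP_448cb3_co, G2): the environment of a closed pair in the coordinates of
the component.
-/

set_option autoImplicit false

namespace Pool.Agent.GaussPoset.Win.Pn

set_option linter.unusedSectionVars false

open Finset W4 Wd
open Pool.Agent.GaussPoset.Win.SO (PS7 F5 CQ envc N1f N5f CP mem_CQ nLc nUc n2c chc mem_nLc mem_nUc
  mem_n2c mem_chc sit_td_low)

universe u

variable {P : Type u} [Fintype P] [PartialOrder P] [DecidableEq P] {r j i : ℕ}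
  {psi : P → P} {t : P} {lo hi : ℕ → ℕ} {e : ℕ → ℕ → P} {S : Finset P} {w : P}

/-- the place of a closed pair in a component: the doubles are `e (i+1) (b+1)`, `e (i+1) (b+2)` -/
structure ClP (i : ℕ) (lo hi : ℕ → ℕ) (e : ℕ → ℕ → P) (w : P) (b : ℕ) : Prop where
  l1 : lo i ≤ b
  h1 : b + 2 ≤ hi i
  l2 : lo (i + 1) ≤ b + 1
  h2 : b + 2 ≤ hi (i + 1)
  uw : uc w = {e (i + 1) (b + 1), e (i + 1) (b + 2)}
  sw : sit i w = {e i b, e i (b + 1), e i (b + 2)}
  lw : lev w = i + 2

section comp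

variable (K : Cm5 P r i t lo hi e S) (C : Cp.Comp (i + 1) t lo hi e)
include K C

/-- elements of the part up to the level `i + 1` -/
lemma cl_mem {k a : ℕ} (hk : k ≤ i + 1) (h1 : lo k ≤ a) (h2 : a ≤ hi k) : e k a ∈ S :=
  (K.hS _ (by rw [C.lev_e k a hk h1 h2]; omega)).2 (C.le_t k a hk h1 h2)

lemma cl_surj {z : P} (hz : z ∈ S) (hl : lev z ≤ i + 1) :
    ∃ a, lo (lev z) ≤ a ∧ a ≤ hi (lev z) ∧ e (lev z) a = z :=
  C.surj z ((K.hS z (by omega)).1 hz) hl

/-- the upper covers -/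
lemma cl_uc {k a : ℕ} (hk : k ≤ i) (h1 : lo (k + 1) ≤ a) (h2 : a ≤ hi (k + 1)) {v : P} :
    v ∈ uc (e (k + 1) a) ↔ ∃ c, lo k ≤ c ∧ c ≤ hi k ∧ e k c = v ∧ (c = a ∨ c + 1 = a) := by
  have hm := cl_mem K C (k := k + 1) (by omega) h1 h2
  have hl := C.lev_e (k + 1) a (by omega) h1 h2
  rw [mem_uc]
  constructor
  · intro hv
    have lv1 := lev_cov K.g.H hv
    have hvS := K.part.up hm hv
    obtain ⟨c, c1, c2, c3⟩ := cl_surj K C hvS (by omega)
    have lv2 : lev v = k := by omega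
    rw [lv2] at c1 c2 c3
    refine ⟨c, c1, c2, c3, ?_⟩
    rw [← c3] at hv
    exact (C.cov k a c (by omega) h1 h2 c1 c2).1 hv
  · rintro ⟨c, c1, c2, rfl, c4⟩
    exact (C.cov k a c (by omega) h1 h2 c1 c2).2 c4

/-- a closed pair has a place -/
theorem cl_place (hw : w ∈ CQ i S) : ∃ b, ClP i lo hi e w b := by
  classical
  have H := K.g.H
  obtain ⟨hwS, w', x, x', s, hwS', D⟩ := mem_CQ.1 hw
  -- the ordered case
  have key : ∀ (x x' s : P), CP i w w' x x' s → ∀ a a' : ℕ, lo (i + 1) ≤ a → a < a' →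
      a' ≤ hi (i + 1) → e (i + 1) a = x → e (i + 1) a' = x' → ∃ b, ClP i lo hi e w b := by
    intro x x' s D a a' a1 a2 a3 hx hx'
    have l := D.lv H
    have s1 := (cl_uc K C (le_refl i) a1 (by omega)).1 (show s ∈ uc (e (i + 1) a) by
      rw [hx]; exact D.T.sx)
    have s2 := (cl_uc K C (le_refl i) (by omega) a3).1 (show s ∈ uc (e (i + 1) a') by
      rw [hx']; exact D.T.sx')
    obtain ⟨c, c1, c2, c3, c4⟩ := s1
    obtain ⟨c', c1', c2', c3', c4'⟩ := s2
    have hcc := C.inj i c c' (by omega) c1 c2 c1' c2' (by rw [c3, c3'])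
    subst hcc
    have ha : c = a := by omega
    have ha' : a' = a + 1 := by omega
    subst ha ha'
    -- two covers
    have hlo : lo i ≤ c - 1 ∧ 1 ≤ c := by
      by_contra hcon
      have h1 : uc (e (i + 1) c) ⊆ {e i c} := by
        intro v hv
        obtain ⟨d, d1, d2, d3, d4⟩ := (cl_uc K C (le_refl i) a1 (by omega)).1 hv
        have : d = c := by omega
        rw [mem_singleton, ← d3, this]
      have h2 := card_le_card h1
      rw [hx, D.T.cx, card_singleton] at h2
      omega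
    have hhi : c + 1 ≤ hi i := by
      by_contra hcon
      have h1 : uc (e (i + 1) (c + 1)) ⊆ {e i c} := by
        intro v hv
        obtain ⟨d, d1, d2, d3, d4⟩ := (cl_uc K C (le_refl i) (by omega) a3).1 hv
        have : d = c := by omega
        rw [mem_singleton, ← d3, this]
      have h2 := card_le_card h1
      rw [hx', D.T.cx', card_singleton] at h2
      omega
    obtain ⟨b, rfl⟩ : ∃ b, c = b + 1 := ⟨c - 1, by omega⟩
    refine ⟨b, by omega, by omega, by omega, by omega, ?_, ?_, l.1⟩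
    · rw [D.T.cw, ← hx, ← hx']
    · rw [sit_td_low H D.T, ← hx, ← hx']
      ext v
      rw [mem_union, cl_uc K C (le_refl i) a1 (by omega),
        cl_uc K C (le_refl i) (by omega) a3]
      simp only [mem_insert, mem_singleton]
      constructor
      · rintro (⟨d, d1, d2, rfl, rfl | d4⟩ | ⟨d, d1, d2, rfl, rfl | d4⟩)
        · tauto
        · have : d = b := by omega
          rw [this]; tauto
        · tauto
        · have : d = b + 1 := by omega
          rw [this]; tauto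
      · rintro (rfl | rfl | rfl)
        · exact Or.inl ⟨b, by omega, by omega, rfl, Or.inr rfl⟩
        · exact Or.inl ⟨b + 1, by omega, by omega, rfl, Or.inl rfl⟩
        · exact Or.inr ⟨b + 2, by omega, by omega, rfl, Or.inl rfl⟩
  obtain ⟨hxS, hxS'⟩ := D.mem H K.part hwS
  have l := D.lv H
  obtain ⟨a, a1, a2, a3⟩ := cl_surj K C hxS (by omega)
  obtain ⟨a', a1', a2', a3'⟩ := cl_surj K C hxS' (by omega)
  rw [l.2.2.1] at a1 a2 a3
  rw [l.2.2.2.1] at a1' a2' a3'
  rcases Nat.lt_trichotomy a a' with hlt | heq | hlt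
  · exact key x x' s D a a' a1 hlt a2' a3 a3'
  · exfalso
    subst heq
    exact D.T.ne (a3.symm.trans a3')
  · exact key x' x s D.symm a' a a1' hlt a2 a3' a3

/-- the near lower elements -/
theorem cl_nLc {b : ℕ} (B : ClP i lo hi e w b) :
    nLc i S w = ((Icc (lo (i + 1)) (hi (i + 1))).filter (fun a => b ≤ a ∧ a ≤ b + 3)).image
      (e (i + 1)) := by
  classical
  have b1 := B.l1
  have b2 := B.h1
  ext z
  rw [mem_nLc, mem_image, B.sw]
  constructor
  · rintro ⟨hz, hl, hd⟩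
    obtain ⟨a, a1, a2, a3⟩ := cl_surj K C hz (by omega)
    rw [hl] at a1 a2 a3
    refine ⟨a, ?_, a3⟩
    rw [mem_filter, mem_Icc]
    refine ⟨⟨a1, a2⟩, ?_⟩
    rw [not_disjoint_iff] at hd
    obtain ⟨v, hv, hv'⟩ := hd
    rw [← a3, cl_uc K C (le_refl i) a1 a2] at hv
    obtain ⟨c, c1, c2, c3, c4⟩ := hv
    simp only [mem_insert, mem_singleton] at hv'
    rcases hv' with hv' | hv' | hv'
    · have := C.inj i c b (by omega) c1 c2 (by omega) (by omega) (by rw [c3, hv'])
      omega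
    · have := C.inj i c (b + 1) (by omega) c1 c2 (by omega) (by omega) (by rw [c3, hv'])
      omega
    · have := C.inj i c (b + 2) (by omega) c1 c2 (by omega) (by omega) (by rw [c3, hv'])
      omega
  · rintro ⟨a, ha, rfl⟩
    rw [mem_filter, mem_Icc] at ha
    refine ⟨cl_mem K C le_rfl ha.1.1 ha.1.2, C.lev_e _ _ le_rfl ha.1.1 ha.1.2, ?_⟩
    rw [not_disjoint_iff]
    have h4 : a = b ∨ a = b + 1 ∨ a = b + 2 ∨ a = b + 3 := by omega
    rcases h4 with rfl | rfl | rfl | rfl
    · exact ⟨e i a, (cl_uc K C (le_refl i) ha.1.1 ha.1.2).2 ⟨a, by omega, by omega, rfl,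
        Or.inl rfl⟩, by simp⟩
    · exact ⟨e i (b + 1), (cl_uc K C (le_refl i) ha.1.1 ha.1.2).2 ⟨b + 1, by omega, by omega,
        rfl, Or.inl rfl⟩, by simp⟩
    · exact ⟨e i (b + 2), (cl_uc K C (le_refl i) ha.1.1 ha.1.2).2 ⟨b + 2, by omega, by omega,
        rfl, Or.inl rfl⟩, by simp⟩
    · exact ⟨e i (b + 2), (cl_uc K C (le_refl i) ha.1.1 ha.1.2).2 ⟨b + 2, by omega, by omega,
        rfl, Or.inr rfl⟩, by simp⟩

/-- the number of near lower elements -/
theorem cl_nLc_card {b : ℕ} (B : ClP i lo hi e w b) :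
    (nLc i S w).card = 2 + (if lo (i + 1) ≤ b then 1 else 0) +
      (if b + 3 ≤ hi (i + 1) then 1 else 0) := by
  classical
  have b3 := B.l2
  have b4 := B.h2
  rw [cl_nLc K C B, card_image_of_injOn]
  · have h1 : (Icc (lo (i + 1)) (hi (i + 1))).filter (fun a => b ≤ a ∧ a ≤ b + 3) =
        Icc (max (lo (i + 1)) b) (min (hi (i + 1)) (b + 3)) := by
      ext a
      rw [mem_filter, mem_Icc, mem_Icc]
      omega
    rw [h1, Nat.card_Icc]
    split_ifs <;> omega
  · intro a ha a' ha' h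
    rw [mem_coe, mem_filter, mem_Icc] at ha ha'
    exact C.inj _ _ _ le_rfl ha.1.1 ha.1.2 ha'.1.1 ha'.1.2 h

/-- the near upper elements -/
theorem cl_nUc {b k : ℕ} (hk : i = k + 1) (B : ClP i lo hi e w b) :
    nUc i S w = ((Icc (lo k) (hi k)).filter (fun a => b ≤ a + 1 ∧ a ≤ b + 2)).image (e k) := by
  classical
  have H := K.g.H
  have b1 := B.l1
  have b2 := B.h1
  subst hk
  ext z
  rw [mem_nUc, mem_image, B.sw]
  constructor
  · rintro ⟨hz, hl, hd⟩
    obtain ⟨a, a1, a2, a3⟩ := cl_surj K C hz (by omega)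
    rw [show lev z = k by omega] at a1 a2 a3
    refine ⟨a, ?_, a3⟩
    rw [mem_filter, mem_Icc]
    refine ⟨⟨a1, a2⟩, ?_⟩
    rw [not_disjoint_iff] at hd
    obtain ⟨v, hv, hv'⟩ := hd
    have hc : ∀ c, lo (k + 1) ≤ c → c ≤ hi (k + 1) → e (k + 1) c = v → a = c ∨ a + 1 = c := by
      intro c c1 c2 c3
      rw [mem_dc, ← a3, ← c3] at hv
      exact (C.cov k c a (by omega) c1 c2 a1 a2).1 hv
    simp only [mem_insert, mem_singleton] at hv'
    rcases hv' with hv' | hv' | hv'
    · have := hc b (by omega) (by omega) hv'.symm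
      omega
    · have := hc (b + 1) (by omega) (by omega) hv'.symm
      omega
    · have := hc (b + 2) (by omega) (by omega) hv'.symm
      omega
  · rintro ⟨a, ha, rfl⟩
    rw [mem_filter, mem_Icc] at ha
    refine ⟨cl_mem K C (by omega) ha.1.1 ha.1.2, ?_, ?_⟩
    · rw [C.lev_e _ _ (by omega) ha.1.1 ha.1.2]
    rw [not_disjoint_iff]
    have hc : ∀ c, lo (k + 1) ≤ c → c ≤ hi (k + 1) → (a = c ∨ a + 1 = c) →
        e (k + 1) c ∈ dc (e k a) := by
      intro c c1 c2 c3
      rw [mem_dc]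
      exact (C.cov k c a (by omega) c1 c2 ha.1.1 ha.1.2).2 c3
    have h4 : a + 1 = b ∨ a = b ∨ a = b + 1 ∨ a = b + 2 := by omega
    rcases h4 with h4 | h4 | h4 | h4
    · exact ⟨_, hc b (by omega) (by omega) (by omega), by simp⟩
    · exact ⟨_, hc b (by omega) (by omega) (by omega), by simp⟩
    · exact ⟨_, hc (b + 1) (by omega) (by omega) (by omega), by simp⟩
    · exact ⟨_, hc (b + 2) (by omega) (by omega) (by omega), by simp⟩

/-- the number of near upper elements -/
theorem cl_nUc_card {b k : ℕ} (hk : i = k + 1) (B : ClP i lo hi e w b) :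
    (nUc i S w).card = 2 + (if lo k < b then 1 else 0) + (if b + 2 ≤ hi k then 1 else 0) := by
  classical
  have b1 := B.l1
  have b2 := B.h1
  have hs := C.lo_step k (by omega)
  have hs' := C.hi_step k (by omega)
  subst hk
  rw [cl_nUc K C rfl B, card_image_of_injOn]
  · have h1 : (Icc (lo k) (hi k)).filter (fun a => b ≤ a + 1 ∧ a ≤ b + 2) =
        Icc (max (lo k) (b - 1)) (min (hi k) (b + 2)) := by
      ext a
      rw [mem_filter, mem_Icc, mem_Icc]
      omega
    rw [h1, Nat.card_Icc]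
    split_ifs <;> omega
  · intro a ha a' ha' h
    rw [mem_coe, mem_filter, mem_Icc] at ha ha'
    exact C.inj _ _ _ (by omega) ha.1.1 ha.1.2 ha'.1.1 ha'.1.2 h

/-- no third element with two sites above the pair, except over three sites -/
theorem cl_n2c {b : ℕ} (B : ClP i lo hi e w b) : n2c i S w = ∅ := by
  classical
  rw [eq_empty_iff_forall_notMem]
  intro z hz
  obtain ⟨hzS, hl, hn, hc, hsub⟩ := mem_n2c.1 hz
  obtain ⟨a, a1, a2, a3⟩ := cl_surj K C hzS (by omega)
  rw [hl] at a1 a2 a3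
  have b1 := B.l1
  have b2 := B.h1
  -- the two covers are `e i (a-1)` and `e i a`
  have hcov : ∀ v ∈ uc z, ∃ c, lo i ≤ c ∧ c ≤ hi i ∧ e i c = v ∧ (c = a ∨ c + 1 = a) := by
    intro v hv
    rw [← a3] at hv
    exact (cl_uc K C (le_refl i) a1 a2).1 hv
  have hin : ∀ c, lo i ≤ c → c ≤ hi i → (c = a ∨ c + 1 = a) → b ≤ c ∧ c ≤ b + 2 := by
    intro c c1 c2 c3
    have h1 : e i c ∈ uc z := by
      rw [← a3]
      exact (cl_uc K C (le_refl i) a1 a2).2 ⟨c, c1, c2, rfl, c3⟩
    have h2 := hsub h1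
    rw [B.sw] at h2
    simp only [mem_insert, mem_singleton] at h2
    rcases h2 with h2 | h2 | h2
    · have := C.inj i _ _ (by omega) c1 c2 (by omega) (by omega) h2
      omega
    · have := C.inj i _ _ (by omega) c1 c2 (by omega) (by omega) h2
      omega
    · have := C.inj i _ _ (by omega) c1 c2 (by omega) (by omega) h2
      omega
  obtain ⟨v, v', hne, hvv⟩ := card_eq_two.1 hc
  obtain ⟨c, c1, c2, c3, c4⟩ := hcov v (by rw [hvv]; simp)
  obtain ⟨c', c1', c2', c3', c4'⟩ := hcov v' (by rw [hvv]; simp)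
  have hcc : c ≠ c' := by
    rintro rfl
    exact hne (c3.symm.trans c3')
  have k1 := hin c c1 c2 c4
  have k2 := hin c' c1' c2' c4'
  apply hn
  rw [B.uw, mem_insert, mem_singleton, ← a3]
  have : a = b + 1 ∨ a = b + 2 := by omega
  rcases this with rfl | rfl
  · exact Or.inl rfl
  · exact Or.inr rfl

/-- THE ENVIRONMENT of a closed pair in coordinates -/
theorem cl_env {b k : ℕ} (hk : i = k + 1) (B : ClP i lo hi e w b) :
    envc i S w = 2 + (if lo (i + 1) ≤ b then 1 else 0) + (if b + 3 ≤ hi (i + 1) then 1 else 0) +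
      (if lo k < b then 1 else 0) + (if b + 2 ≤ hi k then 1 else 0) + (chc i S w).card := by
  unfold envc
  rw [cl_nLc_card K C B, cl_nUc_card K C hk B, cl_n2c K C B, card_empty]
  push_cast
  ring

/-- the bound for at least four sites -/
theorem cl_env_ge {b : ℕ} (h4 : lo i + 3 ≤ hi i) (B : ClP i lo hi e w b) :
    4 + ((chc i S w).card : ℤ) ≤ envc i S w := by
  have hi1 := K.i1
  obtain ⟨k, hk⟩ : ∃ k, i = k + 1 := ⟨i - 1, by omega⟩
  rw [cl_env K C hk B]
  have b1 := B.l1
  have b2 := B.h1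
  have hs := C.lo_step k (by omega)
  have hs' := C.hi_step k (by omega)
  have hs2 := C.lo_step i (by omega)
  have hs2' := C.hi_step i (by omega)
  rw [← hk] at hs hs'
  split_ifs <;> first | omega | linarith

end comp

section nj

variable (h : NJ P r j) (hij : i + 1 = j) (hi1 : 1 ≤ i)
include h hij hi1

/-- THE ENVIRONMENT of a closed pair, at least four sites -/
theorem nj_env_ge (t : Tops P) (h4 : 4 ≤ (st i (SS i t)).card) (hw : w ∈ CQ i (SS i t)) :
    4 + ((chc i (SS i t) w).card : ℤ) ≤ envc i (SS i t) w := by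
  obtain ⟨lo, hi, e, Cm, K⟩ := nj_cm5 h hij hi1 t
  subst hij
  obtain ⟨b, B⟩ := cl_place K Cm hw
  have hc := K.card_st
  have := B.l1
  have := B.h1
  exact cl_env_ge K Cm (by omega) B

/-- THE (6,2) BOUND of every part without a flip, at least four sites -/
theorem nj_Q6_ge (t : Tops P) (h4 : 4 ≤ (st i (SS i t)).card) (hF : F5 i (SS i t) = ∅) :
    QQ i (SS i t) + 2 * (N1f i (SS i t)).card + 2 * (N5f i (SS i t)).card +
        8 * (CQ i (SS i t)).card + 2 * ∑ w ∈ CQ i (SS i t), ((chc i (SS i t) w).card : ℤ) ≤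
      So.Q6 (st i (SS i t)).card (ZS i (SS i t)) := by
  rw [nj_Q6 h hij hi1 t hF]
  have h1 : ∑ w ∈ CQ i (SS i t), (4 + ((chc i (SS i t) w).card : ℤ)) ≤
      ∑ w ∈ CQ i (SS i t), envc i (SS i t) w :=
    sum_le_sum fun w hw => nj_env_ge h hij hi1 t h4 hw
  rw [sum_add_distrib, sum_const, nsmul_eq_mul] at h1
  linarith

end nj

end Pool.Agent.GaussPoset.Win.Pn
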