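import Pool.Agent.W_448wd_h84.WdE
import Pool.Agent.W_448so_h39.FC

/-!
MP_448cb3_co, G2, case B: the letters `C O` of a component with at least four elements on the level `j`
which is closed at one end.  helper64.
-/

namespace Pool.Agent.GaussPoset.Wd

set_option linter.unusedSectionVars false

open Finset

/-- the late word with a closed end -/
def W7 : List Ltr := [OC, CO, CO, OO, CO, OO, OC]

lemma lateW_good (a : ℕ) : ∀ w ∈ lateW a, w.count OO < w.count CC + 2 ∨ w.getLast? = some OO ∨
    w = W7 := by
  intro w hw
  unfold lateW at hw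
  simp only [List.mem_append] at hw
  rcases hw with ((((((hw | hw) | hw) | hw) | hw) | hw) | hw) | hw
  · revert w
    decide +kernel
  · split_ifs at hw
    · revert w
      decide +kernel
    · revert w
      decide +kernel
  all_goals
    split_ifs at hw
    · revert w
      decide +kernel
    · exact absurd hw List.not_mem_nil

universe u

variable {P : Type u} [PartialOrder P] [Fintype P] [DecidableEq P]
variable {lo hi : ℕ → ℕ} {a d j : ℕ}

lemma word_count (hlo : ∀ k, k < a + d → lo (k + 1) = lo k ∨ lo (k + 1) = lo k + 1)
    (hhi : ∀ k, k < a + d → hi (k + 1) = hi k ∨ hi (k + 1) = hi k + 1) :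
    hi (a + d) + (word lo hi a d).count CC + lo a = lo (a + d) + (word lo hi a d).count OO + hi a := by
  induction d with
  | zero =>
    have : word lo hi a 0 = [] := rfl
    rw [this]
    simp
    omega
  | succ d ih =>
    have h1 := ih (fun k hk => hlo k (by omega)) (fun k hk => hhi k (by omega))
    have h2 := hlo (a + d) (by omega)
    have h3 := hhi (a + d) (by omega)
    rw [word_succ, List.count_append, List.count_append, show a + (d + 1) = a + d + 1 from rfl]
    rcases h2 with h2 | h2 <;> rcases h3 with h3 | h3
    · have e1 : decide (lo (a + d + 1) ≠ lo (a + d)) = false := by simp [h2]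
      have e2 : decide (hi (a + d + 1) ≠ hi (a + d)) = false := by simp [h3]
      rw [e1, e2, show List.count CC [((false, false) : Ltr)] = 0 by decide,
        show List.count OO [((false, false) : Ltr)] = 0 by decide]
      omega
    · have e1 : decide (lo (a + d + 1) ≠ lo (a + d)) = false := by simp [h2]
      have e2 : decide (hi (a + d + 1) ≠ hi (a + d)) = true := by simp [h3]
      rw [e1, e2, show List.count CC [((false, true) : Ltr)] = 0 by decide,
        show List.count OO [((false, true) : Ltr)] = 1 by decide]
      omega
    · have e1 : decide (lo (a + d + 1) ≠ lo (a + d)) = true := by simp [h2]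
      have e2 : decide (hi (a + d + 1) ≠ hi (a + d)) = false := by simp [h3]
      rw [e1, e2, show List.count CC [((true, false) : Ltr)] = 1 by decide,
        show List.count OO [((true, false) : Ltr)] = 0 by decide]
      omega
    · have e1 : decide (lo (a + d + 1) ≠ lo (a + d)) = true := by simp [h2]
      have e2 : decide (hi (a + d + 1) ≠ hi (a + d)) = true := by simp [h3]
      rw [e1, e2, show List.count CC [((true, true) : Ltr)] = 0 by decide,
        show List.count OO [((true, true) : Ltr)] = 0 by decide]
      omega

/-- the last letter -/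
lemma word_last (hd : 1 ≤ d) (h : (word lo hi a d).getLast? = some OO) :
    lo (a + d) = lo (a + d - 1) ∧ hi (a + d) ≠ hi (a + d - 1) := by
  obtain ⟨d, rfl⟩ : ∃ k, d = k + 1 := ⟨d - 1, by omega⟩
  rw [word_succ, List.getLast?_append, List.getLast?_singleton, Option.some_or] at h
  have h1 := Option.some.inj h
  unfold OO at h1
  rw [Prod.mk.injEq] at h1
  obtain ⟨h2, h3⟩ := h1
  rw [decide_eq_false_iff_not] at h2
  rw [decide_eq_true_iff] at h3
  rw [show a + (d + 1) - 1 = a + d by omega, show a + (d + 1) = a + d + 1 by omega]
  push Not at h2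
  exact ⟨h2, h3⟩

/-- the quadric words have one element -/
lemma Qw_hi (hw : word lo hi a d = Qw d) (hd : 1 ≤ d)
    (hhi : ∀ k, k < a + d → hi (k + 1) = hi k ∨ hi (k + 1) = hi k + 1) : hi (a + d) = hi a := by
  obtain ⟨w1, w2⟩ := word_spec hw
  have key : ∀ k, k < d → hi (a + k + 1) = hi (a + k) := by
    intro k hk
    have h1 := (w2 k hk).2
    have h2 : (Qw d)[k]?.map Prod.snd = some false := by
      unfold Qw
      rcases k with _ | k
      · rfl
      · rw [List.getElem?_cons_succ, List.getElem?_replicate, if_pos (by omega)]
        rfl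
    rw [h2] at h1
    have h3 := of_decide_eq_false (Option.some.inj h1).symm
    push Not at h3
    exact h3
  have : ∀ k, k ≤ d → hi (a + k) = hi a := by
    intro k
    induction k with
    | zero => intro _; rfl
    | succ k ih =>
      intro hk
      rw [← Nat.add_assoc, key k (by omega), ih (by omega)]
  exact this d le_rfl

/-- THE SHAPES: at least four elements on the level `j = n + 3`, one end closed: the letters `C O` on the
left only in one late word, on the right only in a stair -/
theorem cl_shape {n : ℕ} (S : Shape (n + 3) lo hi)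
    (hlo : ∀ k, k < n + 3 → lo (k + 1) = lo k ∨ lo (k + 1) = lo k + 1)
    (hhi : ∀ k, k < n + 3 → hi (k + 1) = hi k ∨ hi (k + 1) = hi k + 1)
    (hle : ∀ k, k ≤ n + 3 → hi k ≤ k)
    (hV : lo (n + 3) + 3 ≤ hi (n + 3))
    (hcl : lo (n + 3) = lo (n + 2) + 1 ∨ hi (n + 3) = hi (n + 2)) :
    (lo (n + 1) = lo n + 1 → lo (n + 2) = lo (n + 1) → ∃ a, 3 ≤ a ∧ a + 7 = n + 3 ∧
        (∀ k, k < a → lo k = 0 ∧ hi k = 0) ∧ (lo a = 0 ∧ hi a = 1) ∧
        word lo hi a 7 = W7) ∧
    (hi (n + 1) = hi n → hi (n + 2) = hi (n + 1) + 1 → hi (n + 3) = hi (n + 2) ∧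
      (∀ k, n = k + 1 → hi (k + 1) = hi k + 1)) := by
  rcases S with h | ⟨h1, h2⟩ | ⟨h0, h2⟩ | ⟨h0, h1, h2⟩ | ⟨h0, h1⟩ | ⟨a, h0, h1, h2, h3, hN, h4⟩
  · have := h (n + 3) le_rfl
    omega
  · constructor
    · intro g1 g2
      have g3 := h2.lo (n + 1) (by omega)
      have e1 : lo (n + 1 + 1) = lo (n + 2) := rfl
      omega
    · intro g1 g2
      have g3 := h2.hi (n + 1) (by omega)
      have g4 := hle n (by omega)
      have e1 : hi (n + 1 + 1) = hi (n + 2) := rfl
      omega
  · constructor
    · intro g1 g2
      have g3 := h2.lo (n + 1) (by omega)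
      have e1 : lo (n + 1 + 1) = lo (n + 2) := rfl
      omega
    · intro g1 g2
      have g3 := h2.hi (n + 1) (by omega)
      have g4 := h2.hi n (by omega)
      have g5 := h2.hi (n + 2) (by omega)
      have g6 := h2.hi (n + 3) (by omega)
      refine ⟨by omega, ?_⟩
      intro k hk
      subst hk
      have g7 := h2.hi k (by omega)
      omega
  · obtain rfl : n = 0 := by omega
    simp only [Nat.zero_add] at hV
    omega
  · obtain ⟨-, h1⟩ := h1
    obtain rfl : n = 3 := by omega
    simp only [show 3 + 3 = 6 from rfl] at hV
    omega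
  · have hcnt := word_count (a := a) (d := n + 3 - a) (lo := lo) (hi := hi)
      (fun k hk => hlo k (by omega)) (fun k hk => hhi k (by omega))
    rw [show a + (n + 3 - a) = n + 3 by omega] at hcnt
    rcases h4 with ⟨h5, h6⟩ | h4
    · exfalso
      have h7 := Qw_hi h6 (by omega) (fun k hk => hhi k (by omega))
      rw [show a + (n + 3 - a) = n + 3 by omega] at h7
      omega
    · rcases lateW_good a _ h4 with g | g | g
      · exfalso
        omega
      · exfalso
        rcases Nat.eq_zero_or_pos (n + 3 - a) with h5 | h5
        · have : a = n + 3 := by omega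
          rw [this] at h3
          omega
        · have h6 := word_last (by omega) g
          rw [show a + (n + 3 - a) = n + 3 by omega, show n + 3 - 1 = n + 2 by omega] at h6
          omega
      · obtain ⟨w1, w2⟩ := word_spec g
        have hl : W7.length = 7 := rfl
        rw [hl] at w1
        obtain rfl : n = a + 4 := by omega
        rw [w1] at g
        constructor
        · intro _ _
          exact ⟨a, h0, by omega, h2, h3, g⟩
        · intro g1 g2
          exfalso
          have h5 := (w2 4 (by omega)).2
          rw [show W7[4]?.map Prod.snd = some true by decide] at h5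
          have h6 := of_decide_eq_true (Option.some.inj h5).symm
          exact h6 g1

end Pool.Agent.GaussPoset.Wd
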