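import Pool.Agent.W_448nl_h15.NlR
import Pool.Agent.W_448nl_h15.NlO
import Pool.Agent.W_448cl_h64.ClR

/-!
MP_448cb3_co, G2, case B: the late word OC CO CO OO CO OO OC: nothing hangs below the open end of the
level `j`.  The identity (4,1)(j - 3) of helper15; the window `j - 3` has three sites.  helper64.
-/

namespace Pool.Agent.GaussPoset.EK

set_option linter.unusedSectionVars false

open Finset Win St Polynomial Wd Nl

universe u

variable {P : Type u} [Fintype P] [PartialOrder P] [DecidableEq P] {r i j a : ℕ} {S : Finset P}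

lemma cm_c2 : PowerSeries.coeff 2 (xx ^ 2 * dd ^ 2 : A) = 1 := by
  rw [mul_comm]
  unfold dd
  have h := PowerSeries.coeff_X_pow_mul (xx ^ 2 : A) 2 0
  rw [zero_add] at h
  rw [h, PowerSeries.coeff_zero_eq_constantCoeff, map_pow, cc_xx]
  norm_num

lemma cm_c2' {v : A} (h : dd ^ 3 ∣ v) : PowerSeries.coeff 2 v = 0 := by
  obtain ⟨w, rfl⟩ := h
  unfold dd
  rw [PowerSeries.coeff_X_pow_mul']
  norm_num

/-- a chain meets at most two sites -/
lemma slim_up (H : Gr P r) {z : P} {k : ℕ} (hk : a + 1 ≤ k) (hz : z ∈ slim a k S) :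
    up a z ≤ 2 := by
  classical
  have hzl := (mem_slim.1 hz).2.1
  obtain ⟨y, hy, hyl⟩ := exists_above' (x := z) (j := a + 1) (by omega)
  have h1 : (lv P a).filter (fun v => z < v) ⊆ uc y := by
    intro v hv
    rw [mem_filter, mem_lv] at hv
    obtain ⟨w, hw1, hw2, hw3⟩ := exists_mid H hv.2.le (k := a + 1) (by omega) (by omega)
    have h5 := slim_uniq hz hy hw1 (by omega) (by omega)
    subst h5
    rw [mem_uc, H.covBy_iff]
    refine ⟨lt_of_le_of_ne hw2 ?_, by omega⟩
    rintro rfl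
    omega
  have h2 : (uc y).card ≤ 2 := by
    rcases uc_card_cases H (x := y) (by omega) with h | h <;> omega
  unfold up
  refine le_trans (le_of_eq ?_) ((card_le_card h1).trans h2)
  congr

/-- the coefficient of `d ^ 2` at the first energy which sees the level `a + E`, three sites -/
lemma c2_first (H : Gr P r) {E : ℕ} (har : a ≤ r) (hC : Part a S) (hE : 1 ≤ E)
    (h3 : (st a S).card = 3) :
    PowerSeries.coeff 2 (ZC a S E : A) = PowerSeries.coeff 2 (ZC a (cut (a + E) S) E : A) +
      (((slim a (a + E) S).filter (fun z => up a z = 2)).card : ℤ) := by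
  classical
  rw [ZC_first H har hC (show a < a + E by omega) (n := E) (by omega), if_pos (by omega), map_add]
  congr 1
  rw [map_sum, Finset.card_filter]
  push_cast
  refine Finset.sum_congr rfl fun z hz => ?_
  rw [h3]
  by_cases hu : up a z = 2
  · rw [if_pos hu, hu]
    exact cm_c2
  · rw [if_neg hu]
    have h4 := slim_up H (by omega) hz
    refine cm_c2' (Dvd.dvd.mul_left (pow_dvd_pow dd (by omega)) _)

section comp

variable {t : Tops P} {lo hi : ℕ → ℕ} {e : ℕ → ℕ → P}

/-- the elements below the open end of the level `j = a + 3`; letters C, O, O at this end -/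
lemma pen_slim (h : NJ P r (a + 3)) (C : Cp.Comp (a + 3) (t : P) lo hi e)
    (h1 : lo (a + 1) = lo a + 1) (h2 : lo (a + 2) = lo (a + 1)) (h3 : lo (a + 3) = lo (a + 2))
    (h0 : lo a < hi a) :
    pen (e (a + 3) (lo (a + 3))) ⊆ (slim a (a + 4) (SS a t)).filter (fun z => up a z = 2) := by
  classical
  have H := h.g.H
  have hg := h.g.good
  have f0 := C.lo_le (a + 1) (by omega)
  have f1 := C.lo_le (a + 2) (by omega)
  have f2 := C.lo_le (a + 3) (by omega)
  intro z hz
  rw [mem_pen] at hz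
  obtain ⟨hz1, hz2⟩ := hz
  have hlj := C.lev_e (a + 3) (lo (a + 3)) le_rfl le_rfl f2
  have hzl : lev z = a + 4 := by
    have := lev_cov H hz1
    omega
  have hzt : z ≤ (t : P) := hz1.le.trans (C.le_t (a + 3) (lo (a + 3)) le_rfl le_rfl f2)
  -- the chain
  have k3 : ∀ y, z ≤ y → lev y = a + 3 → y = e (a + 3) (lo (a + 3)) := by
    intro y hy hyl
    have h5 : z ⋖ y := by
      rw [H.covBy_iff]
      refine ⟨lt_of_le_of_ne hy ?_, by omega⟩
      rintro rfl
      omega
    rw [Finset.card_eq_one] at hz2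
    obtain ⟨w, hw⟩ := hz2
    have h6 := mem_uc.2 h5
    have h7 := mem_uc.2 hz1
    rw [hw, mem_singleton] at h6 h7
    rw [h6, h7]
  have step : ∀ k, a + 1 ≤ k → k + 1 ≤ a + 3 → lo (k + 1) = lo k →
      (∀ y, z ≤ y → lev y = k + 1 → y = e (k + 1) (lo (k + 1))) →
      ∀ y, z ≤ y → lev y = k → y = e k (lo k) := by
    intro k hk hk3 hlo ih y hy hyl
    obtain ⟨w, hw1, hw2, hw3⟩ := exists_mid H hy (k := k + 1) (by omega) (by omega)
    have h5 := ih w hw1 hw3
    have h8 := C.lo_le (k + 1) (by omega)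
    have h9 : w ⋖ y := by
      rw [H.covBy_iff]
      refine ⟨lt_of_le_of_ne hw2 ?_, by omega⟩
      rintro rfl
      omega
    rw [h5] at h9
    obtain ⟨s', g1, g2, g3, g4⟩ := C.cov_up H hg t.2 (by omega) le_rfl h8 h9
    rw [g3]
    congr 1
    omega
  have k2 := step (a + 2) (by omega) (by omega) h3 k3
  have k1 := step (a + 1) (by omega) (by omega) h2 k2
  have kk : ∀ k, a + 1 ≤ k → k ≤ a + 3 → ∀ y, z ≤ y → lev y = k → y = e k (lo k) := by
    intro k hk1 hk2 y hy hyl
    obtain rfl | rfl | rfl : k = a + 1 ∨ k = a + 2 ∨ k = a + 3 := by omega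
    · exact k1 y hy hyl
    · exact k2 y hy hyl
    · exact k3 y hy hyl
  have hinj : Set.InjOn lev (cone a z : Set P) := by
    intro y hy y' hy' hyy
    rw [mem_coe, mem_cone] at hy hy'
    have hle : lev y ≤ a + 4 := by
      rcases eq_or_lt_of_le hy.1 with h8 | h8
      · rw [← h8, hzl]
      · have := lev_strictAnti h8
        omega
    rcases Nat.lt_or_ge (a + 3) (lev y) with h5 | h5
    · have h6 : ∀ v, z ≤ v → lev v = a + 4 → v = z := by
        intro v hv hvl
        by_contra hne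
        have := lev_strictAnti (lt_of_le_of_ne hv (Ne.symm hne))
        omega
      rw [h6 y hy.1 (by omega), h6 y' hy'.1 (by omega)]
    · rw [kk (lev y) (by omega) h5 y hy.1 rfl, kk (lev y) (by omega) h5 y' hy'.1 hyy.symm]
  have hcard : (cone a z).card = a + 4 - a := by
    rw [← Finset.card_image_of_injOn hinj, image_cone, Nat.card_Ioc, hzl]
  rw [mem_filter]
  refine ⟨mem_slim.2 ⟨(h.mem (by omega) t (by omega)).2 hzt, hzl, hcard⟩, ?_⟩
  -- the two sites
  have hw : z ≤ e (a + 1) (lo (a + 1)) := by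
    obtain ⟨w, hw, hwl⟩ := exists_above' (x := z) (j := a + 1) (by omega)
    rw [← k1 w hw hwl]
    exact hw
  have hup : (lv P a).filter (fun v => z < v) = {e a (lo a), e a (lo a + 1)} := by
    ext v
    rw [mem_filter, mem_lv, mem_insert, mem_singleton]
    constructor
    · rintro ⟨hv1, hv2⟩
      obtain ⟨w, hw1, hw2, hw3⟩ := exists_mid H hv2.le (k := a + 1) (by omega) (by omega)
      have h5 := k1 w hw1 hw3
      have h9 : w ⋖ v := by
        rw [H.covBy_iff]
        refine ⟨lt_of_le_of_ne hw2 ?_, by omega⟩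
        rintro rfl
        omega
      rw [h5] at h9
      obtain ⟨s', g1, g2, g3, g4⟩ := C.cov_up H hg t.2 (by omega) le_rfl f0 h9
      obtain rfl | rfl : s' = lo a ∨ s' = lo a + 1 := by omega
      · exact Or.inl g3
      · exact Or.inr g3
    · intro hv
      have h5 : ∀ s, lo a ≤ s → s ≤ lo a + 1 → lev (e a s) = a ∧ z < e a s := by
        intro s hs hs'
        have h6 := C.lev_e a s (by omega) (by omega) (by omega)
        have h7 := (C.le_iff H hg t.2 (l := a) (s' := s) (d := 1) (s := lo (a + 1)) (by omega)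
          (by omega) (by omega) (by omega) (by omega)).2 (by omega)
        refine ⟨h6, lt_of_le_of_ne (hw.trans h7) ?_⟩
        rintro rfl
        omega
      rcases hv with rfl | rfl
      · exact h5 _ le_rfl (by omega)
      · exact h5 _ (by omega) le_rfl
  have hne : e a (lo a) ≠ e a (lo a + 1) := by
    intro hh
    have := C.inj a (lo a) (lo a + 1) (by omega) (by omega) (by omega) (by omega) (by omega) hh
    omega
  have h10 : up a z = ((lv P a).filter (fun v => z < v)).card := by
    unfold up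
    congr
  rw [h10, hup, Finset.card_pair hne]

set_option maxRecDepth 100000 in
lemma lw7_ok : Win.Ev.okP [0, 0, 1, 2, 2, 3, 3, 3] [1, 1, 2, 3, 4, 5, 6, 6] 8 4
      (Win.Ev.mk [0, 0, 1, 2, 2, 3, 3, 3] [1, 1, 2, 3, 4, 5, 6, 6] 8 4) = true ∧
    Win.Ev.lb0 (Win.Ev.mk [0, 0, 1, 2, 2, 3, 3, 3] [1, 1, 2, 3, 4, 5, 6, 6] 8 4) = true ∧
    Win.Ev.ev 2 (Win.Ev.mk [0, 0, 1, 2, 2, 3, 3, 3] [1, 1, 2, 3, 4, 5, 6, 6] 8 4) 0 4 0 0 0 = 0 := by
  refine ⟨?_, ?_, ?_⟩ <;> decide +kernel

open Win.Ev in
/-- THE OPEN END OF THE LATE WORD: nothing hangs below it -/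
theorem NJ.pen_late7 (h : NJ P r j) (C : Cp.Comp j (t : P) lo hi e) (ha : 3 ≤ a) (haj : a + 7 = j)
    (hab : lo a = 0 ∧ hi a = 1) (hw : word lo hi a 7 = W7) : pen (e j (lo j)) = ∅ := by
  classical
  have hr := h.hr
  obtain ⟨w1, w2⟩ := Wd.word_spec hw
  have key : ∀ k b c, k < 7 → W7[k]? = some (b, c) →
      lo (a + k + 1) = lo (a + k) + (if b then 1 else 0) ∧
        hi (a + k + 1) = hi (a + k) + (if c then 1 else 0) := by
    intro k b c hk hkw
    obtain ⟨q1, q2⟩ := w2 k hk
    rw [hkw] at q1 q2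
    simp only [Option.map_some, Option.some.injEq] at q1 q2
    have s1 := C.lo_step (a + k) (by omega)
    have s2 := C.hi_step (a + k) (by omega)
    constructor
    · cases b
      · have := of_decide_eq_false q1.symm
        simp only [Bool.false_eq_true, if_false]
        omega
      · have := of_decide_eq_true q1.symm
        simp only [if_true]
        omega
    · cases c
      · have := of_decide_eq_false q2.symm
        simp only [Bool.false_eq_true, if_false]
        omega
      · have := of_decide_eq_true q2.symm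
        simp only [if_true]
        omega
  have v0 := key 0 false false (by omega) rfl
  have v1 := key 1 true true (by omega) rfl
  have v2 := key 2 true true (by omega) rfl
  have v3 := key 3 false true (by omega) rfl
  have v4 := key 4 true true (by omega) rfl
  have v5 := key 5 false true (by omega) rfl
  have v6 := key 6 false false (by omega) rfl
  simp only [Bool.false_eq_true, if_false, if_true, add_zero] at v0 v1 v2 v3 v4 v5 v6
  have u0 : lo (a + 0) = 0 ∧ hi (a + 0) = 1 := hab
  have u1 : lo (a + 1) = 0 ∧ hi (a + 1) = 1 := by rw [v0.1, v0.2]; exact hab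
  have u2 : lo (a + 2) = 1 ∧ hi (a + 2) = 2 :=
    ⟨by show lo (a + 1 + 1) = 1; omega, by show hi (a + 1 + 1) = 2; omega⟩
  have u3 : lo (a + 3) = 2 ∧ hi (a + 3) = 3 :=
    ⟨by show lo (a + 2 + 1) = 2; omega, by show hi (a + 2 + 1) = 3; omega⟩
  have u4 : lo (a + 4) = 2 ∧ hi (a + 4) = 4 :=
    ⟨by show lo (a + 3 + 1) = 2; omega, by show hi (a + 3 + 1) = 4; omega⟩
  have u5 : lo (a + 5) = 3 ∧ hi (a + 5) = 5 :=
    ⟨by show lo (a + 4 + 1) = 3; omega, by show hi (a + 4 + 1) = 5; omega⟩
  have u6 : lo (a + 6) = 3 ∧ hi (a + 6) = 6 :=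
    ⟨by show lo (a + 5 + 1) = 3; omega, by show hi (a + 5 + 1) = 6; omega⟩
  have u7 : lo (a + 7) = 3 ∧ hi (a + 7) = 6 :=
    ⟨by show lo (a + 6 + 1) = 3; omega, by show hi (a + 6 + 1) = 6; omega⟩
  clear v0 v1 v2 v3 v4 v5 v6 key
  obtain rfl : j = a + 4 + 3 := by omega
  have hrows : Rows lo hi a 0 8 [0, 0, 1, 2, 2, 3, 3, 3] [1, 1, 2, 3, 4, 5, 6, 6] := by
    constructor
    · intro k hk
      obtain rfl | rfl | rfl | rfl | rfl | rfl | rfl | rfl :
        k = 0 ∨ k = 1 ∨ k = 2 ∨ k = 3 ∨ k = 4 ∨ k = 5 ∨ k = 6 ∨ k = 7 := by omega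
      all_goals simp only [List.getD_cons_zero, List.getD_cons_succ]; omega
    · intro k hk
      obtain rfl | rfl | rfl | rfl | rfl | rfl | rfl | rfl :
        k = 0 ∨ k = 1 ∨ k = 2 ∨ k = 3 ∨ k = 4 ∨ k = 5 ∨ k = 6 ∨ k = 7 := by omega
      all_goals simp only [List.getD_cons_zero, List.getD_cons_succ]; omega
  have Lc : LocN P r (a + 4 + 3) (t : P) lo hi (fun k s => e k s) (SS (a + 4) t) (a + 4) a 0 8 4
      [0, 0, 1, 2, 2, 3, 3, 3] [1, 1, 2, 3, 4, 5, 6, 6] :=
    ⟨h.g.H, by omega, fun z y hz hzt hzy => NJ.up_le h t.2 (by omega) hzt hzy.le, C.toWin,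
      SS_part h.g (by omega) (by omega) t, fun z hz => h.mem (by omega) t (by omega),
      hrows, by omega, by omega, by omega⟩
  obtain ⟨w1, w2, w3⟩ := lw7_ok
  have e1 := Lc.eval_cut w1 w2 (m := 2) (n := 4) (J := a + 4 + 3) (by omega) (by omega)
    (Or.inr le_rfl) (by omega)
  have hc : (st (a + 4) (SS (a + 4) t)).card = 3 := by
    rw [h.card_SS (by omega) C]
    omega
  have hcl : Wd.Cln P (a + 4) 4 :=
    NJ.cln45 (SO_holds P r) EV_holds h (Or.inl rfl) (by omega) (by omega) (NJ.l3v4 h)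
  have e2 := c2_first h.g.H (a := a + 4) (E := 4) (by omega)
    (SS_part h.g (by omega) (by omega) t) (by omega) hc
  have e3 : PowerSeries.coeff 2 (ZC (a + 4) (SS (a + 4) t) 4 : A) = 0 := by
    have := hcl t
    rw [hc] at this
    exact cm_c2' this
  have e4 : (ZC (a + 4) (cut (a + 4 + 4) (SS (a + 4) t)) 4 : A) =
      ∑ e ∈ (DR (SS (a + 4) t) (a + 4 + 3)).piAntidiag 4, tC (a + 4) (SS (a + 4) t) e := by
    unfold ZC
    have h2 : cut (a + 4 + 4) (SS (a + 4) t) = DR (SS (a + 4) t) (a + 4 + 3) := by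
      ext z
      rw [mem_cut, mem_DR]
      constructor
      · exact fun h => ⟨h.1, by omega⟩
      · exact fun h => ⟨h.1, by omega⟩
    rw [← h2]
    refine Finset.sum_congr rfl fun e _ => ?_
    unfold tC
    rw [st_cut (by omega)]
  rw [e3, e4, e1, w3, zero_add] at e2
  have e5 : ((slim (a + 4) (a + 4 + 4) (SS (a + 4) t)).filter (fun z => up (a + 4) z = 2)) = ∅ := by
    rw [← card_eq_zero]
    exact_mod_cast e2.symm
  have e6 := pen_slim h C (by show lo (a + 5) = lo (a + 4) + 1; omega)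
    (by show lo (a + 6) = lo (a + 5); omega) (by show lo (a + 7) = lo (a + 6); omega) (by omega)
  rw [show a + 4 + 4 = a + 4 + 4 from rfl, e5, subset_empty] at e6
  exact e6

end comp

end Pool.Agent.GaussPoset.EK
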