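import Pool.Agent.W_448fg_h53.FgE
import Pool.Agent.W_448rc_h10.RcI

/-!
MP_448cb3_co, G2, case B, window `j`: the value of the functional `W#` (weights `- w21 - 4 L42 + 13 w32` of
the window `j`) of a row with the pattern [DL], the doubled end closed.  helper64.
-/

namespace Pool.Agent.GaussPoset.Win.W4

set_option linter.unusedSectionVars false

open Finset
open Pool.Agent.GaussPoset.Win.SO (PN vp con on mem_PN vp_PD vp_PU)

universe u

/-! ### a weighted form of neighbouring products -/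

/-- `∑ (2 n² - n) + 4 ∑ n n'` -/
def RS (a : ℕ → ℤ) (s t : ℕ) : ℤ := 2 * QS a s t - 3 * ∑ k ∈ Ico s t, a k

lemma RS_self (a : ℕ → ℤ) (s : ℕ) : RS a s s = 0 := by
  unfold RS
  rw [QS_self, Ico_self, sum_empty]
  ring

lemma RS_bot (a : ℕ → ℤ) {s t : ℕ} (h : s < t) : RS a s t =
    2 * a s ^ 2 - a s + (if s + 1 < t then 4 * a s * a (s + 1) else 0) + RS a (s + 1) t := by
  unfold RS
  rw [QS_bot a h, sum_eq_sum_Ico_succ_bot h]
  split_ifs <;> ring

lemma sq_two_sub (n : ℤ) : 0 ≤ 2 * n ^ 2 - n := by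
  rcases le_or_gt n 0 with h | h
  · nlinarith
  · nlinarith

lemma rs_two {n n' : ℤ} (h : 0 ≤ n) (h' : -1 ≤ n') :
    0 ≤ 2 * n ^ 2 - n + 4 * n * n' + (2 * n' ^ 2 - n') := by
  rcases eq_or_lt_of_le h' with h1 | h1
  · rw [← h1]
    rcases (by omega : n = 0 ∨ n = 1 ∨ 2 ≤ n) with h2 | h2 | h2
    · rw [h2]; norm_num
    · rw [h2]; norm_num
    · nlinarith
  · have h2 : 0 ≤ n' := by omega
    have h3 := sq_two_sub n
    have h4 := sq_two_sub n'
    have h5 : 0 ≤ n * n' := mul_nonneg h h2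
    linarith

lemma RS_nonneg (a : ℕ → ℤ) {t : ℕ} : ∀ n s, s + n = t → (∀ k, s ≤ k → k + 1 < t → 0 ≤ a k) →
    (s < t → -1 ≤ a (t - 1)) → 0 ≤ RS a s t := by
  intro n
  induction n with
  | zero =>
    intro s hs _ _
    rw [add_zero] at hs
    rw [hs, RS_self]
  | succ n ih =>
    intro s hs h0 hl
    have hst : s < t := by omega
    have hr := ih (s + 1) (by omega) (fun k hk hk' => h0 k (by omega) hk') (fun _ => hl hst)
    rw [RS_bot a hst]
    rcases Nat.lt_or_ge (s + 1) t with h1 | h1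
    · rw [if_pos h1]
      have h2 := h0 s le_rfl h1
      rcases Nat.lt_or_ge (s + 2) t with h3 | h3
      · have h4 := h0 (s + 1) (by omega) (by omega)
        have h5 := sq_two_sub (a s)
        have h6 : 0 ≤ a s * a (s + 1) := mul_nonneg h2 h4
        linarith
      · obtain rfl : t = s + 2 := by omega
        rw [RS_bot a (by omega : s + 1 < s + 2), if_neg (by omega), RS_self]
        have h4 := hl hst
        rw [show s + 2 - 1 = s + 1 by omega] at h4
        have := rs_two h2 h4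
        linarith
    · rw [if_neg (by omega)]
      have h5 := sq_two_sub (a s)
      linarith

lemma RS_sub (a : ℕ → ℤ) {s t : ℕ} (hst : s < t) (h0 : ∀ k, s ≤ k → k + 1 < t → 0 ≤ a k)
    (hl : -1 ≤ a (t - 1)) : -7 ≤ RS a s t - 4 * a s := by
  rw [RS_bot a hst]
  rcases Nat.lt_or_ge (s + 1) t with h1 | h1
  · rw [if_pos h1]
    have h2 := h0 s le_rfl h1
    rcases Nat.lt_or_ge (s + 2) t with h3 | h3
    · have h4 := h0 (s + 1) (by omega) (by omega)
      have h6 : 0 ≤ a s * a (s + 1) := mul_nonneg h2 h4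
      have hr := RS_nonneg a (t - (s + 1)) (s + 1) (by omega) (fun k hk hk' => h0 k (by omega) hk')
        (fun _ => hl)
      nlinarith [sq_nonneg (4 * a s - 5)]
    · obtain rfl : t = s + 2 := by omega
      rw [RS_bot a (by omega : s + 1 < s + 2), if_neg (by omega), RS_self]
      rw [show s + 2 - 1 = s + 1 by omega] at hl
      rcases eq_or_lt_of_le hl with h5 | h5
      · rw [← h5]
        rcases (by omega : a s = 0 ∨ a s = 1 ∨ a s = 2 ∨ a s = 3 ∨ 4 ≤ a s) with
          h6 | h6 | h6 | h6 | h6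
        · rw [h6]; norm_num
        · rw [h6]; norm_num
        · rw [h6]; norm_num
        · rw [h6]; norm_num
        · nlinarith
      · have h7 : 0 ≤ a (s + 1) := by omega
        have h8 : 0 ≤ a s * a (s + 1) := mul_nonneg h2 h7
        have h9 := sq_two_sub (a (s + 1))
        nlinarith [sq_nonneg (4 * a s - 5)]
  · rw [if_neg (by omega)]
    obtain rfl : t = s + 1 := by omega
    rw [RS_self]
    nlinarith [sq_nonneg (4 * a s - 5)]

lemma RS_add (a : ℕ → ℤ) {s t : ℕ} (hst : s < t) (h0 : ∀ k, s ≤ k → k + 1 < t → 0 ≤ a k)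
    (hl : -1 ≤ a (t - 1)) : -1 ≤ RS a s t + 4 * a s := by
  rcases Nat.lt_or_ge (s + 1) t with h1 | h1
  · have h2 := h0 s le_rfl h1
    have := RS_nonneg a (t - s) s (by omega) h0 (fun _ => hl)
    linarith
  · rw [RS_bot a hst, if_neg (by omega)]
    obtain rfl : t = s + 1 := by omega
    rw [RS_self]
    rw [Nat.add_sub_cancel] at hl
    rcases eq_or_lt_of_le hl with h2 | h2
    · rw [← h2]; norm_num
    · have : 0 ≤ a s := by omega
      nlinarith

variable {P : Type u} [Fintype P] [PartialOrder P] [DecidableEq P] {r i : ℕ}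
variable {psi : P → P} {C K : Finset P} {w v : P} {m : ℕ} {x : ℕ → P}

/-- the value at the window `j` -/
noncomputable def Ow (i : ℕ) (C : Finset P) : ℤ :=
  2 * Lv i C - 3 * I2.al 2 (st i C).card (ZS i C) + 13 * wv i C

namespace DLg

variable (h : DLg r i K psi C w v m x)
include h

/-- (2,1) of a row with the pattern [DL] -/
theorem al2_eq : I2.al 2 (st i C).card (ZS i C) =
    (NE i C x 0 + (uc (x 0)).card - 1 - (pen (x 2)).card) + NE i C x 2 - 1 +
      ∑ k ∈ Ico 3 m, NE i C x k := by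
  have hm := h.hm
  have g0 := h.dg0
  have g2 := h.dg2
  have q2 := h.sum_vp_split
  have a1 := h.Q.al2 h.hw h.hv h.n01 h.n12 h.n02
  have m1 : mm i K C {x 0, x 1} = 1 := by
    have := h.mmx (a := 0) (b := 1) (by omega) (by omega)
    norm_num at this
    exact this
  have m2 : mm i K C {x 1, x 2} = 0 := by
    have := h.mmx (a := 1) (b := 2) (by omega) (by omega)
    norm_num at this
    exact this
  rw [a1, q2, m1, m2, g0, g2]
  ring

/-- THE VALUE, at least five sites -/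
theorem Ow_form4 (hm4 : 4 ≤ m) (hu : (uc (x 0)).card = 2) : Ow i C =
    2 * (NE i C x 0 + 1) ^ 2 - (NE i C x 0 + 1) + 2 * NE i C x 2 ^ 2 - 4 * NE i C x 2 + 10 +
      4 * (NE i C x 2 - 1) * NE i C x 3 + RS (NE i C x) 3 m + 2 * Zs i C w v -
        2 * CH i C x 2 := by
  have hpen : (pen (x 2)).card = 0 := by rw [h.W.pen0 2 le_rfl (by omega), card_empty]
  unfold Ow RS
  rw [h.L_form hm4, h.al2_eq, h.w3_eq, hu, hpen]
  push_cast
  ring

/-- THE VALUE, four sites -/
theorem Ow_form3 (hm3 : m = 3) (hu : (uc (x 0)).card = 2) : Ow i C =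
    2 * (NE i C x 0 + 1 - (pen (x 2)).card) ^ 2 - (NE i C x 0 + 1 - (pen (x 2)).card) + 10 +
      8 * (pen (x 2)).card + 2 * NE i C x 2 ^ 2 + 8 * NE i C x 2 -
      4 * NE i C x 2 * ((uc (x 3)).card + 2 * (pen (x 2)).card + (pen (x 3)).card) +
      4 * ((Z4 i C).card - (T4 i C).card : ℤ) - 2 * CH i C x 2 := by
  have e3 : Ico 3 m = ∅ := by rw [hm3]; rfl
  unfold Ow
  rw [h.L_form3 hm3, h.al2_eq, h.w3_eq, hu, e3, sum_empty]
  push_cast
  ring

lemma NE0_nonneg (hu : (uc (x 0)).card = 2) : 0 ≤ NE i C x 0 := by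
  have hm := h.hm
  unfold NE
  rw [h.W.ue_zero (i := i) (C := C) (by omega) hu, card_empty]
  push_cast
  omega

lemma NE0_sq (hu : (uc (x 0)).card = 2) : 1 ≤ 2 * (NE i C x 0 + 1) ^ 2 - (NE i C x 0 + 1) := by
  have := h.NE0_nonneg hu
  nlinarith

/-- THE BOUNDS, at least five sites; `d` is the number of the private children of the double over
`x 2, x 3` -/
theorem Ow_ge4 (hm4 : 4 ≤ m) (hu : (uc (x 0)).card = 2) (hl : -1 ≤ NE i C x (m - 1)) {n : ℤ}
    (hn : 2 * n ≤ OCs i C w v) :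
    ((DE i C x 2).card = 0 ∧ 4 * n ≤ Ow i C) ∨ ((DE i C x 2).card = 1 ∧ 4 * n - 3 ≤ Ow i C) ∨
      ((DE i C x 2).card = 2 ∧ 4 * n - 10 ≤ Ow i C) := by
  have hU2 := h.W.ue_inner (k := 2) (by omega) (by omega)
  have h3 := h.TUs_le hm4
  have h5 := h.NE0_sq hu
  have hpos : ∀ k, 3 ≤ k → k + 1 < m → 0 ≤ NE i C x k := fun k hk hk' =>
    h.NE_nonneg (by omega) (by omega)
  have q1 := RS_nonneg (NE i C x) (t := m) (m - 3) 3 (by omega) hpos (fun _ => hl)
  have q2 := RS_sub (NE i C x) (s := 3) (t := m) (by omega) hpos hl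
  have q3 := RS_add (NE i C x) (s := 3) (t := m) (by omega) hpos hl
  have e2 : NE i C x 2 = ((DE i C x 2).card : ℤ) := by
    unfold NE
    rw [hU2, card_empty]
    push_cast
    ring
  rw [h.Ow_form4 hm4 hu, h.Zs_eq hm4, e2]
  have t1 : ((TUs i C x).card : ℤ) ≤ 1 := by exact_mod_cast h3
  have t2 : (0 : ℤ) ≤ ((TLs i C x).card : ℤ) := by positivity
  rcases h.CH2_num with ⟨d, c⟩ | ⟨d, c⟩ | ⟨d, c⟩
  · refine Or.inl ⟨d, ?_⟩
    rw [d]
    push_cast
    linarith
  · refine Or.inr (Or.inl ⟨d, ?_⟩)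
    rw [d]
    push_cast
    linarith
  · refine Or.inr (Or.inr ⟨d, ?_⟩)
    rw [d]
    push_cast
    linarith

/-- four sites, no pendant below `x 2`, no upper pendant over the last pair -/
theorem Ow_ge3 (hm3 : m = 3) (hu : (uc (x 0)).card = 2) (hU : UE i C x 2 = ∅)
    (hp : pen (x 2) = ∅) (h3 : (uc (x 3)).card + (pen (x 3)).card ≤ 3) {n : ℤ}
    (hn : n ≤ ((Z4 i C).card : ℤ) - (T4 i C).card) :
    ((DE i C x 2).card = 0 ∧ 11 + 4 * n ≤ Ow i C) ∨ ((DE i C x 2).card = 1 ∧ 1 + 4 * n ≤ Ow i C) ∨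
      ((DE i C x 2).card = 2 ∧ -5 + 4 * n ≤ Ow i C) := by
  have h5 := h.NE0_sq hu
  have e2 : NE i C x 2 = ((DE i C x 2).card : ℤ) := by
    unfold NE
    rw [hU, card_empty]
    push_cast
    ring
  rw [h.Ow_form3 hm3 hu, e2, hp, card_empty]
  have hsq : ((uc (x 3)).card : ℤ) + (pen (x 3)).card ≤ 3 := by exact_mod_cast h3
  rcases h.CH2_num with ⟨d, c⟩ | ⟨d, c⟩ | ⟨d, c⟩
  · refine Or.inl ⟨d, ?_⟩
    rw [d]
    push_cast
    linarith
  · refine Or.inr (Or.inl ⟨d, ?_⟩)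
    rw [d]
    push_cast
    linarith
  · refine Or.inr (Or.inr ⟨d, ?_⟩)
    rw [d]
    push_cast
    linarith

/-- four sites, one upper pendant over the last pair -/
theorem Ow_ge3U (hm3 : m = 3) (hu : (uc (x 0)).card = 2) (hU : (UE i C x 2).card = 1)
    (hp : pen (x 2) = ∅) (h3 : (uc (x 3)).card + (pen (x 3)).card ≤ 1) : 1 ≤ Ow i C := by
  have h5 := h.NE0_sq hu
  have g4 := card_le_card (T4_subset i C)
  have hz : ((T4 i C).card : ℤ) ≤ (Z4 i C).card := by exact_mod_cast g4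
  have e2 : NE i C x 2 = ((DE i C x 2).card : ℤ) - 1 := by
    unfold NE
    rw [hU]
    push_cast
    ring
  rw [h.Ow_form3 hm3 hu, e2, hp, card_empty]
  have hsq : ((uc (x 3)).card : ℤ) + (pen (x 3)).card ≤ 1 := by exact_mod_cast h3
  have hs0 : (0 : ℤ) ≤ (uc (x 3)).card := by positivity
  have hq0 : (0 : ℤ) ≤ (pen (x 3)).card := by positivity
  rcases h.CH2_num with ⟨d, c⟩ | ⟨d, c⟩ | ⟨d, c⟩ <;> rw [d] <;> push_cast <;> linarith

/-- four sites, one pendant below `x 2`, the other end open and without pendants -/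
theorem Ow_ge3B (hm3 : m = 3) (hu : (uc (x 0)).card = 2) (hU : UE i C x 2 = ∅)
    (hp : (pen (x 2)).card = 1) (h3 : (uc (x 3)).card = 1) (hp3 : pen (x 3) = ∅) :
    ((DE i C x 2).card = 0 ∧ 18 ≤ Ow i C) ∨ ((DE i C x 2).card = 1 ∧ 8 ≤ Ow i C) ∨
      ((DE i C x 2).card = 2 ∧ 2 ≤ Ow i C) := by
  have h5 := sq_two_sub (NE i C x 0)
  have g4 := card_le_card (T4_subset i C)
  have hz : ((T4 i C).card : ℤ) ≤ (Z4 i C).card := by exact_mod_cast g4
  have e2 : NE i C x 2 = ((DE i C x 2).card : ℤ) := by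
    unfold NE
    rw [hU, card_empty]
    push_cast
    ring
  rw [h.Ow_form3 hm3 hu, e2, hp, h3, hp3, card_empty]
  rcases h.CH2_num with ⟨d, c⟩ | ⟨d, c⟩ | ⟨d, c⟩
  · refine Or.inl ⟨d, ?_⟩
    rw [d]
    push_cast
    linarith
  · refine Or.inr (Or.inl ⟨d, ?_⟩)
    rw [d]
    push_cast
    linarith
  · refine Or.inr (Or.inr ⟨d, ?_⟩)
    rw [d]
    push_cast
    linarith

end DLg

end Pool.Agent.GaussPoset.Win.W4
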