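import Pool.Agent.W_448cl_h64.ClN
import Pool.Agent.W_448cl_h64.ClL

/-!
MP_448cb3_co, G2, case B, windows `j - 1` and `j`: a row with the pattern [DL], the doubled end closed
(`uc (x 0)` has two elements), at least four sites; the own value.  Here `j = i + 1`.  helper64.
-/

namespace Pool.Agent.GaussPoset.EK

set_option linter.unusedSectionVars false

open Finset Win St Polynomial Wd Win.W4 Win.Rc Win.Pn
open Pool.Agent.GaussPoset.Win.SO (PN vp mem_PN N1f mem_N1f N5f CQ envc chc)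

universe u

variable {P : Type u} [Fintype P] [PartialOrder P] [DecidableEq P] {r i j : ℕ}

variable {m : ℕ} {x : ℕ → P} {c : ℕ → ℤ} {β : ℤ} {t : Tops P} {lo hi : ℕ → ℕ} {e : ℕ → ℕ → P}

/-- a row with the pattern [DL], the doubled end closed -/
structure ClDL (P : Type u) [Fintype P] [PartialOrder P] [DecidableEq P] (r i : ℕ) (t : Tops P)
    (m : ℕ) (x : ℕ → P) (c : ℕ → ℤ) (lo hi : ℕ → ℕ) (e : ℕ → ℕ → P) : Prop where
  h : NJ P r (i + 1)
  hi1 : 1 ≤ i
  B : RowB P (i + 1) t m x c 0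
  C : Cp.Comp (i + 1) (t : P) lo hi e
  hm : 3 ≤ m
  hu : (uc (x 0)).card = 2
  c0 : c 0 = 1
  c1 : c 1 = -1
  c2 : ∀ k, 2 ≤ k → k < m → c k = 0

namespace ClDL

variable (F : ClDL P r i t m x c lo hi e)
include F

/-- coordinates -/
lemma coord : hi (i + 1) = lo (i + 1) + m ∧
    ((lo (i + 1) = lo i + 1 ∧ ∀ k, k ≤ m → x k = e (i + 1) (lo (i + 1) + k)) ∨
      (hi (i + 1) = hi i ∧ ∀ k, k ≤ m → x k = e (i + 1) (hi (i + 1) - k))) := by
  have hj : 2 ≤ i + 1 := by have := F.hi1; omega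
  have h3 := F.C.lo_step i (by omega)
  have h4 := F.C.hi_step i (by omega)
  have hm := F.hm
  obtain ⟨h5, h6⟩ := F.B.orient F.h hj F.C
  have hu := F.hu
  refine ⟨h5, ?_⟩
  rcases h6 with h6 | h6
  · left
    have h7 := F.C.double_up F.h.g.H F.h.g.good t.2 (k := i) (s := lo (i + 1)) (by omega)
      le_rfl (by omega)
    have h8 := h6 0 (by omega)
    rw [Nat.add_zero] at h8
    rw [h8] at hu
    have := h7.1 hu
    exact ⟨by omega, h6⟩
  · right
    have h7 := F.C.double_up F.h.g.H F.h.g.good t.2 (k := i) (s := hi (i + 1)) (by omega)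
      (by omega) le_rfl
    have h8 := h6 0 (by omega)
    rw [Nat.sub_zero] at h8
    rw [h8] at hu
    have := h7.1 hu
    exact ⟨by omega, h6⟩

lemma sites4 : 4 ≤ (st i (SS i t)).card := by
  obtain ⟨-, h1, -⟩ := NJ.inner F.h rfl F.hi1 F.B
  have hm := F.hm
  have hu := F.hu
  rw [h1 (by omega)]
  omega

lemma big : lo i + 3 ≤ hi i := by
  have h1 := F.sites4
  rw [F.h.card_SS (by omega) F.C] at h1
  have := F.C.lo_le i (by omega)
  omega

/-- the frame of the pattern [DL] at the window `j` -/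
lemma dlg {K : Finset P} {psi : P → P} (R : Red P (i + 1) K psi) :
    ∃ w v, DLg r (i + 1) K psi (cext (i + 1 + 1) (topOf : P → Tops P) t) w v m x :=
  NJ.dlg F.h (by have := F.hi1; omega) R F.B F.hm rfl F.c0 F.c1 F.c2

/-- THE OWN VALUE: the two windows -/
theorem own_split : own ⟨-1, 9, 1, 4, 3, -1, 2, 13, 0⟩ i (i + 1) t =
    own1 ⟨-1, 9, 1, 4, 3, -1, 2, 13, 0⟩ i t +
      Ow (i + 1) (cext (i + 1 + 1) (topOf : P → Tops P) t) := by
  have e2 : F2 (i + 1) t = I2.al 2 (st (i + 1) (cext (i + 1 + 1) (topOf : P → Tops P) t)).card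
        (ZS (i + 1) (cext (i + 1 + 1) (topOf : P → Tops P) t)) := rfl
  have e3 : F2 (i + 1) t + F4 (i + 1) t =
      Lv (i + 1) (cext (i + 1 + 1) (topOf : P → Tops P) t) := rfl
  have e4 : F3 (i + 1) t = wv (i + 1) (cext (i + 1 + 1) (topOf : P → Tops P) t) := rfl
  rw [own_eq]
  congr 1
  unfold own2 Ow
  rw [← e3, ← e4, ← e2]
  ring

/-- the closed pair -/
lemma cqs_ge : 4 ≤ cqs i (SS i t) := by
  classical
  have h4 := F.sites4
  have hm := F.hm
  have v := NJ.vals_closed F.h rfl F.hi1 F.B (by omega) h4 F.c0 F.c1 F.c2 F.hu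
  have h5 := Pn.nj_be5_CQ F.h rfl F.hi1 t (Pn.nj_F5_three F.h rfl F.hi1 t (by omega))
  rw [v.al.2] at h5
  have h6 : (CQ i (SS i t)).card = 1 := by omega
  obtain ⟨w, hw⟩ := card_eq_one.1 h6
  have h7 := Pn.nj_env_ge F.h rfl F.hi1 t h4 (w := w) (by rw [hw]; exact mem_singleton_self w)
  unfold cqs
  rw [hw, sum_singleton]
  have := h7
  have h8 := Int.natCast_nonneg (chc i (SS i t) w).card
  linarith

/-- a private child of the double over `x 2`, `x 3` is below three sites of the window `j - 1` -/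
lemma DE_sub (h4 : 4 ≤ m) :
    DE (i + 1) (cext (i + 1 + 1) (topOf : P → Tops P) t) x 2 ⊆ N1f i (SS i t) := by
  classical
  obtain ⟨h1, h2⟩ := F.coord
  have H := F.h.g.H
  have hSS : cext (i + 1 + 1) (topOf : P → Tops P) t = SS i t := F.h.cext_eq (by omega) t
  have s3 := F.C.lo_step i (by omega)
  have s4 := F.C.hi_step i (by omega)
  intro z hz
  obtain ⟨hzC, hz1, hz2⟩ := mem_DE.1 hz
  obtain ⟨hl, hc, y, hzy, hy2⟩ := mem_PD.1 hz1
  obtain ⟨y', hy'⟩ := card_eq_one.1 hc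
  have hyy : y = y' := by
    rw [← mem_uc, hy', mem_singleton] at hzy
    exact hzy
  subst hyy
  have hs : uc y = ed x 2 := by
    rw [← hz2, sit_low H (by omega), ClE_sts H hl hy']
  have m2 : y ⋖ x 2 := by
    rw [← mem_uc, hs]
    exact mem_insert_self _ _
  have m3 : y ⋖ x 3 := by
    rw [← mem_uc, hs]
    exact mem_insert_of_mem (mem_singleton_self _)
  have hS : ∀ y, lev y ≤ i + 2 → (y ∈ SS i t ↔ y ≤ (t : P)) := fun y hy =>
    F.h.mem (by omega) t hy
  rw [hSS] at hzC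
  rcases h2 with ⟨h3, h5⟩ | ⟨h3, h5⟩
  · have e1 := h5 2 (by omega)
    have e2 := h5 3 (by omega)
    rw [e1] at m2
    rw [e2] at m3
    have hZ := low_Tr F.C.toWin F.h.g t.2 hS (a := lo (i + 1) + 2) (by omega) (by omega) m2 m3
    exact mem_N1f.2 ⟨hzC, Or.inl ⟨by omega, y, hZ.1, hy'⟩⟩
  · have e1 : x 2 = e (i + 1) (hi (i + 1) - 3 + 1) := by
      rw [h5 2 (by omega)]
      congr 1
      omega
    have e2 := h5 3 (by omega)
    rw [e1] at m2
    rw [e2] at m3
    have hZ := low_Tr F.C.toWin F.h.g t.2 hS (a := hi (i + 1) - 3) (by omega) (by omega) m3 m2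
    exact mem_N1f.2 ⟨hzC, Or.inl ⟨by omega, y, hZ.1, hy'⟩⟩

lemma n1_ge (h4 : 4 ≤ m) :
    ((DE (i + 1) (cext (i + 1 + 1) (topOf : P → Tops P) t) x 2).card : ℤ) ≤ n1 i (SS i t) := by
  unfold n1
  exact_mod_cast card_le_card (F.DE_sub h4)

lemma n1_nonneg : 0 ≤ n1 i (SS i t) := by
  unfold n1
  positivity

end ClDL

end Pool.Agent.GaussPoset.EK
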