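import Pool.Agent.W_448cl_h64.ClO
import Pool.Agent.W_448fg_h53.FgG

/-!
MP_448cb3_co, G2, case B, windows `j - 1` and `j`: a row with the pattern [DL], the doubled end closed: no
pendant below `x 0`, `x 1`; the joins of a pendant and a double inside the part.  Here `j = i + 1`.
helper64.
-/

namespace Pool.Agent.GaussPoset.EK

set_option linter.unusedSectionVars false

open Finset Win St Polynomial Wd Win.W4 Win.Rc Win.Pn
open Pool.Agent.GaussPoset.Win.SO (PN vp mem_PN N1f mem_N1f N5f CQ envc chc)

universe u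

variable {P : Type u} [Fintype P] [PartialOrder P] [DecidableEq P] {r i j : ℕ}

variable {m : ℕ} {x : ℕ → P} {c : ℕ → ℤ} {β : ℤ} {t : Tops P} {lo hi : ℕ → ℕ} {e : ℕ → ℕ → P}

variable {K : Finset P} {psi : P → P} {w v : P}

/-- the twins over the first two elements -/
lemma dl_twins (D : DLg r j K psi (cext (j + 1) (topOf : P → Tops P) t) w v m x) :
    ∃ a b : P, a ≠ b ∧ uc a = {x 0, x 1} ∧ uc b = {x 0, x 1} ∧ dc (x 0) = {a, b} ∧
      dc (x 1) = {a, b} := by
  classical
  have H := D.W.H
  have hm := D.hm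
  have h1 := D.dn 0 1 (by omega) (by omega)
  rw [if_pos rfl, if_pos rfl] at h1
  have h2 := D.deg0
  have h3 := D.deg1
  unfold dcv at h1
  obtain ⟨a, b, hab, he⟩ := card_eq_two.1 h1
  have ma : a ⋖ x 0 ∧ a ⋖ x 1 := by
    have : a ∈ ({a, b} : Finset P) := mem_insert_self _ _
    rw [← he, mem_filter] at this
    exact this.2
  have mb : b ⋖ x 0 ∧ b ⋖ x 1 := by
    have : b ∈ ({a, b} : Finset P) := mem_insert_of_mem (mem_singleton_self _)
    rw [← he, mem_filter] at this
    exact this.2
  have hne : x 0 ≠ x 1 := D.n01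
  have key : ∀ y : P, y ⋖ x 0 → y ⋖ x 1 → uc y = {x 0, x 1} := by
    intro y h4 h5
    refine (eq_of_subset_of_card_le ?_ ?_).symm
    · intro s hs
      rw [mem_insert, mem_singleton] at hs
      rcases hs with rfl | rfl
      · exact mem_uc.2 h4
      · exact mem_uc.2 h5
    · rw [card_pair hne]
      exact uc_card_le H _
  have key2 : ∀ s : P, (dc s).card = 2 → a ⋖ s → b ⋖ s → dc s = {a, b} := by
    intro s hs h4 h5
    refine (eq_of_subset_of_card_le ?_ ?_).symm
    · intro y hy
      rw [mem_insert, mem_singleton] at hy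
      rcases hy with rfl | rfl
      · exact mem_dc.2 h4
      · exact mem_dc.2 h5
    · rw [card_pair hab, hs]
  exact ⟨a, b, hab, key a ma.1 ma.2, key b mb.1 mb.2, key2 _ h2 ma.1 mb.1, key2 _ h3 ma.2 mb.2⟩

/-- no pendant below the first two elements -/
lemma dl_pen01 (D : DLg r j K psi (cext (j + 1) (topOf : P → Tops P) t) w v m x) {k : ℕ}
    (hk : k ≤ 1) : pen (x k) = ∅ := by
  classical
  obtain ⟨a, b, hab, ua, ub, d0, d1⟩ := dl_twins D
  have key : ∀ s : P, dc s = {a, b} → pen s = ∅ := by
    intro s hs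
    rw [eq_empty_iff_forall_notMem]
    intro q hq
    obtain ⟨h1, h2⟩ := mem_pen.1 hq
    have h3 := mem_dc.2 h1
    rw [hs, mem_insert, mem_singleton] at h3
    rcases h3 with rfl | rfl
    · rw [ua, card_pair D.n01] at h2
      omega
    · rw [ub, card_pair D.n01] at h2
      omega
  have hk3 : k = 0 ∨ k = 1 := by omega
  rcases hk3 with rfl | rfl
  · exact key _ d0
  · exact key _ d1

/-- every double is over two neighbours -/
lemma dl_double (h : NJ P r j)
    (D : DLg r j K psi (cext (j + 1) (topOf : P → Tops P) t) w v m x) {y : P}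
    (hl : lev y = j + 1) (hy : (uc y).card = 2) (ht : topOf y = t) :
    ∃ k, k < m ∧ k ≠ 1 ∧ uc y = {x k, x (k + 1)} := by
  classical
  have H := D.W.H
  obtain ⟨p, q, hpq, huy⟩ := card_eq_two.1 hy
  have mp : p ∈ uc y := by rw [huy]; exact mem_insert_self _ _
  have mq : q ∈ uc y := by rw [huy]; exact mem_insert_of_mem (mem_singleton_self _)
  have tp : topOf p = t := by
    rw [← ht]
    exact (h.split (mem_uc.1 mp) (by omega)).symm
  have tq : topOf q = t := by
    rw [← ht]
    exact (h.split (mem_uc.1 mq) (by omega)).symm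
  have hsite : ∀ p : P, lev p = j → topOf p = t → ∃ k, k ≤ m ∧ x k = p := by
    intro p hp ht
    exact D.W.surj p (mem_cext_of_le h.split (by omega) ht) hp
  obtain ⟨k, hk, rfl⟩ := hsite p (by have := lev_uc H mp; omega) tp
  obtain ⟨l, hl, rfl⟩ := hsite q (by have := lev_uc H mq; omega) tq
  have hkl : k ≠ l := by
    rintro rfl
    exact hpq rfl
  obtain ⟨k, l, hk, hl, hkl, huy⟩ : ∃ k l, k ≤ m ∧ l ≤ m ∧ k < l ∧ uc y = {x k, x l} := by
    rcases Nat.lt_or_ge k l with h1 | h1
    · exact ⟨k, l, hk, hl, h1, huy⟩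
    · exact ⟨l, k, hl, hk, by omega, by rw [huy, pair_comm]⟩
  have hd : 1 ≤ dcv (x k) (x l) := by
    unfold dcv
    refine card_pos.2 ⟨y, mem_filter.2 ⟨mem_univ _, mem_uc.1 ?_, mem_uc.1 ?_⟩⟩
    · rw [huy]; exact mem_insert_self _ _
    · rw [huy]; exact mem_insert_of_mem (mem_singleton_self _)
  rw [D.dn k l hkl hl] at hd
  have hl1 : l = k + 1 := by
    by_contra hcon
    rw [if_neg hcon] at hd
    omega
  subst hl1
  refine ⟨k, by omega, ?_, huy⟩
  rintro rfl
  rw [if_pos rfl] at hd
  norm_num at hd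

namespace ClDL

variable (F : ClDL P r i t m x c lo hi e)
include F

/-- the joins of a pendant and a double inside the part, at least five sites -/
lemma n5_le4 (D : DLg r (i + 1) K psi (cext (i + 1 + 1) (topOf : P → Tops P) t) w v m x) :
    2 * n5 i (SS i t) ≤ OCs (i + 1) (cext (i + 1 + 1) (topOf : P → Tops P) t) w v := by
  classical
  have h := F.h
  have H := h.g.H
  have hm := F.hm
  have hSS : SS i t = cext (i + 1 + 1) (topOf : P → Tops P) t := (h.cext_eq (by omega) t).symm
  unfold n5
  rw [← W1.nfc_eq h rfl F.hi1 t]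
  have top_eq : ∀ {y z : P}, z ∈ cext (i + 1 + 1) (topOf : P → Tops P) t → z ≤ y →
      lev y ≤ i + 1 + 1 → topOf y = t := by
    intro y z hz hzy hl
    exact mem_cext.1 hz y hzy hl
  have key : ∀ a ∈ Rd.NfC i (SS i t), a ∈ Z4 (i + 1) (cext (i + 1 + 1) (topOf : P → Tops P) t) \
      T4 (i + 1) (cext (i + 1 + 1) (topOf : P → Tops P) t) ∧
      (2 : ℤ) ≤ 2 - 2 * (tz (i + 1) a * (Nx (i + 1) w a - Nx (i + 1) v a)) := by
    intro a ha
    rw [Rd.mem_NfC] at ha
    obtain ⟨z, z2, p, p2, y, S⟩ := ha
    obtain ⟨l1, l2, l3, l4, l5⟩ := S.lv H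
    have haC : a ∈ cext (i + 1 + 1) (topOf : P → Tops P) t := by rw [← hSS]; exact S.mc
    have la : lev a = i + 1 + 2 := by
      have := lev_uc H (show z ∈ uc a by rw [S.ua]; simp)
      omega
    have hsts : up (i + 1) a = 3 := by
      rw [up_two H la S.ua, S.uz, S.uz2]
      rw [show ({p, p2} ∪ {y} : Finset P) = {p, p2, y} by
        ext q
        simp only [mem_union, mem_insert, mem_singleton]
        tauto]
      exact card_eq_three.2 ⟨p, p2, y, S.ww, S.yw.symm, S.yw2.symm, rfl⟩
    have hZL : a ∈ ZL (i + 1) (cext (i + 1 + 1) (topOf : P → Tops P) t) :=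
      mem_ZL.2 ⟨haC, la, hsts⟩
    refine ⟨?_, ?_⟩
    · rw [mem_sdiff]
      refine ⟨mem_Z4.2 (Or.inl hZL), fun hT => ?_⟩
      rcases mem_T4.1 hT with ⟨-, h3⟩ | ⟨h3, -⟩
      · have := h3 z2 (by rw [S.ua]; simp)
        rw [S.uz2, card_singleton] at this
        omega
      · have := (mem_ZU.1 h3).2.1
        omega
    · have hsit : sit (i + 1) a = uc z ∪ uc z2 := by
        rw [sit_low H (by omega), Rd.sts_bi H la, S.ua, biUnion_insert, singleton_biUnion]
      have htz : tz (i + 1) a = -1 := by
        unfold tz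
        rw [if_pos (by omega)]
      have az : a ⋖ z := mem_uc.1 (by rw [S.ua]; simp)
      have az2 : a ⋖ z2 := mem_uc.1 (by rw [S.ua]; simp)
      have lz : lev z = i + 1 + 1 := by have := lev_cov H az; omega
      have lz2 : lev z2 = i + 1 + 1 := by have := lev_cov H az2; omega
      have tz1 : topOf z = t := top_eq haC az.le (by omega)
      have tz2 : topOf z2 = t := top_eq haC az2.le (by omega)
      have cz : (uc z).card = 2 := by rw [S.uz, card_pair S.ww]
      obtain ⟨k, hk, hk1, huz⟩ := dl_double h D lz cz tz1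
      have hy0 : x 0 ∉ uc z2 := by
        intro h1
        have h2 := dl_pen01 D (k := 0) (by omega)
        have h3 : z2 ∈ pen (x 0) := mem_pen.2 ⟨mem_uc.1 h1, by rw [S.uz2, card_singleton]⟩
        rw [h2] at h3
        exact absurd h3 (notMem_empty _)
      have hle : Nx (i + 1) v a ≤ Nx (i + 1) w a := by
        unfold Nx
        have e0 : ed x 0 = ({x 0, x 1} : Finset P) := rfl
        have e1 : ed x 1 = ({x 1, x 2} : Finset P) := rfl
        rw [D.nw, D.nv, hsit, e0, e1]
        by_cases hd : Disjoint ({x 1, x 2} : Finset P) (uc z ∪ uc z2)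
        · rw [if_pos hd, if_pos]
          rw [disjoint_left] at hd ⊢
          intro q hq hq2
          rw [mem_insert, mem_singleton] at hq
          rcases hq with rfl | rfl
          · rw [mem_union] at hq2
            rcases hq2 with hq2 | hq2
            · have hk0 : k = 0 := by
                rw [huz, mem_insert, mem_singleton] at hq2
                by_contra hk0
                rcases hq2 with hq2 | hq2
                · exact D.W.ne (a := 0) (b := k) (by omega) (by omega) (by omega) hq2
                · exact D.W.ne (a := 0) (b := k + 1) (by omega) (by omega) (by omega) hq2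
              subst hk0
              refine hd (mem_insert_self _ _) (mem_union_left _ ?_)
              rw [huz]
              exact mem_insert_of_mem (mem_singleton_self _)
            · exact hy0 hq2
          · exact hd (mem_insert_self _ _) hq2
        · rw [if_neg hd]
          split_ifs <;> norm_num
      rw [htz]
      linarith
  have h1 : ∑ a ∈ Rd.NfC i (SS i t), (2 : ℤ) ≤ ∑ a ∈ Rd.NfC i (SS i t),
      (2 - 2 * (tz (i + 1) a * (Nx (i + 1) w a - Nx (i + 1) v a))) :=
    Finset.sum_le_sum fun a ha => (key a ha).2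
  have h2 : ∑ a ∈ Rd.NfC i (SS i t), (2 - 2 * (tz (i + 1) a * (Nx (i + 1) w a - Nx (i + 1) v a))) ≤
      ∑ a ∈ Z4 (i + 1) (cext (i + 1 + 1) (topOf : P → Tops P) t) \
        T4 (i + 1) (cext (i + 1 + 1) (topOf : P → Tops P) t),
          (2 - 2 * (tz (i + 1) a * (Nx (i + 1) w a - Nx (i + 1) v a))) := by
    refine Finset.sum_le_sum_of_subset_of_nonneg (fun a ha => (key a ha).1) fun a _ _ => ?_
    have := tz_le (i := i + 1) (w := w) (v := v) a
    linarith
  rw [sum_const, nsmul_eq_mul] at h1
  unfold OCs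
  linarith

end ClDL

end Pool.Agent.GaussPoset.EK
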