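import Pool.Agent.W_448cl_h64.ClP
import Pool.Agent.W_448fg_h53.FgJ

/-!
MP_448cb3_co, G2, case B, windows `j - 1` and `j`: a row with the pattern [DL], the doubled end closed: no
heavy join if the double over `x 2`, `x 3` has two private children and nothing is joined below `x 2`.
helper64.
-/

namespace Pool.Agent.GaussPoset.EK

set_option linter.unusedSectionVars false

open Finset Win St Polynomial Wd Win.W4 Win.Rc Win.Pn
open Pool.Agent.GaussPoset.Win.SO (PN vp mem_PN N1f mem_N1f N5f CQ envc chc)

universe u

variable {P : Type u} [Fintype P] [PartialOrder P] [DecidableEq P] {r i j : ℕ}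

variable {m : ℕ} {x : ℕ → P} {c : ℕ → ℤ} {β : ℤ} {t : Tops P} {lo hi : ℕ → ℕ} {e : ℕ → ℕ → P}

variable {K : Finset P} {psi : P → P} {w v : P}

/-- NO HEAVY JOIN if the double over the third pair has two private children -/
theorem dl_no_heavy (h : NJ P r j) (R : Red P j K psi)
    (D : DLg r j K psi (cext (j + 1) (topOf : P → Tops P) t) w v m x)
    (hN : (DE j (cext (j + 1) (topOf : P → Tops P) t) x 2).card = 2)
    (hp : ∀ z y s : P, K2.SD j (topOf : P → Tops P) z y s → s ∉ pen (x 2))
    {z y s : P} (S : K2.SD j (topOf : P → Tops P) z y s) :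
    (topOf y = t → sa j (topOf : P → Tops P) K (uc y) (topOf y) = 0) ∧
    (topOf s = t → sa j (topOf : P → Tops P) K (uc s) (topOf s) = 0) := by
  classical
  have H := h.g.H
  have hm := D.hm
  have hne : ∀ a b, a ≤ m → b ≤ m → a ≠ b → x a ≠ x b := fun a b ha hb hab => D.W.ne ha hb hab
  refine ⟨fun hy => ?_, fun hs => ?_⟩
  · rw [hy, fg_sa h R D.Q, D.hw, D.hv]
    have ly := S.ly H
    obtain ⟨k, hk, hk1, huy⟩ := dl_double h D (y := y) (by omega) S.cy hy
    have hk3 : k = 0 ∨ k = 2 ∨ 3 ≤ k := by omega
    rcases hk3 with rfl | rfl | hk3
    · rw [if_neg, if_neg]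
      · norm_num
      · rw [huy, disjoint_left]
        push Not
        exact ⟨x 1, mem_insert_self _ _, mem_insert_of_mem (mem_singleton_self _)⟩
      · rw [huy, disjoint_left]
        push Not
        exact ⟨x 0, mem_insert_self _ _, mem_insert_self _ _⟩
    · -- the double over the third pair is full
      exfalso
      obtain ⟨a, b, hab, he⟩ := card_eq_two.1 hN
      have ma : a ∈ DE j (cext (j + 1) (topOf : P → Tops P) t) x 2 := by
        rw [he]; exact mem_insert_self _ _
      have mb : b ∈ DE j (cext (j + 1) (topOf : P → Tops P) t) x 2 := by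
        rw [he]; exact mem_insert_of_mem (mem_singleton_self _)
      have key : ∀ a, a ∈ DE j (cext (j + 1) (topOf : P → Tops P) t) x 2 → uc a = {y} := by
        intro a ha
        obtain ⟨-, h1, h2⟩ := mem_DE.1 ha
        obtain ⟨l1, l2, y', h3, h4⟩ := mem_PD.1 h1
        obtain ⟨y'', h5⟩ := card_eq_one.1 l2
        have h6 : y' = y'' := by
          have := mem_uc.2 h3
          rw [h5, mem_singleton] at this
          exact this
        subst h6
        have h7 : uc y' = ed x 2 := by rw [← SO.sit_PD H l1 h5, h2]
        have h8 := D.dn 2 3 (by omega) (by omega)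
        norm_num at h8
        unfold dcv at h8
        obtain ⟨y0, h9⟩ := card_eq_one.1 h8
        have e1 : y ∈ ({y0} : Finset P) := by
          rw [← h9, mem_filter]
          refine ⟨mem_univ _, mem_uc.1 ?_, mem_uc.1 ?_⟩
          · rw [huy]; exact mem_insert_self _ _
          · rw [huy]; exact mem_insert_of_mem (mem_singleton_self _)
        have e2 : y' ∈ ({y0} : Finset P) := by
          rw [← h9, mem_filter]
          refine ⟨mem_univ _, mem_uc.1 ?_, mem_uc.1 ?_⟩
          · rw [h7]; exact mem_insert_self _ _
          · rw [h7]; exact mem_insert_of_mem (mem_singleton_self _)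
        rw [mem_singleton] at e1 e2
        rw [h5, e1, e2]
      have ua := key a ma
      have ub := key b mb
      have hsub : ({a, b, z} : Finset P) ⊆ dc y := by
        intro q hq
        rw [mem_insert, mem_insert, mem_singleton] at hq
        rcases hq with rfl | rfl | rfl
        · exact mem_dc.2 (mem_uc.1 (by rw [ua]; exact mem_singleton_self _))
        · exact mem_dc.2 (mem_uc.1 (by rw [ub]; exact mem_singleton_self _))
        · exact mem_dc.2 (mem_uc.1 S.my)
      have haz : a ≠ z := by
        rintro rfl
        have h1 := S.huc
        rw [ua] at h1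
        have h2 := S.ne
        have h3 : s ∈ ({y} : Finset P) := by
          rw [h1]; exact mem_insert_of_mem (mem_singleton_self _)
        exact h2 (mem_singleton.1 h3).symm
      have hbz : b ≠ z := by
        rintro rfl
        have h1 := S.huc
        rw [ub] at h1
        have h2 := S.ne
        have h3 : s ∈ ({y} : Finset P) := by
          rw [h1]; exact mem_insert_of_mem (mem_singleton_self _)
        exact h2 (mem_singleton.1 h3).symm
      have h1 := card_le_card hsub
      have h2 := dc_card_le H y
      rw [card_insert_of_notMem, card_pair hbz] at h1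
      · omega
      · rw [mem_insert, mem_singleton]
        push Not
        exact ⟨hab, haz⟩
    · have hd0 : Disjoint ({x 0, x 1} : Finset P) (uc y) := by
        rw [huy, disjoint_insert_left, disjoint_singleton_left, mem_insert, mem_singleton,
          mem_insert, mem_singleton]
        push Not
        exact ⟨⟨hne _ _ (by omega) (by omega) (by omega), hne _ _ (by omega) (by omega) (by omega)⟩,
          hne _ _ (by omega) (by omega) (by omega), hne _ _ (by omega) (by omega) (by omega)⟩
      have hd1 : Disjoint ({x 1, x 2} : Finset P) (uc y) := by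
        rw [huy, disjoint_insert_left, disjoint_singleton_left, mem_insert, mem_singleton,
          mem_insert, mem_singleton]
        push Not
        exact ⟨⟨hne _ _ (by omega) (by omega) (by omega), hne _ _ (by omega) (by omega) (by omega)⟩,
          hne _ _ (by omega) (by omega) (by omega), hne _ _ (by omega) (by omega) (by omega)⟩
      rw [if_pos hd0, if_pos hd1]
      norm_num
  · rw [hs, fg_sa h R D.Q, D.hw, D.hv]
    have ls := S.lv' H
    obtain ⟨p, hus⟩ := card_eq_one.1 S.cv
    have mp : p ∈ uc s := by rw [hus]; exact mem_singleton_self _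
    have tp : topOf p = t := by
      rw [← hs]
      exact (h.split (mem_uc.1 mp) (by omega)).symm
    obtain ⟨k, hk, rfl⟩ : ∃ k, k ≤ m ∧ x k = p :=
      D.W.surj p (mem_cext_of_le h.split (by have := lev_uc H mp; omega) tp)
        (by have := lev_uc H mp; omega)
    have hmem : s ∈ pen (x k) := mem_pen.2 ⟨mem_uc.1 mp, S.cv⟩
    have hk3 : 3 ≤ k := by
      by_contra hcon
      rcases (by omega : k ≤ 1 ∨ k = 2) with h1 | h1
      · rw [dl_pen01 D h1] at hmem
        exact absurd hmem (notMem_empty _)
      · subst h1
        exact hp z y s S hmem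
    rw [hus, if_pos, if_pos]
    · norm_num
    · rw [disjoint_singleton_right, mem_insert, mem_singleton]
      push Not
      exact ⟨hne _ _ (by omega) (by omega) (by omega), hne _ _ (by omega) (by omega) (by omega)⟩
    · rw [disjoint_singleton_right, mem_insert, mem_singleton]
      push Not
      exact ⟨hne _ _ (by omega) (by omega) (by omega), hne _ _ (by omega) (by omega) (by omega)⟩

end Pool.Agent.GaussPoset.EK
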