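import Pool.Agent.W_448cl_h64.ClQ
import Pool.Agent.W_448cl_h64.ClR
import Pool.Agent.W_448na_h84.NaC

/-!
MP_448cb3_co, G2, case B, windows `j - 1` and `j`: the pendant of a row with the pattern [DL], the doubled end
closed.  helper64.
-/

namespace Pool.Agent.GaussPoset.Wd

set_option linter.unusedSectionVars false

open Finset Win Win.I2 Win.Rc EK Win.Pn

universe u

variable {P : Type u} [Fintype P] [PartialOrder P] [DecidableEq P] {r j i n : ℕ}
  {t : Tops P} {lo hi : ℕ → ℕ} {e : ℕ → ℕ → P} {m : ℕ} {x : ℕ → P} {c : ℕ → ℤ} {β : ℤ}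

section near

variable (h : NJ P r (n + 3)) (C : Cp.Comp (n + 3) (t : P) lo hi e)
include h C

lemma NJ.nr_eq {k a b : ℕ} (hk : k ≤ n + 3) (a1 : lo k ≤ a) (a2 : a ≤ hi k) (b1 : lo k ≤ b)
    (b2 : b ≤ hi k) (hq : e k a = e k b) : a = b := by
  have W := C.toWin
  by_contra hne
  rcases Nat.lt_or_gt_of_ne hne with h1 | h1
  · exact W.inj k hk _ _ a1 h1 b2 hq
  · exact W.inj k hk _ _ b1 h1 a2 hq.symm

/-- the near elements above -/
lemma NJ.near_up {y p : P} (ly : lev y = n + 3) (hyt : y ≤ (t : P))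
    (sp : sit (n + 2) p = uc y) : ∀ w ∈ nUp (n + 2) p, ∃ a b, lo (n + 1) ≤ a ∧ a ≤ hi (n + 1) ∧
      lo (n + 2) ≤ b ∧ b ≤ hi (n + 2) ∧ (a = b ∨ a + 1 = b) ∧ w = e (n + 1) a ∧
        e (n + 2) b ∈ uc y := by
  have H := h.g.H
  have W := C.toWin
  intro w hw
  rw [mem_nUp, sp, not_disjoint_iff] at hw
  obtain ⟨lw, v, hv1, hv2⟩ := hw
  have lv := lev_uc H hv2
  have hvt : v ≤ (t : P) := by
    have h1 : v ∈ SS (n + 2) t := (h.part (i := n + 2) (k := n + 3 + 1) (by omega) (by omega)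
      t).up ((h.mem (by omega) t (by omega)).2 hyt) (mem_uc.1 hv2)
    exact (h.mem (by omega) t (by omega)).1 h1
  obtain ⟨b, b1, b2, rfl⟩ := W.surj (n + 2) (by omega) v (by omega) hvt
  obtain ⟨a, a1, a2, a3, rfl⟩ := (W.uc_iff h.g t.2 (k := n + 1) (by omega) b1 b2).1
    (mem_dc.1 hv1)
  exact ⟨a, b, a1, a2, b1, b2, a3, rfl, hv2⟩

/-- the near elements below -/
lemma NJ.near_low {y p : P} (ly : lev y = n + 3) (hyt : y ≤ (t : P))
    (sp : sit (n + 2) p = uc y) : ∀ w ∈ nLp (n + 2) p, ∃ a b, lo (n + 3) ≤ a ∧ a ≤ hi (n + 3) ∧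
      lo (n + 2) ≤ b ∧ b ≤ hi (n + 2) ∧ (b = a ∨ b + 1 = a) ∧ w = e (n + 3) a ∧
        e (n + 2) b ∈ uc y := by
  have H := h.g.H
  have W := C.toWin
  intro w hw
  rw [mem_nLp, sp, not_disjoint_iff] at hw
  obtain ⟨lw, v, hv1, hv2⟩ := hw
  have lv := lev_uc H hv2
  have hvt : v ≤ (t : P) := by
    have h1 : v ∈ SS (n + 2) t := (h.part (i := n + 2) (k := n + 3 + 1) (by omega) (by omega)
      t).up ((h.mem (by omega) t (by omega)).2 hyt) (mem_uc.1 hv2)
    exact (h.mem (by omega) t (by omega)).1 h1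
  obtain ⟨b, b1, b2, rfl⟩ := W.surj (n + 2) (by omega) v (by omega) hvt
  obtain ⟨a, a1, a2, a3, rfl⟩ := (W.dc_iff h.g t.2 (k := n + 2) (by omega) b1 b2).1
    (mem_uc.1 hv1)
  exact ⟨a, b, a1, a2, b1, b2, a3, rfl, hv2⟩

/-- the chains above -/
lemma NJ.fup_coord {y p u : P} (D : PdC (n + 2) t lo hi e y p u) :
    ∀ w ∈ FU' (n + 2) (SS (n + 2) t), ∃ k, n = k + 1 ∧ ∃ a, lo k ≤ a ∧ a ≤ hi k ∧
      w = e k a ∧ dc (e k a) = {u} := by
  have H := h.g.H
  have W := C.toWin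
  intro w hw
  rw [mem_FU'] at hw
  obtain ⟨hw1, z, hz1, hz2⟩ := hw
  have lz := (mem_PU.1 hz1).1
  have hzw : z ⋖ w := by rw [← mem_dc, hz2]; simp
  have lw := lev_cov H hzw
  have hwt : w ≤ (t : P) := (h.mem (by omega) t (by omega)).1 hw1
  have hzS : z ∈ SS (n + 2) t := (h.mem (by omega) t (by omega)).2 (hzw.le.trans hwt)
  obtain rfl := D.upp z hzS hz1
  obtain ⟨k, rfl⟩ : ∃ k, n = k + 1 := ⟨n - 1, by omega⟩
  obtain ⟨a, a1, a2, rfl⟩ := W.surj k (by omega) w (by omega) hwt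
  exact ⟨k, rfl, a, a1, a2, rfl, hz2⟩

/-- the left end: no chain above -/
lemma NJ.fup_left {y p u : P} (D : PdC (n + 2) t lo hi e y p u) (hb : lo (n + 2) + 3 ≤ hi (n + 2))
    (hu : u = e n (lo n)) (hk : ∀ k, n = k + 1 → lo (k + 1) = lo k) :
    FU' (n + 2) (SS (n + 2) t) = ∅ := by
  have W := C.toWin
  rw [eq_empty_iff_forall_notMem]
  intro w hw
  obtain ⟨k, rfl, a, a1, a2, rfl, a3⟩ := h.fup_coord C D w hw
  have h0 := hk k rfl
  have h1 : u ⋖ e k a := by rw [← mem_dc, a3]; simp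
  obtain ⟨b, b1, b2, b3, b4⟩ := (W.dc_iff h.g t.2 (k := k) (by omega) a1 a2).1 h1
  have f4 := C.lo_le (k + 1) (by omega)
  have s1 : lo (k + 1 + 1) = lo (k + 1) ∨ lo (k + 1 + 1) = lo (k + 1) + 1 :=
    C.lo_step (k + 1) (by omega)
  have s2 : lo (k + 1 + 2) = lo (k + 1 + 1) ∨ lo (k + 1 + 2) = lo (k + 1 + 1) + 1 :=
    C.lo_step (k + 2) (by omega)
  have s3 : hi (k + 1 + 1) = hi (k + 1) ∨ hi (k + 1 + 1) = hi (k + 1) + 1 :=
    C.hi_step (k + 1) (by omega)
  have s4 : hi (k + 1 + 2) = hi (k + 1 + 1) ∨ hi (k + 1 + 2) = hi (k + 1 + 1) + 1 :=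
    C.hi_step (k + 2) (by omega)
  rw [hu] at b4
  have b5 := h.nr_eq C (by omega) (le_refl (lo (k + 1))) f4 b1 b2 b4.symm
  have h2 : a + 1 ≤ hi (k + 1) := by omega
  have h3 : e (k + 1) (a + 1) ⋖ e k a :=
    (W.cov k (by omega) _ _ (by omega) h2 a1 a2).2 (Or.inr rfl)
  rw [← mem_dc, a3, mem_singleton, hu] at h3
  have := h.nr_eq C (by omega) (by omega) h2 (le_refl (lo (k + 1))) f4 h3
  omega

/-- the right end: no chain above -/
lemma NJ.fup_right {y p u : P} (D : PdC (n + 2) t lo hi e y p u) (hb : lo (n + 2) + 3 ≤ hi (n + 2))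
    (hu : u = e n (hi n)) (hk : ∀ k, n = k + 1 → hi (k + 1) = hi k + 1) :
    FU' (n + 2) (SS (n + 2) t) = ∅ := by
  have W := C.toWin
  rw [eq_empty_iff_forall_notMem]
  intro w hw
  obtain ⟨k, rfl, a, a1, a2, rfl, a3⟩ := h.fup_coord C D w hw
  have h0 := hk k rfl
  have h1 : u ⋖ e k a := by rw [← mem_dc, a3]; simp
  obtain ⟨b, b1, b2, b3, b4⟩ := (W.dc_iff h.g t.2 (k := k) (by omega) a1 a2).1 h1
  have f4 := C.lo_le (k + 1) (by omega)
  have s1 : lo (k + 1 + 1) = lo (k + 1) ∨ lo (k + 1 + 1) = lo (k + 1) + 1 :=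
    C.lo_step (k + 1) (by omega)
  have s2 : lo (k + 1 + 2) = lo (k + 1 + 1) ∨ lo (k + 1 + 2) = lo (k + 1 + 1) + 1 :=
    C.lo_step (k + 2) (by omega)
  have s3 : hi (k + 1 + 1) = hi (k + 1) ∨ hi (k + 1 + 1) = hi (k + 1) + 1 :=
    C.hi_step (k + 1) (by omega)
  have s4 : hi (k + 1 + 2) = hi (k + 1 + 1) ∨ hi (k + 1 + 2) = hi (k + 1 + 1) + 1 :=
    C.hi_step (k + 2) (by omega)
  rw [hu] at b4
  have b5 := h.nr_eq C (by omega) f4 (le_refl (hi (k + 1))) b1 b2 b4.symm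
  have h2 : lo (k + 1) ≤ a := by omega
  have h3 : e (k + 1) a ⋖ e k a :=
    (W.cov k (by omega) _ _ h2 (by omega) a1 a2).2 (Or.inl rfl)
  rw [← mem_dc, a3, mem_singleton, hu] at h3
  have := h.nr_eq C (by omega) h2 (by omega) f4 (le_refl (hi (k + 1))) h3
  omega

/-- the near elements of the pendant at the right end, closed -/
lemma NJ.near_right {y p : P} (ly : lev y = n + 3) (hyt : y ≤ (t : P)) (sp : sit (n + 2) p = uc y)
    (hb : lo (n + 2) + 3 ≤ hi (n + 2)) (c2 : hi (n + 2) = hi (n + 1) + 1)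
    (c5 : uc y = {e (n + 2) (hi (n + 2) - 1), e (n + 2) (hi (n + 2))})
    (hh : hi (n + 3) = hi (n + 2)) : (nLp (n + 2) p).card ≤ 2 ∧ (nUp (n + 2) p).card ≤ 2 := by
  have bb : ∀ b, lo (n + 2) ≤ b → b ≤ hi (n + 2) → e (n + 2) b ∈ uc y →
      b + 1 = hi (n + 2) ∨ b = hi (n + 2) := by
    intro b b1 b2 hb'
    rw [c5, mem_insert, mem_singleton] at hb'
    rcases hb' with hb' | hb'
    · left
      have := h.nr_eq C (by omega) b1 b2 (by omega) (by omega) hb'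
      omega
    · right
      exact h.nr_eq C (by omega) b1 b2 (by omega) (by omega) hb'
  constructor
  · refine (card_le_card (t := {e (n + 3) (hi (n + 2) - 1), e (n + 3) (hi (n + 2))})
      fun w hw => ?_).trans card_le_two
    obtain ⟨a, b, a1, a2, b1, b2, b3, rfl, b4⟩ := h.near_low C ly hyt sp w hw
    have b5 := bb b b1 b2 b4
    rw [mem_insert, mem_singleton]
    rcases (show a = hi (n + 2) - 1 ∨ a = hi (n + 2) by omega) with h1 | h1
    · left; rw [h1]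
    · right; rw [h1]
  · refine (card_le_card (t := {e (n + 1) (hi (n + 2) - 1), e (n + 1) (hi (n + 2) - 2)})
      fun w hw => ?_).trans card_le_two
    obtain ⟨a, b, a1, a2, b1, b2, b3, rfl, b4⟩ := h.near_up C ly hyt sp w hw
    have b5 := bb b b1 b2 b4
    rw [mem_insert, mem_singleton]
    rcases (show a = hi (n + 2) - 1 ∨ a = hi (n + 2) - 2 by omega) with h1 | h1
    · left; rw [h1]
    · right; rw [h1]

/-- the near elements of the pendant at the left end, open -/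
lemma NJ.near_left {y p : P} (ly : lev y = n + 3) (hyt : y ≤ (t : P)) (sp : sit (n + 2) p = uc y)
    (hb : lo (n + 2) + 3 ≤ hi (n + 2)) (c2 : lo (n + 2) = lo (n + 1))
    (c5 : uc y = {e (n + 2) (lo (n + 2)), e (n + 2) (lo (n + 2) + 1)}) :
    (nLp (n + 2) p).card ≤ 3 ∧ (nUp (n + 2) p).card ≤ 2 := by
  have bb : ∀ b, lo (n + 2) ≤ b → b ≤ hi (n + 2) → e (n + 2) b ∈ uc y →
      b = lo (n + 2) ∨ b = lo (n + 2) + 1 := by
    intro b b1 b2 hb'
    rw [c5, mem_insert, mem_singleton] at hb'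
    rcases hb' with hb' | hb'
    · left
      exact h.nr_eq C (by omega) b1 b2 (by omega) (by omega) hb'
    · right
      exact h.nr_eq C (by omega) b1 b2 (by omega) (by omega) hb'
  constructor
  · refine (card_le_card (t := {e (n + 3) (lo (n + 2)), e (n + 3) (lo (n + 2) + 1),
      e (n + 3) (lo (n + 2) + 2)}) fun w hw => ?_).trans card_le_three
    obtain ⟨a, b, a1, a2, b1, b2, b3, rfl, b4⟩ := h.near_low C ly hyt sp w hw
    have b5 := bb b b1 b2 b4
    rw [mem_insert, mem_insert, mem_singleton]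
    rcases (show a = lo (n + 2) ∨ a = lo (n + 2) + 1 ∨ a = lo (n + 2) + 2 by omega) with
      h1 | h1 | h1
    · left; rw [h1]
    · right; left; rw [h1]
    · right; right; rw [h1]
  · refine (card_le_card (t := {e (n + 1) (lo (n + 2)), e (n + 1) (lo (n + 2) + 1)})
      fun w hw => ?_).trans card_le_two
    obtain ⟨a, b, a1, a2, b1, b2, b3, rfl, b4⟩ := h.near_up C ly hyt sp w hw
    have b5 := bb b b1 b2 b4
    rw [mem_insert, mem_singleton]
    rcases (show a = lo (n + 2) ∨ a = lo (n + 2) + 1 by omega) with h1 | h1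
    · left; rw [h1]
    · right; rw [h1]

end near

end Pool.Agent.GaussPoset.Wd
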