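import Pool.Agent.W_448cl_h64.ClS

/-!
MP_448cb3_co, G2, case B, windows `j - 1` and `j`: a row with the pattern [DL], the doubled end closed: the
three cases of the pendants.  helper64.
-/

namespace Pool.Agent.GaussPoset.EK

set_option linter.unusedSectionVars false

open Finset Win St Polynomial Wd Win.W4 Win.Rc Win.Pn
open Pool.Agent.GaussPoset.Win.SO (PN vp mem_PN N1f mem_N1f N5f CQ envc chc)

universe u

variable {P : Type u} [Fintype P] [PartialOrder P] [DecidableEq P] {r i j : ℕ}

variable {m : ℕ} {x : ℕ → P} {c : ℕ → ℤ} {β : ℤ} {t : Tops P} {lo hi : ℕ → ℕ} {e : ℕ → ℕ → P}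

variable {K : Finset P} {psi : P → P} {w v : P}

namespace ClDL

variable (F : ClDL P r i t m x c lo hi e)
include F

lemma pen01 {k : ℕ} (hk : k ≤ 1) : pen (x k) = ∅ := by
  obtain ⟨K, psi, R⟩ := exists_red P (i + 1)
  obtain ⟨w, v, D⟩ := F.dlg R
  exact dl_pen01 D hk

/-- THE PENDANTS: none; one below the other end, closed; one below the second last element in one late
word -/
theorem pend_cases (S : Shape (i + 1) lo hi) :
    (∀ q ∈ SS i t, q ∉ PD P i ∧ q ∉ PU P i) ∨
    (∃ p u, PdC i t lo hi e (x m) p u ∧ (uc (x m)).card = 2 ∧ FU' i (SS i t) = ∅ ∧ nn i p ≤ 4) ∨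
    (∃ p u, PdC i t lo hi e (x 2) p u ∧ m = 3 ∧ FU' i (SS i t) = ∅ ∧ nn i p ≤ 5 ∧
      (∀ k, k ≤ 3 → x k = e (i + 1) (hi (i + 1) - k)) ∧
      ∃ a, 3 ≤ a ∧ a + 7 = i + 1 ∧ (∀ k, k < a → lo k = 0 ∧ hi k = 0) ∧ (lo a = 0 ∧ hi a = 1) ∧
        word lo hi a 7 = W7) := by
  classical
  have h := F.h
  have H := h.g.H
  have C := F.C
  have hm := F.hm
  have hb := F.big
  obtain ⟨hV, hor⟩ := F.coord
  rcases h.pd_coord rfl F.hi1 C hb with hN | ⟨n, hn, y, p, u, D, hcase⟩
  · exact Or.inl hN
  right
  subst hn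
  have lp := (mem_PD.1 D.pd).1
  have hpy : p ⋖ y := by rw [← mem_uc, D.up]; simp
  have ly : lev y = n + 3 := by have := lev_cov H hpy; omega
  have hyt : y ≤ (t : P) := by
    have h1 : y ∈ SS (n + 2) t := (h.part (i := n + 2) (k := n + 3 + 1) (by omega) (by omega) t).up
      D.mp hpy
    exact (h.mem (by omega) t (by omega)).1 h1
  have e1 : lo (n + 2 + 1) = lo (n + 3) := rfl
  have e2 : hi (n + 2 + 1) = hi (n + 3) := rfl
  rw [e1, e2] at hV hor
  obtain ⟨q1, q2⟩ := cl_shape (n := n) S (fun k hk => C.lo_step k (by omega))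
    (fun k hk => C.hi_step k (by omega)) (fun k hk => C.hi_le (by omega)) (by omega) (by omega)
  rcases hcase with ⟨c1, c2, c3, c4, c5⟩ | ⟨c1, c2, c3, c4, c5⟩
  · right
    obtain ⟨a, a1, a2, a3, a4, a5⟩ := q1 c1 c2
    obtain ⟨w1, w2⟩ := word_spec a5
    obtain rfl : n = a + 4 := by omega
    have f6 : lo (a + 7) = lo (a + 6) := by
      have h5 := (w2 6 (by omega)).1
      rw [show W7[6]?.map Prod.fst = some false by decide] at h5
      have h6 := of_decide_eq_false (Option.some.inj h5).symm
      push Not at h6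
      exact h6
    have f3 : lo (a + 4) = lo (a + 3) := by
      have h5 := (w2 3 (by omega)).1
      rw [show W7[3]?.map Prod.fst = some false by decide] at h5
      have h6 := of_decide_eq_false (Option.some.inj h5).symm
      push Not at h6
      exact h6
    have hcnt := word_count (a := a) (d := 7) (lo := lo) (hi := hi)
      (fun k hk => C.lo_step k (by omega)) (fun k hk => C.hi_step k (by omega))
    rw [a5, show W7.count Wd.CC = 0 by decide, show W7.count Wd.OO = 2 by decide] at hcnt
    have g1 : lo (a + 4 + 3) = lo (a + 7) := rfl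
    have g2 : hi (a + 4 + 3) = hi (a + 7) := rfl
    have g3 : lo (a + 4 + 2) = lo (a + 6) := rfl
    rw [g1, g2] at hV hor
    rcases hor with ⟨o1, o2⟩ | ⟨o1, o2⟩
    · exfalso
      omega
    · have hm3 : m = 3 := by omega
      subst hm3
      have hx2 : y = x 2 := by
        rw [c4, o2 2 (by omega)]
        show e (a + 4 + 3) _ = e (a + 4 + 2 + 1) _
        congr 1
        show lo (a + 4 + 2) + 1 = hi (a + 4 + 2 + 1) - 2
        have g4 : hi (a + 4 + 2 + 1) = hi (a + 7) := rfl
        omega
      have n1 := h.near_left C ly hyt D.sp hb c2 c5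
      have n2 := h.fup_left C D hb c3 (by
        intro k hk
        obtain rfl : k = a + 3 := by omega
        exact f3)
      rw [hx2] at D
      refine ⟨p, u, D, rfl, n2, ?_, o2, a, a1, a2, a3, a4, a5⟩
      unfold nn
      have k1 : ((nLp (a + 4 + 2) p).card : ℤ) ≤ 3 := by exact_mod_cast n1.1
      have k2 : ((nUp (a + 4 + 2) p).card : ℤ) ≤ 2 := by exact_mod_cast n1.2
      linarith
  · obtain ⟨q3, q4⟩ := q2 c1 c2
    rcases hor with ⟨o1, o2⟩ | ⟨o1, o2⟩
    · left
      have hxm : y = x m := by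
        rw [c4, o2 m le_rfl, ← q3]
        show e (n + 3) _ = e (n + 2 + 1) _
        congr 1
      have n1 := h.near_right C ly hyt D.sp hb c2 c5 q3
      have n2 := h.fup_right C D hb c3 q4
      have hcard : (uc y).card = 2 := by
        rw [c5, card_pair]
        intro hq
        have := h.nr_eq C (by omega) (by omega) (by omega) (by omega) le_rfl hq
        omega
      rw [hxm] at D hcard
      refine ⟨p, u, D, hcard, n2, ?_⟩
      unfold nn
      have k1 : ((nLp (n + 2) p).card : ℤ) ≤ 2 := by exact_mod_cast n1.1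
      have k2 : ((nUp (n + 2) p).card : ℤ) ≤ 2 := by exact_mod_cast n1.2
      linarith
    · exfalso
      have hx0 : y = x 0 := by
        rw [c4, o2 0 (by omega), ← q3]
        rfl
      have h1 : p ∈ pen (x 0) := by
        rw [← hx0]
        exact mem_pen.2 ⟨hpy, by rw [D.up, card_singleton]⟩
      rw [F.pen01 (k := 0) (by omega)] at h1
      exact absurd h1 (notMem_empty _)

end ClDL

end Pool.Agent.GaussPoset.EK
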