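import Pool.Agent.W_448cl_h64.ClT

/-!
MP_448cb3_co, G2, case B, windows `j - 1` and `j`: a row with the pattern [DL], the doubled end closed: the
own value and the share of the pendant.  helper64.
-/

namespace Pool.Agent.GaussPoset.EK

set_option linter.unusedSectionVars false

open Finset Win St Polynomial Wd Win.W4 Win.Rc Win.Pn
open Pool.Agent.GaussPoset.Win.SO (PN vp mem_PN N1f mem_N1f N5f CQ envc chc)

universe u

variable {P : Type u} [Fintype P] [PartialOrder P] [DecidableEq P] {r i j : ℕ}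

variable {m : ℕ} {x : ℕ → P} {c : ℕ → ℤ} {β : ℤ} {t : Tops P} {lo hi : ℕ → ℕ} {e : ℕ → ℕ → P}

variable {K : Finset P} {psi : P → P} {w v : P}

/-- the part at the window `j` -/
noncomputable abbrev Cx (i : ℕ) (t : Tops P) : Finset P := cext (i + 1 + 1) (topOf : P → Tops P) t

namespace ClDL

variable (F : ClDL P r i t m x c lo hi e)
include F

/-- THE OWN VALUE -/
theorem own_ge {q : ℕ} (hq : q ≤ m)
    (h0 : ∀ z, z ∈ FL i (SS i t) ∨ z ∈ FU' i (SS i t) → sit i z = uc (x q)) :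
    2 - fa i (SS i t) + fa i (SS i t) ^ 2 + 2 * (if q = 3 then fa i (SS i t) else 0) -
      4 * fm i (SS i t) x 0 + 2 * n1 i (SS i t) - 4 * n5 i (SS i t) + Ow (i + 1) (Cx i t) ≤
        own ⟨-1, 9, 1, 4, 3, -1, 2, 13, 0⟩ i (i + 1) t := by
  have h4 := F.sites4
  have hm := F.hm
  have o1 := NJ.own1_closed F.h rfl F.hi1 F.B ⟨-1, 9, 1, 4, 3, -1, 2, 13, 0⟩ (by omega) h4 F.c0 F.c1
    F.c2 F.hu hq h0
  have hc := F.cqs_ge
  have he := Int.natCast_nonneg (Rd.ETs i (SS i t)).card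
  rw [F.own_split, o1]
  simp only
  linarith

/-- no pendants: nothing at the window `j - 1` -/
lemma none_vals (hN : ∀ q ∈ SS i t, q ∉ PD P i ∧ q ∉ PU P i) :
    FL i (SS i t) = ∅ ∧ FU' i (SS i t) = ∅ ∧
      (PD P i).filter (fun p => (topOf p : Tops P) = t) = ∅ := by
  classical
  have h := F.h
  have H := h.g.H
  refine ⟨?_, ?_, ?_⟩
  · rw [eq_empty_iff_forall_notMem]
    intro w hw
    rw [mem_FL] at hw
    obtain ⟨hw1, z, hz1, hz2⟩ := hw
    have hzw : w ⋖ z := by rw [← mem_uc, hz2]; simp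
    have hz : z ∈ SS i t := (h.part (i := i) (k := i + 1 + 1) (by omega) (by omega) t).up hw1 hzw
    exact (hN z hz).1 hz1
  · rw [eq_empty_iff_forall_notMem]
    intro w hw
    rw [mem_FU'] at hw
    obtain ⟨hw1, z, hz1, hz2⟩ := hw
    have lz := (mem_PU.1 hz1).1
    have hzw : z ⋖ w := by rw [← mem_dc, hz2]; simp
    have lw := lev_cov H hzw
    have hwt : w ≤ (t : P) := (h.mem (by omega) t (by omega)).1 hw1
    have hzS : z ∈ SS i t := (h.mem (by omega) t (by omega)).2 (hzw.le.trans hwt)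
    exact (hN z hzS).2 hz1
  · rw [eq_empty_iff_forall_notMem]
    intro q hq
    rw [mem_filter] at hq
    obtain ⟨hq1, hq2⟩ := hq
    have lq := (mem_PD.1 hq1).1
    exact (hN q ((h.mem (by omega) t (by omega)).2 (hq2 ▸ le_topOf q))).1 hq1

/-- one pendant below `x q` -/
lemma one_vals {p u : P} {q : ℕ} (D : PdC i t lo hi e (x q) p u) :
    FL i (SS i t) = ks p ∧
      (∀ z, z ∈ FL i (SS i t) ∨ z ∈ FU' i (SS i t) → sit i z = uc (x q)) ∧
      (PD P i).filter (fun p => (topOf p : Tops P) = t) = {p} := by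
  classical
  have h := F.h
  have H := h.g.H
  have lp := (mem_PD.1 D.pd).1
  have lu := (mem_PU.1 D.pu).1
  have fl : FL i (SS i t) = ks p := by
    ext w
    rw [mem_FL, mem_ks]
    constructor
    · rintro ⟨hw1, z, hz1, hz2⟩
      have hzw : w ⋖ z := by rw [← mem_uc, hz2]; simp
      have hz : z ∈ SS i t := (h.part (i := i) (k := i + 1 + 1) (by omega) (by omega) t).up hw1 hzw
      rw [hz2, D.low z hz hz1]
    · intro hw
      refine ⟨?_, p, D.pd, hw⟩
      have hwp : w ⋖ p := by rw [← mem_uc, hw]; simp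
      have lw := lev_cov H hwp
      have hp := D.mp
      unfold SS at hp ⊢
      rw [mem_cext] at hp ⊢
      intro v hv hlv
      refine hp v ?_ hlv
      rcases eq_or_lt_of_le hv with rfl | hv'
      · omega
      · obtain ⟨v', q1, q2⟩ := exists_covBy_le_of_lt hv'
        rw [← mem_uc, hw, mem_singleton] at q1
        rwa [← q1]
  refine ⟨fl, ?_, ?_⟩
  · intro z hz
    rcases hz with hz | hz
    · rw [fl, mem_ks] at hz
      rw [sit_FL H D.pd hz, ← D.sp, sit_low H (by omega)]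
    · rw [mem_FU'] at hz
      obtain ⟨hw1, v, hz1, hz2⟩ := hz
      have lz := (mem_PU.1 hz1).1
      have hzw : v ⋖ z := by rw [← mem_dc, hz2]; simp
      have lw := lev_cov H hzw
      have hwt : z ≤ (t : P) := (h.mem (by omega) t (by omega)).1 hw1
      have hzS : v ∈ SS i t := (h.mem (by omega) t (by omega)).2 (hzw.le.trans hwt)
      obtain rfl := D.upp v hzS hz1
      rw [sit_FU H D.pu hz2, ← D.su, sit_upp H (by omega)]
  · ext w
    rw [mem_filter, mem_singleton]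
    constructor
    · rintro ⟨hq1, hq2⟩
      have lq := (mem_PD.1 hq1).1
      exact D.low w ((h.mem (by omega) t (by omega)).2 (hq2 ▸ le_topOf w)) hq1
    · rintro rfl
      refine ⟨D.pd, ?_⟩
      have hwt : w ≤ (t : P) := (h.mem (by omega) t (by omega)).1 D.mp
      refine Subtype.ext ?_
      exact Hul.top_unique (h.nj (by omega)) (topOf w).2 t.2 (le_topOf w) hwt

/-- the numbers of the pendant -/
lemma pd_num (p : P) : 0 ≤ kc p ∧ 0 ≤ zc i (topOf : P → Tops P) p ∧
    kc p + zc i (topOf : P → Tops P) p ≤ 2 ∧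
    ∑ z ∈ zs i (topOf : P → Tops P) p, kc z ≤ 2 * zc i (topOf : P → Tops P) p := by
  refine ⟨?_, ?_, F.h.ks_zs_le rfl p, ?_⟩
  · unfold kc
    exact Int.natCast_nonneg _
  · unfold zc
    exact Int.natCast_nonneg _
  · have h1 : ∑ z ∈ zs i (topOf : P → Tops P) p, kc z ≤ ∑ _z ∈ zs i (topOf : P → Tops P) p, 2 :=
      Finset.sum_le_sum fun z _ => kc_le F.h.g.H z
    rw [sum_const, nsmul_eq_mul] at h1
    unfold zc
    linarith

/-- the share of the pendant below the closed other end is not negative -/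
theorem shr_closed {p u : P} (D : PdC i t lo hi e (x m) p u) (hU : FU' i (SS i t) = ∅)
    (hn : nn i p ≤ 4) : 0 ≤ shr ⟨-1, 9, 1, 4, 3, -1, 2, 13, 0⟩ i p := by
  classical
  have h4 := F.sites4
  have hm := F.hm
  obtain ⟨fl, -, -⟩ := F.one_vals D
  obtain ⟨k0, z0, kz, ks2⟩ := F.pd_num p
  have s1 := F.h.shr_row rfl F.hi1 F.B ⟨-1, 9, 1, 4, 3, -1, 2, 13, 0⟩ h4 (le_refl m) D.up D.pd
  have s6 : fa i (SS i t) = kc p := by
    unfold fa kc
    rw [fl, hU, card_empty]
    push_cast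
    ring
  have s2 : ∑ l ∈ (Ed x m).filter (fun l => l ≤ m + 1 ∧ m ≤ l + 2), c l ≤ 0 := by
    refine Finset.sum_nonpos fun l hl => ?_
    rw [mem_filter, Wd.mem_Ed] at hl
    obtain ⟨⟨l1, -, -⟩, l2, l3⟩ := hl
    rcases (by omega : l = 1 ∨ 2 ≤ l) with rfl | h5
    · rw [F.c1]
      norm_num
    · rw [F.c2 l h5 l1]
  have s3 : ((Et x m c).filter (fun l => l ≤ m + 1 ∧ m ≤ l + 2)) = ∅ := by
    rw [eq_empty_iff_forall_notMem]
    intro l hl
    rw [mem_filter, mem_Et, Wd.mem_Ed] at hl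
    obtain ⟨⟨⟨l1, -, -⟩, l4⟩, l2, l3⟩ := hl
    rcases (by omega : l = 1 ∨ 2 ≤ l) with rfl | h5
    · rw [F.c1] at l4
      norm_num at l4
    · rw [F.c2 l h5 l1] at l4
      norm_num at l4
  rw [s1, s3, card_empty, s6]
  simp only
  push_cast
  generalize ∑ l ∈ (Ed x m).filter (fun l => l ≤ m + 1 ∧ m ≤ l + 2), c l = s at s2 ⊢
  generalize ∑ z ∈ zs i (topOf : P → Tops P) p, kc z = kk at ks2 ⊢
  generalize zc i (topOf : P → Tops P) p = z at z0 kz ks2 ⊢
  generalize kc p = k at k0 kz ⊢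
  generalize nn i p = n at hn ⊢
  have h1 : z ≤ 2 := by omega
  have h2 : k ≤ 2 := by omega
  interval_cases z <;> interval_cases k <;> omega

/-- the share of the pendant below `x 2` -/
theorem shr_late {p u : P} (D : PdC i t lo hi e (x 2) p u) (hm3 : m = 3)
    (hU : FU' i (SS i t) = ∅) (hn : nn i p ≤ 5) :
    (kc p + zc i (topOf : P → Tops P) p ≤ 1 → -12 ≤ 2 * (kc p ^ 2 - 5 * kc p) +
      shr ⟨-1, 9, 1, 4, 3, -1, 2, 13, 0⟩ i p) ∧
    -20 ≤ 2 * (kc p ^ 2 - 5 * kc p) + shr ⟨-1, 9, 1, 4, 3, -1, 2, 13, 0⟩ i p := by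
  classical
  have h4 := F.sites4
  have hm := F.hm
  subst hm3
  obtain ⟨fl, -, -⟩ := F.one_vals D
  obtain ⟨k0, z0, kz, ks2⟩ := F.pd_num p
  obtain ⟨hin, -, -⟩ := NJ.inner F.h rfl F.hi1 F.B
  have s1 := F.h.shr_row rfl F.hi1 F.B ⟨-1, 9, 1, 4, 3, -1, 2, 13, 0⟩ h4 (k := 2) (by omega) D.up
    D.pd
  have s6 : fa i (SS i t) = kc p := by
    unfold fa kc
    rw [fl, hU, card_empty]
    push_cast
    ring
  have s2 : ∑ l ∈ (Ed x 3).filter (fun l => l ≤ 2 + 1 ∧ 2 ≤ l + 2), c l = 0 := by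
    have h5 : ∑ l ∈ (Ed x 3).filter (fun l => l ≤ 2 + 1 ∧ 2 ≤ l + 2), c l =
        ∑ l ∈ ({0, 1} : Finset ℕ), c l := by
      symm
      refine Finset.sum_subset ?_ ?_
      · intro l hl
        rw [mem_insert, mem_singleton] at hl
        rcases hl with rfl | rfl
        · rw [mem_filter, Wd.mem_Ed]
          exact ⟨⟨by omega, F.hu, hin 1 (by omega) (by omega)⟩, by omega, by omega⟩
        · rw [mem_filter, Wd.mem_Ed]
          exact ⟨⟨by omega, hin 1 (by omega) (by omega), hin 2 (by omega) (by omega)⟩, by omega,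
            by omega⟩
      · intro l hl hn
        rw [mem_filter, Wd.mem_Ed] at hl
        rw [mem_insert, mem_singleton] at hn
        push Not at hn
        exact F.c2 l (by omega) hl.1.1
    rw [h5, sum_pair (by norm_num), F.c0, F.c1]
    norm_num
  have s3 : ((((Et x 3 c).filter (fun l => l ≤ 2 + 1 ∧ 2 ≤ l + 2)).card : ℕ) : ℤ) ≤ 1 := by
    have h5 : ((Et x 3 c).filter (fun l => l ≤ 2 + 1 ∧ 2 ≤ l + 2)) ⊆ {0} := by
      intro l hl
      rw [mem_filter, mem_Et, Wd.mem_Ed] at hl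
      obtain ⟨⟨⟨l1, -, -⟩, l4⟩, l2, l3⟩ := hl
      rw [mem_singleton]
      by_contra hne
      rcases (by omega : l = 1 ∨ 2 ≤ l) with rfl | h5
      · rw [F.c1] at l4
        norm_num at l4
      · rw [F.c2 l h5 l1] at l4
        norm_num at l4
    have h6 := card_le_card h5
    rw [card_singleton] at h6
    exact_mod_cast h6
  rw [s1, s2, s6]
  simp only
  have s5 := Int.natCast_nonneg ((Et x 3 c).filter (fun l => l ≤ 2 + 1 ∧ 2 ≤ l + 2)).card
  generalize (((Et x 3 c).filter (fun l => l ≤ 2 + 1 ∧ 2 ≤ l + 2)).card : ℤ) = E at s3 s5 ⊢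
  generalize ∑ z ∈ zs i (topOf : P → Tops P) p, kc z = kk at ks2 ⊢
  generalize zc i (topOf : P → Tops P) p = z at z0 kz ks2 ⊢
  generalize kc p = k at k0 kz ⊢
  generalize nn i p = n at hn ⊢
  have h1 : z ≤ 2 := by omega
  have h2 : k ≤ 2 := by omega
  constructor
  · intro h3
    interval_cases z <;> interval_cases k <;> omega
  · interval_cases z <;> interval_cases k <;> omega

end ClDL

end Pool.Agent.GaussPoset.EK
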