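import Pool.Agent.W_448cl_h64.ClU

/-!
MP_448cb3_co, G2, case B, windows `j - 1` and `j`: a row with the pattern [DL], the doubled end closed: the
value of the window `j`.  helper64.
-/

namespace Pool.Agent.GaussPoset.Win.W4

set_option linter.unusedSectionVars false

open Finset
open Pool.Agent.GaussPoset.Win.SO (PN vp con on mem_PN vp_PD vp_PU)

universe u

variable {P : Type u} [Fintype P] [PartialOrder P] [DecidableEq P] {r i : ℕ}
variable {psi : P → P} {C K : Finset P} {w v : P} {m : ℕ} {x : ℕ → P}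

namespace DLg

variable (h : DLg r i K psi C w v m x)
include h

/-- four sites, one upper pendant over the last pair -/
theorem Ow_ge3U' (hm3 : m = 3) (hu : (uc (x 0)).card = 2) (hU : (UE i C x 2).card = 1)
    (hp : pen (x 2) = ∅) (h3 : (uc (x 3)).card + (pen (x 3)).card ≤ 1) {n : ℤ}
    (hn : n ≤ ((Z4 i C).card : ℤ) - (T4 i C).card) : 1 + 4 * n ≤ Ow i C := by
  have h5 := h.NE0_sq hu
  have e2 : NE i C x 2 = ((DE i C x 2).card : ℤ) - 1 := by
    unfold NE
    rw [hU]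
    push_cast
    ring
  rw [h.Ow_form3 hm3 hu, e2, hp, card_empty]
  have hsq : ((uc (x 3)).card : ℤ) + (pen (x 3)).card ≤ 1 := by exact_mod_cast h3
  have hs0 : (0 : ℤ) ≤ (uc (x 3)).card := by positivity
  have hq0 : (0 : ℤ) ≤ (pen (x 3)).card := by positivity
  rcases h.CH2_num with ⟨d, c⟩ | ⟨d, c⟩ | ⟨d, c⟩ <;> rw [d] <;> push_cast <;> linarith

/-- four sites, one pendant below `x 2`, the other end open and without pendants -/
theorem Ow_ge3B' (hm3 : m = 3) (hu : (uc (x 0)).card = 2) (hU : UE i C x 2 = ∅)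
    (hp : (pen (x 2)).card = 1) (h3 : (uc (x 3)).card = 1) (hp3 : pen (x 3) = ∅) {n : ℤ}
    (hn : n ≤ ((Z4 i C).card : ℤ) - (T4 i C).card) :
    ((DE i C x 2).card = 0 ∧ 18 + 4 * n ≤ Ow i C) ∨
      ((DE i C x 2).card = 1 ∧ 8 + 4 * n ≤ Ow i C) ∨
      ((DE i C x 2).card = 2 ∧ 2 + 4 * n ≤ Ow i C) := by
  have h5 := sq_two_sub (NE i C x 0)
  have e2 : NE i C x 2 = ((DE i C x 2).card : ℤ) := by
    unfold NE
    rw [hU, card_empty]
    push_cast
    ring
  rw [h.Ow_form3 hm3 hu, e2, hp, h3, hp3, card_empty]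
  rcases h.CH2_num with ⟨d, c⟩ | ⟨d, c⟩ | ⟨d, c⟩
  · refine Or.inl ⟨d, ?_⟩
    rw [d]
    push_cast
    linarith
  · refine Or.inr (Or.inl ⟨d, ?_⟩)
    rw [d]
    push_cast
    linarith
  · refine Or.inr (Or.inr ⟨d, ?_⟩)
    rw [d]
    push_cast
    linarith

end DLg

end Pool.Agent.GaussPoset.Win.W4

namespace Pool.Agent.GaussPoset.EK

set_option linter.unusedSectionVars false

open Finset Win St Polynomial Wd Win.W4 Win.Rc Win.Pn
open Pool.Agent.GaussPoset.Win.SO (PN vp mem_PN N1f mem_N1f N5f CQ envc chc)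

universe u

variable {P : Type u} [Fintype P] [PartialOrder P] [DecidableEq P] {r i j : ℕ}

variable {m : ℕ} {x : ℕ → P} {c : ℕ → ℤ} {β : ℤ} {t : Tops P} {lo hi : ℕ → ℕ} {e : ℕ → ℕ → P}

variable {K : Finset P} {psi : P → P} {w v : P}

namespace ClDL

variable (F : ClDL P r i t m x c lo hi e)
include F

lemma n5_le3 : n5 i (SS i t) ≤
    ((Z4 (i + 1) (Cx i t)).card : ℤ) - (T4 (i + 1) (Cx i t)).card := by
  have h1 := NJ.n5_le F.h rfl F.hi1 t
  have h2 : Cx i t = SS (i + 1) t := F.h.cext_eq (i := i + 1) (by omega) t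
  rw [h2]
  exact h1

/-- `w32` -/
lemma w3 : wv (i + 1) (Cx i t) = NE (i + 1) (Cx i t) x 2 - 1 := by
  obtain ⟨K, psi, R⟩ := exists_red P (i + 1)
  obtain ⟨w, v, D⟩ := F.dlg R
  exact D.w3_eq

/-- THE TWO WINDOWS, at least five sites -/
theorem win4 (h4 : 4 ≤ m) : wv (i + 1) (Cx i t) = ((DE (i + 1) (Cx i t) x 2).card : ℤ) - 1 ∧
    (((DE (i + 1) (Cx i t) x 2).card = 0 ∧ 0 ≤ 2 * n1 i (SS i t) - 4 * n5 i (SS i t) +
        Ow (i + 1) (Cx i t)) ∨
      ((DE (i + 1) (Cx i t) x 2).card = 1 ∧ -1 ≤ 2 * n1 i (SS i t) - 4 * n5 i (SS i t) +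
        Ow (i + 1) (Cx i t)) ∨
      ((DE (i + 1) (Cx i t) x 2).card = 2 ∧ -6 ≤ 2 * n1 i (SS i t) - 4 * n5 i (SS i t) +
        Ow (i + 1) (Cx i t))) := by
  obtain ⟨K, psi, R⟩ := exists_red P (i + 1)
  obtain ⟨w, v, D⟩ := F.dlg R
  have hU := D.W.ue_inner (k := 2) (by omega) (by omega)
  have hw := F.w3
  unfold NE at hw
  rw [hU, card_empty] at hw
  push_cast at hw
  refine ⟨by linarith, ?_⟩
  have hn := F.n1_ge h4
  have h5 := F.n5_le4 D
  have hl : -1 ≤ NE (i + 1) (Cx i t) x (m - 1) := by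
    unfold NE
    have := D.W.UE_one (i := i + 1) (C := Cx i t) (m - 1)
    have h6 : ((UE (i + 1) (Cx i t) x (m - 1)).card : ℤ) ≤ 1 := by exact_mod_cast this
    have h7 := Int.natCast_nonneg (DE (i + 1) (Cx i t) x (m - 1)).card
    linarith
  rcases D.Ow_ge4 h4 F.hu hl h5 with ⟨d, g⟩ | ⟨d, g⟩ | ⟨d, g⟩
  · refine Or.inl ⟨d, ?_⟩
    have := F.n1_nonneg
    linarith
  · refine Or.inr (Or.inl ⟨d, ?_⟩)
    rw [d] at hn
    push_cast at hn
    linarith
  · refine Or.inr (Or.inr ⟨d, ?_⟩)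
    rw [d] at hn
    push_cast at hn
    linarith

/-- THE TWO WINDOWS, four sites, no pendant below `x 2` -/
theorem win3 (S : Shape (i + 1) lo hi) (hm3 : m = 3) (hp : pen (x 2) = ∅)
    (h3 : (uc (x 3)).card = 2 → (pen (x 3)).card ≤ 1) :
    (1 ≤ 2 * n1 i (SS i t) - 4 * n5 i (SS i t) + Ow (i + 1) (Cx i t)) ∨
    (wv (i + 1) (Cx i t) = 1 ∧ (DE (i + 1) (Cx i t) x 2).card = 2 ∧
      -5 ≤ 2 * n1 i (SS i t) - 4 * n5 i (SS i t) + Ow (i + 1) (Cx i t)) := by
  obtain ⟨K, psi, R⟩ := exists_red P (i + 1)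
  obtain ⟨w, v, D⟩ := F.dlg R
  have hn := F.n5_le3
  have h1 := F.n1_nonneg
  subst hm3
  by_cases hU : UE (i + 1) (Cx i t) x 2 = ∅
  · have h4 : (uc (x 3)).card + (pen (x 3)).card ≤ 3 := by
      have h5 := D.W.pen_le (x 3)
      rcases D.W.uc_le (k := 3) (by omega) with h6 | h6
      · omega
      · have := h3 h6
        omega
    have hw := F.w3
    unfold NE at hw
    rw [hU, card_empty] at hw
    push_cast at hw
    rcases D.Ow_ge3 rfl F.hu hU hp h4 hn with ⟨d, g⟩ | ⟨d, g⟩ | ⟨d, g⟩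
    · left
      linarith
    · left
      linarith
    · right
      rw [d] at hw
      push_cast at hw
      exact ⟨by linarith, d, by linarith⟩
  · left
    have hj : 2 ≤ i + 1 := by have := F.hi1; omega
    have h5 := NJ.pen_three_zero F.h hj F.B F.hu F.C S hU
    have h6 : (UE (i + 1) (Cx i t) x 2).card = 1 := by
      have h7 := D.W.UE_one (i := i + 1) (C := Cx i t) 2
      have h8 := card_pos.2 (nonempty_iff_ne_empty.2 hU)
      omega
    have h7 : (uc (x 3)).card + (pen (x 3)).card ≤ 1 := by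
      rw [h5, card_empty]
      rcases D.W.uc_le (k := 3) (by omega) with h8 | h8
      · omega
      · exfalso
        exact hU (D.W.ue_last (by omega) h8)
    have h8 := D.Ow_ge3U' rfl F.hu h6 hp h7 hn
    linarith

end ClDL

end Pool.Agent.GaussPoset.EK
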