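import Pool.Agent.W_448cl_h64.ClV

/-!
MP_448cb3_co, G2, case B, windows `j - 1` and `j`: a row with the pattern [DL], the doubled end closed, at
least four sites: THE VALUE.  helper64.
-/

namespace Pool.Agent.GaussPoset.EK

set_option linter.unusedSectionVars false

open Finset Win St Polynomial Wd Win.W4 Win.Rc Win.Pn
open Pool.Agent.GaussPoset.Win.SO (PN vp mem_PN N1f mem_N1f N5f CQ envc chc)

universe u

variable {P : Type u} [Fintype P] [PartialOrder P] [DecidableEq P] {r i j : ℕ}

variable {m : ℕ} {x : ℕ → P} {c : ℕ → ℤ} {β : ℤ} {t : Tops P} {lo hi : ℕ → ℕ} {e : ℕ → ℕ → P}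

variable {K : Finset P} {psi : P → P} {w v : P}

/-- twice the value of a part with the shares of its pendants -/
noncomputable def Vc (i : ℕ) (t : Tops P) : ℤ :=
  2 * own ⟨-1, 9, 1, 4, 3, -1, 2, 13, 0⟩ i (i + 1) t +
    ∑ p ∈ (PD P i).filter (fun p => (topOf p : Tops P) = t), shr ⟨-1, 9, 1, 4, 3, -1, 2, 13, 0⟩ i p

/-- every join of a double and a single element at the part is light -/
def NoHv (j : ℕ) (K : Finset P) (t : Tops P) : Prop :=
  ∀ z y v : P, K2.SD j (topOf : P → Tops P) z y v → (topOf y = t ∨ topOf v = t) →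
    sa j (topOf : P → Tops P) K (uc y) (topOf y) *
      sa j (topOf : P → Tops P) K (uc v) (topOf v) = 0

/-- the bound -/
def VB (i : ℕ) (K : Finset P) (t : Tops P) (m : ℕ) : Prop :=
  0 < Vc i t ∨ (m = 3 ∧ 0 ≤ Vc i t) ∨ (wv (i + 1) (Cx i t) = 1 ∧ -8 < Vc i t) ∨
    (wv (i + 1) (Cx i t) = 1 ∧ -16 < Vc i t ∧ NoHv (i + 1) K t)

namespace ClDL

variable (F : ClDL P r i t m x c lo hi e)
include F

lemma noHv (R : Red P (i + 1) K psi) (hd : (DE (i + 1) (Cx i t) x 2).card = 2)
    (hp : ∀ z y s : P, K2.SD (i + 1) (topOf : P → Tops P) z y s → s ∉ pen (x 2)) :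
    NoHv (i + 1) K t := by
  obtain ⟨w, v, D⟩ := F.dlg R
  intro z y s S hys
  obtain ⟨g1, g2⟩ := dl_no_heavy F.h R D hd hp S
  rcases hys with h6 | h6
  · rw [g1 h6, zero_mul]
  · rw [g2 h6, mul_zero]

/-- an element which hangs below an inner element or a closed end is a pendant of the window `j - 1` -/
lemma pen_PD {k : ℕ} (hk : k ≤ m) (hc : (uc (x k)).card = 2) {q : P} (hq : q ∈ pen (x k)) :
    q ∈ SS i t ∧ q ∈ PD P i ∧ uc q = {x k} := by
  have h := F.h
  have H := h.g.H
  have hu := pen_uc hq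
  have hqc := (mem_pen.1 hq).1
  have hl := F.B.row.lev_x k hk
  have hlq := lev_cov H hqc
  have hxt : x k ≤ (t : P) := by
    rw [← F.B.row.kap k hk]
    exact le_topOf (x k)
  refine ⟨(h.mem (by omega) t (by omega)).2 (hqc.le.trans hxt), ?_, hu⟩
  rw [mem_PD]
  exact ⟨by omega, by rw [hu, card_singleton], x k, hqc, hc⟩

lemma inner2 (h2 : 2 < m) : (uc (x 2)).card = 2 := by
  obtain ⟨hin, -, -⟩ := NJ.inner F.h rfl F.hi1 F.B
  exact hin 2 (by omega) (by omega)

lemma xne {a b : ℕ} (ha : a ≤ m) (hb : b ≤ m) (hab : a ≠ b) : x a ≠ x b := by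
  obtain ⟨K, psi, R⟩ := exists_red P (i + 1)
  obtain ⟨w, v, D⟩ := F.dlg R
  exact D.W.ne ha hb hab

/-- the value from the two windows -/
theorem fin4 (R : Red P (i + 1) K psi) (h4 : 4 ≤ m) (hV : 4 + 2 * (2 * n1 i (SS i t) -
    4 * n5 i (SS i t) + Ow (i + 1) (Cx i t)) ≤ Vc i t) : VB i K t m := by
  obtain ⟨w, v, D⟩ := F.dlg R
  obtain ⟨hw, h5⟩ := F.win4 h4
  rcases h5 with ⟨d, g⟩ | ⟨d, g⟩ | ⟨d, g⟩
  · left
    linarith
  · left
    linarith
  · right; right; right
    rw [d] at hw
    push_cast at hw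
    refine ⟨by linarith, by linarith, F.noHv R d ?_⟩
    intro z y s _ hs
    rw [D.W.pen0 2 le_rfl (by omega)] at hs
    exact absurd hs (notMem_empty _)

theorem fin3 (S : Shape (i + 1) lo hi) (hm3 : m = 3) (hp : pen (x 2) = ∅)
    (h3 : (uc (x 3)).card = 2 → (pen (x 3)).card ≤ 1) (hV : 4 + 2 * (2 * n1 i (SS i t) -
    4 * n5 i (SS i t) + Ow (i + 1) (Cx i t)) ≤ Vc i t) : VB i K t m := by
  rcases F.win3 S hm3 hp h3 with g | ⟨g1, -, g2⟩
  · left
    linarith
  · right; right; left
    exact ⟨g1, by linarith⟩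

/-- no pendants -/
theorem case1 (R : Red P (i + 1) K psi) (S : Shape (i + 1) lo hi)
    (hN : ∀ q ∈ SS i t, q ∉ PD P i ∧ q ∉ PU P i) : VB i K t m := by
  classical
  have hm := F.hm
  obtain ⟨f1, f2, f3⟩ := F.none_vals hN
  have h0 := F.own_ge (q := 0) (by omega) (by
    intro z hz
    rw [f1, f2] at hz
    simp at hz)
  have ha : fa i (SS i t) = 0 := by
    unfold fa
    rw [f1, f2]
    simp
  have hf : fm i (SS i t) x 0 = 0 := by
    unfold fm
    rw [f1, f2]
    simp
  rw [ha, hf, if_neg (by omega)] at h0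
  have hV : 4 + 2 * (2 * n1 i (SS i t) - 4 * n5 i (SS i t) + Ow (i + 1) (Cx i t)) ≤ Vc i t := by
    unfold Vc
    rw [f3, sum_empty]
    linarith
  rcases Nat.lt_or_ge 3 m with h4 | h4
  · exact F.fin4 R h4 hV
  · have hm3 : m = 3 := by omega
    refine F.fin3 S hm3 ?_ ?_ hV
    · rw [eq_empty_iff_forall_notMem]
      intro q hq
      obtain ⟨g1, g2, -⟩ := F.pen_PD (by omega) (F.inner2 (by omega)) hq
      exact (hN q g1).1 g2
    · intro hc
      have : pen (x 3) = ∅ := by
        rw [eq_empty_iff_forall_notMem]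
        intro q hq
        obtain ⟨g1, g2, -⟩ := F.pen_PD (by omega) hc hq
        exact (hN q g1).1 g2
      rw [this, card_empty]
      omega

/-- a pendant below the closed other end -/
theorem case2 (R : Red P (i + 1) K psi) (S : Shape (i + 1) lo hi) {p u : P}
    (D : PdC i t lo hi e (x m) p u) (hcm : (uc (x m)).card = 2) (hU : FU' i (SS i t) = ∅)
    (hn : nn i p ≤ 4) : VB i K t m := by
  classical
  have hm := F.hm
  obtain ⟨f1, f2, f3⟩ := F.one_vals D
  obtain ⟨k0, z0, kz, ks2⟩ := F.pd_num p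
  have h0 := F.own_ge (q := m) le_rfl f2
  have ha : fa i (SS i t) = kc p := by
    unfold fa kc
    rw [f1, hU, card_empty]
    push_cast
    ring
  have hf : fm i (SS i t) x 0 = 0 := by
    obtain ⟨w, v, Dl⟩ := F.dlg R
    have h1 : (FL i (SS i t)).filter (fun z => ¬ Disjoint (sit i z) (se x 0)) = ∅ := by
      rw [eq_empty_iff_forall_notMem]
      intro z hz
      rw [mem_filter] at hz
      obtain ⟨hz1, hz2⟩ := hz
      apply hz2
      rw [f2 z (Or.inl hz1), disjoint_left]
      intro s hs hs2
      have key : ∀ k, k + 1 < m → s ∈ uc (x k) → False := by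
        intro k hk hsk
        have h3 := Dl.W.up k m (by omega) le_rfl
        rw [if_neg (by omega)] at h3
        unfold ucv at h3
        rw [card_eq_zero] at h3
        have h4 : s ∈ univ.filter (fun q => x k ⋖ q ∧ x m ⋖ q) :=
          mem_filter.2 ⟨mem_univ _, mem_uc.1 hsk, mem_uc.1 hs⟩
        rw [h3] at h4
        exact absurd h4 (notMem_empty _)
      unfold se at hs2
      rw [mem_union] at hs2
      rcases hs2 with h5 | h5
      · exact key 0 (by omega) h5
      · exact key 1 (by omega) h5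
    unfold fm
    rw [h1, hU]
    simp
  have hs := F.shr_closed D hU hn
  have hV : 4 + 2 * (2 * n1 i (SS i t) - 4 * n5 i (SS i t) + Ow (i + 1) (Cx i t)) ≤ Vc i t := by
    unfold Vc
    rw [f3, sum_singleton]
    rw [ha, hf] at h0
    have h1 : 0 ≤ 2 * (if m = 3 then kc p else 0) := by
      split_ifs
      · linarith
      · norm_num
    have h2 : 0 ≤ kc p ^ 2 - kc p := by
      have : kc p ≤ 2 := by linarith
      generalize kc p = k at *
      interval_cases k <;> norm_num
    linarith
  rcases Nat.lt_or_ge 3 m with h4 | h4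
  · exact F.fin4 R h4 hV
  · have hm3 : m = 3 := by omega
    have hx3 : x m = x 3 := by rw [hm3]
    refine F.fin3 S hm3 ?_ ?_ hV
    · rw [eq_empty_iff_forall_notMem]
      intro q hq
      obtain ⟨g1, g2, g3⟩ := F.pen_PD (by omega) (F.inner2 (by omega)) hq
      have h5 := D.low q g1 g2
      rw [h5, D.up] at g3
      exact F.xne (by omega) (by omega) (by omega) (singleton_injective g3 : x m = x 2)
    · intro hc
      have : pen (x 3) ⊆ {p} := by
        intro q hq
        obtain ⟨g1, g2, -⟩ := F.pen_PD (by omega) hc hq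
        rw [mem_singleton]
        exact D.low q g1 g2
      have h6 := card_le_card this
      rwa [card_singleton] at h6

/-- a pendant below `x 2` -/
theorem case3 (R : Red P (i + 1) K psi) {p u : P}
    (D : PdC i t lo hi e (x 2) p u) (hm3 : m = 3) (hU : FU' i (SS i t) = ∅) (hn : nn i p ≤ 5)
    (hU2 : UE (i + 1) (Cx i t) x 2 = ∅) (hc3 : (uc (x 3)).card = 1) (hp3 : pen (x 3) = ∅) :
    VB i K t m := by
  classical
  have hm := F.hm
  obtain ⟨w, v, Dl⟩ := F.dlg R
  obtain ⟨f1, f2, f3⟩ := F.one_vals D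
  obtain ⟨k0, z0, kz, ks2⟩ := F.pd_num p
  have h0 := F.own_ge (q := 2) (by omega) f2
  rw [if_neg (by omega)] at h0
  have ha : fa i (SS i t) = kc p := by
    unfold fa kc
    rw [f1, hU, card_empty]
    push_cast
    ring
  have hf : fm i (SS i t) x 0 ≤ kc p := by
    unfold fm
    rw [hU, filter_empty, card_empty]
    have h1 := card_le_card (filter_subset (fun z => ¬ Disjoint (sit i z) (se x 0)) (FL i (SS i t)))
    have h2 : (((FL i (SS i t)).filter (fun z => ¬ Disjoint (sit i z) (se x 0))).card : ℤ) ≤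
        (FL i (SS i t)).card := by exact_mod_cast h1
    have h3 : ((FL i (SS i t)).card : ℤ) = kc p := by
      unfold kc
      rw [f1]
    push_cast
    linarith
  have hpen : pen (x 2) = {p} := by
    ext q
    rw [mem_singleton]
    constructor
    · intro hq
      obtain ⟨g1, g2, -⟩ := F.pen_PD (by omega) (F.inner2 (by omega)) hq
      exact D.low q g1 g2
    · rintro rfl
      exact mem_pen_of_uc D.up
  have hp1 : (pen (x 2)).card = 1 := by rw [hpen, card_singleton]
  obtain ⟨s1, s2⟩ := F.shr_late D hm3 hU hn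
  have hV : 4 + 2 * (2 * n1 i (SS i t) - 4 * n5 i (SS i t) + Ow (i + 1) (Cx i t)) +
      (2 * (kc p ^ 2 - 5 * kc p) + shr ⟨-1, 9, 1, 4, 3, -1, 2, 13, 0⟩ i p) ≤ Vc i t := by
    unfold Vc
    rw [f3, sum_singleton]
    rw [ha] at h0
    linarith
  have hn1 := F.n1_nonneg
  have hw := F.w3
  unfold NE at hw
  rw [hU2, card_empty] at hw
  push_cast at hw
  rcases Dl.Ow_ge3B' hm3 F.hu hU2 hp1 hc3 hp3 F.n5_le3 with ⟨d, g⟩ | ⟨d, g⟩ | ⟨d, g⟩
  · left
    linarith
  · right; left
    exact ⟨hm3, by linarith⟩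
  · rw [d] at hw
    push_cast at hw
    rcases (by omega : kc p + zc i (topOf : P → Tops P) p ≤ 1 ∨
      kc p + zc i (topOf : P → Tops P) p = 2) with h5 | h5
    · right; right; left
      have := s1 h5
      exact ⟨by linarith, by linarith⟩
    · right; right; right
      refine ⟨by linarith, by linarith, F.noHv R d ?_⟩
      intro z y s Sd hs
      rw [hpen, mem_singleton] at hs
      subst hs
      have H := F.h.g.H
      -- the pendant is full
      have hd : Disjoint (ks s) (zs i (topOf : P → Tops P) s) := by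
        rw [Finset.disjoint_left]
        intro w hw1 hw2
        rw [mem_ks] at hw1
        obtain ⟨p1, p2, y, y', D', hu', hne⟩ := Z2s_pair H F.h.split (mem_zs.1 hw2).1
        rw [hw1] at hu'
        have h1 := congrArg Finset.card hu'
        rw [card_singleton, card_pair hne] at h1
        omega
      have hz1 : z ∉ ks s := by
        intro h6
        rw [mem_ks] at h6
        have h7 := Sd.my
        rw [h6, mem_singleton] at h7
        exact Sd.ne h7
      have hz2 : z ∉ zs i (topOf : P → Tops P) s := by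
        intro h6
        obtain ⟨p1, p2, y1, y2, D', hu', hne⟩ := Z2s_pair H F.h.split (mem_zs.1 h6).1
        have h7 := Sd.my
        rw [hu', mem_insert, mem_singleton] at h7
        have h8 := Sd.cy
        rcases h7 with h7 | h7
        · rw [h7, D'.hp, card_singleton] at h8
          omega
        · rw [h7, D'.hp', card_singleton] at h8
          omega
      have h6 : insert z (ks s ∪ zs i (topOf : P → Tops P) s) ⊆ dc s := by
        intro w hw
        rw [mem_insert, mem_union] at hw
        rcases hw with rfl | hw | hw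
        · rw [mem_dc]
          refine mem_uc.1 ?_
          rw [Sd.huc]
          exact mem_insert_of_mem (mem_singleton_self _)
        · rw [mem_ks] at hw
          rw [mem_dc, ← mem_uc, hw]
          exact mem_singleton_self s
        · rw [mem_dc]
          exact mem_uc.1 (mem_zs.1 hw).2
      have h7 := card_le_card h6
      rw [card_insert_of_notMem (by rw [mem_union]; push Not; exact ⟨hz1, hz2⟩),
        card_union_of_disjoint hd] at h7
      have h8 := dc_card_le H s
      unfold kc zc at h5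
      have h9 : (ks s).card + (zs i (topOf : P → Tops P) s).card = 2 := by exact_mod_cast h5
      omega

end ClDL

end Pool.Agent.GaussPoset.EK
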