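import Pool.Agent.W_448cl_h64.ClW
import Pool.Agent.W_448cl_h64.ClM

/-!
MP_448cb3_co, G2, case B, windows `j - 1` and `j`: a row with the pattern [DL], the doubled end closed, at
least four sites: THE VALUE.  helper64.
-/

namespace Pool.Agent.GaussPoset.EK

set_option linter.unusedSectionVars false

open Finset Win St Polynomial Wd Win.W4 Win.Rc Win.Pn
open Pool.Agent.GaussPoset.Win.SO (PN vp mem_PN N1f mem_N1f N5f CQ envc chc)

universe u

variable {P : Type u} [Fintype P] [PartialOrder P] [DecidableEq P] {r i j : ℕ}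

variable {m : ℕ} {x : ℕ → P} {c : ℕ → ℤ} {β : ℤ} {t : Tops P} {lo hi : ℕ → ℕ} {e : ℕ → ℕ → P}

variable {K : Finset P} {psi : P → P} {w v : P}

/-- the late word: the open end -/
lemma ClDL.late_end (F : ClDL P r i t m x c lo hi e) (hm3 : m = 3)
    (ho : ∀ k, k ≤ 3 → x k = e (i + 1) (hi (i + 1) - k)) {a : ℕ} (ha : 3 ≤ a) (haj : a + 7 = i + 1)
    (hab : lo a = 0 ∧ hi a = 1) (hw : word lo hi a 7 = W7) :
    UE (i + 1) (Cx i t) x 2 = ∅ ∧ (uc (x 3)).card = 1 ∧ pen (x 3) = ∅ := by
  classical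
  have h := F.h
  have H := h.g.H
  have C := F.C
  subst hm3
  obtain ⟨w1, w2⟩ := word_spec hw
  obtain rfl : i = a + 6 := by omega
  have f6 : lo (a + 7) = lo (a + 6) := by
    have h5 := (w2 6 (by omega)).1
    rw [show W7[6]?.map Prod.fst = some false by decide] at h5
    have h6 := of_decide_eq_false (Option.some.inj h5).symm
    push Not at h6
    exact h6
  have f5 : lo (a + 6) = lo (a + 5) := by
    have h5 := (w2 5 (by omega)).1
    rw [show W7[5]?.map Prod.fst = some false by decide] at h5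
    have h6 := of_decide_eq_false (Option.some.inj h5).symm
    push Not at h6
    exact h6
  obtain ⟨hV, -⟩ := F.coord
  have g1 : lo (a + 6 + 1) = lo (a + 7) := rfl
  have g2 : hi (a + 6 + 1) = hi (a + 7) := rfl
  have hx3 : x 3 = e (a + 6 + 1) (lo (a + 6 + 1)) := by
    rw [ho 3 le_rfl]
    congr 1
    omega
  refine ⟨?_, ?_, ?_⟩
  · rw [eq_empty_iff_forall_notMem]
    intro z hz
    obtain ⟨-, -, h6⟩ := NJ.letters h (by omega) F.B C (n := a + 5) rfl hz
    rcases h6 with ⟨h6, -⟩ | ⟨-, h7, -, -⟩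
    · have h8 := h6 0 (by omega)
      rw [ho 0 (by omega)] at h8
      have := C.inj (a + 6 + 1) _ _ le_rfl (by omega) (by omega) (by omega) (by omega) h8
      omega
    · have h9 : lo (a + 5 + 1) = lo (a + 6) := rfl
      omega
  · rw [hx3]
    exact (C.single_up H h.g.good t.2 (k := a + 6) (by omega) le_rfl (by omega)).2 (Or.inl (by omega))
  · rw [hx3]
    exact NJ.pen_late7 h C ha (by omega) hab hw

/-- THE VALUE of a row with the pattern [DL], the doubled end closed, at least four sites -/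
theorem ClDL.main (F : ClDL P r i t m x c lo hi e) (R : Red P (i + 1) K psi)
    (S : Shape (i + 1) lo hi) : VB i K t m := by
  rcases F.pend_cases S with hN | ⟨p, u, D, hc, hU, hn⟩ |
    ⟨p, u, D, hm3, hU, hn, ho, a, a1, a2, -, a4, a5⟩
  · exact F.case1 R S hN
  · exact F.case2 R S D hc hU hn
  · obtain ⟨g1, g2, g3⟩ := F.late_end hm3 ho a1 a2 a4 a5
    exact F.case3 R D hm3 hU hn g1 g2 g3

end Pool.Agent.GaussPoset.EK
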