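import Pool.Agent.W_448cl_h64.ClX
import Pool.Agent.W_448fin_h16.FnQ

/-!
MP_448cb3_co, G2, case B, windows `j - 1` and `j`: THE LEAF `HClosed`.  helper64.
-/

namespace Pool.Agent.GaussPoset.EK

set_option linter.unusedSectionVars false

open Finset Win St Polynomial Wd Win.W4

universe u

variable {P : Type u} [Fintype P] [PartialOrder P] [DecidableEq P]

/-- THE LEAF: [DL], at least four sites, the doubled end closed -/
theorem hclosed : HClosed P := by
  intro r i K psi t m x c β lo hi e hi1 hC R B C S hm hD hu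
  obtain ⟨hb, c0, c1, c2⟩ := hD
  subst hb
  have F : ClDL P r i t m x c lo hi e := ⟨hC.nj, hi1, B, C, hm, hu, c0, c1, c2⟩
  have hV : Vt i t = Vc i t := rfl
  have hw : v3 (i + 1) t = wv (i + 1) (Cx i t) := rfl
  rw [hV, hw]
  rcases F.main R S with h | ⟨h1, h2⟩ | ⟨h1, h2⟩ | ⟨h1, h2, h3⟩
  · exact ⟨fun _ => ⟨h.le, fun _ => h⟩, fun _ => Or.inl (by linarith)⟩
  · exact ⟨fun _ => ⟨h2, fun _ => by omega⟩, fun _ => Or.inl (by linarith)⟩
  · exact ⟨fun h => by rw [h1] at h; norm_num at h, fun _ => Or.inl h2⟩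
  · exact ⟨fun h => by rw [h1] at h; norm_num at h, fun _ => Or.inr ⟨h2, h3⟩⟩

end Pool.Agent.GaussPoset.EK
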