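import Pool.Agent.W_448cl_h64.ClW

/-!
MP_448cb3_co, G2, case B: a row with the pattern [DL], the doubled end closed: an upper pendant over the last
pair; then nothing hangs below the last element.  helper64.
-/

namespace Pool.Agent.GaussPoset.EK

set_option linter.unusedSectionVars false

open Finset Win St Polynomial Wd Win.W4 Win.Rc Win.Pn
open Pool.Agent.GaussPoset.Win.SO (PN vp mem_PN N1f mem_N1f N5f CQ envc chc)

universe u

variable {P : Type u} [Fintype P] [PartialOrder P] [DecidableEq P] {r i j : ℕ}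

variable {m : ℕ} {x : ℕ → P} {c : ℕ → ℤ} {β : ℤ} {t : Tops P} {lo hi : ℕ → ℕ} {e : ℕ → ℕ → P}

variable {K : Finset P} {psi : P → P} {w v : P}

/-- the wide words with a closed end and the letters `C O` at the other end: nothing far above -/
lemma wide_fuw3 {n : ℕ} (C : Cp.Comp (n + 2) (t : P) lo hi e) (S : Shape (n + 2) lo hi)
    (hw : lo (n + 2) + 3 ≤ hi (n + 2)) :
    (lo (n + 2) = lo (n + 1) + 1 → hi (n + 1) = hi n → hi (n + 2) = hi (n + 1) + 1 →
      Wd.fuw lo hi n = 0) ∧
    ¬ (hi (n + 2) = hi (n + 1) ∧ lo (n + 1) = lo n + 1 ∧ lo (n + 2) = lo (n + 1)) := by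
  have hl : ∀ k, k < n + 2 → lo k ≤ lo (k + 1) ∧ lo (k + 1) ≤ lo k + 1 := by
    intro k hk
    have := C.lo_step k hk
    omega
  have hh : ∀ k, k < n + 2 → hi k ≤ hi (k + 1) ∧ hi (k + 1) ≤ hi k + 1 := by
    intro k hk
    have := C.hi_step k hk
    omega
  rcases S with h | ⟨h1, h2⟩ | ⟨h1, h2⟩ | ⟨h1, h2, h3⟩ | ⟨h1, h2⟩ | ⟨a, h0, h1, h2, h3, hN, h4⟩
  · have := h (n + 2) le_rfl
    omega
  · have e1 := h2.hi (n + 1) (by omega)
    have e2 := C.hi_le (k := n) (by omega)
    have e3 := h2.lo (n + 1) (by omega)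
    rw [show n + 1 + 1 = n + 2 by omega] at e1 e3
    constructor
    · intros
      omega
    · omega
  · have e4 := h2.lo (n + 1) (by omega)
    rw [show n + 1 + 1 = n + 2 by omega] at e4
    constructor
    · intro g1 g2 g3
      have e1 := h2.hi n (by omega)
      have e2 := h2.hi (n + 1) (by omega)
      have e3 := h2.hi (n + 2) (by omega)
      have St' : Stair lo hi (n + 2) := ⟨fun k hk => h2.lo k hk, h2.hi⟩
      refine St'.fuw_zero (by omega) (by omega) (fun h4 => ?_)
      have s1 := hl (n + 1) (by omega)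
      have s2 := hl n (by omega)
      have s3 := hl (n - 1) (by omega)
      have s4 := hl (n - 2) (by omega)
      have s5 := hh (n - 1) (by omega)
      have s6 := hh (n - 2) (by omega)
      rw [show n - 1 + 1 = n by omega] at s3 s5
      rw [show n - 2 + 1 = n - 1 by omega] at s4 s6
      omega
    · omega
  · have h5 : n + 2 = 3 := h1
    rw [h5] at hw
    omega
  · have h5 : n + 2 = 6 := h1
    rw [h5] at hw
    unfold F1 at h2
    omega
  · have hlo : ∀ k, k < a + (n + 2 - a) → lo (k + 1) = lo k ∨ lo (k + 1) = lo k + 1 :=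
      fun k hk => C.lo_step k (by omega)
    have hhi : ∀ k, k < a + (n + 2 - a) → hi (k + 1) = hi k ∨ hi (k + 1) = hi k + 1 :=
      fun k hk => C.hi_step k (by omega)
    have hcnt := word_count (a := a) (d := n + 2 - a) (lo := lo) (hi := hi) hlo hhi
    rw [show a + (n + 2 - a) = n + 2 by omega] at hcnt
    rcases h4 with ⟨h5, h6⟩ | h4
    · exfalso
      have h7 := Qw_hi h6 (by omega) hhi
      rw [show a + (n + 2 - a) = n + 2 by omega] at h7
      omega
    · rcases lateW_good a _ h4 with g | g | g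
      · exfalso
        omega
      · rcases Nat.eq_zero_or_pos (n + 2 - a) with h5 | h5
        · exfalso
          have : a = n + 2 := by omega
          rw [this] at h3
          omega
        · have h6 := word_last (by omega) g
          rw [show a + (n + 2 - a) = n + 2 by omega, show n + 2 - 1 = n + 1 by omega] at h6
          constructor
          · intro g1
            omega
          · omega
      · obtain ⟨w1, w2⟩ := word_spec g
        have hl7 : W7.length = 7 := rfl
        rw [hl7] at w1
        obtain rfl : n = a + 5 := by omega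
        have f6 : lo (a + 6 + 1) = lo (a + 6) := by
          have h5 := (w2 6 (by omega)).1
          rw [show W7[6]?.map Prod.fst = some false by decide] at h5
          have h6 := of_decide_eq_false (Option.some.inj h5).symm
          push Not at h6
          exact h6
        have f5 : lo (a + 5 + 1) = lo (a + 5) := by
          have h5 := (w2 5 (by omega)).1
          rw [show W7[5]?.map Prod.fst = some false by decide] at h5
          have h6 := of_decide_eq_false (Option.some.inj h5).symm
          push Not at h6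
          exact h6
        constructor
        · intro g1
          have e1 : lo (a + 5 + 2) = lo (a + 6 + 1) := rfl
          have e2 : lo (a + 5 + 1) = lo (a + 6) := rfl
          omega
        · omega

namespace ClDL

variable (F : ClDL P r i t m x c lo hi e)
include F

/-- the letters at the last pair -/
lemma letters {n : ℕ} (hn : i + 1 = n + 2) {z : P} (hz : z ∈ UE (i + 1) (Cx i t) x (m - 1)) :
    ((∀ k, k ≤ m → x k = e (i + 1) (lo (i + 1) + k)) ∧ lo (n + 2) = lo (n + 1) + 1 ∧
        hi (n + 1) = hi n ∧ hi (n + 2) = hi (n + 1) + 1) ∨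
      ((∀ k, k ≤ m → x k = e (i + 1) (hi (i + 1) - k)) ∧ hi (n + 2) = hi (n + 1) ∧
        lo (n + 1) = lo n + 1 ∧ lo (n + 2) = lo (n + 1)) := by
  classical
  obtain rfl : i = n + 1 := by omega
  have h := F.h
  have H := h.g.H
  have C := F.C
  have B := F.B
  have hm := F.hm
  have W := NJ.prow h (by omega) B (by omega)
  obtain ⟨hlen, hor⟩ := F.coord
  have s1 := C.lo_step n (by omega)
  have s2 := C.lo_step (n + 1) (by omega)
  have s3 := C.hi_step n (by omega)
  have s4 := C.hi_step (n + 1) (by omega)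
  have s5 := C.lo_le n (by omega)
  have s6 := C.lo_le (n + 1) (by omega)
  have e1 : lo (n + 1 + 1) = lo (n + 2) := rfl
  have e2 : hi (n + 1 + 1) = hi (n + 2) := rfl
  rw [e1, e2] at hlen hor
  rw [e1] at s2
  rw [e2] at s4
  have cov' : ∀ s a, lo (n + 2) ≤ s → s ≤ hi (n + 2) → lo (n + 1) ≤ a → a ≤ hi (n + 1) →
      (e (n + 2) s ⋖ e (n + 1) a ↔ a = s ∨ a + 1 = s) := fun s a => C.cov (n + 1) s a (by omega)
  obtain ⟨hzC, hzP, hzs⟩ := mem_UE.1 hz
  obtain ⟨-, u, -, -, -, -, -, hu⟩ := PN_dat H (C := Cx (n + 1) t)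
    (SO.mem_PN.2 ⟨hzC, Or.inr hzP⟩)
  rcases hu with ⟨g1, -⟩ | ⟨-, hlz, hlu, hdz, hsu, -⟩
  · have := lev_PU hzP
    have := lev_PD g1
    omega
  have hux2 : x (m - 1) ⋖ u := by
    rw [← mem_dc, ← hsu, hzs]
    exact (W.mem_ed (by omega) (by omega)).2 (Or.inl rfl)
  have hux3 : x m ⋖ u := by
    rw [← mem_dc, ← hsu, hzs]
    exact (W.mem_ed (by omega) (by omega)).2 (Or.inr (by omega))
  have huz : u ⋖ z := by rw [← mem_dc, hdz]; exact mem_singleton_self u
  have hx2t : x m ≤ (t : P) := by
    rw [← B.row.kap m (by omega)]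
    exact le_topOf (x m)
  have hut : u ≤ (t : P) := Cp.up_le H h.g.good t.2 hx2t
    (by have := B.row.lev_x m (by omega); omega) hux3.le
  have hzt : z ≤ (t : P) := Cp.up_le H h.g.good t.2 hut (by omega) huz.le
  obtain ⟨a, a1, a2, a3⟩ := C.surj u hut (by omega)
  obtain ⟨b, b1, b2, b3⟩ := C.surj z hzt (by omega)
  have lu : lev u = n + 1 := by omega
  have lz : lev z = n := by omega
  rw [lu] at a1 a2 a3
  rw [lz] at b1 b2 b3
  subst a3
  subst b3
  have hzd := (C.single_down H (k := n) (by omega) b1 b2).1 (lev_PU hzP).2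
  have hcz := (C.cov n a b (by omega) a1 a2 b1 b2).1 huz
  rcases hor with ⟨o1, hor⟩ | ⟨o1, hor⟩
  · left
    have h2 := hor (m - 1) (by omega)
    have h3 := hor m le_rfl
    rw [h2] at hux2
    rw [h3] at hux3
    have c2 := (cov' _ a (by omega) (by omega) a1 a2).1 hux2
    have c3 := (cov' _ a (by omega) (by omega) a1 a2).1 hux3
    exact ⟨hor, o1, by omega, by omega⟩
  · right
    have h2 := hor (m - 1) (by omega)
    have h3 := hor m le_rfl
    rw [h2] at hux2
    rw [h3] at hux3
    have c2 := (cov' _ a (by omega) (by omega) a1 a2).1 hux2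
    have c3 := (cov' _ a (by omega) (by omega) a1 a2).1 hux3
    exact ⟨hor, o1, by omega, by omega⟩

/-- an upper pendant over the last pair: nothing hangs below the last element -/
theorem pen_last (S : Shape (i + 1) lo hi) (hU : UE (i + 1) (Cx i t) x (m - 1) ≠ ∅) :
    pen (x m) = ∅ := by
  classical
  have h := F.h
  have C := F.C
  have hm := F.hm
  obtain ⟨n, hn⟩ : ∃ n, i + 1 = n + 2 := ⟨i - 1, by have := F.hi1; omega⟩
  obtain ⟨z, hz⟩ := nonempty_iff_ne_empty.2 hU
  have hor := F.letters hn hz
  obtain rfl : i = n + 1 := by omega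
  obtain ⟨hlen, -⟩ := F.coord
  have e1 : lo (n + 1 + 1) = lo (n + 2) := rfl
  have e2 : hi (n + 1 + 1) = hi (n + 2) := rfl
  rw [e1, e2] at hlen
  obtain ⟨w1, w2⟩ := wide_fuw3 C S (by omega)
  rcases hor with ⟨hor, q0, q1, q2⟩ | ⟨-, q0, q1, q2⟩
  · have h3 := hor m le_rfl
    have hf := w1 q0 q1 q2
    have hb := F.big
    have s1 := C.lo_step n (by omega)
    have s3 := C.hi_step n (by omega)
    have hn1 : 1 ≤ n := by
      have f1 := C.hi_le (k := n + 1) (by omega)
      omega
    have hc := NJ.chain h (i := n) hn1 le_rfl C (by omega)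
    rw [hf] at hc
    have hpd : Wd.pdR lo hi n := ⟨q1, q2, by omega⟩
    rw [if_pos hpd] at hc
    have e3 : e (n + 1 + 1) = e (n + 2) := rfl
    rw [h3, e1, ← hlen, e3]
    exact card_eq_zero.1 (by omega)
  · exact absurd ⟨q0, q1, q2⟩ w2

end ClDL

end Pool.Agent.GaussPoset.EK
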