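import Pool.Agent.W_448cl_h64.CmA

/-!
MP_448cb3_co, G2, case B: a row with the pattern [DL], the doubled end closed, five sites, no private child
of the last double: a light join.  helper64.
-/

namespace Pool.Agent.GaussPoset.Win.W4

set_option linter.unusedSectionVars false

open Finset
open Pool.Agent.GaussPoset.Win.SO (PN vp con on mem_PN vp_PD vp_PU)

universe u

variable {P : Type u} [Fintype P] [PartialOrder P] [DecidableEq P] {r i : ℕ}
variable {psi : P → P} {C K : Finset P} {w v : P} {m : ℕ} {x : ℕ → P}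

/-- at least five sites, two private children of the double over `x 2`, `x 3`: the sharp bound -/
theorem DLg.Ow_two (h : DLg r i K psi C w v m x) (hm4 : 4 ≤ m) (hu : (uc (x 0)).card = 2)
    (hl : -1 ≤ NE i C x (m - 1)) {n : ℤ} (hn : 2 * n ≤ OCs i C w v)
    (hd : (DE i C x 2).card = 2) :
    4 * n - 9 ≤ Ow i C ∨ (m = 4 ∧ NE i C x 3 = -1 ∧ 4 * n - 10 ≤ Ow i C) := by
  have hU2 := h.W.ue_inner (k := 2) (by omega) (by omega)
  have h3 := h.TUs_le hm4
  have h5 := h.NE0_sq hu
  have hpos : ∀ k, 3 ≤ k → k + 1 < m → 0 ≤ NE i C x k := fun k hk hk' =>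
    h.NE_nonneg (by omega) (by omega)
  have q1 := RS_nonneg (NE i C x) (t := m) (m - 3) 3 (by omega) hpos (fun _ => hl)
  have q3 := RS_add (NE i C x) (s := 3) (t := m) (by omega) hpos hl
  have e2 : NE i C x 2 = 2 := by
    unfold NE
    rw [hU2, card_empty, hd]
    norm_num
  have t1 : ((TUs i C x).card : ℤ) ≤ 1 := by exact_mod_cast h3
  have t2 : (0 : ℤ) ≤ ((TLs i C x).card : ℤ) := by positivity
  have key : 4 * n - 9 + (RS (NE i C x) 3 m + 4 * NE i C x 3) ≤ Ow i C := by
    rw [h.Ow_form4 hm4 hu, h.Zs_eq hm4, e2]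
    rcases h.CH2_num with ⟨d, c⟩ | ⟨d, c⟩ | ⟨d, c⟩
    · omega
    · omega
    · linarith
  by_cases hA : 0 ≤ NE i C x 3
  · left
    rcases Nat.lt_or_ge 4 m with h6 | h6
    · linarith
    · obtain rfl : m = 4 := by omega
      rw [RS_bot (NE i C x) (by norm_num : 3 < 4), if_neg (by norm_num), RS_self] at key
      nlinarith
  · right
    have h6 : m = 4 := by
      by_contra hne
      exact hA (hpos 3 le_rfl (by omega))
    subst h6
    have h7 : NE i C x 3 = -1 := by
      have : -1 ≤ NE i C x 3 := hl
      omega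
    refine ⟨rfl, h7, ?_⟩
    rw [RS_bot (NE i C x) (by norm_num : 3 < 4), if_neg (by norm_num), RS_self, h7] at key
    linarith

end Pool.Agent.GaussPoset.Win.W4

namespace Pool.Agent.GaussPoset.EK

set_option linter.unusedSectionVars false

open Finset Win St Polynomial Wd Win.W4 Win.Rc Win.Pn
open Pool.Agent.GaussPoset.Win.SO (PN vp mem_PN N1f mem_N1f N5f CQ envc chc)

universe u

variable {P : Type u} [Fintype P] [PartialOrder P] [DecidableEq P] {r i j : ℕ}

variable {m : ℕ} {x : ℕ → P} {c : ℕ → ℤ} {β : ℤ} {t : Tops P} {lo hi : ℕ → ℕ} {e : ℕ → ℕ → P}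

variable {K : Finset P} {psi : P → P} {w v : P}

/-- a light join at a double of the part -/
def LJ (i : ℕ) (K : Finset P) (t : Tops P) : Prop :=
  ∃ z y v : P, K2.SD (i + 1) (topOf : P → Tops P) z y v ∧ topOf y = t ∧
    sa (i + 1) (topOf : P → Tops P) K (uc y) (topOf y) = 0 ∧
    z ∉ So.N5s i (topOf : P → Tops P)

/-- the doubles over the same pair which is joined once are equal -/
lemma dbl_uniq {k l : P} (hd : dcv k l = 1) {y y' : P} (hy : uc y = {k, l})
    (hy' : uc y' = {k, l}) : y = y' := by
  classical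
  unfold dcv at hd
  obtain ⟨y0, h9⟩ := card_eq_one.1 hd
  have key : ∀ y : P, uc y = {k, l} → y = y0 := by
    intro y hy
    have e1 : y ∈ ({y0} : Finset P) := by
      rw [← h9, mem_filter]
      refine ⟨mem_univ _, mem_uc.1 ?_, mem_uc.1 ?_⟩
      · rw [hy]; exact mem_insert_self _ _
      · rw [hy]; exact mem_insert_of_mem (mem_singleton_self _)
    rwa [mem_singleton] at e1
  rw [key y hy, key y' hy']

/-- the private children over a pair which is joined once -/
lemma de_uc {C : Finset P} (H : Gr P r) {k : ℕ} (hd : dcv (x k) (x (k + 1)) = 1) {y : P}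
    (hy : uc y = {x k, x (k + 1)}) {a : P} (ha : a ∈ DE i C x k) : uc a = {y} := by
  classical
  obtain ⟨-, h1, h2⟩ := mem_DE.1 ha
  obtain ⟨l1, l2, y', h3, h4⟩ := mem_PD.1 h1
  obtain ⟨y'', h5⟩ := card_eq_one.1 l2
  have h6 : y' = y'' := by
    have := mem_uc.2 h3
    rw [h5, mem_singleton] at this
    exact this
  subst h6
  have h7 : uc y' = ed x k := by rw [← SO.sit_PD H l1 h5, h2]
  rw [h5, dbl_uniq hd (y := y') (y' := y) h7 hy]

lemma three_dc (H : Gr P r) {y a b z : P} (ha : a ⋖ y) (hb : b ⋖ y) (hz : z ⋖ y) (hab : a ≠ b)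
    (haz : a ≠ z) (hbz : b ≠ z) : False := by
  classical
  have hsub : ({a, b, z} : Finset P) ⊆ dc y := by
    intro q hq
    rw [mem_insert, mem_insert, mem_singleton] at hq
    rcases hq with rfl | rfl | rfl
    · exact mem_dc.2 ha
    · exact mem_dc.2 hb
    · exact mem_dc.2 hz
  have h1 := card_le_card hsub
  have h2 := dc_card_le H y
  rw [card_insert_of_notMem, card_pair hbz] at h1
  · omega
  · rw [mem_insert, mem_singleton]
    push Not
    exact ⟨hab, haz⟩

namespace ClDL

variable (F : ClDL P r i t m x c lo hi e)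
include F

/-- five sites, two private children of the double over `x 2`, `x 3`, an upper pendant over the last pair
and no private child there: a light join at the last double -/
theorem light4 (R : Red P (i + 1) K psi) (S : Shape (i + 1) lo hi) (hm4 : m = 4)
    (hd : (DE (i + 1) (Cx i t) x 2).card = 2) (h3 : NE (i + 1) (Cx i t) x 3 = -1) : LJ i K t := by
  classical
  obtain ⟨w, v, D⟩ := F.dlg R
  have h := F.h
  have H := h.g.H
  subst hm4
  have hj : 2 ≤ i + 1 := by have := F.hi1; omega
  -- the numbers over the last pair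
  have hU1 := D.W.UE_one (i := i + 1) (C := Cx i t) 3
  have hU : UE (i + 1) (Cx i t) x (4 - 1) ≠ ∅ := by
    intro h0
    have h0' : UE (i + 1) (Cx i t) x 3 = ∅ := h0
    unfold NE at h3
    rw [h0', card_empty] at h3
    push_cast at h3
    omega
  have hDE3 : DE (i + 1) (Cx i t) x 3 = ∅ := by
    unfold NE at h3
    rw [← card_eq_zero]
    omega
  have hpl := F.pen_last S hU
  have hx4 : (uc (x 4)).card = 1 := by
    rcases D.W.uc_le (k := 4) le_rfl with h6 | h6
    · exact h6
    · exact absurd (D.W.ue_last (by omega) h6) hU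
  -- the doubles
  have d23 : dcv (x 2) (x (2 + 1)) = 1 := by
    have := D.dn 2 3 (by omega) (by omega)
    norm_num at this
    exact this
  have d34 : dcv (x 3) (x (3 + 1)) = 1 := by
    have := D.dn 3 4 (by omega) (by omega)
    norm_num at this
    exact this
  have hne : ∀ a b, a ≤ 4 → b ≤ 4 → a ≠ b → x a ≠ x b := fun a b ha hb hab => D.W.ne ha hb hab
  have mk : ∀ k, k < 4 → dcv (x k) (x (k + 1)) = 1 → ∃ y, uc y = {x k, x (k + 1)} := by
    intro k hk hd1
    unfold dcv at hd1
    obtain ⟨y, hy⟩ := card_eq_one.1 hd1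
    have hy' : y ∈ univ.filter (fun y => y ⋖ x k ∧ y ⋖ x (k + 1)) := by
      rw [hy]; exact mem_singleton_self y
    rw [mem_filter] at hy'
    refine ⟨y, (eq_of_subset_of_card_le ?_ ?_).symm⟩
    · intro s hs
      rw [mem_insert, mem_singleton] at hs
      rcases hs with rfl | rfl
      · exact mem_uc.2 hy'.2.1
      · exact mem_uc.2 hy'.2.2
    · rw [card_pair (hne _ _ (by omega) (by omega) (by omega))]
      exact uc_card_le H _
  obtain ⟨y2, hy2⟩ := mk 2 (by omega) d23
  obtain ⟨y3, hy3⟩ := mk 3 (by omega) d34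
  have l3 : lev y3 = i + 2 := by
    have := lev_uc H (show x 3 ∈ uc y3 by rw [hy3]; exact mem_insert_self _ _)
    have := F.B.row.lev_x 3 (by omega)
    omega
  have t3 : topOf y3 = t := by
    have h1 := h.split (x := y3) (y := x 3) (mem_uc.1 (by rw [hy3]; exact mem_insert_self _ _))
      (by omega)
    rw [h1]
    exact F.B.row.kap 3 (by omega)
  obtain ⟨a, b, hab, he⟩ := card_eq_two.1 hd
  have ua : uc a = {y2} := de_uc H d23 hy2 (by rw [he]; exact mem_insert_self _ _)
  have ub : uc b = {y2} := de_uc H d23 hy2 (by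
    rw [he]; exact mem_insert_of_mem (mem_singleton_self _))
  have ca : a ⋖ y2 := mem_uc.1 (by rw [ua]; exact mem_singleton_self _)
  have cb : b ⋖ y2 := mem_uc.1 (by rw [ub]; exact mem_singleton_self _)
  have l2 : lev y2 = i + 2 := by
    have := lev_uc H (show x 2 ∈ uc y2 by rw [hy2]; exact mem_insert_self _ _)
    have := F.B.row.lev_x 2 (by omega)
    omega
  have hr3 : i + 3 ≤ r := by
    have h1 := lev_cov H ca
    have h2 := H.hr a
    omega
  have y23 : y2 ≠ y3 := by
    rintro rfl
    have h1 : x 2 ∈ ({x 3, x (3 + 1)} : Finset P) := by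
      rw [← hy3, hy2]; exact mem_insert_self _ _
    rw [mem_insert, mem_singleton] at h1
    rcases h1 with h1 | h1
    · exact hne 2 3 (by omega) (by omega) (by omega) h1
    · exact hne 2 4 (by omega) (by omega) (by omega) h1
  -- the child
  obtain ⟨z, hz⟩ := dc_nonempty H (x := y3) (by omega)
  rw [mem_dc] at hz
  have lz := lev_cov H hz
  have hz1 : (uc z).card ≠ 1 := by
    intro h1
    obtain ⟨q, hq⟩ := card_eq_one.1 h1
    have h2 := mem_uc.2 hz
    rw [hq, mem_singleton] at h2
    subst h2
    have h4 : z ∈ DE (i + 1) (Cx i t) x 3 := by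
      refine mem_DE.2 ⟨?_, ?_, ?_⟩
      · unfold Cx
        rw [mem_cext]
        intro p hp hlp
        rcases eq_or_lt_of_le hp with h5 | h5
        · rw [← h5] at hlp
          omega
        · obtain ⟨p', hp', hp2⟩ := Hul.exists_cov h5
          rw [← mem_uc, hq, mem_singleton] at hp'
          subst hp'
          rw [← t3]
          exact (Split.le (l := i + 1 + 1) (κ := (topOf : P → Tops P)) h.split _ hp2
            (by omega)).symm
      · rw [mem_PD]
        exact ⟨by omega, h1, y3, hz, by rw [hy3, card_pair (hne _ _ (by omega) (by omega)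
          (by omega))]⟩
      · rw [SO.sit_PD H (by omega) hq, hy3]
        rfl
    rw [hDE3] at h4
    exact absurd h4 (notMem_empty _)
  have hz2 : (uc z).card = 2 := by
    rcases uc_card_cases H (x := z) (by omega) with h1 | h1
    · exact absurd h1 hz1
    · exact h1
  obtain ⟨s, hs⟩ : ∃ s, uc z = {y3, s} ∧ y3 ≠ s := by
    obtain ⟨p, q, hpq, hpq2⟩ := card_eq_two.1 hz2
    have h1 := mem_uc.2 hz
    rw [hpq2, mem_insert, mem_singleton] at h1
    rcases h1 with rfl | rfl
    · exact ⟨q, hpq2, hpq⟩
    · exact ⟨p, by rw [hpq2, pair_comm], hpq.symm⟩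
  obtain ⟨hs, hs3⟩ := hs
  have zs : z ⋖ s := mem_uc.1 (by rw [hs]; exact mem_insert_of_mem (mem_singleton_self _))
  have ls : lev s = i + 2 := by have := lev_cov H zs; omega
  -- nothing else below `x 3`
  have hc32 : y2 ⋖ x 3 := mem_uc.1 (by rw [hy2]; exact mem_insert_of_mem (mem_singleton_self _))
  have hc33 : y3 ⋖ x 3 := mem_uc.1 (by rw [hy3]; exact mem_insert_self _ _)
  have hs2 : s ≠ y2 := by
    rintro rfl
    have haz : a ≠ z := by
      rintro rfl
      rw [ua] at hz2
      rw [card_singleton] at hz2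
      omega
    have hbz : b ≠ z := by
      rintro rfl
      rw [ub] at hz2
      rw [card_singleton] at hz2
      omega
    exact three_dc H ca cb zs hab haz hbz
  have hsx3 : ¬ s ⋖ x 3 := fun hsx => three_dc H hc32 hc33 hsx y23 hs2.symm hs3
  -- the other cover is single
  have cs : (uc s).card = 1 := by
    rcases uc_card_cases H (x := s) (by omega) with h1 | h1
    · exact h1
    · exfalso
      obtain ⟨p, hp1, hp2⟩ := NJ.noQ h hj z (by omega) y3 (mem_uc.2 hz) s (mem_uc.2 zs) hs3
        (by rw [hy3, card_pair (hne _ _ (by omega) (by omega) (by omega))]) h1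
      rw [hy3, mem_insert, mem_singleton] at hp1
      rcases hp1 with rfl | rfl
      · exact hsx3 (mem_uc.1 hp2)
      · have ts : topOf s = t := by
          have h2 := h.split (x := s) (y := x (3 + 1)) (mem_uc.1 hp2) (by omega)
          rw [h2]
          exact F.B.row.kap 4 (by omega)
        obtain ⟨k, hk, hk1, huk⟩ := dl_double h D ls h1 ts
        rw [huk, mem_insert, mem_singleton] at hp2
        have hk3 : k = 3 := by
          rcases hp2 with h2 | h2
          · by_contra hne3
            exact hne 4 k (by omega) (by omega) (by omega) h2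
          · by_contra hne3
            exact hne 4 (k + 1) (by omega) (by omega) (by omega) h2
        subst hk3
        exact hs3 (dbl_uniq d34 hy3 huk)
  obtain ⟨q, hq⟩ := card_eq_one.1 cs
  have sq : s ⋖ q := mem_uc.1 (by rw [hq]; exact mem_singleton_self q)
  -- the other cover is outside
  have ts : topOf s ≠ t := by
    intro ts
    have tq : topOf q = t := by
      rw [← ts]
      exact (h.split sq (by omega)).symm
    obtain ⟨k, hk, rfl⟩ : ∃ k, k ≤ 4 ∧ x k = q :=
      D.W.surj q (mem_cext_of_le h.split (by have := lev_cov H sq; omega) tq)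
        (by have := lev_cov H sq; omega)
    have hmem : s ∈ pen (x k) := mem_pen.2 ⟨sq, cs⟩
    have hk5 : k ≤ 1 ∨ k = 2 ∨ k = 3 ∨ k = 4 := by omega
    rcases hk5 with h1 | rfl | rfl | rfl
    · rw [dl_pen01 D h1] at hmem
      exact absurd hmem (notMem_empty _)
    · rw [D.W.pen0 2 le_rfl (by omega)] at hmem
      exact absurd hmem (notMem_empty _)
    · exact hsx3 sq
    · rw [hpl] at hmem
      exact absurd hmem (notMem_empty _)
  have Sd : K2.SD (i + 1) (topOf : P → Tops P) z y3 s :=
    ⟨by omega, hs, fun h1 => ts (by rw [← h1]; exact t3),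
      by rw [hy3, card_pair (hne _ _ (by omega) (by omega) (by omega))], cs⟩
  refine ⟨z, y3, s, Sd, t3, ?_, ?_⟩
  · have hd0 : Disjoint ({x 0, x 1} : Finset P) (uc y3) := by
      rw [hy3, disjoint_insert_left, disjoint_singleton_left, mem_insert, mem_singleton,
        mem_insert, mem_singleton]
      push Not
      exact ⟨⟨hne _ _ (by omega) (by omega) (by omega), hne _ _ (by omega) (by omega) (by omega)⟩,
        hne _ _ (by omega) (by omega) (by omega), hne _ _ (by omega) (by omega) (by omega)⟩
    have hd1 : Disjoint ({x 1, x 2} : Finset P) (uc y3) := by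
      rw [hy3, disjoint_insert_left, disjoint_singleton_left, mem_insert, mem_singleton,
        mem_insert, mem_singleton]
      push Not
      exact ⟨⟨hne _ _ (by omega) (by omega) (by omega), hne _ _ (by omega) (by omega) (by omega)⟩,
        hne _ _ (by omega) (by omega) (by omega), hne _ _ (by omega) (by omega) (by omega)⟩
    rw [t3, fg_sa h R D.Q, D.hw, D.hv, if_pos hd0, if_pos hd1]
    norm_num
  · intro hz5
    obtain ⟨-, -, -, h5⟩ := So.mem_N5s.1 hz5
    have hD : So.CrV i (topOf : P → Tops P) z y3 s := ⟨Sd.lz, Sd.huc, Sd.hk⟩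
    rw [So.up_eq] at h5
    have h6 : (lv P i).filter (fun p => z < p) ⊆ uc (x 3) ∪ uc q := by
      intro p hp
      rw [mem_filter, mem_lv] at hp
      obtain ⟨b, hb, hp2⟩ := (hD.mem0 H).1 hp
      rw [hy3, hq, mem_union, mem_insert, mem_singleton, mem_singleton] at hb
      rw [mem_union]
      rcases hb with (rfl | rfl) | rfl
      · exact Or.inl hp2
      · left
        have h7 := D.W.up 3 4 (by omega) (by omega)
        rw [if_pos rfl] at h7
        unfold ucv at h7
        obtain ⟨u, hu⟩ := card_pos.1 (by rw [h7]; norm_num)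
        rw [mem_filter] at hu
        obtain ⟨u', hu'⟩ := card_eq_one.1 hx4
        have h8 := mem_uc.2 hu.2.2
        have hp3 : p ∈ uc (x 4) := hp2
        rw [hu', mem_singleton] at h8 hp3
        rw [hp3, ← h8]
        exact mem_uc.2 hu.2.1
      · exact Or.inr hp2
    have h7 := card_le_card h6
    have h8 := card_union_le (uc (x 3)) (uc q)
    have h9 := uc_card_le H (x 3)
    have h10 := uc_card_le H q
    omega

end ClDL

end Pool.Agent.GaussPoset.EK
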