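import Pool.Agent.W_448cl_h64.CmB

/-!
MP_448cb3_co, G2, case B, step 0 (weights `W1`): a row with the pattern [DL], the doubled end closed, at least
four sites.  helper64.
-/

namespace Pool.Agent.GaussPoset.EK

set_option linter.unusedSectionVars false

open Finset Win St Polynomial Wd Win.W4 Win.Rc Win.Pn
open Pool.Agent.GaussPoset.Win.SO (PN vp mem_PN N1f mem_N1f N5f CQ envc chc)

universe u

variable {P : Type u} [Fintype P] [PartialOrder P] [DecidableEq P] {r i j : ℕ}

variable {m : ℕ} {x : ℕ → P} {c : ℕ → ℤ} {β : ℤ} {t : Tops P} {lo hi : ℕ → ℕ} {e : ℕ → ℕ → P}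

variable {K : Finset P} {psi : P → P} {w v : P}

/-- the value for step 0 -/
noncomputable def Qc (i : ℕ) (t : Tops P) : ℤ :=
  Vc i t + 2 * wv (i + 1) (Cx i t) + 4 * wv (i + 1) (Cx i t) ^ 2

/-- the bound of step 0 -/
def QB (i : ℕ) (K : Finset P) (t : Tops P) : Prop := 0 ≤ Qc i t ∨ (-8 ≤ Qc i t ∧ LJ i K t)

lemma Qc_ge (i : ℕ) (t : Tops P) : Vc i t ≤ Qc i t := by
  unfold Qc
  have : 0 ≤ 2 * wv (i + 1) (Cx i t) + 4 * wv (i + 1) (Cx i t) ^ 2 := by
    rcases le_or_gt 0 (wv (i + 1) (Cx i t)) with h | h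
    · positivity
    · nlinarith
  linarith

lemma Qc_one {i : ℕ} {t : Tops P} (h : wv (i + 1) (Cx i t) = 1) : Qc i t = Vc i t + 6 := by
  unfold Qc
  rw [h]
  ring

namespace ClDL

variable (F : ClDL P r i t m x c lo hi e)
include F

theorem fin4Q (R : Red P (i + 1) K psi) (S : Shape (i + 1) lo hi) (h4 : 4 ≤ m)
    (hV : 4 + 2 * (2 * n1 i (SS i t) - 4 * n5 i (SS i t) + Ow (i + 1) (Cx i t)) ≤ Vc i t) :
    QB i K t := by
  obtain ⟨w, v, D⟩ := F.dlg R
  obtain ⟨hw, h5⟩ := F.win4 h4
  have hQ := Qc_ge i t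
  rcases h5 with ⟨d, g⟩ | ⟨d, g⟩ | ⟨d, g⟩
  · left
    linarith
  · left
    linarith
  · rw [d] at hw
    push_cast at hw
    have hq := Qc_one (i := i) (t := t) (by linarith)
    have hn := F.n1_ge h4
    rw [d] at hn
    push_cast at hn
    have h5 := F.n5_le4 D
    have hl : -1 ≤ NE (i + 1) (Cx i t) x (m - 1) := by
      unfold NE
      have := D.W.UE_one (i := i + 1) (C := Cx i t) (m - 1)
      have h6 : ((UE (i + 1) (Cx i t) x (m - 1)).card : ℤ) ≤ 1 := by exact_mod_cast this
      have h7 := Int.natCast_nonneg (DE (i + 1) (Cx i t) x (m - 1)).card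
      linarith
    rcases D.Ow_two h4 F.hu hl h5 d with g' | ⟨hm4, h3, g'⟩
    · left
      linarith
    · right
      refine ⟨by linarith, F.light4 R S hm4 d h3⟩

theorem fin3Q (S : Shape (i + 1) lo hi) (hm3 : m = 3) (hp : pen (x 2) = ∅)
    (h3 : (uc (x 3)).card = 2 → (pen (x 3)).card ≤ 1) (hV : 4 + 2 * (2 * n1 i (SS i t) -
    4 * n5 i (SS i t) + Ow (i + 1) (Cx i t)) ≤ Vc i t) : QB i K t := by
  have hQ := Qc_ge i t
  rcases F.win3 S hm3 hp h3 with g | ⟨g1, -, g2⟩
  · left
    linarith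
  · left
    rw [Qc_one g1]
    linarith

/-- no pendants -/
theorem case1Q (R : Red P (i + 1) K psi) (S : Shape (i + 1) lo hi)
    (hN : ∀ q ∈ SS i t, q ∉ PD P i ∧ q ∉ PU P i) : QB i K t := by
  classical
  have hm := F.hm
  obtain ⟨f1, f2, f3⟩ := F.none_vals hN
  have h0 := F.own_ge (q := 0) (by omega) (by
    intro z hz
    rw [f1, f2] at hz
    simp at hz)
  have ha : fa i (SS i t) = 0 := by
    unfold fa
    rw [f1, f2]
    simp
  have hf : fm i (SS i t) x 0 = 0 := by
    unfold fm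
    rw [f1, f2]
    simp
  rw [ha, hf, if_neg (by omega)] at h0
  have hV : 4 + 2 * (2 * n1 i (SS i t) - 4 * n5 i (SS i t) + Ow (i + 1) (Cx i t)) ≤ Vc i t := by
    unfold Vc
    rw [f3, sum_empty]
    linarith
  rcases Nat.lt_or_ge 3 m with h4 | h4
  · exact F.fin4Q R S h4 hV
  · have hm3 : m = 3 := by omega
    refine F.fin3Q S hm3 ?_ ?_ hV
    · rw [eq_empty_iff_forall_notMem]
      intro q hq
      obtain ⟨g1, g2, -⟩ := F.pen_PD (by omega) (F.inner2 (by omega)) hq
      exact (hN q g1).1 g2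
    · intro hc
      have : pen (x 3) = ∅ := by
        rw [eq_empty_iff_forall_notMem]
        intro q hq
        obtain ⟨g1, g2, -⟩ := F.pen_PD (by omega) hc hq
        exact (hN q g1).1 g2
      rw [this, card_empty]
      omega

/-- a pendant below the closed other end -/
theorem case2Q (R : Red P (i + 1) K psi) (S : Shape (i + 1) lo hi) {p u : P}
    (D : PdC i t lo hi e (x m) p u) (hU : FU' i (SS i t) = ∅)
    (hn : nn i p ≤ 4) : QB i K t := by
  classical
  have hm := F.hm
  obtain ⟨f1, f2, f3⟩ := F.one_vals D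
  obtain ⟨k0, z0, kz, ks2⟩ := F.pd_num p
  have h0 := F.own_ge (q := m) le_rfl f2
  have ha : fa i (SS i t) = kc p := by
    unfold fa kc
    rw [f1, hU, card_empty]
    push_cast
    ring
  have hf : fm i (SS i t) x 0 = 0 := by
    obtain ⟨w, v, Dl⟩ := F.dlg R
    have h1 : (FL i (SS i t)).filter (fun z => ¬ Disjoint (sit i z) (se x 0)) = ∅ := by
      rw [eq_empty_iff_forall_notMem]
      intro z hz
      rw [mem_filter] at hz
      obtain ⟨hz1, hz2⟩ := hz
      apply hz2
      rw [f2 z (Or.inl hz1), disjoint_left]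
      intro s hs hs2
      have key : ∀ k, k + 1 < m → s ∈ uc (x k) → False := by
        intro k hk hsk
        have h3 := Dl.W.up k m (by omega) le_rfl
        rw [if_neg (by omega)] at h3
        unfold ucv at h3
        rw [card_eq_zero] at h3
        have h4 : s ∈ univ.filter (fun q => x k ⋖ q ∧ x m ⋖ q) :=
          mem_filter.2 ⟨mem_univ _, mem_uc.1 hsk, mem_uc.1 hs⟩
        rw [h3] at h4
        exact absurd h4 (notMem_empty _)
      unfold se at hs2
      rw [mem_union] at hs2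
      rcases hs2 with h5 | h5
      · exact key 0 (by omega) h5
      · exact key 1 (by omega) h5
    unfold fm
    rw [h1, hU]
    simp
  have hs := F.shr_closed D hU hn
  have hV : 4 + 2 * (2 * n1 i (SS i t) - 4 * n5 i (SS i t) + Ow (i + 1) (Cx i t)) ≤ Vc i t := by
    unfold Vc
    rw [f3, sum_singleton]
    rw [ha, hf] at h0
    have h1 : 0 ≤ 2 * (if m = 3 then kc p else 0) := by
      split_ifs
      · linarith
      · norm_num
    have h2 : 0 ≤ kc p ^ 2 - kc p := by
      have : kc p ≤ 2 := by linarith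
      generalize kc p = k at *
      interval_cases k <;> norm_num
    linarith
  rcases Nat.lt_or_ge 3 m with h4 | h4
  · exact F.fin4Q R S h4 hV
  · have hm3 : m = 3 := by omega
    have hx3 : x m = x 3 := by rw [hm3]
    refine F.fin3Q S hm3 ?_ ?_ hV
    · rw [eq_empty_iff_forall_notMem]
      intro q hq
      obtain ⟨g1, g2, g3⟩ := F.pen_PD (by omega) (F.inner2 (by omega)) hq
      have h5 := D.low q g1 g2
      rw [h5, D.up] at g3
      exact F.xne (by omega) (by omega) (by omega) (singleton_injective g3 : x m = x 2)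
    · intro hc
      have : pen (x 3) ⊆ {p} := by
        intro q hq
        obtain ⟨g1, g2, -⟩ := F.pen_PD (by omega) hc hq
        rw [mem_singleton]
        exact D.low q g1 g2
      have h6 := card_le_card this
      rwa [card_singleton] at h6

/-- everything but the late word -/
theorem mainQ (R : Red P (i + 1) K psi) (S : Shape (i + 1) lo hi) : QB i K t ∨
    (∃ p u, PdC i t lo hi e (x 2) p u ∧ m = 3 ∧ FU' i (SS i t) = ∅ ∧ nn i p ≤ 5 ∧
      (∀ k, k ≤ 3 → x k = e (i + 1) (hi (i + 1) - k)) ∧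
      ∃ a, 3 ≤ a ∧ a + 7 = i + 1 ∧ (∀ k, k < a → lo k = 0 ∧ hi k = 0) ∧ (lo a = 0 ∧ hi a = 1) ∧
        word lo hi a 7 = W7) := by
  rcases F.pend_cases S with hN | ⟨p, u, D, hc, hU, hn⟩ | h3
  · exact Or.inl (F.case1Q R S hN)
  · exact Or.inl (F.case2Q R S D hU hn)
  · exact Or.inr h3

end ClDL

end Pool.Agent.GaussPoset.EK
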