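import Pool.Agent.W_448cl_h64.CmC

/-!
MP_448cb3_co, G2, case B, step 0 (weights `W1`): a row with the pattern [DL], the doubled end closed, at
least four sites, `i + 1 ≠ 13`: the closed late word occurs only for `a = 6`.  helper64.
-/

namespace Pool.Agent.GaussPoset.EK

set_option linter.unusedSectionVars false

open Finset Win St Polynomial Wd Win.W4 Win.Rc Win.Pn

universe u

variable {P : Type u} [Fintype P] [PartialOrder P] [DecidableEq P] {r i j : ℕ}

variable {m : ℕ} {x : ℕ → P} {c : ℕ → ℤ} {β : ℤ} {t : Tops P} {lo hi : ℕ → ℕ} {e : ℕ → ℕ → P}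

variable {K : Finset P} {psi : P → P}

/-- the closed late word occurs only for `a = 6` -/
lemma w7_six {a : ℕ} (h : W7 ∈ lateW a) : a = 6 := by
  unfold lateW at h
  simp only [List.mem_append] at h
  rcases h with ((((((h | h) | h) | h) | h) | h) | h) | h
  · exact absurd h (by decide +kernel)
  · split_ifs at h
    · exact absurd h (by decide +kernel)
    · exact absurd h (by decide +kernel)
  · split_ifs at h
    · exact absurd h (by decide +kernel)
    · exact absurd h List.not_mem_nil
  · split_ifs at h
    · exact absurd h (by decide +kernel)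
    · exact absurd h List.not_mem_nil
  · split_ifs at h
    · exact absurd h (by decide +kernel)
    · exact absurd h List.not_mem_nil
  · split_ifs at h
    · exact absurd h (by decide +kernel)
    · exact absurd h List.not_mem_nil
  · split_ifs at h with h6
    · exact h6
    · exact absurd h List.not_mem_nil
  · split_ifs at h
    · exact absurd h (by decide +kernel)
    · exact absurd h List.not_mem_nil

/-- the closed late word in a shape -/
lemma shape_w7 {a n : ℕ} (S : Shape n lo hi) (ha : 3 ≤ a) (hn : a + 7 = n)
    (h0 : ∀ k, k < a → lo k = 0 ∧ hi k = 0) (hab : lo a = 0 ∧ hi a = 1)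
    (hw : word lo hi a 7 = W7) : a = 6 := by
  rcases S with h | ⟨h1, h2⟩ | ⟨-, h2⟩ | ⟨h1, -, -⟩ | ⟨h1, -⟩ | ⟨a', g0, g1, g2, g3, gN, g4⟩
  · have := (h a (by omega)).2
    omega
  · have := (h0 1 (by omega)).2
    omega
  · have e1 := h2.hi 2 (by omega)
    have e2 := (h0 2 (by omega)).2
    omega
  · omega
  · omega
  · have haa : a' = a := by
      rcases lt_trichotomy a' a with g | g | g
      · have := (h0 a' g).2
        omega
      · exact g
      · have := (g2 a g).2
        omega
    subst haa
    rw [show n - a' = 7 by omega, hw] at g4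
    rcases g4 with ⟨-, g5⟩ | g5
    · exact absurd g5 (by decide)
    · exact w7_six g5

/-- THE VALUE of step 0, all levels but 13 -/
theorem ClDL.mainQ' (F : ClDL P r i t m x c lo hi e) (R : Red P (i + 1) K psi)
    (S : Shape (i + 1) lo hi) (h13 : i + 1 ≠ 13) : QB i K t := by
  rcases F.mainQ R S with h | ⟨p, u, D, hm3, hU, hn, ho, a, a1, a2, a3, a4, a5⟩
  · exact h
  · have := shape_w7 S a1 a2 a3 a4 a5
    omega

end Pool.Agent.GaussPoset.EK
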