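import Pool.Agent.W_448cl_h64.CmD
import Pool.Agent.W_448cl_h64.ClX
import Pool.Agent.W_448j6_h22.KbK

/-!
MP_448cb3_co, G2, case B, window `j`, the functional `TT` of the level 6: a row with the pattern [DL], the
doubled end closed, at least four sites, odd levels; the strict inequality for the closed late word.
helper64.
-/

namespace Pool.Agent.GaussPoset.EK

set_option linter.unusedSectionVars false

open Finset Win St Polynomial Wd Win.W4 Win.Rc Win.Pn

universe u

variable {P : Type u} [Fintype P] [PartialOrder P] [DecidableEq P] {r i j : ℕ}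

variable {m : ℕ} {x : ℕ → P} {c : ℕ → ℤ} {β : ℤ} {t : Tops P} {lo hi : ℕ → ℕ} {e : ℕ → ℕ → P}

variable {K : Finset P} {psi : P → P} {w v : P} {Y V : P → P}

/-- a closed end at the left, the letters `C O` at the right: only in a stair, even level -/
lemma wide_par {n : ℕ} (C : Cp.Comp (n + 2) (t : P) lo hi e) (S : Shape (n + 2) lo hi)
    (hw : lo (n + 2) + 3 ≤ hi (n + 2)) (g1 : lo (n + 2) = lo (n + 1) + 1)
    (g2 : hi (n + 1) = hi n) (g3 : hi (n + 2) = hi (n + 1) + 1) : (n + 2) % 2 = 0 := by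
  have hl : ∀ k, k < n + 2 → lo k ≤ lo (k + 1) ∧ lo (k + 1) ≤ lo k + 1 := by
    intro k hk
    have := C.lo_step k hk
    omega
  have hh : ∀ k, k < n + 2 → hi k ≤ hi (k + 1) ∧ hi (k + 1) ≤ hi k + 1 := by
    intro k hk
    have := C.hi_step k hk
    omega
  rcases S with h | ⟨h1, h2⟩ | ⟨h1, h2⟩ | ⟨h1, h2, h3⟩ | ⟨h1, h2⟩ | ⟨a, h0, h1, h2, h3, hN, h4⟩
  · have := h (n + 2) le_rfl
    omega
  · have e1 := h2.hi (n + 1) (by omega)
    have e2 := C.hi_le (k := n) (by omega)
    have e3 := h2.lo (n + 1) (by omega)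
    rw [show n + 1 + 1 = n + 2 by omega] at e1 e3
    omega
  · have e2 := h2.hi (n + 1) (by omega)
    have e3 := h2.hi (n + 2) (by omega)
    omega
  · have h5 : n + 2 = 3 := h1
    rw [h5] at hw
    omega
  · have h5 : n + 2 = 6 := h1
    rw [h5] at hw
    unfold F1 at h2
    omega
  · exfalso
    have hlo : ∀ k, k < a + (n + 2 - a) → lo (k + 1) = lo k ∨ lo (k + 1) = lo k + 1 :=
      fun k hk => C.lo_step k (by omega)
    have hhi : ∀ k, k < a + (n + 2 - a) → hi (k + 1) = hi k ∨ hi (k + 1) = hi k + 1 :=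
      fun k hk => C.hi_step k (by omega)
    have hcnt := word_count (a := a) (d := n + 2 - a) (lo := lo) (hi := hi) hlo hhi
    rw [show a + (n + 2 - a) = n + 2 by omega] at hcnt
    rcases h4 with ⟨h5, h6⟩ | h4
    · have h7 := Qw_hi h6 (by omega) hhi
      rw [show a + (n + 2 - a) = n + 2 by omega] at h7
      omega
    · rcases lateW_good a _ h4 with g | g | g
      · omega
      · rcases Nat.eq_zero_or_pos (n + 2 - a) with h5 | h5
        · have : a = n + 2 := by omega
          rw [this] at h3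
          omega
        · have h6 := word_last (by omega) g
          rw [show a + (n + 2 - a) = n + 2 by omega, show n + 2 - 1 = n + 1 by omega] at h6
          omega
      · obtain ⟨w1, w2⟩ := word_spec g
        have hl7 : W7.length = 7 := rfl
        rw [hl7] at w1
        obtain rfl : n = a + 5 := by omega
        have f6 : lo (a + 6 + 1) = lo (a + 6) := by
          have h5 := (w2 6 (by omega)).1
          rw [show W7[6]?.map Prod.fst = some false by decide] at h5
          have h6 := of_decide_eq_false (Option.some.inj h5).symm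
          push Not at h6
          exact h6
        have e1 : lo (a + 5 + 2) = lo (a + 6 + 1) := rfl
        have e2 : lo (a + 5 + 1) = lo (a + 6) := rfl
        omega

namespace ClDL

variable (F : ClDL P r i t m x c lo hi e)
include F

/-- odd levels: no upper pendant over the last pair -/
theorem ue_odd (S : Shape (i + 1) lo hi) (ho : (i + 1) % 2 = 1) :
    UE (i + 1) (Cx i t) x (m - 1) = ∅ := by
  rw [eq_empty_iff_forall_notMem]
  intro z hz
  obtain ⟨n, hn⟩ : ∃ n, i + 1 = n + 2 := ⟨i - 1, by have := F.hi1; omega⟩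
  have hor := F.letters hn hz
  have C := F.C
  obtain rfl : i = n + 1 := by omega
  have hb := F.coord.1
  have hm := F.hm
  have e1 : lo (n + 1 + 1) = lo (n + 2) := rfl
  have e2 : hi (n + 1 + 1) = hi (n + 2) := rfl
  rw [e1, e2] at hb
  rcases hor with ⟨-, q0, q1, q2⟩ | ⟨-, q0, q1, q2⟩
  · have := wide_par C S (by omega) q0 q1 q2
    have e3 : n + 1 + 1 = n + 2 := rfl
    omega
  · exact (wide_fuw3 C S (by omega)).2 ⟨q0, q1, q2⟩

/-- twice the value, four sites -/
theorem two_tv (hm3 : m = 3) : 2 * W4.Tv (i + 1) (Cx i t) = Ow (i + 1) (Cx i t) +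
    3 * (NE (i + 1) (Cx i t) x 0 + 1 - (pen (x 2)).card) + 2 * (NE (i + 1) (Cx i t) x 2 - 1) +
      4 * (NE (i + 1) (Cx i t) x 2 - 1) ^ 2 := by
  obtain ⟨K, psi, R⟩ := exists_red P (i + 1)
  obtain ⟨w, v, D⟩ := F.dlg R
  have e3 : Ico 3 m = ∅ := by rw [hm3]; rfl
  have h1 := D.al2_eq
  rw [F.hu, e3, sum_empty] at h1
  push_cast at h1
  have h2 := F.w3
  unfold Ow W4.Tv
  rw [h1, h2]
  ring

/-- four sites, nothing below `x 2` -/
theorem tv3 (hm3 : m = 3) (hU : UE (i + 1) (Cx i t) x 2 = ∅) (hp : pen (x 2) = ∅)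
    (h3 : (uc (x 3)).card = 2 → (pen (x 3)).card ≤ 1) : 2 ≤ W4.Tv (i + 1) (Cx i t) := by
  obtain ⟨K, psi, R⟩ := exists_red P (i + 1)
  obtain ⟨w, v, D⟩ := F.dlg R
  have ht := F.two_tv hm3
  have h0 := D.NE0_nonneg F.hu
  have h4 : (uc (x 3)).card + (pen (x 3)).card ≤ 3 := by
    have h5 := D.W.pen_le (x 3)
    rcases D.W.uc_le (k := 3) (by omega) with h6 | h6
    · omega
    · have := h3 h6
      omega
  have hn : (0 : ℤ) ≤ ((Z4 (i + 1) (Cx i t)).card : ℤ) - (T4 (i + 1) (Cx i t)).card := by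
    have := card_le_card (T4_subset (i + 1) (Cx i t))
    have h5 : ((T4 (i + 1) (Cx i t)).card : ℤ) ≤ (Z4 (i + 1) (Cx i t)).card := by
      exact_mod_cast this
    linarith
  have e2 : NE (i + 1) (Cx i t) x 2 = ((DE (i + 1) (Cx i t) x 2).card : ℤ) := by
    unfold NE
    rw [hU, card_empty]
    push_cast
    ring
  rw [e2, hp, card_empty] at ht
  push_cast at ht
  rcases D.Ow_ge3 hm3 F.hu hU hp h4 hn with ⟨d, g⟩ | ⟨d, g⟩ | ⟨d, g⟩ <;> rw [d] at ht <;>
    push_cast at ht <;> linarith

/-- four sites, one pendant below `x 2`, the other end open, without pendants -/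
theorem tv3B (hm3 : m = 3) (hU : UE (i + 1) (Cx i t) x 2 = ∅) (hp : (pen (x 2)).card = 1)
    (h3 : (uc (x 3)).card = 1) (hp3 : pen (x 3) = ∅) : 4 ≤ W4.Tv (i + 1) (Cx i t) := by
  obtain ⟨K, psi, R⟩ := exists_red P (i + 1)
  obtain ⟨w, v, D⟩ := F.dlg R
  have ht := F.two_tv hm3
  have h0 := D.NE0_nonneg F.hu
  have hn : (0 : ℤ) ≤ ((Z4 (i + 1) (Cx i t)).card : ℤ) - (T4 (i + 1) (Cx i t)).card := by
    have := card_le_card (T4_subset (i + 1) (Cx i t))
    have h5 : ((T4 (i + 1) (Cx i t)).card : ℤ) ≤ (Z4 (i + 1) (Cx i t)).card := by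
      exact_mod_cast this
    linarith
  have e2 : NE (i + 1) (Cx i t) x 2 = ((DE (i + 1) (Cx i t) x 2).card : ℤ) := by
    unfold NE
    rw [hU, card_empty]
    push_cast
    ring
  rw [e2, hp] at ht
  push_cast at ht
  rcases D.Ow_ge3B' hm3 F.hu hU hp h3 hp3 hn with ⟨d, g⟩ | ⟨d, g⟩ | ⟨d, g⟩ <;> rw [d] at ht <;>
    push_cast at ht <;> linarith

/-- THE VALUE at odd levels, and the strict form for the closed late word -/
theorem tv_odd (S : Shape (i + 1) lo hi) (ho : (i + 1) % 2 = 1) :
    2 * ((pen (x 2)).card : ℤ) ≤ W4.Tv (i + 1) (Cx i t) ∧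
    (∀ a, 3 ≤ a → a + 7 = i + 1 → (lo a = 0 ∧ hi a = 1) → word lo hi a 7 = W7 →
      2 * ((pen (x 2)).card : ℤ) + 2 ≤ W4.Tv (i + 1) (Cx i t)) := by
  classical
  obtain ⟨K, psi, R⟩ := exists_red P (i + 1)
  obtain ⟨w, v, D⟩ := F.dlg R
  have hm := F.hm
  have hU := F.ue_odd S ho
  rcases Nat.lt_or_ge 3 m with h4 | h4
  · have hl : 0 ≤ NE (i + 1) (Cx i t) x (m - 1) := by
      unfold NE
      rw [hU, card_empty]
      push_cast
      omega
    have h5 := D.T_ge4 (by omega) F.hu hl
    have h6 : (pen (x 2)).card = 0 := by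
      rw [D.W.pen0 2 le_rfl (by omega), card_empty]
    refine ⟨by rw [h6]; push_cast; linarith, ?_⟩
    intro a ha haj hab hw
    exfalso
    have C := F.C
    have hlo : ∀ k, k < a + 7 → lo (k + 1) = lo k ∨ lo (k + 1) = lo k + 1 :=
      fun k hk => C.lo_step k (by omega)
    have hhi : ∀ k, k < a + 7 → hi (k + 1) = hi k ∨ hi (k + 1) = hi k + 1 :=
      fun k hk => C.hi_step k (by omega)
    have hcnt := word_count (a := a) (d := 7) (lo := lo) (hi := hi) hlo hhi
    rw [hw, show W7.count Wd.CC = 0 by decide, show W7.count OO = 2 by decide] at hcnt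
    have h7 := F.coord.1
    have e1 : lo (a + 7) = lo (i + 1) := by rw [haj]
    have e2 : hi (a + 7) = hi (i + 1) := by rw [haj]
    omega
  · obtain rfl : m = 3 := by omega
    have hU2 : UE (i + 1) (Cx i t) x 2 = ∅ := hU
    rcases F.pend_cases S with hN | ⟨p, u, Dp, hc, hUf, hn⟩ |
      ⟨p, u, Dp, hm3, hUf, hn, hor, a, a1, a2, -, a4, a5⟩
    · have hp2 : pen (x 2) = ∅ := by
        rw [eq_empty_iff_forall_notMem]
        intro q hq
        obtain ⟨g1, g2, -⟩ := F.pen_PD (by omega) (F.inner2 (by omega)) hq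
        exact (hN q g1).1 g2
      have h5 := F.tv3 rfl hU2 hp2 (fun hc => by
        have : pen (x 3) = ∅ := by
          rw [eq_empty_iff_forall_notMem]
          intro q hq
          obtain ⟨g1, g2, -⟩ := F.pen_PD (by omega) hc hq
          exact (hN q g1).1 g2
        rw [this, card_empty]
        omega)
      rw [hp2, card_empty]
      push_cast
      exact ⟨by linarith, fun _ _ _ _ _ => by linarith⟩
    · have hp2 : pen (x 2) = ∅ := by
        rw [eq_empty_iff_forall_notMem]
        intro q hq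
        obtain ⟨g1, g2, g3⟩ := F.pen_PD (by omega) (F.inner2 (by omega)) hq
        have h5 := Dp.low q g1 g2
        rw [h5, Dp.up] at g3
        exact F.xne (by omega) (by omega) (by omega) (singleton_injective g3 : x 3 = x 2)
      have h5 := F.tv3 rfl hU2 hp2 (fun hc => by
        have : pen (x 3) ⊆ {p} := by
          intro q hq
          obtain ⟨g1, g2, -⟩ := F.pen_PD (by omega) hc hq
          rw [mem_singleton]
          exact Dp.low q g1 g2
        have h6 := card_le_card this
        rwa [card_singleton] at h6)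
      rw [hp2, card_empty]
      push_cast
      exact ⟨by linarith, fun _ _ _ _ _ => by linarith⟩
    · obtain ⟨-, g2, g3⟩ := F.late_end rfl hor a1 a2 a4 a5
      have hpen : pen (x 2) = {p} := by
        ext q
        rw [mem_singleton]
        constructor
        · intro hq
          obtain ⟨g1, g2, -⟩ := F.pen_PD (by omega) (F.inner2 (by omega)) hq
          exact Dp.low q g1 g2
        · rintro rfl
          exact mem_pen_of_uc Dp.up
      have hp1 : (pen (x 2)).card = 1 := by rw [hpen, card_singleton]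
      have h5 := F.tv3B rfl hU2 hp1 g2 g3
      rw [hp1]
      push_cast
      exact ⟨by linarith, fun _ _ _ _ _ => by linarith⟩

end ClDL

section share

variable (h : NJ P r j) (hj : 2 ≤ j) (R : Red P j K psi) (hY : YV j Y V)

include h hj R hY

/-- the pattern [DL], at least four sites: the parts of the share -/
theorem NJ.dl_parts (B : RowB P j t m x c β) (hm : 3 ≤ m) (hβ : β = 0) (c0 : c 0 = 1)
    (c1 : c 1 = -1) (c2 : ∀ k, 2 ≤ k → k < m → c k = 0) :
    PA j K Y V t + PB j K Y V t ≤ 2 * ((pen (x 2)).card : ℤ) ∧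
      TT j t = W4.Tv j (cext (j + 1) (topOf : P → Tops P) t) := by
  classical
  obtain ⟨w, v, D⟩ := NJ.dlg h hj R B hm hβ c0 c1 c2
  have W := D.W
  have hne : ∀ k l, k ≤ m → l ≤ m → k ≠ l → x k ≠ x l := fun k l hk hl hkl =>
    W.ne hk hl hkl
  have a1 : PA j K Y V t = 0 := NJ.PA_zero h hj R hY fun y hy ht => by
    have := (B.bad h hj hy ht).2
    omega
  have a2 := NJ.PB_le h hj R hY B (q0 := 2) (b := 1) le_rfl fun q hq hq1 => by
    rw [sa_K5 h R D.Q, D.hw, D.hv] at hq1 ⊢
    have hq3 : q = 0 ∨ q = 1 ∨ q = 2 ∨ 3 ≤ q := by omega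
    rcases hq3 with rfl | rfl | rfl | hq3
    · rw [if_neg (by rw [dis_pair]; tauto), if_pos (by
        rw [dis_pair]
        exact ⟨hne 0 1 (by omega) (by omega) (by omega), hne 0 2 (by omega) (by omega) (by omega)⟩)]
        at hq1
      norm_num at hq1
    · rw [if_neg (by rw [dis_pair]; tauto), if_neg (by rw [dis_pair]; tauto)] at hq1
      norm_num at hq1
    · rw [if_pos (by
        rw [dis_pair]
        exact ⟨hne 2 0 (by omega) (by omega) (by omega), hne 2 1 (by omega) (by omega) (by omega)⟩),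
        if_neg (by rw [dis_pair]; tauto)]
      exact ⟨rfl, by norm_num⟩
    · rw [if_pos (by
        rw [dis_pair]
        exact ⟨hne q 0 hq (by omega) (by omega), hne q 1 hq (by omega) (by omega)⟩),
        if_pos (by
        rw [dis_pair]
        exact ⟨hne q 1 hq (by omega) (by omega), hne q 2 hq (by omega) (by omega)⟩)] at hq1
      norm_num at hq1
  have hs : Small j (topOf : P → Tops P) t := by
    rcases B.small h.g.H h.split with h2 | h2
    · exact h2
    · exfalso
      obtain ⟨h3, -, -, -, h4, -⟩ := h2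
      rw [c2 (m - 2) (by omega) (by omega)] at h4
      norm_num at h4
  rw [a1, NJ.TT_small h hj R hs]
  exact ⟨by linarith, rfl⟩

end share

/-- THE SHARE at odd levels, and the strict form for the closed late word -/
theorem ClDL.own_odd (F : ClDL P r i t m x c lo hi e) (R : Red P (i + 1) K psi)
    (hY : YV (i + 1) Y V) (S : Shape (i + 1) lo hi) (ho : (i + 1) % 2 = 1) :
    PA (i + 1) K Y V t + PB (i + 1) K Y V t ≤ TT (i + 1) t ∧
    (∀ a, 3 ≤ a → a + 7 = i + 1 → (lo a = 0 ∧ hi a = 1) → word lo hi a 7 = W7 →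
      PA (i + 1) K Y V t + PB (i + 1) K Y V t + 2 ≤ TT (i + 1) t) := by
  have hj : 2 ≤ i + 1 := by have := F.hi1; omega
  obtain ⟨h1, h2⟩ := NJ.dl_parts F.h hj R hY F.B F.hm rfl F.c0 F.c1 F.c2
  obtain ⟨h3, h4⟩ := F.tv_odd S ho
  rw [h2]
  refine ⟨le_trans h1 h3, fun a a1 a2 a3 a4 => ?_⟩
  have := h4 a a1 a2 a3 a4
  linarith

end Pool.Agent.GaussPoset.EK
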