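import Pool.Agent.W_448cl_h64.CmF

/-!
MP_448cb3_co, G2, case B, step 0 at the level 13: a row with the pattern [DL], the doubled end closed, at
least four sites: the sum of the values for `W1` and for `TT`.  helper64.
-/

namespace Pool.Agent.GaussPoset.EK

set_option linter.unusedSectionVars false

open Finset Win St Polynomial Wd Win.W4 Win.Rc Win.Pn
open Pool.Agent.GaussPoset.Win.SO (PN vp mem_PN N1f mem_N1f N5f CQ envc chc)

universe u

variable {P : Type u} [Fintype P] [PartialOrder P] [DecidableEq P] {r i j : ℕ}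

variable {m : ℕ} {x : ℕ → P} {c : ℕ → ℤ} {β : ℤ} {t : Tops P} {lo hi : ℕ → ℕ} {e : ℕ → ℕ → P}

variable {K : Finset P} {psi : P → P} {w v : P} {Y V : P → P}

namespace ClDL

variable (F : ClDL P r i t m x c lo hi e)
include F

/-- the closed late word, a pendant below `x 2`: a lower bound for the weights of step 0 -/
theorem case3Q {p u : P} (D : PdC i t lo hi e (x 2) p u) (hm3 : m = 3)
    (hU : FU' i (SS i t) = ∅) (hn : nn i p ≤ 5) (hU2 : UE (i + 1) (Cx i t) x 2 = ∅)
    (hc3 : (uc (x 3)).card = 1) (hp3 : pen (x 3) = ∅) : -6 ≤ Qc i t := by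
  classical
  obtain ⟨K, psi, R⟩ := exists_red P (i + 1)
  have hm := F.hm
  obtain ⟨w, v, Dl⟩ := F.dlg R
  obtain ⟨f1, f2, f3⟩ := F.one_vals D
  have h0 := F.own_ge (q := 2) (by omega) f2
  rw [if_neg (by omega)] at h0
  have ha : fa i (SS i t) = kc p := by
    unfold fa kc
    rw [f1, hU, card_empty]
    push_cast
    ring
  have hf : fm i (SS i t) x 0 ≤ kc p := by
    unfold fm
    rw [hU, filter_empty, card_empty]
    have h1 := card_le_card (filter_subset (fun z => ¬ Disjoint (sit i z) (se x 0)) (FL i (SS i t)))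
    have h2 : (((FL i (SS i t)).filter (fun z => ¬ Disjoint (sit i z) (se x 0))).card : ℤ) ≤
        (FL i (SS i t)).card := by exact_mod_cast h1
    have h3 : ((FL i (SS i t)).card : ℤ) = kc p := by
      unfold kc
      rw [f1]
    push_cast
    linarith
  have hpen : pen (x 2) = {p} := by
    ext q
    rw [mem_singleton]
    constructor
    · intro hq
      obtain ⟨g1, g2, -⟩ := F.pen_PD (by omega) (F.inner2 (by omega)) hq
      exact D.low q g1 g2
    · rintro rfl
      exact mem_pen_of_uc D.up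
  have hp1 : (pen (x 2)).card = 1 := by rw [hpen, card_singleton]
  obtain ⟨-, s2⟩ := F.shr_late D hm3 hU hn
  have hV : 4 + 2 * (2 * n1 i (SS i t) - 4 * n5 i (SS i t) + Ow (i + 1) (Cx i t)) +
      (2 * (kc p ^ 2 - 5 * kc p) + shr ⟨-1, 9, 1, 4, 3, -1, 2, 13, 0⟩ i p) ≤ Vc i t := by
    unfold Vc
    rw [f3, sum_singleton]
    rw [ha] at h0
    linarith
  have hn1 := F.n1_nonneg
  have hw := F.w3
  unfold NE at hw
  rw [hU2, card_empty] at hw
  push_cast at hw
  have hQ := Qc_ge i t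
  rcases Dl.Ow_ge3B' hm3 F.hu hU2 hp1 hc3 hp3 F.n5_le3 with ⟨d, g⟩ | ⟨d, g⟩ | ⟨d, g⟩
  · linarith
  · linarith
  · rw [d] at hw
    push_cast at hw
    rw [Qc_one (i := i) (t := t) (by linarith)]
    linarith

/-- THE SUM OF THE TWO VALUES at odd levels -/
theorem sum_odd (R : Red P (i + 1) K psi) (S : Shape (i + 1) lo hi) (ho : (i + 1) % 2 = 1) :
    0 ≤ Qc i t + 2 * W4.Tv (i + 1) (Cx i t) ∨
      (-8 ≤ Qc i t + 2 * W4.Tv (i + 1) (Cx i t) ∧ LJ i K t) := by
  obtain ⟨h1, h2⟩ := F.tv_odd S ho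
  have h3 : (0 : ℤ) ≤ (pen (x 2)).card := by positivity
  rcases F.mainQ R S with (h4 | ⟨h4, h5⟩) | ⟨p, u, D, hm3, hU, hn, hor, a, a1, a2, a3, a4, a5⟩
  · left
    linarith
  · right
    exact ⟨by linarith, h5⟩
  · left
    have h6 := h2 a a1 a2 a4 a5
    obtain ⟨g1, g2, g3⟩ := F.late_end hm3 hor a1 a2 a4 a5
    have h7 := F.case3Q D hm3 hU hn g1 g2 g3
    have hpen : p ∈ pen (x 2) := mem_pen_of_uc D.up
    have h8 : 1 ≤ (pen (x 2)).card := card_pos.2 ⟨p, hpen⟩
    have h9 : (1 : ℤ) ≤ (pen (x 2)).card := by exact_mod_cast h8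
    linarith

end ClDL

end Pool.Agent.GaussPoset.EK
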