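import Pool.Agent.W_448cl_h64.CmG

/-!
MP_448cb3_co, G2, case B, step 0 at the level 13: a row with the pattern [DL], the doubled end closed, at
least four sites: the value for the weights `5 W1 + 4 TT`.  helper64.
-/

namespace Pool.Agent.GaussPoset.EK

set_option linter.unusedSectionVars false

open Finset Win St Polynomial Wd Win.W4 Win.Rc Win.Pn

universe u

variable {P : Type u} [Fintype P] [PartialOrder P] [DecidableEq P] {r i j : ℕ}

variable {m : ℕ} {x : ℕ → P} {c : ℕ → ℤ} {t : Tops P} {lo hi : ℕ → ℕ} {e : ℕ → ℕ → P}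

variable {K : Finset P} {psi : P → P}

namespace ClDL

variable (F : ClDL P r i t m x c lo hi e)
include F

/-- the two values: either the bound of step 0, or the closed late word -/
theorem pair_odd (R : Red P (i + 1) K psi) (S : Shape (i + 1) lo hi) (ho : (i + 1) % 2 = 1) :
    0 ≤ W4.Tv (i + 1) (Cx i t) ∧
      (QB i K t ∨ (-6 ≤ Qc i t ∧ 4 ≤ W4.Tv (i + 1) (Cx i t))) := by
  obtain ⟨h1, h2⟩ := F.tv_odd S ho
  have h3 : (0 : ℤ) ≤ (pen (x 2)).card := by positivity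
  refine ⟨by linarith, ?_⟩
  rcases F.mainQ R S with h4 | ⟨p, u, D, hm3, hU, hn, hor, a, a1, a2, a3, a4, a5⟩
  · exact Or.inl h4
  · right
    have h6 := h2 a a1 a2 a4 a5
    obtain ⟨g1, g2, g3⟩ := F.late_end hm3 hor a1 a2 a4 a5
    have h7 := F.case3Q D hm3 hU hn g1 g2 g3
    have hpen : p ∈ pen (x 2) := mem_pen_of_uc D.up
    have h8 : 1 ≤ (pen (x 2)).card := card_pos.2 ⟨p, hpen⟩
    have h9 : (1 : ℤ) ≤ (pen (x 2)).card := by exact_mod_cast h8
    exact ⟨h7, by linarith⟩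

/-- the weights `5 W1 + 4 TT` -/
theorem sum13 (R : Red P (i + 1) K psi) (S : Shape (i + 1) lo hi) (ho : (i + 1) % 2 = 1) :
    0 ≤ 5 * Qc i t + 8 * W4.Tv (i + 1) (Cx i t) ∨
      (-40 ≤ 5 * Qc i t + 8 * W4.Tv (i + 1) (Cx i t) ∧ LJ i K t) := by
  obtain ⟨h1, (h2 | ⟨h2, h3⟩) | ⟨h2, h3⟩⟩ := F.pair_odd R S ho
  · left
    linarith
  · right
    exact ⟨by linarith, h3⟩
  · left
    linarith

end ClDL

end Pool.Agent.GaussPoset.EK
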