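import Pool.Agent.W_448pb_h63.PbB

/-!
The counting theorem at the window j (MP_448cb3_co, case B): the inequality for a configuration with
two star labels and with light labels with three sites.
-/

namespace Pool.Agent.GaussPoset.Win.K2

set_option linter.unusedSectionVars false

open Finset I2

universe u

variable {P : Type u} [Fintype P] [PartialOrder P] [DecidableEq P] {r i : ℕ} {e : P → ℕ}

variable {ι : Type*} [DecidableEq ι] {κ : P → ι} {K : Finset P} {psi : P → P}

/-- the order bound with the energy of the sites -/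
theorem ord_le_s (H : Gr P r) (hir : i ≤ r) (hq : NoQ P (i + 2))
    (hg : ∀ m, m + 1 = i → Good P m) (hL : AdmL i e) (hU : AdmU i e) {D : Finset P}
    (hD : ∀ x ∈ D, 1 ≤ e x ∧ Dp i x) :
    (AL i e).card + (AU i e).card + D.card + ∑ x ∈ lv P i, e x ≤
      ∑ x, e x + (pL i e + pU i e) := by
  classical
  have h1 := sum_ch H hir hq hg hL hU
  have h2 : ∑ x, ch i e x ≤ ∑ x, (2 * (e x : ℤ) - (if x ∈ D then 2 else 0) -
      (if x ∈ lv P i then 2 * (e x : ℤ) else 0)) := by
    refine Finset.sum_le_sum fun x _ => ?_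
    by_cases hx : x ∈ lv P i
    · have hl := mem_lv.1 hx
      have hxD : x ∉ D := by
        intro h
        have h3 := (hD x h).2
        unfold Dp at h3
        rcases h3 with h3 | h3 <;> omega
      rw [if_neg hxD, if_pos hx]
      have h3 : ch i e x = 0 := by
        unfold ch
        rw [if_neg (by omega), if_neg (by omega)]
      rw [h3]
      linarith
    · rw [if_neg hx]
      split_ifs with h
      · have := (ch_le_D H hir hq hg hL (hD x h).1 (hD x h).2).1
        linarith
      · have := ch_le H hir hq hg (e := e) x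
        linarith
  rw [h1, Finset.sum_sub_distrib, Finset.sum_sub_distrib, ← Finset.mul_sum, Finset.sum_ite_mem,
    univ_inter, Finset.sum_const, nsmul_eq_mul, Finset.sum_ite_mem, univ_inter,
    ← Finset.mul_sum] at h2
  have h3 : ((∑ x, e x : ℕ) : ℤ) = ∑ x, (e x : ℤ) := by push_cast; rfl
  have h4 : ((∑ x ∈ lv P i, e x : ℕ) : ℤ) = ∑ x ∈ lv P i, (e x : ℤ) := by push_cast; rfl
  rw [← h3, ← h4] at h2
  omega

/-- an excited element of level `i + 1` does not meet a bad element of a label without energy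
at its sites -/
lemma bad_free (H : Gr P r) (hir : i ≤ r) (hq : NoQ P (i + 2))
    (hg : ∀ m, m + 1 = i → Good P m) (hd : Disjoint (AL i e) (AU i e)) {k y x : P}
    (hk : k ∈ bN i e) (hx : x ∈ ns i k) (h0 : e x = 0) (hy : lev y = i + 1) (he : 1 ≤ e y)
    (hxy : x ∈ uc y) : y = k := by
  unfold bN at hk
  rcases mem_union.1 hk with h | h
  · obtain ⟨-, -, -, -, -, k6⟩ := bL_data H hir hq hg h
    have h1 : y ∈ kr dc e x := mem_kr.2 ⟨mem_dc.2 (mem_uc.1 hxy), by omega⟩
    rw [k6 x hx h0, mem_singleton] at h1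
    exact h1
  · exfalso
    obtain ⟨k1, -, k3, k4, -, -⟩ := bU_data H hir hq hg h
    rw [k4] at hx
    have l1 := lev_dc H hx
    have h4 : x ∈ AL i e := by
      rw [NormD_mem_AL]
      exact ⟨by omega, y, mem_uc.1 hxy, by omega⟩
    have h5 : x ∈ AU i e := by
      rw [NormD_mem_AU]
      exact ⟨by omega, k, mem_dc.1 hx, by omega⟩
    exact disjoint_left.1 hd h4 h5

/-- the element which gives the additional charge -/
def QB (i : ℕ) (κ : P → ι) (e : P → ℕ) (t : ι) (q : P) : Prop :=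
  q ∈ DxD i e ∧ (∀ a, ¬ Rtd i κ e a q) ∧ ∃ p ∈ uc q, κ p = t

/-- a touched light label with three sites -/
theorem light_lab (H : Gr P r) (hir : i ≤ r) (hq : NoQ P (i + 2))
    (hg : ∀ m, m + 1 = i → Good P m) (hκ : Split (i + 1) κ) (hM : Mat P i K psi) {t : ι}
    (hL : AdmL i e) (hK : Star i (cext (i + 1) κ t) K)
    (h3 : (st i (cext (i + 1) κ t)).card ≤ 3)
    (hl : ∀ z y v, SD i κ z y v → κ v = t → ∀ k ∈ K, κ k = t → ¬ Disjoint (ns i k) (uc v))
    (hd : Disjoint (AL i e) (AU i e)) {XL XU : Finset P}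
    (hXL : ∀ x ∈ XL, lev x = i ∧ 1 ≤ e x ∧ (∃ y, y ∈ dc x) ∧
        ∀ y ∈ dc x, y ∈ bL i e ∧ ∃ z ∈ dc y, 1 ≤ e z)
    (hXU : ∀ x ∈ XU, lev x = i ∧ 1 ≤ e x ∧ (∃ y, y ∈ uc x) ∧
        ∀ y ∈ uc x, y ∈ bU i e ∧ ∃ z ∈ uc y, 1 ≤ e z)
    (hT : Tou i κ e t) :
    ((KB i K e).filter (fun x => κ x = t)).card + (XL.filter (fun x => κ x = t)).card +
      (XU.filter (fun x => κ x = t)).card ≤ 2 * ∑ x ∈ (lv P i).filter (fun x => κ x = t), e x ∨
    ∃ q, QB i κ e t q := by
  classical
  have h1 := star_loc (e := e) H hir hq hg hκ hM hK hd hXL hXU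
  rcases Nat.eq_zero_or_pos (∑ x ∈ (lv P i).filter (fun x => κ x = t), e x) with h0 | h0
  swap
  · left
    omega
  have hz : ∀ x, lev x = i → κ x = t → e x = 0 := by
    intro x hx hxt
    exact (Finset.sum_eq_zero_iff.1 h0) x (mem_filter.2 ⟨mem_lv.2 hx, hxt⟩)
  have hXL0 : (XL.filter (fun x => κ x = t)).card = 0 := by
    rw [card_eq_zero, filter_eq_empty_iff]
    intro x hx hxt
    obtain ⟨l1, l2, -, -⟩ := hXL x hx
    have := hz x l1 hxt
    omega
  have hXU0 : (XU.filter (fun x => κ x = t)).card = 0 := by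
    rw [card_eq_zero, filter_eq_empty_iff]
    intro x hx hxt
    obtain ⟨l1, l2, -, -⟩ := hXU x hx
    have := hz x l1 hxt
    omega
  rcases ((KB i K e).filter (fun x => κ x = t)).eq_empty_or_nonempty with hE | ⟨k, hk⟩
  · left
    rw [hE, hXL0, hXU0, card_empty]
    omega
  right
  rw [mem_filter] at hk
  obtain ⟨hk, hkt⟩ := hk
  have hkB : k ∈ bN i e := by
    rw [mem_KB] at hk
    unfold bN
    rcases hk.2 with h | h
    · exact mem_union_left _ h.1
    · exact mem_union_right _ h.1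
  have hkK : k ∈ K := (mem_KB.1 hk).1
  have hns : ∀ x ∈ ns i k, lev x = i ∧ κ x = t := fun x hx =>
    ⟨(bN_data H hir hq hg hkB).2.2.2 x hx, by rw [ns_lab H hir hq hg hκ hkB hx, hkt]⟩
  have free : ∀ y, lev y = i + 1 → 1 ≤ e y → y ≠ k → ∀ x ∈ ns i k, x ∉ uc y := by
    intro y hy he hne x hx hxy
    exact hne (bad_free H hir hq hg hd hkB hx (hz x (hns x hx).1 (hns x hx).2) hy he hxy)
  obtain ⟨q, p, lq, eq, hp, lp, hpt⟩ := touch_q H hκ hL hT
  have ep : 1 ≤ e p := exc_le H hL eq (mem_uc.1 hp).le (by omega)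
  have hpk : p ≠ k := by
    rintro rfl
    rcases (mem_KB.1 hk).2 with ⟨h2, h3⟩ | ⟨h2, h3⟩
    · have := h3 q (mem_dc.2 (mem_uc.1 hp))
      omega
    · have := (bU_data H hir hq hg h2).1
      omega
  have hfr := free p lp ep hpk
  have hp1 : (uc p).card = 1 := by
    have c2 := (bN_data H hir hq hg hkB).1
    have c3 : 0 < (uc p).card := card_pos.2 (uc_nonempty H (by omega))
    have hdis : Disjoint (ns i k) (uc p) := by
      rw [disjoint_left]
      exact hfr
    have hsub : ns i k ∪ uc p ⊆ st i (cext (i + 1) κ t) := by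
      intro x hx
      rw [mem_st]
      rcases mem_union.1 hx with h | h
      · exact ⟨mem_cext_of_le hκ (by rw [(hns x h).1]; omega) (hns x h).2, (hns x h).1⟩
      · have h5 := lev_uc H h
        refine ⟨mem_cext_of_le hκ (by omega) ?_, by omega⟩
        rw [← hpt]
        exact (hκ (mem_uc.1 h) (by omega)).symm
    have h6 := card_le_card hsub
    rw [card_union_of_disjoint hdis] at h6
    omega
  refine ⟨q, mem_DxD.2 ⟨eq, Or.inl (by omega)⟩, ?_, p, hp, hpt⟩
  intro a hR
  rcases hR with ⟨r1, -, -, -⟩ | ⟨-, -, ⟨p', r3, r4, r5⟩, r6⟩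
  · omega
  · by_cases hpp : κ p = κ p'
    · have := r6 p lp hp1 (by rw [hpp, r5])
      omega
    · have huc := uc_pair H hp r3 (fun h => hpp (by rw [h]))
      rcases one_single H hκ hq lq huc hpp with h | h | h
      · omega
      · refine hl q p' p ⟨lq, by rw [huc, pair_comm], fun h7 => hpp h7.symm, h.2, h.1⟩ hpt k hkK
          hkt ?_
        rw [disjoint_left]
        exact hfr
      · have e7 := exc_le H hL eq (mem_uc.1 r3).le (by omega)
        have := r6 p' r4 h.2 r5
        omega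

/-- the count of the far and single elements -/
theorem card_extra (H : Gr P r) (hκ : Split (i + 1) κ) (hq : NoQ P (i + 2)) (hL : AdmL i e)
    {T B : Finset ι} (hT : ∀ a ∈ T, Tou i κ e a) (hB : ∀ t ∈ B, ∃ q, QB i κ e t q) :
    2 * T.card + B.card ≤ 2 * (DxD i e).card := by
  classical
  have hex : ∀ a ∈ T, ∃ x, x ∈ DxD i e ∧ Rtd i κ e a x := by
    intro a ha
    obtain ⟨x, h1, h2⟩ := Rtd_ex H hκ hL (hT a ha)
    exact ⟨x, h1, h2⟩
  rcases isEmpty_or_nonempty P with hP | hP
  · have hT0 : T = ∅ := by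
      rw [Finset.eq_empty_iff_forall_notMem]
      intro a ha
      obtain ⟨x, -⟩ := hex a ha
      exact hP.elim x
    have hB0 : B = ∅ := by
      rw [Finset.eq_empty_iff_forall_notMem]
      intro a ha
      obtain ⟨x, -⟩ := hB a ha
      exact hP.elim x
    rw [hT0, hB0]
    simp
  obtain ⟨f, hf⟩ : ∃ f : ι → P, ∀ a ∈ T, f a ∈ DxD i e ∧ Rtd i κ e a (f a) := by
    refine ⟨fun a => if h : a ∈ T then (hex a h).choose else hP.some, ?_⟩
    intro a ha
    simp only [dif_pos ha]
    exact (hex a ha).choose_spec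
  obtain ⟨g, hgB⟩ : ∃ g : ι → P, ∀ t ∈ B, QB i κ e t (g t) := by
    refine ⟨fun a => if h : a ∈ B then (hB a h).choose else hP.some, ?_⟩
    intro a ha
    simp only [dif_pos ha]
    exact (hB a ha).choose_spec
  have h1 : (T.image f).card = T.card := by
    apply Finset.card_image_of_injOn
    intro a ha b hb hab
    have h2 := (hf a ha).2
    rw [hab] at h2
    exact Rtd_inj H hκ hq hL h2 (hf b hb).2
  have h2 : B.card ≤ 2 * (B.image g).card := by
    apply Finset.card_le_mul_card_image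
    intro q hq'
    have h3 : B.filter (fun t => g t = q) ⊆ (uc q).image κ := by
      intro t ht
      rw [mem_filter] at ht
      obtain ⟨-, -, p, hp, hpt⟩ := hgB t ht.1
      rw [ht.2] at hp
      rw [mem_image]
      exact ⟨p, hp, hpt⟩
    exact (card_le_card h3).trans (card_image_le.trans (uc_card_le H q))
  have h3 : Disjoint (T.image f) (B.image g) := by
    rw [disjoint_left]
    intro x hx hx'
    rw [mem_image] at hx hx'
    obtain ⟨a, ha, rfl⟩ := hx
    obtain ⟨b, hb, hab⟩ := hx'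
    have h4 := (hgB b hb).2.1 a
    rw [hab] at h4
    exact h4 (hf a ha).2
  have h4 : (T.image f ∪ B.image g).card ≤ (DxD i e).card := by
    apply card_le_card
    intro x hx
    rcases mem_union.1 hx with h | h
    · rw [mem_image] at h
      obtain ⟨a, ha, rfl⟩ := h
      exact (hf a ha).1
    · rw [mem_image] at h
      obtain ⟨a, ha, rfl⟩ := h
      exact (hgB a ha).1
  rw [card_union_of_disjoint h3, h1] at h4
  omega

/-- the sites of the low and of the high side which are full -/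
def FulL (i : ℕ) (e : P → ℕ) (XL : Finset P) : Prop :=
  ∀ x ∈ XL, lev x = i ∧ 1 ≤ e x ∧ (∃ y, y ∈ dc x) ∧
    ∀ y ∈ dc x, y ∈ bL i e ∧ ∃ z ∈ dc y, 1 ≤ e z

/-- the full sites of the upper side -/
def FulU (i : ℕ) (e : P → ℕ) (XU : Finset P) : Prop :=
  ∀ x ∈ XU, lev x = i ∧ 1 ≤ e x ∧ (∃ y, y ∈ uc x) ∧
    ∀ y ∈ uc x, y ∈ bU i e ∧ ∃ z ∈ uc y, 1 ≤ e z

/-- the charge of the label `a` is at most `C` -/
def Cap (i : ℕ) (κ : P → ι) (K : Finset P) (e : P → ℕ) (a : ι) (C : ℕ) : Prop :=
  ∀ XL XU : Finset P, FulL i e XL → FulU i e XU →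
    ((KB i K e).filter (fun x => κ x = a)).card + (XL.filter (fun x => κ x = a)).card +
      (XU.filter (fun x => κ x = a)).card ≤ 2 * ∑ x ∈ (lv P i).filter (fun x => κ x = a), e x + C

lemma lab_sum {X U : Finset P} {a : ι} (hX : ∀ x ∈ X, lev x = i ∧ 1 ≤ e x)
    (hU : ∀ x ∈ U, (lev x = i ∧ 1 ≤ e x) ∧ κ x = a) (hd : Disjoint X U) :
    (X.filter (fun x => κ x = a)).card + U.card ≤
      ∑ x ∈ (lv P i).filter (fun x => κ x = a), e x := by
  classical
  have hd' : Disjoint (X.filter (fun x => κ x = a)) U :=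
    disjoint_of_subset_left (filter_subset _ _) hd
  rw [← card_union_of_disjoint hd', Finset.card_eq_sum_ones]
  have h1 : ∀ x ∈ X.filter (fun x => κ x = a) ∪ U, (lev x = i ∧ 1 ≤ e x) ∧ κ x = a := by
    intro x hx
    rcases mem_union.1 hx with h | h
    · rw [mem_filter] at h
      exact ⟨hX x h.1, h.2⟩
    · exact hU x h
  refine le_trans (Finset.sum_le_sum (g := fun x => e x) fun x hx => (h1 x hx).1.2) ?_
  exact Finset.sum_le_sum_of_subset fun x hx =>
    mem_filter.2 ⟨mem_lv.2 (h1 x hx).1.1, (h1 x hx).2⟩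

/-- the number of the elements of `K` is a bound of the charge -/
lemma cap_card {a : ι} {C : ℕ} (hC : (K.filter (fun x => κ x = a)).card ≤ C) :
    Cap i κ K e a C := by
  classical
  intro XL XU hXL hXU
  have e1 := lab_sum (κ := κ) (a := a) (U := ∅) (fun x hx => ⟨(hXL x hx).1, (hXL x hx).2.1⟩)
    (fun x hx => absurd hx (notMem_empty x)) (disjoint_empty_right XL)
  have e2 := lab_sum (κ := κ) (a := a) (U := ∅) (fun x hx => ⟨(hXU x hx).1, (hXU x hx).2.1⟩)
    (fun x hx => absurd hx (notMem_empty x)) (disjoint_empty_right XU)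
  have e3 : ((KB i K e).filter (fun x => κ x = a)).card ≤
      (K.filter (fun x => κ x = a)).card := by
    refine card_le_card fun x hx => ?_
    rw [mem_filter] at hx ⊢
    exact ⟨(mem_KB.1 hx.1).1, hx.2⟩
  rw [card_empty] at e1 e2
  omega

/-- two stars with two elements each: the charge is at most two -/
theorem cap_two (H : Gr P r) (hir : i ≤ r) (hq : NoQ P (i + 2))
    (hg : ∀ m, m + 1 = i → Good P m) (hκ : Split (i + 1) κ)
    (hd : Disjoint (AL i e) (AU i e)) {a : ι} {k1 k2 k3 k4 c1 c2 : P}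
    (hk : ∀ k ∈ K, κ k = a → k = k1 ∨ k = k2 ∨ k = k3 ∨ k = k4)
    (h1 : c1 ∈ ns i k1) (h2 : c1 ∈ ns i k2) (h3 : c2 ∈ ns i k3) (h4 : c2 ∈ ns i k4)
    (hc : c1 ≠ c2) (l12 : lev k1 ≠ lev k2) (l34 : lev k3 ≠ lev k4) : Cap i κ K e a 2 := by
  classical
  intro XL XU hXL hXU
  obtain ⟨Q, hQ⟩ : ∃ Q : Finset P, Q = (KB i K e).filter (fun x => κ x = a) := ⟨_, rfl⟩
  have mQ : ∀ {k}, k ∈ Q → k ∈ KB i K e ∧ κ k = a ∧ k ∈ bN i e := by
    intro k hk
    rw [hQ, mem_filter] at hk
    refine ⟨hk.1, hk.2, ?_⟩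
    have := (mem_KB.1 hk.1).2
    unfold bN
    rcases this with h | h
    · exact mem_union_left _ h.1
    · exact mem_union_right _ h.1
  rw [← hQ]
  -- a common site of two elements of different levels
  have key : ∀ k k' c, k ∈ Q → k' ∈ Q → lev k ≠ lev k' → c ∈ ns i k → c ∈ ns i k' →
      ((lev c = i ∧ 1 ≤ e c) ∧ κ c = a) ∧ c ∉ XL ∧ c ∉ XU := by
    intro k k' c hk hk' hl hck hck'
    obtain ⟨a1, a2, a3⟩ := mQ hk
    obtain ⟨b1, b2, b3⟩ := mQ hk'
    have e0 := bad_disj H hir hq hg hd a3 b3 (fun h => hl (by rw [h])) hck hck'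
    refine ⟨⟨⟨(bN_data H hir hq hg a3).2.2.2 c hck, by omega⟩, by
      rw [ns_lab H hir hq hg hκ a3 hck, a2]⟩, ?_, ?_⟩
    · intro hcX
      obtain ⟨-, -, -, hX⟩ := hXL c hcX
      have low : ∀ u, u ∈ KB i K e → c ∈ ns i u → u ∉ bL i e := by
        intro u hu hcu huL
        obtain ⟨-, -, -, u4, -, -⟩ := bL_data H hir hq hg huL
        rw [u4] at hcu
        obtain ⟨-, z, hz, hz1⟩ := hX u (mem_dc.2 (mem_uc.1 hcu))
        rcases (mem_KB.1 hu).2 with ⟨-, h6⟩ | ⟨h6, -⟩
        · have := h6 z hz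
          omega
        · have h7 := (bU_data H hir hq hg h6).1
          have h8 := (bL_data H hir hq hg huL).1
          omega
      have up : ∀ u, u ∈ KB i K e → c ∈ ns i u → lev u + 1 = i := by
        intro u hu hcu
        rcases (mem_KB.1 hu).2 with ⟨h6, -⟩ | ⟨h6, -⟩
        · exact absurd h6 (low u hu hcu)
        · exact (bU_data H hir hq hg h6).1
      have u1 := up k a1 hck
      have u2 := up k' b1 hck'
      omega
    · intro hcX
      obtain ⟨-, -, -, hX⟩ := hXU c hcX
      have hi : ∀ u, u ∈ KB i K e → c ∈ ns i u → u ∉ bU i e := by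
        intro u hu hcu huU
        obtain ⟨-, -, -, u4, -, -⟩ := bU_data H hir hq hg huU
        rw [u4] at hcu
        obtain ⟨-, z, hz, hz1⟩ := hX u (mem_uc.2 (mem_dc.1 hcu))
        rcases (mem_KB.1 hu).2 with ⟨h6, -⟩ | ⟨-, h6⟩
        · have h7 := (bU_data H hir hq hg huU).1
          have h8 := (bL_data H hir hq hg h6).1
          omega
        · have := h6 z hz
          omega
      have lo : ∀ u, u ∈ KB i K e → c ∈ ns i u → lev u = i + 1 := by
        intro u hu hcu
        rcases (mem_KB.1 hu).2 with ⟨h6, -⟩ | ⟨h6, -⟩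
        · exact (bL_data H hir hq hg h6).1
        · exact absurd h6 (hi u hu hcu)
      have u1 := lo k a1 hck
      have u2 := lo k' b1 hck'
      omega
  obtain ⟨U, hUd⟩ : ∃ U : Finset P, U = (if k1 ∈ Q ∧ k2 ∈ Q then {c1} else ∅) ∪
      (if k3 ∈ Q ∧ k4 ∈ Q then {c2} else ∅) := ⟨_, rfl⟩
  have hU : ∀ x ∈ U, ((lev x = i ∧ 1 ≤ e x) ∧ κ x = a) ∧ x ∉ XL ∧ x ∉ XU := by
    intro x hx
    rw [hUd, mem_union] at hx
    rcases hx with hx | hx
    · split_ifs at hx with h
      · rw [mem_singleton] at hx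
        rw [hx]
        exact key k1 k2 c1 h.1 h.2 l12 h1 h2
      · exact absurd hx (notMem_empty x)
    · split_ifs at hx with h
      · rw [mem_singleton] at hx
        rw [hx]
        exact key k3 k4 c2 h.1 h.2 l34 h3 h4
      · exact absurd hx (notMem_empty x)
  have hQc : Q.card ≤ 2 + U.card := by
    have hsub : Q ⊆ (Q.filter (fun k => k = k1 ∨ k = k2)) ∪
        (Q.filter (fun k => k = k3 ∨ k = k4)) := by
      intro k hkQ
      rw [mem_union, mem_filter, mem_filter]
      rcases hk k (mem_KB.1 (mQ hkQ).1).1 (mQ hkQ).2.1 with h | h | h | h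
      · exact Or.inl ⟨hkQ, Or.inl h⟩
      · exact Or.inl ⟨hkQ, Or.inr h⟩
      · exact Or.inr ⟨hkQ, Or.inl h⟩
      · exact Or.inr ⟨hkQ, Or.inr h⟩
    have h5 := (card_le_card hsub).trans (card_union_le _ _)
    have two : ∀ u v : P, (Q.filter (fun k => k = u ∨ k = v)).card ≤
        (if u ∈ Q ∧ v ∈ Q then 2 else 1) := by
      intro u v
      split_ifs with h
      · refine le_trans (card_le_card (t := {u, v}) ?_) card_le_two
        intro k hk
        rw [mem_filter] at hk
        rw [mem_insert, mem_singleton]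
        exact hk.2
      · by_cases hu : u ∈ Q
        · have hv : v ∉ Q := fun hv => h ⟨hu, hv⟩
          refine le_trans (card_le_card (t := {u}) ?_) (card_singleton u).le
          intro k hk
          rw [mem_filter] at hk
          rw [mem_singleton]
          rcases hk.2 with h6 | h6
          · exact h6
          · rw [h6] at hk
            exact absurd hk.1 hv
        · refine le_trans (card_le_card (t := {v}) ?_) (card_singleton v).le
          intro k hk
          rw [mem_filter] at hk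
          rw [mem_singleton]
          rcases hk.2 with h6 | h6
          · rw [h6] at hk
            exact absurd hk.1 hu
          · exact h6
    have t1 := two k1 k2
    have t2 := two k3 k4
    have h6 : U.card = (if k1 ∈ Q ∧ k2 ∈ Q then 1 else 0) + (if k3 ∈ Q ∧ k4 ∈ Q then 1 else 0) := by
      rw [hUd, card_union_of_disjoint]
      · split_ifs <;> simp
      · rw [disjoint_left]
        intro x hx hx'
        split_ifs at hx with h7
        · split_ifs at hx' with h8
          · rw [mem_singleton] at hx hx'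
            exact hc (hx.symm.trans hx')
          · exact absurd hx' (notMem_empty x)
        · exact absurd hx (notMem_empty x)
    rw [h6]
    split_ifs at t1 t2 ⊢ <;> omega
  have e1 := lab_sum (κ := κ) (a := a) (U := U) (fun x hx => ⟨(hXL x hx).1, (hXL x hx).2.1⟩)
    (fun x hx => (hU x hx).1) (by
      rw [disjoint_left]
      intro x hx hx'
      exact (hU x hx').2.1 hx)
  have e2 := lab_sum (κ := κ) (a := a) (U := U) (fun x hx => ⟨(hXU x hx).1, (hXU x hx).2.1⟩)
    (fun x hx => (hU x hx).1) (by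
      rw [disjoint_left]
      intro x hx hx'
      exact (hU x hx').2.2 hx)
  omega

/-- THE INEQUALITY with two star labels (`P6`) and light labels with three sites (`S0`) -/
theorem cross_cnt (H : Gr P r) (hir : i ≤ r) (hq : NoQ P (i + 2))
    (hg : ∀ m, m + 1 = i → Good P m) (hκ : Split (i + 1) κ) (hM : Mat P i K psi)
    {T S0 P6 : Finset ι} {C : ℕ}
    (hK : ∀ a ∈ T, a ∉ P6 → Star i (cext (i + 1) κ a) K)
    (hC : ∀ a ∈ T, a ∈ P6 → Cap i κ K e a C)
    (h3 : ∀ t ∈ S0, (st i (cext (i + 1) κ t)).card ≤ 3)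
    (hl : ∀ t ∈ S0, ∀ z y v, SD i κ z y v → κ v = t → ∀ k ∈ K, κ k = t →
      ¬ Disjoint (ns i k) (uc v))
    (h06 : Disjoint S0 P6) (hT : ∀ a ∈ T, Tou i κ e a)
    (hs : ∀ x, lev x ≤ i + 1 → 1 ≤ e x → κ x ∈ T)
    (hL : AdmL i e) (hU : AdmU i e) (hd : Disjoint (AL i e) (AU i e)) :
    6 * ((AL i e).card + (AU i e).card) + (S0 ∩ T).card ≤
      4 * (∑ x, e x) + 6 * (pL i e + pU i e) + 6 * (SK i K psi e).card +
        2 * C * (P6 ∩ T).card := by
  classical
  obtain ⟨XL, XU, hXL, hXU, h1⟩ := main_K hM H hir hq hg hL hU hd (δ := 0) (Or.inl rfl)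
  obtain ⟨F, hF⟩ : ∃ F : ι → ℕ, ∀ a, F a = ((KB i K e).filter (fun x => κ x = a)).card +
      (XL.filter (fun x => κ x = a)).card + (XU.filter (fun x => κ x = a)).card := ⟨_, fun _ => rfl⟩
  obtain ⟨s, hsd⟩ : ∃ s : ι → ℕ, ∀ a, s a = ∑ x ∈ (lv P i).filter (fun x => κ x = a), e x :=
    ⟨_, fun _ => rfl⟩
  -- the good labels
  obtain ⟨G, hG⟩ : ∃ G : Finset ι, ∀ t, t ∈ G ↔ (t ∈ S0 ∧ t ∈ T) ∧ F t ≤ 2 * s t :=
    ⟨(S0 ∩ T).filter (fun t => F t ≤ 2 * s t), fun t => by rw [mem_filter, mem_inter]⟩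
  obtain ⟨B, hB⟩ : ∃ B : Finset ι, ∀ t, t ∈ B ↔ (t ∈ S0 ∧ t ∈ T) ∧ ¬ F t ≤ 2 * s t :=
    ⟨(S0 ∩ T).filter (fun t => ¬ F t ≤ 2 * s t), fun t => by rw [mem_filter, mem_inter]⟩
  have hGB : (S0 ∩ T).card ≤ G.card + B.card := by
    refine le_trans (card_le_card ?_) (card_union_le G B)
    intro t ht
    rw [mem_inter] at ht
    rw [mem_union, hG, hB]
    by_cases h : F t ≤ 2 * s t
    · exact Or.inl ⟨ht, h⟩
    · exact Or.inr ⟨ht, h⟩
  have hGT : G ⊆ T := fun t ht => ((hG t).1 ht).1.2
  have hBq : ∀ t ∈ B, ∃ q, QB i κ e t q := by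
    intro t ht
    obtain ⟨⟨t1, t2⟩, t3⟩ := (hB t).1 ht
    have h6 : t ∉ P6 := fun h => disjoint_left.1 h06 t1 h
    rcases light_lab H hir hq hg hκ hM hL (hK t t2 h6) (h3 t t1) (hl t t1) hd hXL hXU
      (hT t t2) with h | h
    · rw [hF, hsd] at t3
      exact absurd h t3
    · exact h
  have hcnt := card_extra H hκ hq hL hT hBq
  -- every label
  have hlab : ∀ a ∈ T, F a + (if a ∈ G then 1 else 0) ≤
      2 * s a + (1 + (if a ∈ P6 then C else 0)) := by
    intro a ha
    by_cases h6 : a ∈ P6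
    · have hnG : a ∉ G := fun h => disjoint_left.1 h06 ((hG a).1 h).1.1 h6
      rw [if_pos h6, if_neg hnG]
      have e4 := hC a ha h6 XL XU hXL hXU
      rw [← hF, ← hsd] at e4
      omega
    · rw [if_neg h6]
      have e1 := star_loc (e := e) H hir hq hg hκ hM (hK a ha h6) hd hXL hXU
      split_ifs with h
      · have := ((hG a).1 h).2
        omega
      · rw [hF, hsd]
        omega
  have h4 := Finset.sum_le_sum hlab
  rw [Finset.sum_add_distrib, Finset.sum_add_distrib, Finset.sum_add_distrib,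
    ← Finset.mul_sum] at h4
  have h5 : ∑ a ∈ T, (if a ∈ G then 1 else 0) = G.card := by
    rw [Finset.sum_ite_mem, Finset.inter_eq_right.2 hGT, Finset.sum_const, smul_eq_mul, mul_one]
  have h6 : ∑ a ∈ T, (if a ∈ P6 then C else 0) = (P6 ∩ T).card * C := by
    rw [Finset.sum_ite_mem, Finset.sum_const, smul_eq_mul, inter_comm]
  rw [h5, h6, Finset.sum_const, smul_eq_mul, mul_one] at h4
  have hfib : ∀ S : Finset P, (∀ x ∈ S, κ x ∈ T) →
      ∑ a ∈ T, (S.filter (fun x => κ x = a)).card = S.card := by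
    intro S hS
    exact (Finset.card_eq_sum_card_fiberwise hS).symm
  have hKBT : ∀ x ∈ KB i K e, κ x ∈ T := by
    intro k hk
    rw [mem_KB] at hk
    have h4 : k ∈ bN i e := by
      unfold bN
      rcases hk.2 with h | h
      · exact mem_union_left _ h.1
      · exact mem_union_right _ h.1
    exact hs k (lev_bN H hir hq hg h4) (by have := (bN_data H hir hq hg h4).2.1; omega)
  have hXLT : ∀ x ∈ XL, κ x ∈ T := by
    intro x hx
    obtain ⟨l1, l2, -, -⟩ := hXL x hx
    exact hs x (by omega) l2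
  have hXUT : ∀ x ∈ XU, κ x ∈ T := by
    intro x hx
    obtain ⟨l1, l2, -, -⟩ := hXU x hx
    exact hs x (by omega) l2
  have hFs : ∑ a ∈ T, F a = (KB i K e).card + XL.card + XU.card := by
    rw [Finset.sum_congr rfl (fun a _ => hF a), Finset.sum_add_distrib, Finset.sum_add_distrib,
      hfib _ hKBT, hfib _ hXLT, hfib _ hXUT]
  have hss : ∑ a ∈ T, s a ≤ ∑ x ∈ lv P i, e x := by
    rw [Finset.sum_congr rfl (fun a _ => hsd a), ← Finset.sum_biUnion]
    · refine Finset.sum_le_sum_of_subset ?_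
      intro x hx
      rw [mem_biUnion] at hx
      obtain ⟨a, -, hx⟩ := hx
      exact (mem_filter.1 hx).1
    · intro a _ b _ hab
      rw [Function.onFun, disjoint_left]
      intro x hx hx'
      exact hab ((mem_filter.1 hx).2.symm.trans (mem_filter.1 hx').2)
  have h7 : ∑ x, e x = ∑ x ∈ lS P i, e x + ∑ x ∈ uS P i, e x + ∑ x ∈ lv P i, e x := by
    have h6 : (univ : Finset P) = (lS P i ∪ uS P i) ∪ lv P i := by
      ext x
      simp only [mem_univ, mem_union, mem_lS, mem_uS, mem_lv, true_iff]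
      omega
    rw [h6, Finset.sum_union, Finset.sum_union]
    · rw [disjoint_left]
      intro x hx hx'
      rw [mem_lS] at hx
      rw [mem_uS] at hx'
      omega
    · rw [disjoint_left]
      intro x hx hx'
      rw [mem_union, mem_lS, mem_uS] at hx
      rw [mem_lv] at hx'
      omega
  have h8 := ord_le_s H hir hq hg hL hU (D := DxD i e) (fun x hx => mem_DxD.1 hx)
  rw [hFs] at h4
  have h9 : 2 * C * (P6 ∩ T).card = 2 * ((P6 ∩ T).card * C) := by ring
  rw [h9]
  omega

/-- the inequality for a configuration of one label -/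
theorem own_cnt (H : Gr P r) (hir : i ≤ r) (hq : NoQ P (i + 2))
    (hg : ∀ m, m + 1 = i → Good P m) (hκ : Split (i + 1) κ) (hM : Mat P i K psi) {a : ι} {C : ℕ}
    (hC : Cap i κ K e a C) (hs : ∀ x, lev x ≤ i + 1 → 1 ≤ e x → κ x = a)
    (hL : AdmL i e) (hU : AdmU i e) (hd : Disjoint (AL i e) (AU i e)) :
    6 * ((AL i e).card + (AU i e).card) ≤
      4 * (∑ x, e x) + 6 * (pL i e + pU i e) + 6 * (SK i K psi e).card + 2 * C := by
  classical
  obtain ⟨XL, XU, hXL, hXU, h1⟩ := main_K hM H hir hq hg hL hU hd (δ := 0) (Or.inl rfl)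
  have h2 := hC XL XU hXL hXU
  have h3 : (KB i K e).filter (fun x => κ x = a) = KB i K e := by
    rw [filter_true_of_mem]
    intro k hk
    rw [mem_KB] at hk
    have h4 : k ∈ bN i e := by
      unfold bN
      rcases hk.2 with h | h
      · exact mem_union_left _ h.1
      · exact mem_union_right _ h.1
    exact hs k (lev_bN H hir hq hg h4) (by have := (bN_data H hir hq hg h4).2.1; omega)
  have h4 : XL.filter (fun x => κ x = a) = XL := by
    rw [filter_true_of_mem]
    intro x hx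
    obtain ⟨l1, l2, -, -⟩ := hXL x hx
    exact hs x (by omega) l2
  have h5 : XU.filter (fun x => κ x = a) = XU := by
    rw [filter_true_of_mem]
    intro x hx
    obtain ⟨l1, l2, -, -⟩ := hXU x hx
    exact hs x (by omega) l2
  rw [h3, h4, h5] at h2
  have h6 : ∑ x ∈ (lv P i).filter (fun x => κ x = a), e x ≤ ∑ x ∈ lv P i, e x :=
    Finset.sum_le_sum_of_subset (filter_subset _ _)
  have h7 : ∑ x, e x = ∑ x ∈ lS P i, e x + ∑ x ∈ uS P i, e x + ∑ x ∈ lv P i, e x := by
    have h6 : (univ : Finset P) = (lS P i ∪ uS P i) ∪ lv P i := by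
      ext x
      simp only [mem_univ, mem_union, mem_lS, mem_uS, mem_lv, true_iff]
      omega
    rw [h6, Finset.sum_union, Finset.sum_union]
    · rw [disjoint_left]
      intro x hx hx'
      rw [mem_lS] at hx
      rw [mem_uS] at hx'
      omega
    · rw [disjoint_left]
      intro x hx hx'
      rw [mem_union, mem_lS, mem_uS] at hx
      rw [mem_lv] at hx'
      omega
  have h8 := ord_le_s H hir hq hg hL hU (D := ∅) (fun x hx => absurd hx (notMem_empty x))
  rw [card_empty] at h8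
  omega

end Pool.Agent.GaussPoset.Win.K2
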