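import Pool.Agent.W_448cl_h64.CnB

/-!
The counting theorem at the window j (MP_448cb3_co, case B): a component with three sites is light
at a single element when the signed number of the disjoint unmatched elements is zero.
-/

namespace Pool.Agent.GaussPoset.EK

set_option linter.unusedSectionVars false

open Finset Win St Polynomial Wd

universe u

variable {P : Type u} [Fintype P] [PartialOrder P] [DecidableEq P] {r i : ℕ}

variable {ι : Type*} [DecidableEq ι] {κ : P → ι}

variable {K : Finset P} {psi : P → P}

/-- three sites: the signed number decides -/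
theorem Red.own_light (R : Red P i K psi) (H : Gr P r) (hκ : Split (i + 1) κ) {t : ι}
    (h3 : (st i (cext (i + 1) κ t)).card ≤ 3) {v : P} (hv : lev v = i + 1)
    (hv1 : (uc v).card = 1) (hvt : κ v = t) (hs : sa i κ K (uc v) t = 0) :
    ∀ k ∈ K, κ k = t → ¬ Disjoint (ns i k) (uc v) := by
  classical
  intro k hk hkt hdis
  obtain ⟨x, hx⟩ := card_eq_one.1 hv1
  have hxu : x ∈ uc v := by rw [hx]; exact mem_singleton_self _
  have hxl : lev x = i := by
    have := lev_uc H hxu
    omega
  have hxt : κ x = t := by
    rw [← hvt]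
    exact (hκ (mem_uc.1 hxu) (by omega)).symm
  have hxs : x ∈ st i (cext (i + 1) κ t) := by
    rw [mem_st]
    exact ⟨mem_cext_of_le hκ (by omega) hxt, hxl⟩
  have hc2 : ((st i (cext (i + 1) κ t)).erase x).card ≤ 2 := by
    have := card_erase_add_one hxs
    omega
  have key : ∀ k' ∈ K, κ k' = t → Disjoint (ns i k') (uc v) →
      ns i k' = (st i (cext (i + 1) κ t)).erase x := by
    intro k' hk' hkt' hd'
    refine Finset.eq_of_subset_of_card_le ?_ ?_
    · intro y hy
      have hy2 := kap_ns' H hκ (R.sub hk') hy
      rw [mem_erase, mem_st]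
      refine ⟨?_, mem_cext_of_le hκ (by omega) (hy2.1.trans hkt'), hy2.2⟩
      rintro rfl
      exact disjoint_left.1 hd' hy hxu
    · rw [ns_card (R.sub hk')]
      exact hc2
  have hkey := key k hk hkt hdis
  have h5 : K.filter (fun y => κ y = t ∧ Disjoint (ns i y) (uc v)) =
      K.filter (fun y => ns i y = ns i k) := by
    ext y
    rw [mem_filter, mem_filter]
    constructor
    · rintro ⟨h1, h2, h4⟩
      exact ⟨h1, by rw [key y h1 h2 h4, hkey]⟩
    · rintro ⟨h1, h2⟩
      refine ⟨h1, ?_, ?_⟩
      · obtain ⟨u, hu⟩ : (ns i y).Nonempty := by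
          rw [← card_pos, ns_card (R.sub h1)]
          omega
        have a1 := (kap_ns' H hκ (R.sub h1) hu).1
        rw [h2] at hu
        have a2 := (kap_ns' H hκ (R.sub hk) hu).1
        rw [← a1, a2, hkt]
      · rw [h2]
        exact hdis
  rw [sa_eq, h5, fib_K R.mat R.sub] at hs
  exact R.Df_ne hk hs

end Pool.Agent.GaussPoset.EK
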