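import Pool.Agent.W_448cl_h64.CmH

/-!
MP_448cb3_co, G2, step 0 at the level 13: the row with the pattern [DL], the doubled end closed: the core of
the leaf `HClosedT`.  helper64.
-/

namespace Pool.Agent.GaussPoset.EK

set_option linter.unusedSectionVars false

open Finset Win St Polynomial Wd Win.W4 Win.Rc Win.Pn

universe u

variable {P : Type u} [Fintype P] [PartialOrder P] [DecidableEq P] {r i j : ℕ}

variable {m : ℕ} {x : ℕ → P} {c : ℕ → ℤ} {t : Tops P} {lo hi : ℕ → ℕ} {e : ℕ → ℕ → P}

variable {K : Finset P} {psi : P → P}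

namespace ClDL

variable (F : ClDL P r i t m x c lo hi e)
include F

/-- the component is small -/
theorem small13 : Small (i + 1) (topOf : P → Tops P) t := by
  have hm := F.hm
  rcases F.B.small F.h.g.H F.h.split with h2 | h2
  · exact h2
  · exfalso
    obtain ⟨h3, -, -, -, h4, -⟩ := h2
    rw [F.c2 (m - 2) (by omega) (by omega)] at h4
    norm_num at h4

/-- the functional of the component -/
theorem tt13 (R : Red P (i + 1) K psi) : TT (i + 1) t = W4.Tv (i + 1) (Cx i t) :=
  NJ.TT_small F.h (by have := F.hi1; omega) R F.small13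

/-- the weights `5 W1 + 4 TT` -/
theorem closed13 (R : Red P (i + 1) K psi) (S : Shape (i + 1) lo hi) (ho : (i + 1) % 2 = 1) :
    0 ≤ 5 * Qc i t + 8 * TT (i + 1) t ∨
      (-56 ≤ 5 * Qc i t + 8 * TT (i + 1) t ∧ LJ i K t) := by
  rw [F.tt13 R]
  rcases F.sum13 R S ho with h1 | ⟨h1, h2⟩
  · exact Or.inl h1
  · exact Or.inr ⟨by linarith, h2⟩

end ClDL

end Pool.Agent.GaussPoset.EK
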