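import Pool.Agent.W_448n13_h16.NtB
import Pool.Agent.W_448cl_h64.CnD

/-!
MP_448cb3_co, G2, step 0 at the level 13: THE LEAF `HClosedT`.  helper64.
-/

namespace Pool.Agent.GaussPoset.EK

set_option linter.unusedSectionVars false

open Finset Win St Polynomial Wd Win.W4

universe u

variable {P : Type u} [Fintype P] [PartialOrder P] [DecidableEq P]

/-- THE LEAF of the level 13: [DL], at least four sites, the doubled end closed -/
theorem hclosedt : HClosedT P := by
  intro r i K psi t m x c β lo hi e h13 hC R B C S hm hD hu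
  obtain ⟨hb, c0, c1, c2⟩ := hD
  subst hb
  have F : ClDL P r i t m x c lo hi e := ⟨hC.nj, by omega, B, C, hm, hu, c0, c1, c2⟩
  have hQ : Qt i t = Qc i t := rfl
  rw [NJ.Ut_small hC.nj (by omega) R F.small13, hQ]
  rcases F.closed13 R S (by omega) with h1 | ⟨h1, h2⟩
  · exact Or.inl h1
  · exact Or.inr ⟨h1, h2⟩

end Pool.Agent.GaussPoset.EK
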